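import Pool.Agent.Lib.MP_cdcb37_lc.Defs
import Pool.Agent.Lib.PolyTime.Raw

/-!
# Module statements for MP_cdcb37_lc
-/

namespace Pool.Agent.MP_cdcb37

open Finset

/-- OFF: separation dimension at most two is the existence of a placement. -/
def SpecOff : Prop := ∀ (n : ℕ) (G : SimpleGraph (Fin n)),
  sepDim G ≤ 2 ↔ ∃ X Y : Fin n → ℚ, Place G X Y

/-- ALG: the criterion for the core is decided in polynomial time. -/
def SpecAlg : Prop := ∃ dec : List Bool → Bool, PolyTime.PT dec ∧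
  ∀ w, dec w = true ↔ HTD (core (graphOf w))

/-- SOUND: strong placements give solutions of the linear system. -/
def SpecSound : Prop := ∀ (V : Type) [Fintype V] (G : SimpleGraph V), HasStrong G → HTD G

/-- RED1: a placement of `G` gives a strong placement of the core. -/
def SpecRed1 : Prop := ∀ (V : Type) [Fintype V] [LinearOrder V] (G : SimpleGraph V)
  (X Y : V → ℚ), Place G X Y → HasStrong (core G)

/-- RED2: a strong placement of the core gives a placement of `G`. -/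
def SpecRed2 : Prop := ∀ (V : Type) [Fintype V] [LinearOrder V] (G : SimpleGraph V),
  HasStrong (core G) → ∃ X Y : V → ℚ, Place G X Y

/-- CONN: reduction to connected graphs. -/
def SpecConn : Prop :=
  (∀ (V : Type) [Fintype V] (G : SimpleGraph V), G.Connected → HTD G → HasStrong G) →
    ∀ (V : Type) [Fintype V] (G : SimpleGraph V), HTD G → HasStrong G

/-- 2-connectedness (for at least three vertices). -/
def TwoConn {V : Type} (G : SimpleGraph V) : Prop := ∀ v : V, (G.induce {v}ᶜ).Connected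

/-- AUG: connected graphs satisfying the criterion are spanning subgraphs of 2-connected
graphs satisfying the criterion. -/
def SpecAug : Prop := ∀ (V : Type) [Fintype V] (G : SimpleGraph V), 3 ≤ Fintype.card V →
  G.Connected → HTD G → ∃ G' : SimpleGraph V, G ≤ G' ∧ TwoConn G' ∧ HTD G'

/-- OPEN: some edge lies in at most one triangle. -/
def SpecOpen : Prop := ∀ (V : Type) [Fintype V] (G : SimpleGraph V) (a b : V), G.Adj a b →
  HTD G → ∃ s t, G.Adj s t ∧ ∀ c c', G.Adj s c → G.Adj t c → G.Adj s c' → G.Adj t c' → c = c'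

/-- STN: st-numberings of 2-connected graphs. -/
def SpecStn : Prop := ∀ (V : Type) [Fintype V] (G : SimpleGraph V) (s t : V),
  3 ≤ Fintype.card V → TwoConn G → G.Adj s t →
    ∃ f : V ≃ Fin (Fintype.card V), (∀ v, f s ≤ f v) ∧ (∀ v, f v ≤ f t) ∧
      (∀ v, v ≠ s → ∃ u, f u < f v ∧ G.Adj u v) ∧ (∀ v, v ≠ t → ∃ u, f v < f u ∧ G.Adj v u)

/-- MU: orientation data from a solution of the linear system. -/
def SpecMu : Prop := ∀ (n : ℕ) (G : SimpleGraph (Fin n)) (s t : Fin n), STOrd G s t →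
  (∀ c c', G.Adj s c → G.Adj t c → G.Adj s c' → G.Adj t c' → c = c') → HTD G →
    ∃ μ : UE G → UE G → ZMod 2, Mu G μ

/-- GH: a generalization of the theorem of Ghouila-Houri. `I` is the adjacency of a finite
graph, `R` is a symmetric relation containing the non-adjacency, and `μ` is an orientation of
the graph which is compatible with `R`. Then there is a transitive orientation compatible
with `R`. -/
def SpecGH : Prop := ∀ (E : Type) [Finite E] (I R : E → E → Prop) (μ : E → E → ZMod 2),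
  (∀ e, ¬ I e e) → (∀ e f, I e f → I f e) → (∀ e f, R e f → R f e) →
  (∀ e f, e ≠ f → ¬ I e f → R e f) → (∀ e f, I e f → μ e f + μ f e = 1) →
  (∀ e e' f, R e e' → I e f → I e' f → μ e f = μ e' f) →
    ∃ Q : E → E → Prop, (∀ e f, Q e f → I e f) ∧ (∀ e f, I e f → Q e f ∨ Q f e) ∧
      (∀ e f g, Q e f → Q f g → Q e g) ∧
      (∀ e e' f, R e e' → I e f → I e' f → (Q e f ↔ Q e' f))

/-- EMB: left-right orders give embeddings. -/
def SpecEmb : Prop := ∀ (n : ℕ) (G : SimpleGraph (Fin n)) (s t : Fin n) (Q : UE G → UE G → Prop),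
  3 ≤ n → STOrd G s t → LR G Q → ∃ φ : Equiv.Perm G.Dart, Emb G φ

/-- BIG: the embedding has a nontriangular face. -/
def SpecBig : Prop := ∀ (V : Type) [Fintype V] (G : SimpleGraph V) (φ : Equiv.Perm G.Dart)
  (s t : V), 4 ≤ Fintype.card V → G.Connected → Emb G φ → G.Adj s t →
    (∀ c c', G.Adj s c → G.Adj t c → G.Adj s c' → G.Adj t c' → c = c') →
      ∃ d, φ (φ (φ d)) ≠ d

/-- TRI: filling the nontriangular faces gives a triangulated sphere. -/
def SpecTri : Prop := ∀ (V : Type) [Fintype V] (G : SimpleGraph V) (φ : Equiv.Perm G.Dart),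
  G.Connected → Emb G φ → (∃ d, φ (φ (φ d)) ≠ d) →
    ∃ (W : Type) (_ : Fintype W) (T : SimpleGraph W) (ι : V → W) (z : W), Tri T ∧
      Function.Injective ι ∧ (∀ a b, G.Adj a b → T.Adj (ι a) (ι b)) ∧ ∀ a, ι a ≠ z

/-- CAN: canonical orders. -/
def SpecCan : Prop := ∀ (W : Type) [Fintype W] (T : SimpleGraph W) (z : W), Tri T →
  ∃ ord fr, Canon T ord fr ∧ ∀ x, x ∈ ord ↔ x ≠ z

/-- PLA: canonical orders give strong placements. -/
def SpecPla : Prop := ∀ (W : Type) (T : SimpleGraph W) (ord fr : List W), Canon T ord fr →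
  ∃ X Y : W → ℚ, (∀ a ∈ ord, ∀ b ∈ ord, X a = X b → a = b) ∧
    (∀ a ∈ ord, ∀ b ∈ ord, Y a = Y b → a = b) ∧
    (∀ a ∈ ord, ∀ b ∈ ord, ∀ c ∈ ord, ∀ d ∈ ord, T.Adj a b → T.Adj c d → a ≠ c → a ≠ d →
      b ≠ c → b ≠ d → Sep X a b c d ∨ Sep Y a b c d) ∧
    (∀ a ∈ ord, ∀ b ∈ ord, ∀ q ∈ ord, T.Adj a b → q ≠ a → q ≠ b → Outside X Y a b q)

/-! ## Elementary facts -/

theorem HTD.comap {V V' : Type} {G : SimpleGraph V} {G' : SimpleGraph V'} (f : V' → V)
    (hf : Function.Injective f) (h : ∀ a b, G'.Adj a b → G.Adj (f a) (f b)) (hG : HTD G) :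
    HTD G' := by
  obtain ⟨y, z, hz⟩ := hG
  refine ⟨fun a b => y (f a) (f b), fun e q => z (e.map f) (f q), ?_, ?_, ?_⟩
  · intro p q hpq
    exact hz.tour _ _ (hf.ne hpq)
  · intro a b c d hab hcd h1 h2 h3 h4
    exact hz.dis _ _ _ _ (h _ _ hab) (h _ _ hcd) (hf.ne h1) (hf.ne h2) (hf.ne h3) (hf.ne h4)
  · intro a b c q hab hbc hac h1 h2 h3
    exact hz.tri _ _ _ _ (h _ _ hab) (h _ _ hbc) (h _ _ hac) (hf.ne h1) (hf.ne h2) (hf.ne h3)

theorem HasStrong.comap {V V' : Type} {G : SimpleGraph V} {G' : SimpleGraph V'} (f : V' → V)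
    (hf : Function.Injective f) (h : ∀ a b, G'.Adj a b → G.Adj (f a) (f b)) (hG : HasStrong G) :
    HasStrong G' := by
  obtain ⟨X, Y, hX, hY, hp, ho⟩ := hG
  refine ⟨fun a => X (f a), fun a => Y (f a), hX.comp hf, hY.comp hf, ?_, ?_⟩
  · intro a b c d hab hcd h1 h2 h3 h4
    exact hp _ _ _ _ (h _ _ hab) (h _ _ hcd) (hf.ne h1) (hf.ne h2) (hf.ne h3) (hf.ne h4)
  · intro a b q hab h1 h2
    exact ho _ _ _ (h _ _ hab) (hf.ne h1) (hf.ne h2)

end Pool.Agent.MP_cdcb37
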