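import Pool.Agent.Lib.MP_cdcb37_lc.Gauss
import Pool.Agent.Lib.MP_cdcb37_lc.Spec

/-!
# The criterion is decided in polynomial time (MP_cdcb37_lc, module ALG)
-/

namespace Pool.Agent.MP_cdcb37.Alg

open Pool.Agent.PolyTime

/-! ## The graph -/

/-- adjacency -/
def adjB (w : List Bool) (n i j : ℕ) : Bool :=
  !(decide (i = j)) && ((w[n * i + j]?.getD false) || (w[n * j + i]?.getD false))

/-- leaves -/
def leafB (w : List Bool) (n c : ℕ) : Bool :=
  (List.range n).any fun a => adjB w n c a &&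
    (((List.range n).all fun x => !(adjB w n c x) || decide (x = a)) &&
      ((List.range n).any fun b => !(decide (b = c)) && adjB w n a b))

/-- `b` is adjacent to a vertex different from `a` and `c` -/
def thirdB (w : List Bool) (n a c b : ℕ) : Bool :=
  (List.range n).any fun x => !(decide (x = a)) && (!(decide (x = c)) && adjB w n b x)

/-- all neighbours of `c` are `a` or `b` -/
def onlyB (w : List Bool) (n a b c : ℕ) : Bool :=
  (List.range n).all fun x => !(adjB w n c x) || (decide (x = a) || decide (x = b))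

/-- ears -/
def earB (w : List Bool) (n c : ℕ) : Bool :=
  (List.range n).any fun a => (List.range n).any fun b =>
    adjB w n c a && (adjB w n c b && (adjB w n a b && (onlyB w n a b c &&
      ((decide (c < a) || thirdB w n b c a) && (decide (c < b) || thirdB w n a c b)))))

/-- adjacency in the core -/
def coreB (w : List Bool) (n a b : ℕ) : Bool :=
  adjB w n a b && (!(leafB w n a || earB w n a) && !(leafB w n b || earB w n b))

theorem any_range (n : ℕ) (f : ℕ → Bool) :
    (List.range n).any f = true ↔ ∃ a : Fin n, f a = true := by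
  rw [List.any_eq_true]
  constructor
  · rintro ⟨a, ha, h⟩
    exact ⟨⟨a, List.mem_range.1 ha⟩, h⟩
  · rintro ⟨a, h⟩
    exact ⟨a, List.mem_range.2 a.2, h⟩

theorem all_range (n : ℕ) (f : ℕ → Bool) :
    (List.range n).all f = true ↔ ∀ a : Fin n, f a = true := by
  rw [List.all_eq_true]
  constructor
  · intro h a
    exact h a (List.mem_range.2 a.2)
  · intro h a ha
    exact h ⟨a, List.mem_range.1 ha⟩

theorem adjB_iff (w : List Bool) (i j : Fin (Nat.sqrt w.length)) :
    adjB w (Nat.sqrt w.length) i j = true ↔ (graphOf w).Adj i j := by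
  simp only [adjB, graphOf, Bool.and_eq_true, Bool.not_eq_true', decide_eq_false_iff_not,
    Bool.or_eq_true, ne_eq, Fin.ext_iff]

theorem leafB_iff (w : List Bool) (c : Fin (Nat.sqrt w.length)) :
    leafB w (Nat.sqrt w.length) c = true ↔ Leaf (graphOf w) c := by
  unfold leafB Leaf
  rw [any_range]
  refine exists_congr fun a => ?_
  rw [Bool.and_eq_true, adjB_iff, Bool.and_eq_true, all_range, any_range]
  refine and_congr_right fun _ => and_congr (forall_congr' fun x => ?_) (exists_congr fun b => ?_)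
  · rw [Bool.or_eq_true, Bool.not_eq_true', decide_eq_true_iff, ← Fin.ext_iff,
      ← Bool.not_eq_true, adjB_iff]
    tauto
  · rw [Bool.and_eq_true, Bool.not_eq_true', decide_eq_false_iff_not, ← Fin.ext_iff, adjB_iff]

theorem thirdB_iff (w : List Bool) (a c b : Fin (Nat.sqrt w.length)) :
    thirdB w (Nat.sqrt w.length) a c b = true ↔
      ∃ x, x ≠ a ∧ x ≠ c ∧ (graphOf w).Adj b x := by
  unfold thirdB
  rw [any_range]
  refine exists_congr fun x => ?_
  rw [Bool.and_eq_true, Bool.not_eq_true', decide_eq_false_iff_not, ← Fin.ext_iff,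
    Bool.and_eq_true, Bool.not_eq_true', decide_eq_false_iff_not, ← Fin.ext_iff, adjB_iff]

theorem onlyB_iff (w : List Bool) (a b c : Fin (Nat.sqrt w.length)) :
    onlyB w (Nat.sqrt w.length) a b c = true ↔
      ∀ x, (graphOf w).Adj c x → x = a ∨ x = b := by
  unfold onlyB
  rw [all_range]
  refine forall_congr' fun x => ?_
  rw [Bool.or_eq_true, Bool.not_eq_true', Bool.or_eq_true, decide_eq_true_iff, decide_eq_true_iff,
    ← Fin.ext_iff, ← Fin.ext_iff, ← Bool.not_eq_true, adjB_iff]
  tauto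

theorem earB_iff (w : List Bool) (c : Fin (Nat.sqrt w.length)) :
    earB w (Nat.sqrt w.length) c = true ↔ Ear (graphOf w) c := by
  unfold earB Ear
  rw [any_range]
  refine exists_congr fun a => ?_
  rw [any_range]
  refine exists_congr fun b => ?_
  rw [Bool.and_eq_true, adjB_iff, Bool.and_eq_true, adjB_iff, Bool.and_eq_true, adjB_iff,
    Bool.and_eq_true, onlyB_iff, Bool.and_eq_true, Bool.or_eq_true, Bool.or_eq_true,
    decide_eq_true_iff, decide_eq_true_iff, thirdB_iff, thirdB_iff, Fin.lt_def, Fin.lt_def]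

theorem coreB_iff (w : List Bool) (a b : Fin (Nat.sqrt w.length)) :
    coreB w (Nat.sqrt w.length) a b = true ↔ (core (graphOf w)).Adj a b := by
  unfold coreB core Rem
  rw [Bool.and_eq_true, adjB_iff, Bool.and_eq_true, Bool.not_eq_true', Bool.not_eq_true',
    ← Bool.not_eq_true, ← Bool.not_eq_true, Bool.or_eq_true, Bool.or_eq_true, leafB_iff,
    leafB_iff, earB_iff, earB_iff]

/-! ## The equations -/

/-- the index of the unknown `z s(a, b) q` -/
def ix (n a b q : ℕ) : ℕ := (min a b * n + max a b) * n + q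

/-- the term `y p q` of the fixed tournament -/
def yT (n p q : ℕ) : List ℕ := if p < q then [n * n * n] else []

/-- equations for disjoint edges -/
def disEqs (w : List Bool) (n : ℕ) : List (List ℕ) :=
  (List.range n).flatMap fun a => (List.range n).flatMap fun b =>
    (List.range n).flatMap fun c => (List.range n).flatMap fun d =>
      if coreB w n a b && (coreB w n c d && (!(decide (a = c)) && (!(decide (a = d)) &&
        (!(decide (b = c)) && !(decide (b = d)))))) then
        [ix n a b c :: ix n a b d :: ix n c d a :: ix n c d b ::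
          (yT n a c ++ (yT n a d ++ (yT n b c ++ yT n b d)))]
      else []

/-- equations for triangles -/
def triEqs (w : List Bool) (n : ℕ) : List (List ℕ) :=
  (List.range n).flatMap fun a => (List.range n).flatMap fun b =>
    (List.range n).flatMap fun c => (List.range n).flatMap fun q =>
      if coreB w n a b && (coreB w n b c && (coreB w n a c && (!(decide (q = a)) &&
        (!(decide (q = b)) && !(decide (q = c)))))) then
        [[ix n a b q, ix n b c q, ix n a c q]]
      else []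

theorem mem_flat4 (n : ℕ) (C : ℕ → ℕ → ℕ → ℕ → Bool) (F : ℕ → ℕ → ℕ → ℕ → List ℕ)
    (L : List ℕ) :
    (L ∈ (List.range n).flatMap fun a => (List.range n).flatMap fun b =>
      (List.range n).flatMap fun c => (List.range n).flatMap fun d =>
        if C a b c d then [F a b c d] else []) ↔
      ∃ a b c d : Fin n, C a b c d = true ∧ L = F a b c d := by
  simp only [List.mem_flatMap, List.mem_range]
  constructor
  · rintro ⟨a, ha, b, hb, c, hc, d, hd, h⟩
    by_cases hC : C a b c d = true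
    · rw [if_pos hC, List.mem_singleton] at h
      exact ⟨⟨a, ha⟩, ⟨b, hb⟩, ⟨c, hc⟩, ⟨d, hd⟩, hC, h⟩
    · rw [if_neg hC] at h
      simp at h
  · rintro ⟨a, b, c, d, hC, h⟩
    refine ⟨a, a.2, b, b.2, c, c.2, d, d.2, ?_⟩
    rw [if_pos hC, List.mem_singleton]
    exact h

theorem ix_lt {n a b q : ℕ} (ha : a < n) (hb : b < n) (hq : q < n) : ix n a b q < n * n * n := by
  have h1 : min a b < n := lt_of_le_of_lt (min_le_left _ _) ha
  have h2 : max a b < n := max_lt ha hb
  have h3 : min a b * n + max a b < n * n := by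
    have : (min a b + 1) * n ≤ n * n := Nat.mul_le_mul_right n h1
    have e : (min a b + 1) * n = min a b * n + n := by ring
    omega
  have h4 : (min a b * n + max a b + 1) * n ≤ n * n * n := Nat.mul_le_mul_right n h3
  have e : (min a b * n + max a b + 1) * n = (min a b * n + max a b) * n + n := by ring
  unfold ix
  omega

theorem yT_sum (n p q : ℕ) (x : ℕ → ZMod 2) (hx : x (n * n * n) = 1) :
    ((yT n p q).map x).sum = if p < q then 1 else 0 := by
  unfold yT
  by_cases h : p < q
  · rw [if_pos h, if_pos h]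
    simp [hx]
  · rw [if_neg h, if_neg h]
    simp

/-- the fixed tournament -/
def y0 {n : ℕ} (p q : Fin n) : ZMod 2 := if p < q then 1 else 0

theorem y0_tour {n : ℕ} (p q : Fin n) (h : p ≠ q) : y0 p q + y0 q p = 1 := by
  unfold y0
  rcases lt_or_gt_of_ne h with h1 | h1
  · rw [if_pos h1, if_neg (lt_asymm h1), add_zero]
  · rw [if_neg (lt_asymm h1), if_pos h1, zero_add]

/-- changing the tournament -/
theorem htd_iff {n : ℕ} (G : SimpleGraph (Fin n)) : HTD G ↔ ∃ z, HT G y0 z := by
  constructor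
  · rintro ⟨y, z, h⟩
    have two : (2 : ZMod 2) = 0 := rfl
    have key : ∀ p q : Fin n, p ≠ q → (y p q + y0 p q) * y0 p q + (y q p + y0 q p) * y0 q p
        = y p q + y0 p q := by
      intro p q hpq
      have h1 := h.tour p q hpq
      have h2 := y0_tour p q hpq
      have h3 : y q p + y0 q p = y p q + y0 p q := by
        linear_combination h1 + h2 + (1 - (y p q + y0 p q)) * two
      rw [h3, ← mul_add, h2, mul_one]
    refine ⟨fun e q => z e q + Sym2.lift ⟨fun a b => (y a q + y0 a q) * y0 a q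
      + (y b q + y0 b q) * y0 b q, fun a b => add_comm _ _⟩ e, y0_tour, ?_, ?_⟩
    · intro a b c d hab hcd h1 h2 h3 h4
      have h5 := h.dis a b c d hab hcd h1 h2 h3 h4
      have k1 := key a c h1
      have k2 := key a d h2
      have k3 := key b c h3
      have k4 := key b d h4
      simp only [Sym2.lift_mk]
      linear_combination h5 + k1 + k2 + k3 + k4 + (y a c + y a d + y b c + y b d) * two
    · intro a b c q hab hbc hac h1 h2 h3
      have h5 := h.tri a b c q hab hbc hac h1 h2 h3
      simp only [Sym2.lift_mk]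
      linear_combination h5 + ((y a q + y0 a q) * y0 a q + (y b q + y0 b q) * y0 b q
        + (y c q + y0 c q) * y0 c q) * two
  · rintro ⟨z, h⟩
    exact ⟨y0, z, h⟩

/-- all equations -/
def eqs (w : List Bool) (n : ℕ) : List (List ℕ) := disEqs w n ++ triEqs w n

/-- the decision procedure -/
def dec (w : List Bool) : Bool :=
  solveEqs (Nat.sqrt w.length * Nat.sqrt w.length * Nat.sqrt w.length)
    (eqs w (Nat.sqrt w.length))

theorem yT_le {n p q t : ℕ} (h : t ∈ yT n p q) : t ≤ n * n * n := by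
  unfold yT at h
  split_ifs at h
  · rw [List.mem_singleton] at h
    exact h.le
  · simp at h

theorem mem_disEqs (w : List Bool) (n : ℕ) (L : List ℕ) : L ∈ disEqs w n ↔
    ∃ a b c d : Fin n, coreB w n a b = true ∧ coreB w n c d = true ∧ a ≠ c ∧ a ≠ d ∧ b ≠ c ∧
      b ≠ d ∧ L = ix n a b c :: ix n a b d :: ix n c d a :: ix n c d b ::
          (yT n a c ++ (yT n a d ++ (yT n b c ++ yT n b d))) := by
  unfold disEqs
  rw [mem_flat4]
  refine exists_congr fun a => exists_congr fun b => exists_congr fun c => exists_congr fun d => ?_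
  simp only [Bool.and_eq_true, Bool.not_eq_true', decide_eq_false_iff_not, ← Fin.ext_iff, ne_eq]
  tauto

theorem mem_triEqs (w : List Bool) (n : ℕ) (L : List ℕ) : L ∈ triEqs w n ↔
    ∃ a b c q : Fin n, coreB w n a b = true ∧ coreB w n b c = true ∧ coreB w n a c = true ∧
      q ≠ a ∧ q ≠ b ∧ q ≠ c ∧ L = [ix n a b q, ix n b c q, ix n a c q] := by
  unfold triEqs
  rw [mem_flat4]
  refine exists_congr fun a => exists_congr fun b => exists_congr fun c => exists_congr fun q => ?_
  simp only [Bool.and_eq_true, Bool.not_eq_true', decide_eq_false_iff_not, ← Fin.ext_iff, ne_eq]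
  tauto

theorem eqs_le (w : List Bool) (n : ℕ) : ∀ L ∈ eqs w n, ∀ t ∈ L, t ≤ n * n * n := by
  intro L hL t ht
  rw [eqs, List.mem_append] at hL
  rcases hL with hL | hL
  · rw [mem_disEqs] at hL
    obtain ⟨a, b, c, d, -, -, -, -, -, -, rfl⟩ := hL
    simp only [List.mem_cons, List.mem_append] at ht
    rcases ht with rfl | rfl | rfl | rfl | h | h | h | h
    · exact (ix_lt a.2 b.2 c.2).le
    · exact (ix_lt a.2 b.2 d.2).le
    · exact (ix_lt c.2 d.2 a.2).le
    · exact (ix_lt c.2 d.2 b.2).le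
    · exact yT_le h
    · exact yT_le h
    · exact yT_le h
    · exact yT_le h
  · rw [mem_triEqs] at hL
    obtain ⟨a, b, c, q, -, -, -, -, -, -, rfl⟩ := hL
    simp only [List.mem_cons, List.not_mem_nil, or_false] at ht
    rcases ht with rfl | rfl | rfl
    · exact (ix_lt a.2 b.2 q.2).le
    · exact (ix_lt b.2 c.2 q.2).le
    · exact (ix_lt a.2 c.2 q.2).le

theorem ix_comm (n a b q : ℕ) : ix n a b q = ix n b a q := by
  unfold ix
  rw [min_comm, max_comm]

/-- unknowns as a function of indices -/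
noncomputable def xOf {n : ℕ} (z : Sym2 (Fin n) → Fin n → ZMod 2) (i : ℕ) : ZMod 2 :=
  if i = n * n * n then 1 else
    if h : 0 < n then
      z s(⟨i / n / n % n, Nat.mod_lt _ h⟩, ⟨i / n % n, Nat.mod_lt _ h⟩) ⟨i % n, Nat.mod_lt _ h⟩
    else 0

theorem xOf_ix {n : ℕ} (z : Sym2 (Fin n) → Fin n → ZMod 2) (a b q : Fin n) :
    xOf z (ix n a b q) = z s(a, b) q := by
  have hn : 0 < n := a.pos
  have hne : ix n a b q ≠ n * n * n := (ix_lt a.2 b.2 q.2).ne
  have h1 : min a.1 b.1 < n := lt_of_le_of_lt (min_le_left _ _) a.2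
  have h2 : max a.1 b.1 < n := max_lt a.2 b.2
  have e1 : ix n a b q % n = q := by
    unfold ix
    rw [mul_comm _ n, Nat.mul_add_mod, Nat.mod_eq_of_lt q.2]
  have e2 : ix n a b q / n = min a.1 b.1 * n + max a.1 b.1 := by
    unfold ix
    rw [mul_comm _ n, Nat.mul_add_div hn, Nat.div_eq_of_lt q.2, add_zero]
  have e3 : (min a.1 b.1 * n + max a.1 b.1) % n = max a.1 b.1 := by
    rw [mul_comm _ n, Nat.mul_add_mod, Nat.mod_eq_of_lt h2]
  have e4 : (min a.1 b.1 * n + max a.1 b.1) / n % n = min a.1 b.1 := by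
    rw [mul_comm _ n, Nat.mul_add_div hn, Nat.div_eq_of_lt h2, add_zero, Nat.mod_eq_of_lt h1]
  unfold xOf
  rw [if_neg hne, dif_pos hn]
  have f1 : (⟨ix n a b q % n, Nat.mod_lt _ hn⟩ : Fin n) = q := Fin.ext e1
  have f2 : (⟨ix n a b q / n % n, Nat.mod_lt _ hn⟩ : Fin n) = max a b := by
    apply Fin.ext
    show ix n a b q / n % n = (max a b).1
    rw [e2, e3]
    rcases le_total a b with h | h
    · rw [max_eq_right h, max_eq_right (Fin.le_def.1 h)]
    · rw [max_eq_left h, max_eq_left (Fin.le_def.1 h)]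
  have f3 : (⟨ix n a b q / n / n % n, Nat.mod_lt _ hn⟩ : Fin n) = min a b := by
    apply Fin.ext
    show ix n a b q / n / n % n = (min a b).1
    rw [e2, e4]
    rcases le_total a b with h | h
    · rw [min_eq_left h, min_eq_left (Fin.le_def.1 h)]
    · rw [min_eq_right h, min_eq_right (Fin.le_def.1 h)]
  rw [f1, f2, f3]
  rcases le_total a b with h | h
  · rw [min_eq_left h, max_eq_right h]
  · rw [min_eq_right h, max_eq_left h, Sym2.eq_swap]

theorem sum_dis (n : ℕ) (a b c d : Fin n) (x : ℕ → ZMod 2) (hx : x (n * n * n) = 1) :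
    ((ix n a b c :: ix n a b d :: ix n c d a :: ix n c d b ::
      (yT n a c ++ (yT n a d ++ (yT n b c ++ yT n b d)))).map x).sum = 0 ↔
    x (ix n a b c) + x (ix n a b d) + x (ix n c d a) + x (ix n c d b)
      = y0 a c + y0 a d + y0 b c + y0 b d := by
  have e : ∀ p q : Fin n, ((yT n p q).map x).sum = y0 p q := by
    intro p q
    rw [yT_sum n p q x hx]
    unfold y0
    simp only [Fin.lt_def]
  simp only [List.map_cons, List.map_append, List.sum_cons, List.sum_append, e]
  have two : (2 : ZMod 2) = 0 := rfl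
  constructor
  · intro h
    linear_combination h - (y0 a c + y0 a d + y0 b c + y0 b d) * two
  · intro h
    linear_combination h + (y0 a c + y0 a d + y0 b c + y0 b d) * two

theorem dec_iff (w : List Bool) : dec w = true ↔ HTD (core (graphOf w)) := by
  unfold dec
  rw [htd_iff, solveEqs_iff _ _ (eqs_le w _)]
  set n := Nat.sqrt w.length with hn
  constructor
  · rintro ⟨x, hx1, hx⟩
    refine ⟨fun e q => Sym2.lift ⟨fun a b : Fin (Nat.sqrt w.length) => x (ix n a b q),
      fun a b => congrArg x (ix_comm n a b q)⟩ e, y0_tour, ?_, ?_⟩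
    · intro a b c d hab hcd h1 h2 h3 h4
      simp only [Sym2.lift_mk]
      rw [← sum_dis n a b c d x hx1]
      refine hx _ (List.mem_append_left _ ((mem_disEqs w n _).2 ⟨a, b, c, d, ?_, ?_, h1, h2, h3,
        h4, rfl⟩))
      · exact (coreB_iff w a b).2 hab
      · exact (coreB_iff w c d).2 hcd
    · intro a b c q hab hbc hac h1 h2 h3
      simp only [Sym2.lift_mk]
      have h5 := hx _ (List.mem_append_right _ ((mem_triEqs w n _).2 ⟨a, b, c, q,
        (coreB_iff w a b).2 hab, (coreB_iff w b c).2 hbc, (coreB_iff w a c).2 hac, h1, h2, h3,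
        rfl⟩))
      simp only [List.map_cons, List.map_nil, List.sum_cons, List.sum_nil, add_zero] at h5
      rw [add_assoc]
      exact h5
  · rintro ⟨z, hz⟩
    have hx1 : xOf z (n * n * n) = 1 := by
      unfold xOf
      rw [if_pos rfl]
    refine ⟨xOf z, hx1, ?_⟩
    intro L hL
    rw [eqs, List.mem_append] at hL
    rcases hL with hL | hL
    · rw [mem_disEqs] at hL
      obtain ⟨a, b, c, d, hab, hcd, h1, h2, h3, h4, rfl⟩ := hL
      rw [sum_dis n a b c d _ hx1, xOf_ix, xOf_ix, xOf_ix, xOf_ix]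
      exact hz.dis a b c d ((coreB_iff w a b).1 hab) ((coreB_iff w c d).1 hcd) h1 h2 h3 h4
    · rw [mem_triEqs] at hL
      obtain ⟨a, b, c, q, hab, hbc, hac, h1, h2, h3, rfl⟩ := hL
      simp only [List.map_cons, List.map_nil, List.sum_cons, List.sum_nil, add_zero]
      rw [xOf_ix, xOf_ix, xOf_ix, ← add_assoc]
      exact hz.tri a b c q ((coreB_iff w a b).1 hab) ((coreB_iff w b c).1 hbc)
        ((coreB_iff w a c).1 hac) h1 h2 h3

/-! ## Polynomial time -/

section pt

universe u
variable {α : Type u} [Rep α]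

theorem pt_adjB {w : α → List Bool} {n i j : α → ℕ} (hw : PT w) (hn : PT n) (hi : PT i)
    (hj : PT j) : PT (fun a => adjB (w a) (n a) (i a) (j a)) :=
  PT.and (PT.natEq hi hj).not
    (PT.or (PT.getD (PT.getElem? hw (PT.add (PT.mul hn hi) hj)) (PT.const false))
      (PT.getD (PT.getElem? hw (PT.add (PT.mul hn hj) hi)) (PT.const false)))

theorem pt_leafB {w : α → List Bool} {n c : α → ℕ} (hw : PT w) (hn : PT n) (hc : PT c) :
    PT (fun a => leafB (w a) (n a) (c a)) := by
  have hw1 : PT (fun p : α × ℕ => w p.1) := hw.comp PT.id.fst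
  have hn1 : PT (fun p : α × ℕ => n p.1) := hn.comp PT.id.fst
  have hc1 : PT (fun p : α × ℕ => c p.1) := hc.comp PT.id.fst
  have ha1 : PT (fun p : α × ℕ => p.2) := PT.id.snd
  have hw2 : PT (fun p : (α × ℕ) × ℕ => w p.1.1) := hw1.comp PT.id.fst
  have hn2 : PT (fun p : (α × ℕ) × ℕ => n p.1.1) := hn1.comp PT.id.fst
  have hc2 : PT (fun p : (α × ℕ) × ℕ => c p.1.1) := hc1.comp PT.id.fst
  have ha2 : PT (fun p : (α × ℕ) × ℕ => p.1.2) := ha1.comp PT.id.fst
  have hx2 : PT (fun p : (α × ℕ) × ℕ => p.2) := PT.id.snd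
  have h1 : PT (fun p : α × ℕ => (List.range (n p.1)).all fun x =>
      !(adjB (w p.1) (n p.1) (c p.1) x) || decide (x = p.2)) :=
    PT.all (g := fun p x => !(adjB (w p.1) (n p.1) (c p.1) x) || decide (x = p.2)) (PT.range hn1)
      (PT.or (pt_adjB hw2 hn2 hc2 hx2).not (PT.natEq hx2 ha2))
  have h2 : PT (fun p : α × ℕ => (List.range (n p.1)).any fun b =>
      !(decide (b = c p.1)) && adjB (w p.1) (n p.1) p.2 b) :=
    PT.any (g := fun p b => !(decide (b = c p.1)) && adjB (w p.1) (n p.1) p.2 b) (PT.range hn1)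
      (PT.and (PT.natEq hx2 hc2).not (pt_adjB hw2 hn2 ha2 hx2))
  exact PT.any (g := fun a x => adjB (w a) (n a) (c a) x &&
    (((List.range (n a)).all fun y => !(adjB (w a) (n a) (c a) y) || decide (y = x)) &&
      ((List.range (n a)).any fun b => !(decide (b = c a)) && adjB (w a) (n a) x b)))
    (PT.range hn) (PT.and (pt_adjB hw1 hn1 hc1 ha1) (PT.and h1 h2))

theorem pt_thirdB {w : α → List Bool} {n a c b : α → ℕ} (hw : PT w) (hn : PT n) (ha : PT a)
    (hc : PT c) (hb : PT b) : PT (fun s => thirdB (w s) (n s) (a s) (c s) (b s)) :=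
  PT.any (g := fun s x => !(decide (x = a s)) && (!(decide (x = c s)) && adjB (w s) (n s) (b s) x))
    (PT.range hn)
    (PT.and (PT.natEq PT.id.snd (ha.comp PT.id.fst)).not
      (PT.and (PT.natEq PT.id.snd (hc.comp PT.id.fst)).not
        (pt_adjB (hw.comp PT.id.fst) (hn.comp PT.id.fst) (hb.comp PT.id.fst) PT.id.snd)))

theorem pt_onlyB {w : α → List Bool} {n a b c : α → ℕ} (hw : PT w) (hn : PT n) (ha : PT a)
    (hb : PT b) (hc : PT c) : PT (fun s => onlyB (w s) (n s) (a s) (b s) (c s)) :=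
  PT.all (g := fun s x => !(adjB (w s) (n s) (c s) x) || (decide (x = a s) || decide (x = b s)))
    (PT.range hn)
    (PT.or (pt_adjB (hw.comp PT.id.fst) (hn.comp PT.id.fst) (hc.comp PT.id.fst) PT.id.snd).not
      (PT.or (PT.natEq PT.id.snd (ha.comp PT.id.fst)) (PT.natEq PT.id.snd (hb.comp PT.id.fst))))

theorem pt_earB {w : α → List Bool} {n c : α → ℕ} (hw : PT w) (hn : PT n) (hc : PT c) :
    PT (fun s => earB (w s) (n s) (c s)) := by
  have hw2 : PT (fun p : (α × ℕ) × ℕ => w p.1.1) := (hw.comp PT.id.fst).comp PT.id.fst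
  have hn2 : PT (fun p : (α × ℕ) × ℕ => n p.1.1) := (hn.comp PT.id.fst).comp PT.id.fst
  have hc2 : PT (fun p : (α × ℕ) × ℕ => c p.1.1) := (hc.comp PT.id.fst).comp PT.id.fst
  have ha2 : PT (fun p : (α × ℕ) × ℕ => p.1.2) := PT.id.fst.snd
  have hb2 : PT (fun p : (α × ℕ) × ℕ => p.2) := PT.id.snd
  have h1 : PT (fun p : α × ℕ => (List.range (n p.1)).any fun b =>
      adjB (w p.1) (n p.1) (c p.1) p.2 && (adjB (w p.1) (n p.1) (c p.1) b &&
        (adjB (w p.1) (n p.1) p.2 b && (onlyB (w p.1) (n p.1) p.2 b (c p.1) &&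
          ((decide (c p.1 < p.2) || thirdB (w p.1) (n p.1) b (c p.1) p.2) &&
            (decide (c p.1 < b) || thirdB (w p.1) (n p.1) p.2 (c p.1) b)))))) :=
    PT.any (g := fun p b => adjB (w p.1) (n p.1) (c p.1) p.2 &&
      (adjB (w p.1) (n p.1) (c p.1) b &&
        (adjB (w p.1) (n p.1) p.2 b && (onlyB (w p.1) (n p.1) p.2 b (c p.1) &&
          ((decide (c p.1 < p.2) || thirdB (w p.1) (n p.1) b (c p.1) p.2) &&
            (decide (c p.1 < b) || thirdB (w p.1) (n p.1) p.2 (c p.1) b))))))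
      (PT.range (hn.comp PT.id.fst))
      (PT.and (pt_adjB hw2 hn2 hc2 ha2) (PT.and (pt_adjB hw2 hn2 hc2 hb2)
        (PT.and (pt_adjB hw2 hn2 ha2 hb2) (PT.and (pt_onlyB hw2 hn2 ha2 hb2 hc2)
          (PT.and (PT.or (PT.lt hc2 ha2) (pt_thirdB hw2 hn2 hb2 hc2 ha2))
            (PT.or (PT.lt hc2 hb2) (pt_thirdB hw2 hn2 ha2 hc2 hb2)))))))
  exact PT.any (g := fun s a => (List.range (n s)).any fun b =>
      adjB (w s) (n s) (c s) a && (adjB (w s) (n s) (c s) b &&
        (adjB (w s) (n s) a b && (onlyB (w s) (n s) a b (c s) &&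
          ((decide (c s < a) || thirdB (w s) (n s) b (c s) a) &&
            (decide (c s < b) || thirdB (w s) (n s) a (c s) b))))))
    (PT.range hn) h1

theorem pt_coreB {w : α → List Bool} {n a b : α → ℕ} (hw : PT w) (hn : PT n) (ha : PT a)
    (hb : PT b) : PT (fun s => coreB (w s) (n s) (a s) (b s)) :=
  PT.and (pt_adjB hw hn ha hb)
    (PT.and (PT.or (pt_leafB hw hn ha) (pt_earB hw hn ha)).not
      (PT.or (pt_leafB hw hn hb) (pt_earB hw hn hb)).not)

theorem pt_ix {n a b q : α → ℕ} (hn : PT n) (ha : PT a) (hb : PT b) (hq : PT q) :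
    PT (fun s => ix (n s) (a s) (b s) (q s)) :=
  PT.add (PT.mul (PT.add (PT.mul (PT.min ha hb) hn) (PT.max ha hb)) hn) hq

theorem pt_yT {n p q : α → ℕ} (hn : PT n) (hp : PT p) (hq : PT q) :
    PT (fun s => yT (n s) (p s) (q s)) :=
  PT.iteProp (PT.lt hp hq) (PT.cons (PT.mul (PT.mul hn hn) hn) (PT.const []))
    (PT.const [])

theorem pt_flat4 {n : α → ℕ} (hn : PT n) {C : α → ℕ → ℕ → ℕ → ℕ → Bool}
    {F : α → ℕ → ℕ → ℕ → ℕ → List ℕ}
    (hC : PT (fun p : (((α × ℕ) × ℕ) × ℕ) × ℕ => C p.1.1.1.1 p.1.1.1.2 p.1.1.2 p.1.2 p.2))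
    (hF : PT (fun p : (((α × ℕ) × ℕ) × ℕ) × ℕ => F p.1.1.1.1 p.1.1.1.2 p.1.1.2 p.1.2 p.2)) :
    PT (fun s => (List.range (n s)).flatMap fun a => (List.range (n s)).flatMap fun b =>
      (List.range (n s)).flatMap fun c => (List.range (n s)).flatMap fun d =>
        if C s a b c d then [F s a b c d] else []) := by
  have h4 : PT (fun p : (((α × ℕ) × ℕ) × ℕ) × ℕ =>
      if C p.1.1.1.1 p.1.1.1.2 p.1.1.2 p.1.2 p.2 then
        [F p.1.1.1.1 p.1.1.1.2 p.1.1.2 p.1.2 p.2] else []) :=
    PT.ite hC (PT.cons hF (PT.const [])) (PT.const [])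
  have h3 : PT (fun p : ((α × ℕ) × ℕ) × ℕ => (List.range (n p.1.1.1)).flatMap fun d =>
      if C p.1.1.1 p.1.1.2 p.1.2 p.2 d then [F p.1.1.1 p.1.1.2 p.1.2 p.2 d] else []) :=
    PT.flatMap (g := fun p d =>
      if C p.1.1.1 p.1.1.2 p.1.2 p.2 d then [F p.1.1.1 p.1.1.2 p.1.2 p.2 d] else [])
      (PT.range (((hn.comp PT.id.fst).comp PT.id.fst).comp PT.id.fst)) h4
  have h2 : PT (fun p : (α × ℕ) × ℕ => (List.range (n p.1.1)).flatMap fun c =>
      (List.range (n p.1.1)).flatMap fun d =>
        if C p.1.1 p.1.2 p.2 c d then [F p.1.1 p.1.2 p.2 c d] else []) :=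
    PT.flatMap (g := fun p c => (List.range (n p.1.1)).flatMap fun d =>
        if C p.1.1 p.1.2 p.2 c d then [F p.1.1 p.1.2 p.2 c d] else [])
      (PT.range ((hn.comp PT.id.fst).comp PT.id.fst)) h3
  have h1 : PT (fun p : α × ℕ => (List.range (n p.1)).flatMap fun b =>
      (List.range (n p.1)).flatMap fun c => (List.range (n p.1)).flatMap fun d =>
        if C p.1 p.2 b c d then [F p.1 p.2 b c d] else []) :=
    PT.flatMap (g := fun p b => (List.range (n p.1)).flatMap fun c =>
      (List.range (n p.1)).flatMap fun d =>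
        if C p.1 p.2 b c d then [F p.1 p.2 b c d] else [])
      (PT.range (hn.comp PT.id.fst)) h2
  exact PT.flatMap (g := fun s a => (List.range (n s)).flatMap fun b =>
      (List.range (n s)).flatMap fun c => (List.range (n s)).flatMap fun d =>
        if C s a b c d then [F s a b c d] else []) (PT.range hn) h1

theorem pt_disEqs {w : α → List Bool} {n : α → ℕ} (hw : PT w) (hn : PT n) :
    PT (fun s => disEqs (w s) (n s)) := by
  have hw' : PT (fun p : (((α × ℕ) × ℕ) × ℕ) × ℕ => w p.1.1.1.1) := hw.comp PT.id.fst.fst.fst.fst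
  have hn' : PT (fun p : (((α × ℕ) × ℕ) × ℕ) × ℕ => n p.1.1.1.1) := hn.comp PT.id.fst.fst.fst.fst
  have ha : PT (fun p : (((α × ℕ) × ℕ) × ℕ) × ℕ => p.1.1.1.2) := PT.id.fst.fst.fst.snd
  have hb : PT (fun p : (((α × ℕ) × ℕ) × ℕ) × ℕ => p.1.1.2) := PT.id.fst.fst.snd
  have hc : PT (fun p : (((α × ℕ) × ℕ) × ℕ) × ℕ => p.1.2) := PT.id.fst.snd
  have hd : PT (fun p : (((α × ℕ) × ℕ) × ℕ) × ℕ => p.2) := PT.id.snd
  refine pt_flat4 hn (C := fun s a b c d => coreB (w s) (n s) a b && (coreB (w s) (n s) c d &&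
    (!(decide (a = c)) && (!(decide (a = d)) && (!(decide (b = c)) && !(decide (b = d)))))))
    (F := fun s a b c d => ix (n s) a b c :: ix (n s) a b d :: ix (n s) c d a :: ix (n s) c d b ::
          (yT (n s) a c ++ (yT (n s) a d ++ (yT (n s) b c ++ yT (n s) b d)))) ?_ ?_
  · exact PT.and (pt_coreB hw' hn' ha hb) (PT.and (pt_coreB hw' hn' hc hd)
      (PT.and (PT.natEq ha hc).not (PT.and (PT.natEq ha hd).not
        (PT.and (PT.natEq hb hc).not (PT.natEq hb hd).not))))
  · exact PT.cons (pt_ix hn' ha hb hc) (PT.cons (pt_ix hn' ha hb hd)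
      (PT.cons (pt_ix hn' hc hd ha) (PT.cons (pt_ix hn' hc hd hb)
        (PT.append (pt_yT hn' ha hc) (PT.append (pt_yT hn' ha hd)
          (PT.append (pt_yT hn' hb hc) (pt_yT hn' hb hd)))))))

theorem pt_triEqs {w : α → List Bool} {n : α → ℕ} (hw : PT w) (hn : PT n) :
    PT (fun s => triEqs (w s) (n s)) := by
  have hw' : PT (fun p : (((α × ℕ) × ℕ) × ℕ) × ℕ => w p.1.1.1.1) := hw.comp PT.id.fst.fst.fst.fst
  have hn' : PT (fun p : (((α × ℕ) × ℕ) × ℕ) × ℕ => n p.1.1.1.1) := hn.comp PT.id.fst.fst.fst.fst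
  have ha : PT (fun p : (((α × ℕ) × ℕ) × ℕ) × ℕ => p.1.1.1.2) := PT.id.fst.fst.fst.snd
  have hb : PT (fun p : (((α × ℕ) × ℕ) × ℕ) × ℕ => p.1.1.2) := PT.id.fst.fst.snd
  have hc : PT (fun p : (((α × ℕ) × ℕ) × ℕ) × ℕ => p.1.2) := PT.id.fst.snd
  have hd : PT (fun p : (((α × ℕ) × ℕ) × ℕ) × ℕ => p.2) := PT.id.snd
  refine pt_flat4 hn (C := fun s a b c q => coreB (w s) (n s) a b && (coreB (w s) (n s) b c &&
    (coreB (w s) (n s) a c && (!(decide (q = a)) && (!(decide (q = b)) && !(decide (q = c)))))))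
    (F := fun s a b c q => [ix (n s) a b q, ix (n s) b c q, ix (n s) a c q]) ?_ ?_
  · exact PT.and (pt_coreB hw' hn' ha hb) (PT.and (pt_coreB hw' hn' hb hc)
      (PT.and (pt_coreB hw' hn' ha hc) (PT.and (PT.natEq hd ha).not
        (PT.and (PT.natEq hd hb).not (PT.natEq hd hc).not))))
  · exact PT.cons (pt_ix hn' ha hb hd) (PT.cons (pt_ix hn' hb hc hd)
      (PT.cons (pt_ix hn' ha hc hd) (PT.const [])))

theorem card_sqrt (m : ℕ) :
    ((List.range (m + 1)).filter fun k => decide (k * k ≤ m)).length - 1 = Nat.sqrt m := by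
  have h1 : (List.range (m + 1)).filter (fun k => decide (k * k ≤ m))
      = List.range (Nat.sqrt m + 1) := by
    have h2 : ∀ M, Nat.sqrt m + 1 ≤ M → (List.range M).filter (fun k => decide (k * k ≤ m))
        = List.range (Nat.sqrt m + 1) := by
      intro M hM
      induction M, hM using Nat.le_induction with
      | base =>
        rw [List.filter_eq_self]
        intro k hk
        rw [List.mem_range] at hk
        rw [decide_eq_true_iff, ← Nat.le_sqrt]
        omega
      | succ M hM ih =>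
        rw [List.range_succ, List.filter_append, ih]
        have : ¬ M * M ≤ m := by
          rw [← Nat.le_sqrt]
          omega
        simp [this]
    refine h2 _ ?_
    have := Nat.sqrt_le_self m
    omega
  rw [h1, List.length_range, Nat.add_sub_cancel]

theorem pt_sqrt {m : α → ℕ} (hm : PT m) : PT (fun a => Nat.sqrt (m a)) := by
  have h1 : PT (fun a => ((List.range (m a + 1)).filter fun k => decide (k * k ≤ m a)).length - 1) :=
    PT.pred (PT.length (PT.filter (g := fun a k => decide (k * k ≤ m a)) (PT.range hm.succ)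
      (PT.le (PT.mul PT.id.snd PT.id.snd) (hm.comp PT.id.fst))))
  exact h1.congr fun a => card_sqrt (m a)

end pt

theorem pt_dec : PT dec := by
  have hn : PT (fun w : List Bool => Nat.sqrt w.length) := pt_sqrt (PT.length PT.id)
  exact pt_solveEqs (PT.mul (PT.mul hn hn) hn)
    (PT.append (pt_disEqs PT.id hn) (pt_triEqs PT.id hn))

end Alg

open Alg in
/-- Module ALG. -/
theorem specAlg : SpecAlg := ⟨dec, pt_dec, dec_iff⟩

end Pool.Agent.MP_cdcb37
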