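import Pool.Agent.Lib.MP_cdcb37_lc.Spec

/-!
# Assembly of the modules
-/

namespace Pool.Agent.MP_cdcb37

open Finset

/-- Ranks: injective rational positions can be replaced by natural numbers. -/
theorem exists_nat_rank {V : Type} [Fintype V] (X : V → ℚ) (hX : Function.Injective X) :
    ∃ X' : V → ℕ, Function.Injective X' ∧ ∀ a b, X a < X b → X' a < X' b := by
  classical
  have key : ∀ a b, X a < X b →
      (univ.filter fun v => X v < X a).card < (univ.filter fun v => X v < X b).card := by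
    intro a b hab
    apply Finset.card_lt_card
    refine ⟨fun v hv => ?_, fun h => ?_⟩
    · simp only [mem_filter, mem_univ, true_and] at hv ⊢
      exact hv.trans hab
    · have := h (show a ∈ univ.filter fun v => X v < X b by simpa using hab)
      simp at this
  refine ⟨fun a => (univ.filter fun v => X v < X a).card, ?_, key⟩
  intro a b hab
  rcases lt_trichotomy (X a) (X b) with h | h | h
  · exact absurd hab (key _ _ h).ne
  · exact hX h
  · exact absurd hab (key _ _ h).ne'

theorem Sep.imp {V α β : Type} [LT α] [LT β] {X : V → α} {X' : V → β}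
    (h : ∀ a b, X a < X b → X' a < X' b) {a b c d : V} (hs : Sep X a b c d) :
    Sep X' a b c d := by
  rcases hs with ⟨h1, h2, h3, h4⟩ | ⟨h1, h2, h3, h4⟩
  · exact Or.inl ⟨h _ _ h1, h _ _ h2, h _ _ h3, h _ _ h4⟩
  · exact Or.inr ⟨h _ _ h1, h _ _ h2, h _ _ h3, h _ _ h4⟩

theorem Outside.imp {V α β : Type} [LT α] [LT β] {X Y : V → α} {X' Y' : V → β}
    (h : ∀ a b, X a < X b → X' a < X' b) (h' : ∀ a b, Y a < Y b → Y' a < Y' b) {a b q : V}
    (hs : Outside X Y a b q) : Outside X' Y' a b q := by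
  rcases hs with ⟨h1, h2⟩ | ⟨h1, h2⟩ | ⟨h1, h2⟩ | ⟨h1, h2⟩
  · exact Or.inl ⟨h _ _ h1, h _ _ h2⟩
  · exact Or.inr (Or.inl ⟨h _ _ h1, h _ _ h2⟩)
  · exact Or.inr (Or.inr (Or.inl ⟨h' _ _ h1, h' _ _ h2⟩))
  · exact Or.inr (Or.inr (Or.inr ⟨h' _ _ h1, h' _ _ h2⟩))

/-- The complete graph on three vertices has a strong placement. -/
theorem hasStrong_three : HasStrong (⊤ : SimpleGraph (Fin 3)) := by
  refine ⟨![0, 1, 2], ![1, 0, 2], ?_, ?_, ?_, ?_⟩
  · decide
  · decide
  · intro a b c d
    revert a b c d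
    unfold Sep
    decide
  · intro a b q
    revert a b q
    unfold Outside
    decide

theorem hasStrong_of_card_le {V : Type} [Fintype V] (G : SimpleGraph V)
    (h : Fintype.card V ≤ 3) : HasStrong G := by
  refine hasStrong_three.comap (fun v => Fin.castLE h (Fintype.equivFin V v)) ?_ ?_
  · exact (Fin.castLE_injective h).comp (Fintype.equivFin V).injective
  · intro a b hab
    rw [SimpleGraph.top_adj]
    intro he
    exact hab.ne ((Fintype.equivFin V).injective (Fin.castLE_injective h he))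

/-- Left-right orders exist. -/
theorem exists_lr (hMu : SpecMu) (hGH : SpecGH) (n : ℕ) (G : SimpleGraph (Fin n))
    (s t : Fin n) (hst : STOrd G s t)
    (h1 : ∀ c c', G.Adj s c → G.Adj t c → G.Adj s c' → G.Adj t c' → c = c') (hG : HTD G) :
    ∃ Q : UE G → UE G → Prop, LR G Q := by
  classical
  obtain ⟨μ, hμ⟩ := hMu n G s t hst h1 hG
  have : Finite (UE G) := inferInstanceAs (Finite {p : Fin n × Fin n // _})
  have hsymm : ∀ e f : UE G, Inc e f → Inc f e := fun e f h => ⟨h.1.symm, h.2.2, h.2.1⟩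
  obtain ⟨Q, q1, q2, q3, q4⟩ := hGH (UE G) Inc
    (fun e f => Below e f ∨ Below f e ∨ TriTie e f ∨ TriTie f e) μ
    (fun e h => h.1 rfl) hsymm
    (fun e f h => by tauto)
    (fun e f hne h => by
      unfold Inc at h
      tauto)
    hμ.anti
    (fun e e' f hR h h' => by
      rcases hR with hR | hR | hR | hR
      · exact hμ.tie e e' f hR h h'
      · exact (hμ.tie e' e f hR h' h).symm
      · exact hμ.tri e e' f hR h h'
      · exact (hμ.tri e' e f hR h' h).symm)
  exact ⟨Q, q1, q2, q3, fun e e' f hb h h' => q4 e e' f (Or.inl hb) h h',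
    fun e e' f hb h h' => q4 e e' f (Or.inr (Or.inr (Or.inl hb))) h h'⟩

/-- From embeddings to strong placements. -/
theorem strong_of_emb (hTri : SpecTri) (hCan : SpecCan) (hPla : SpecPla)
    {V : Type} [Fintype V] (G : SimpleGraph V) (φ : Equiv.Perm G.Dart) (hc : G.Connected)
    (hφ : Emb G φ) (hbig : ∃ d, φ (φ (φ d)) ≠ d) : HasStrong G := by
  obtain ⟨W, _, T, ι, z, hT, hι, hadj, hz⟩ := hTri V G φ hc hφ hbig
  obtain ⟨ord, fr, hC, hord⟩ := hCan W T z hT
  obtain ⟨X, Y, hX, hY, hp, ho⟩ := hPla W T ord fr hC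
  have hm : ∀ a, ι a ∈ ord := fun a => (hord _).2 (hz a)
  obtain ⟨X', iX, hX'⟩ := exists_nat_rank (fun a => X (ι a))
    (fun a b h => hι (hX _ (hm a) _ (hm b) h))
  obtain ⟨Y', iY, hY'⟩ := exists_nat_rank (fun a => Y (ι a))
    (fun a b h => hι (hY _ (hm a) _ (hm b) h))
  refine ⟨X', Y', iX, iY, ?_, ?_⟩
  · intro a b c d hab hcd h1 h2 h3 h4
    rcases hp _ (hm a) _ (hm b) _ (hm c) _ (hm d) (hadj _ _ hab) (hadj _ _ hcd) (hι.ne h1)
      (hι.ne h2) (hι.ne h3) (hι.ne h4) with h | h
    · exact Or.inl (Sep.imp (X := fun a => X (ι a)) hX' h)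
    · exact Or.inr (Sep.imp (X := fun a => Y (ι a)) hY' h)
  · intro a b q hab h1 h2
    exact Outside.imp (X := fun a => X (ι a)) (Y := fun a => Y (ι a)) hX' hY'
      (ho _ (hm a) _ (hm b) _ (hm q) (hadj _ _ hab) (hι.ne h1) (hι.ne h2))

/-- The criterion implies the existence of a strong placement. -/
theorem strong_of_htd (hConn : SpecConn) (hAug : SpecAug) (hOpen : SpecOpen) (hStn : SpecStn)
    (hMu : SpecMu) (hGH : SpecGH) (hEmb : SpecEmb) (hBig : SpecBig) (hTri : SpecTri)
    (hCan : SpecCan) (hPla : SpecPla) :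
    ∀ (V : Type) [Fintype V] (G : SimpleGraph V), HTD G → HasStrong G := by
  refine hConn ?_
  intro V _ G hc hG
  classical
  by_cases hcard : Fintype.card V ≤ 3
  · exact hasStrong_of_card_le G hcard
  push Not at hcard
  obtain ⟨G', hle, h2, hG'⟩ := hAug V G (by omega) hc hG
  obtain ⟨a, b, hab⟩ : ∃ a b, G'.Adj a b := by
    have : Nontrivial V := Fintype.one_lt_card_iff_nontrivial.1 (by omega)
    obtain ⟨a⟩ := hc.nonempty
    obtain ⟨b, hb⟩ := hc.preconnected.exists_adj_of_nontrivial a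
    exact ⟨a, b, hle hb⟩
  obtain ⟨s, t, hst, h1⟩ := hOpen V G' a b hab hG'
  obtain ⟨f, f1, f2, f3, f4⟩ := hStn V G' s t (by omega) h2 hst
  let G'' : SimpleGraph (Fin (Fintype.card V)) := G'.comap f.symm
  have hadj : ∀ a b, G'.Adj a b ↔ G''.Adj (f a) (f b) := by
    intro a b
    simp [G'']
  have hG'' : HTD G'' := hG'.comap f.symm f.symm.injective (fun a b h => h)
  have hST : STOrd G'' (f s) (f t) := by
    refine ⟨(hadj _ _).1 hst, ?_, ?_, ?_, ?_⟩
    · intro v; simpa using f1 (f.symm v)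
    · intro v; simpa using f2 (f.symm v)
    · intro v hv
      obtain ⟨u, hu, hu'⟩ := f3 (f.symm v) (by rintro h; apply hv; rw [← h]; simp)
      exact ⟨f u, by simpa using hu, by simpa [G''] using hu'⟩
    · intro v hv
      obtain ⟨u, hu, hu'⟩ := f4 (f.symm v) (by rintro h; apply hv; rw [← h]; simp)
      exact ⟨f u, by simpa using hu, by simpa [G''] using hu'⟩
  have h1'' : ∀ c c', G''.Adj (f s) c → G''.Adj (f t) c → G''.Adj (f s) c' →
      G''.Adj (f t) c' → c = c' := by
    intro c c' h1a h2a h3a h4a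
    have := h1 (f.symm c) (f.symm c') (by simpa [G''] using h1a) (by simpa [G''] using h2a)
      (by simpa [G''] using h3a) (by simpa [G''] using h4a)
    exact f.symm.injective this
  obtain ⟨Q, hQ⟩ := exists_lr hMu hGH _ G'' (f s) (f t) hST h1'' hG''
  obtain ⟨φ, hφ⟩ := hEmb _ G'' (f s) (f t) Q (by omega) hST hQ
  have hiso : G'' ≃g G' := ⟨f.symm, fun {a b} => Iff.rfl⟩
  have hc' : G'.Connected := hc.mono hle
  have hc'' : G''.Connected := hiso.connected_iff.2 hc'
  have hbig := hBig _ G'' φ (f s) (f t) (by simp only [Fintype.card_fin]; omega) hc'' hφ hST.adj h1''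
  have := strong_of_emb hTri hCan hPla G'' φ hc'' hφ hbig
  exact this.comap f f.injective (fun a b h => (hadj _ _).1 (hle h))

/-- The main theorem from the modules. -/
theorem main_of_specs (hOff : SpecOff) (hAlg : SpecAlg) (hSound : SpecSound)
    (hRed1 : SpecRed1) (hRed2 : SpecRed2)
    (hStrong : ∀ (V : Type) [Fintype V] (G : SimpleGraph V), HTD G → HasStrong G) :
    ∃ dec : List Bool → Bool,
      Nonempty (Turing.TM2ComputableInPolyTime (fun w : List Bool => w)
        Computability.encodeBool dec) ∧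
      ∀ w, dec w = true ↔ sepDim (graphOf w) ≤ 2 := by
  obtain ⟨dec, h1, h2⟩ := hAlg
  refine ⟨dec, PolyTime.PT.tm2RawBool h1, fun w => ?_⟩
  rw [h2, hOff]
  constructor
  · intro h
    exact hRed2 _ _ (hStrong _ _ h)
  · rintro ⟨X, Y, h⟩
    exact hSound _ _ (hRed1 _ _ X Y h)

end Pool.Agent.MP_cdcb37
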