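import Pool.Agent.Lib.MP_cdcb37_lc.Spec

/-!
# MP_cdcb37_lc, module BIG: the embedding has a nontriangular face
-/

namespace Pool.Agent.MP_cdcb37

open Finset

section
variable {V : Type} {G : SimpleGraph V}

theorem dart_ext {d e : G.Dart} (h1 : d.fst = e.fst) (h2 : d.snd = e.snd) : d = e :=
  SimpleGraph.Dart.ext _ _ (Prod.ext h1 h2)

@[simp] theorem symm_fst (d : G.Dart) : d.symm.fst = d.snd := rfl

@[simp] theorem symm_snd (d : G.Dart) : d.symm.snd = d.fst := rfl

theorem rot_apply (φ : Equiv.Perm G.Dart) (d : G.Dart) : rot φ d = φ d.symm := rfl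

theorem two_cycle {α : Type} (p : Equiv.Perm α) {a a' b : α} (h : p.SameCycle a b)
    (h1 : p a = a') (h2 : p a' = a) : b = a ∨ b = a' := by
  obtain ⟨i, rfl⟩ := h
  have h3 : p⁻¹ a = a' := by rw [Equiv.Perm.inv_eq_iff_eq, h2]
  have h4 : p⁻¹ a' = a := by rw [Equiv.Perm.inv_eq_iff_eq, h1]
  induction i using Int.induction_on with
  | zero => left; rfl
  | succ i ih =>
    rw [add_comm, zpow_add, zpow_one, Equiv.Perm.mul_apply]
    rcases ih with ih | ih
    · right; rw [ih, h1]
    · left; rw [ih, h2]
  | pred i ih =>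
    rw [sub_eq_add_neg, add_comm, zpow_add, zpow_neg_one, Equiv.Perm.mul_apply]
    rcases ih with ih | ih
    · right; rw [ih, h3]
    · left; rw [ih, h4]

variable {φ : Equiv.Perm G.Dart}

theorem Emb.snd_three (h : Emb G φ) (d : G.Dart) (h3 : φ (φ (φ d)) = d) :
    (φ (φ d)).snd = d.fst := by
  rw [← h.step (φ (φ d)), h3]

/-- If the two faces at an edge are triangles with the same third vertex, then there are only
three vertices. -/
theorem emb_small (h : Emb G φ) (hc : G.Connected) (d : G.Dart) (h1 : φ (φ (φ d)) = d)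
    (h2 : φ (φ (φ d.symm)) = d.symm) (hx : (φ d).snd = (φ d.symm).snd) :
    (∀ v, v = d.fst ∨ v = d.snd ∨ v = (φ d).snd) ∧ ∀ e, φ (φ (φ e)) = e := by
  have e1 : (φ d).fst = d.snd := h.step d
  have e2 : (φ (φ d)).fst = (φ d).snd := h.step _
  have e3 : (φ (φ d)).snd = d.fst := h.snd_three d h1
  have f1 : (φ d.symm).fst = d.fst := h.step d.symm
  have f2 : (φ (φ d.symm)).fst = (φ d.symm).snd := h.step _
  have f3 : (φ (φ d.symm)).snd = d.snd := h.snd_three d.symm h2
  have g1 : (φ d.symm).symm = φ (φ d) := by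
    apply dart_ext
    · rw [symm_fst, e2, hx]
    · rw [symm_snd, e3, f1]
  have g2 : (φ d).symm = φ (φ d.symm) := by
    apply dart_ext
    · rw [symm_fst, f2, hx]
    · rw [symm_snd, f3, e1]
  have g1' : (φ (φ d)).symm = φ d.symm := by rw [← g1, SimpleGraph.Dart.symm_symm]
  have g2' : (φ (φ d.symm)).symm = φ d := by rw [← g2, SimpleGraph.Dart.symm_symm]
  have n1 : ∀ e : G.Dart, e.fst = d.fst → e = d ∨ e = φ d.symm := fun e he =>
    two_cycle (rot φ) (h.rot d e he.symm) rfl (by rw [rot_apply, g1, h1])
  have n2 : ∀ e : G.Dart, e.fst = d.snd → e = d.symm ∨ e = φ d := fun e he =>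
    two_cycle (rot φ) (h.rot d.symm e he.symm)
      (by rw [rot_apply, SimpleGraph.Dart.symm_symm]) (by rw [rot_apply, g2, h2])
  have n3 : ∀ e : G.Dart, e.fst = (φ d).snd → e = φ (φ d) ∨ e = φ (φ d.symm) := fun e he =>
    two_cycle (rot φ) (h.rot (φ (φ d)) e (by rw [e2, he]))
      (by rw [rot_apply, g1']) (by rw [rot_apply, g2'])
  have all : ∀ v, v = d.fst ∨ v = d.snd ∨ v = (φ d).snd := by
    intro v
    obtain ⟨p⟩ := hc.preconnected d.fst v
    have key : ∀ (u v : V) (p : G.Walk u v), (u = d.fst ∨ u = d.snd ∨ u = (φ d).snd) →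
        (v = d.fst ∨ v = d.snd ∨ v = (φ d).snd) := by
      intro u v p
      induction p with
      | nil => exact id
      | @cons a b c hab q ih =>
        intro ha
        apply ih
        have hd : ∃ e : G.Dart, e.fst = a ∧ e.snd = b := ⟨⟨(a, b), hab⟩, rfl, rfl⟩
        obtain ⟨e, he1, he2⟩ := hd
        rcases ha with ha | ha | ha
        · rcases n1 e (by rw [he1, ha]) with rfl | rfl
          · right; left; exact he2.symm
          · right; right; rw [← he2, hx]
        · rcases n2 e (by rw [he1, ha]) with rfl | rfl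
          · left; exact he2.symm
          · right; right; exact he2.symm
        · rcases n3 e (by rw [he1, ha]) with rfl | rfl
          · left; rw [← he2, e3]
          · right; left; rw [← he2, f3]
    exact key _ _ p (Or.inl rfl)
  refine ⟨all, fun e => ?_⟩
  rcases all e.fst with he | he | he
  · rcases n1 e he with rfl | rfl
    · exact h1
    · rw [h2]
  · rcases n2 e he with rfl | rfl
    · exact h2
    · rw [h1]
  · rcases n3 e he with rfl | rfl
    · rw [h1]
    · rw [h2]

end

theorem specBig : SpecBig := by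
  classical
  intro V _ G φ s t hV hc h hst hu
  by_contra hno
  push Not at hno
  let d : G.Dart := ⟨(s, t), hst⟩
  have e1 : (φ d).fst = t := h.step d
  have e2 : (φ (φ d)).fst = (φ d).snd := h.step _
  have e3 : (φ (φ d)).snd = s := h.snd_three d (hno d)
  have f1 : (φ d.symm).fst = s := h.step d.symm
  have f2 : (φ (φ d.symm)).fst = (φ d.symm).snd := h.step _
  have f3 : (φ (φ d.symm)).snd = t := h.snd_three d.symm (hno _)
  have hx : (φ d).snd = (φ d.symm).snd := by
    apply hu
    · have := (φ (φ d)).adj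
      rw [e2, e3] at this
      exact this.symm
    · have := (φ d).adj
      rwa [e1] at this
    · have := (φ d.symm).adj
      rwa [f1] at this
    · have := (φ (φ d.symm)).adj
      rw [f2, f3] at this
      exact this.symm
  have hall := (emb_small h hc d (hno _) (hno _) hx).1
  have hsub : (Finset.univ : Finset V) ⊆ {s, t, (φ d).snd} := by
    intro v _
    simpa using hall v
  have hcard := Finset.card_le_card hsub
  have h3 : ({s, t, (φ d).snd} : Finset V).card ≤ 3 := Finset.card_le_three
  rw [Finset.card_univ] at hcard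
  omega

end Pool.Agent.MP_cdcb37
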