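import Pool.Agent.Lib.MP_cdcb37_lc.Spec

/-!
# Module CAN: canonical orders of triangulated spheres without separating 3-cycles
-/

namespace Pool.Agent.MP_cdcb37.Can

open List

variable {W : Type}

/-! ## Closed lists -/

theorem closed_at {r : W → W → Prop} {l : List W} (hn : l.Nodup) (hl : 3 ≤ l.length)
    (hc : l.IsChain r) (hr : ∀ x y, l.head? = some x → l.getLast? = some y → r y x)
    {x : W} (hx : x ∈ l) : ∃ f m g l1 l2, l = l1 ++ x :: l2 ∧ l2 ++ l1 = f :: (m ++ [g]) ∧
      (x :: f :: (m ++ [g])).Nodup ∧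
      (∀ y, y ∈ x :: f :: (m ++ [g]) ↔ y ∈ l) ∧ (x :: f :: (m ++ [g, x])).IsChain r := by
  obtain ⟨l1, l2, rfl⟩ := List.append_of_mem hx
  have hlen : 2 ≤ (l2 ++ l1).length := by
    simp only [length_append, length_cons] at hl ⊢
    omega
  obtain ⟨f, t, ht⟩ : ∃ f t, l2 ++ l1 = f :: t := by
    cases h : l2 ++ l1 with
    | nil => rw [h] at hlen; simp at hlen
    | cons f t => exact ⟨f, t, rfl⟩
  obtain ⟨m, g, hm⟩ : ∃ m g, t = m ++ [g] := by
    rcases List.eq_nil_or_concat t with h | ⟨m, g, h⟩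
    · rw [ht, h] at hlen; simp at hlen
    · exact ⟨m, g, by simpa using h⟩
  subst hm
  have hperm : (l1 ++ x :: l2).Perm (x :: f :: (m ++ [g])) := by
    rw [← ht]
    calc (l1 ++ x :: l2).Perm ((x :: l2) ++ l1) := List.perm_append_comm
      _ = x :: (l2 ++ l1) := rfl
  refine ⟨f, m, g, l1, l2, rfl, ht, hperm.nodup_iff.1 hn, fun y => hperm.mem_iff.symm, ?_⟩
  -- chain
  have h1 : (x :: (l2 ++ l1)).IsChain r := by
    rw [← List.cons_append]
    rw [List.isChain_append] at hc ⊢
    refine ⟨hc.2.1, hc.1, ?_⟩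
    intro a ha b hb
    apply hr b a
    · cases l1 with
      | nil => simp at hb
      | cons c l1 => simpa using hb
    · rw [List.getLast?_append]
      simp only [Option.mem_def] at ha
      rw [ha]; rfl
  have h2 : r g x := by
    cases l1 with
    | nil =>
      simp only [append_nil, nil_append] at ht hr hc
      apply hr x g rfl
      rw [ht]
      simp [List.getLast?_append, List.getLast?_cons]
    | cons c l1 =>
      rw [List.isChain_append] at hc
      apply hc.2.2 g ?_ x rfl
      have : (l2 ++ c :: l1).getLast? = some g := by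
        rw [ht]; simp [List.getLast?_append, List.getLast?_cons]
      rw [List.getLast?_append] at this
      simp only [Option.mem_def]
      have h3 : (c :: l1).getLast? ≠ none := by simp
      cases h4 : (c :: l1).getLast? with
      | none => exact absurd h4 h3
      | some q => rw [h4] at this; simpa using this
  rw [ht] at h1
  have h3 : x :: f :: (m ++ [g, x]) = (x :: f :: (m ++ [g])) ++ [x] := by simp
  rw [h3, List.isChain_append]
  refine ⟨h1, by simp, ?_⟩
  intro a ha b hb
  have : a = g := by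
    simp [List.getLast?_append, List.getLast?_cons] at ha
    exact ha.symm
  subst this
  simp at hb
  subst hb
  exact h2

variable {T : SimpleGraph W}

theorem link_at (hT : Tri T) {v x : W} (h : T.Adj v x) :
    ∃ f m g, (x :: f :: (m ++ [g])).Nodup ∧ (∀ y, y ∈ x :: f :: (m ++ [g]) ↔ T.Adj v y) ∧
      (x :: f :: (m ++ [g, x])).IsChain T.Adj ∧
      (∀ y, T.Adj v y → T.Adj x y → y = f ∨ y = g) := by
  obtain ⟨l, hn, hl, hm, hc, hr⟩ := hT.link v
  obtain ⟨f, m, g, l1, l2, -, -, h1, h2, h3⟩ := closed_at hn hl hc hr ((hm x).2 h)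
  have h4 : ∀ y, y ∈ x :: f :: (m ++ [g]) ↔ T.Adj v y := fun y => (h2 y).trans (hm y)
  refine ⟨f, m, g, h1, h4, h3, ?_⟩
  intro y hvy hxy
  obtain ⟨c, d, -, hcd⟩ := hT.two v x h
  have hf : f = c ∨ f = d := by
    rw [← hcd]
    refine ⟨(h4 f).1 (by simp), ?_⟩
    simp only [isChain_cons_cons] at h3
    exact h3.1
  have hg : g = c ∨ g = d := by
    rw [← hcd]
    refine ⟨(h4 g).1 (by simp), ?_⟩
    have h5 : x :: f :: (m ++ [g, x]) = (x :: f :: m) ++ g :: x :: [] := by simp
    exact (List.isChain_iff_forall_rel_of_append_cons_cons.1 h3 h5).symm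
  have hy : y = c ∨ y = d := by rw [← hcd]; exact ⟨hvy, hxy⟩
  have hfg : f ≠ g := by
    rintro rfl
    simp at h1
  grind

theorem isChain_rev {l : List W} (h : l.IsChain T.Adj) : l.reverse.IsChain T.Adj := by
  rw [List.isChain_reverse]
  exact h.imp fun _ _ h => h.symm

theorem link_from (hT : Tri T) {v x b : W} (h : T.Adj v x) (hb : T.Adj v b) (hxb : T.Adj x b) :
    ∃ l, (x :: b :: l).Nodup ∧ (∀ y, y ∈ x :: b :: l ↔ T.Adj v y) ∧
      (x :: b :: (l ++ [x])).IsChain T.Adj := by
  obtain ⟨f, m, g, h1, h2, h3, h4⟩ := link_at hT h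
  rcases h4 b hb hxb with rfl | rfl
  · exact ⟨m ++ [g], h1, h2, by simpa using h3⟩
  · refine ⟨m.reverse ++ [f], ?_, ?_, ?_⟩
    · have : (x :: f :: (m ++ [b])).Perm (x :: b :: (m.reverse ++ [f])) := by
        refine List.Perm.cons x ?_
        have h5 : f :: (m ++ [b]) = (b :: (m.reverse ++ [f])).reverse := by simp
        rw [h5]
        exact List.reverse_perm _
      exact this.nodup_iff.1 h1
    · intro y
      rw [← h2]
      simp only [mem_cons, mem_append, mem_reverse, not_mem_nil, or_false]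
      tauto
    · have := isChain_rev h3
      simpa using this

theorem rtg_mono {r r' : W → W → Prop} (h : ∀ a b, r a b → r' a b) {a b : W}
    (hab : Relation.ReflTransGen r a b) : Relation.ReflTransGen r' a b := by
  induction hab with
  | refl => exact .refl
  | tail _ h2 ih => exact ih.tail (h _ _ h2)

/-- Properties propagate along chains. -/
theorem chain_prop {p : W → Prop} : ∀ {l : List W} {a : W},
    (a :: l).IsChain (fun s t => p s → p t) → p a → ∀ x ∈ a :: l, p x
  | [], a, _, ha, x, hx => by simp at hx; exact hx ▸ ha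
  | b :: l, a, h, ha, x, hx => by
    rw [isChain_cons_cons] at h
    rcases List.mem_cons.1 hx with rfl | hx
    · exact ha
    · exact chain_prop h.2 (h.1 ha) x hx

/-! ## The mod 2 chain of a walk -/

open Classical in
/-- indicator of the edge `xy` -/
noncomputable def ed (x y a b : W) : ZMod 2 := if (a = x ∧ b = y) ∨ (a = y ∧ b = x) then 1 else 0

/-- the chain of a walk -/
noncomputable def ch : List W → W → W → ZMod 2
  | x :: y :: l, a, b => ed x y a b + ch (y :: l) a b
  | _, _, _ => 0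

theorem ed_symm (x y a b : W) : ed x y a b = ed x y b a := by
  unfold ed
  congr 1
  apply propext
  tauto

theorem ch_symm : ∀ (l : List W) (a b : W), ch l a b = ch l b a
  | [], _, _ => rfl
  | [_], _, _ => rfl
  | x :: y :: l, a, b => by
    simp only [ch]
    rw [ed_symm, ch_symm (y :: l)]

theorem ch_supp : ∀ {l : List W} {a b : W}, l.IsChain T.Adj → ¬ T.Adj a b → ch l a b = 0
  | [], _, _, _, _ => rfl
  | [_], _, _, _, _ => rfl
  | x :: y :: l, a, b, h, hab => by
    rw [isChain_cons_cons] at h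
    simp only [ch]
    rw [ch_supp h.2 hab, add_zero]
    unfold ed
    rw [if_neg]
    rintro (⟨rfl, rfl⟩ | ⟨rfl, rfl⟩)
    · exact hab h.1
    · exact hab h.1.symm

theorem ch_not_mem : ∀ {l : List W} {a b : W}, a ∉ l → ch l a b = 0
  | [], _, _, _ => rfl
  | [_], _, _, _ => rfl
  | x :: y :: l, a, b, h => by
    simp only [ch]
    have h1 : a ∉ y :: l := fun h1 => h (List.mem_cons_of_mem _ h1)
    rw [ch_not_mem h1, add_zero]
    unfold ed
    rw [if_neg]
    rintro (⟨rfl, rfl⟩ | ⟨rfl, rfl⟩)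
    · exact h (by simp)
    · exact h (by simp)

theorem ch_append : ∀ (l : List W) (x : W) (l' : List W) (a b : W),
    ch (l ++ x :: l') a b = ch (l ++ [x]) a b + ch (x :: l') a b
  | [], x, l', a, b => by simp [ch]
  | [y], x, l', a, b => by simp [ch]
  | y :: y' :: l, x, l', a, b => by
    have := ch_append (y' :: l) x l' a b
    simp only [List.cons_append, ch] at this ⊢
    rw [this]
    ring

open Classical in
theorem ch_at {P Q : List W} {u v w y : W} (h1 : v ∉ P ++ [u]) (h2 : v ∉ w :: Q) :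
    ch (P ++ u :: v :: w :: Q) v y = (if y = u then 1 else 0) + (if y = w then 1 else 0) := by
  rw [ch_append]
  simp only [ch]
  rw [ch_not_mem h1, ch_not_mem h2, zero_add, add_zero]
  have h3 : v ≠ u := fun h => h1 (by simp [h])
  have h4 : v ≠ w := fun h => h2 (by simp [h])
  unfold ed
  simp [h3, h4]

open Classical in
theorem ed_sum {x y : W} (h : T.Adj x y) (a : W) (S : Finset W) (hS : ∀ b, b ∈ S ↔ T.Adj a b) :
    ∑ b ∈ S, ed x y a b = (if a = x then 1 else 0) + (if a = y then 1 else 0) := by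
  have hxy := h.ne
  by_cases h1 : a = x
  · subst h1
    have : ∀ b ∈ S, ed a y a b = if b = y then 1 else 0 := by
      intro b _
      unfold ed
      simp [hxy]
    rw [Finset.sum_congr rfl this, Finset.sum_ite_eq', if_pos ((hS y).2 h)]
    simp [hxy]
  · by_cases h2 : a = y
    · subst h2
      have : ∀ b ∈ S, ed x a a b = if b = x then 1 else 0 := by
        intro b _
        unfold ed
        simp [h1]
      rw [Finset.sum_congr rfl this, Finset.sum_ite_eq', if_pos ((hS x).2 h.symm)]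
      simp [h1]
    · have : ∀ b ∈ S, ed x y a b = 0 := by
        intro b _
        unfold ed
        simp [h1, h2]
      rw [Finset.sum_congr rfl this]
      simp [h1, h2]

open Classical in
theorem ch_sum : ∀ {l : List W} {x : W}, (x :: l).IsChain T.Adj → ∀ (a : W) (S : Finset W),
    (∀ b, b ∈ S ↔ T.Adj a b) → ∑ b ∈ S, ch (x :: l) a b =
      (if a = x then 1 else 0) + (if a = (x :: l).getLast (by simp) then 1 else 0)
  | [], x, _, a, S, hS => by
    simp only [ch, Finset.sum_const_zero, getLast_singleton]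
    by_cases h : a = x
    · simp only [h, if_true]; rfl
    · simp only [h, if_false]; rfl
  | y :: l, x, h, a, S, hS => by
    rw [isChain_cons_cons] at h
    simp only [ch, Finset.sum_add_distrib]
    rw [ed_sum h.1 a S hS, ch_sum h.2 a S hS,
      show (x :: y :: l).getLast (by simp) = (y :: l).getLast (by simp) from
        List.getLast_cons (by simp)]
    have : ∀ t : ZMod 2, t + t = 0 := by decide
    have h1 := this (if a = y then 1 else 0)
    linear_combination h1

/-! ## Jordan curve theorem, combinatorial form -/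

/-- all triangles at `q` have the value `t`. -/
def Kap (T : SimpleGraph W) (k : W → W → W → ZMod 2) (q : W) (t : ZMod 2) : Prop :=
  ∀ a b, T.Adj q a → T.Adj q b → T.Adj a b → k q a b = t

theorem kap_exists (hT : Tri T) {c : W → W → ZMod 2} {k : W → W → W → ZMod 2}
    (k2 : ∀ a b x, k a b x = k a x b)
    (k3 : ∀ a b x x', T.Adj a b → x ≠ x' → T.Adj a x → T.Adj b x → T.Adj a x' → T.Adj b x' →
      c a b = k a b x + k a b x') {q : W} (hq : ∀ y, c q y = 0) : ∃ t, Kap T k q t := by
  have z2 : ∀ s t : ZMod 2, 0 = s + t → s = t := by decide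
  obtain ⟨l, hn, hl, hm, hc, hr⟩ := hT.link q
  obtain ⟨x, hx⟩ : ∃ x, x ∈ l := by
    cases l with
    | nil => simp at hl
    | cons x l => exact ⟨x, by simp⟩
  have hqx : T.Adj q x := (hm x).1 hx
  obtain ⟨f, m, g, h1, h2, h3, h4⟩ := link_at hT hqx
  have hqf : T.Adj q f := (h2 f).1 (by simp)
  have hqg : T.Adj q g := (h2 g).1 (by simp)
  have hxf : T.Adj x f := by
    simp only [isChain_cons_cons] at h3
    exact h3.1
  have hxg : T.Adj x g := by
    have h5 : x :: f :: (m ++ [g, x]) = (x :: f :: m) ++ g :: x :: [] := by simp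
    exact (List.isChain_iff_forall_rel_of_append_cons_cons.1 h3 h5).symm
  have hfg : f ≠ g := by
    rintro rfl
    simp at h1
  refine ⟨k q x f, ?_⟩
  have key : ∀ s ∈ x :: f :: (m ++ [g]), ∀ s', T.Adj q s' → T.Adj s s' → k q s s' = k q x f := by
    apply chain_prop (p := fun s => ∀ s', T.Adj q s' → T.Adj s s' → k q s s' = k q x f)
    · have h5 : (x :: f :: (m ++ [g])).IsChain T.Adj := by
        have h6 : x :: f :: (m ++ [g, x]) = (x :: f :: (m ++ [g])) ++ [x] := by simp
        rw [h6] at h3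
        exact h3.left_of_append
      rw [List.isChain_iff_forall_rel_of_append_cons_cons]
      intro a b l1 l2 hl' ha s' hqs' hbs'
      have hab : T.Adj a b := List.isChain_iff_forall_rel_of_append_cons_cons.1 h5 hl'
      have hqa : T.Adj q a := (h2 a).1 (by rw [hl']; simp)
      have hqb : T.Adj q b := (h2 b).1 (by rw [hl']; simp)
      have h7 := ha b hqb hab
      by_cases has : a = s'
      · subst has
        rw [k2, h7]
      · have h8 := k3 q b a s' hqb has hqa hab.symm hqs' hbs'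
        rw [hq] at h8
        have h9 := z2 _ _ h8
        rw [← h9, k2, h7]
    · intro s' hqs' hxs'
      rcases h4 s' hqs' hxs' with rfl | rfl
      · rfl
      · have h8 := k3 q x f s' hqx hfg hqf hxf hqs' hxs'
        rw [hq] at h8
        exact (z2 _ _ h8).symm
  intro a b hqa hqb hab
  exact key a ((h2 a).2 hqa) b hqb hab

theorem kap_adj (hT : Tri T) {k : W → W → W → ZMod 2}
    (k1 : ∀ a b x, k a b x = k b a x) {q q' : W} {t t' : ZMod 2}
    (h : Kap T k q t) (h' : Kap T k q' t') (hqq : T.Adj q q') : t = t' := by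
  obtain ⟨c, d, -, hcd⟩ := hT.two q q' hqq
  obtain ⟨h1, h2⟩ := (hcd c).2 (Or.inl rfl)
  rw [← h q' c hqq h1 h2, ← h' q c hqq.symm h2 h1, k1]

theorem seg {c : W → W → ZMod 2} {k : W → W → W → ZMod 2}
    (k2 : ∀ a b x, k a b x = k a x b)
    (k3 : ∀ a b x x', T.Adj a b → x ≠ x' → T.Adj a x → T.Adj b x → T.Adj a x' → T.Adj b x' →
      c a b = k a b x + k a b x') {v s s' : W} {l : List W} (hn : (s :: s' :: l).Nodup)
    (hv : ∀ x ∈ s :: s' :: l, T.Adj v x) (hc : (s :: s' :: l).IsChain T.Adj)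
    (h0 : ∀ l1 a b d l2, s :: s' :: l = l1 ++ a :: b :: d :: l2 → c v b = 0) :
    ∀ (l1 : List W) (a b : W) (l2 : List W), s :: s' :: l = l1 ++ a :: b :: l2 →
      k v a b = k v s s' := by
  have z2 : ∀ s t : ZMod 2, 0 = s + t → s = t := by decide
  intro l1
  induction l1 using List.reverseRecOn with
  | nil =>
    intro a b l2 h
    simp at h
    rw [h.1, h.2.1]
  | append_singleton l1 g ih =>
    intro a b l2 h
    have h' : s :: s' :: l = l1 ++ g :: a :: b :: l2 := by rw [h]; simp
    have h1 := ih g a (b :: l2) h'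
    have hga : T.Adj g a := List.isChain_iff_forall_rel_of_append_cons_cons.1 hc h'
    have hab : T.Adj a b := List.isChain_iff_forall_rel_of_append_cons_cons.1 hc h
    have hgb : g ≠ b := by
      rintro rfl
      rw [h'] at hn
      simp [List.nodup_append] at hn
    have h2 := k3 v a g b (hv a (by rw [h]; simp)) hgb (hv g (by rw [h']; simp)) hga.symm
      (hv b (by rw [h]; simp)) hab
    rw [h0 l1 g a b l2 h'] at h2
    rw [← z2 _ _ h2, k2, h1]

theorem interior {s e a b d : W} {Z l1 l2 : List W} (hn : (s :: (Z ++ [e])).Nodup)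
    (h : s :: (Z ++ [e]) = l1 ++ a :: b :: d :: l2) : b ≠ s ∧ b ≠ e := by
  constructor
  · rintro rfl
    cases l1 with
    | nil =>
      simp only [nil_append, List.cons.injEq] at h
      rw [h.2] at hn
      simp at hn
    | cons f l1 =>
      simp only [cons_append, List.cons.injEq] at h
      rw [h.2] at hn
      simp at hn
  · rintro rfl
    obtain ⟨m, e', hm⟩ : ∃ m e', d :: l2 = m ++ [e'] := by
      rcases List.eq_nil_or_concat (d :: l2) with h | ⟨a, b, h⟩
      · simp at h
      · exact ⟨a, b, by simpa using h⟩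
    have h1 : (s :: Z) ++ [b] = (l1 ++ [a, b] ++ m) ++ [e'] := by
      rw [List.append_assoc, ← hm]
      simpa using h
    have h2 := List.append_inj' h1 rfl
    simp only [List.cons.injEq, and_true] at h2
    rw [h, hm] at hn
    rw [h2.2] at hn
    simp [List.nodup_append] at hn

theorem jordan (hT : Tri T) {L : List W} {x0 : W} (hL : (x0 :: L).IsChain T.Adj)
    (hcl : (x0 :: L).getLast (by simp) = x0) {v u w : W} {X Y : List W}
    (hn : (w :: (X ++ u :: Y)).Nodup) (hm : ∀ y ∈ w :: (X ++ u :: Y), T.Adj v y)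
    (hc : (w :: (X ++ u :: (Y ++ [w]))).IsChain T.Adj)
    (hv : ∀ y, y ≠ u → y ≠ w → ch (x0 :: L) v y = 0) (hu : ch (x0 :: L) v u = 1) {b y : W}
    (hb : b ∈ X) (hy : y ∈ Y) (hbL : b ∉ x0 :: L)
    (hconn : Relation.ReflTransGen (fun q q' => T.Adj q q' ∧ q' ∉ x0 :: L) b y) : False := by
  obtain ⟨k, k1, k2, k3⟩ := hT.gen (ch (x0 :: L)) (ch_symm _) (fun a b h => ch_supp hL h) (by
    intro a S hS
    classical
    rw [ch_sum hL a S hS, hcl]
    have : ∀ t : ZMod 2, t + t = 0 := by decide
    convert this _)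
  have hkap : ∀ q, q ∉ x0 :: L → ∃ t, Kap T k q t := fun q hq =>
    kap_exists hT k2 k3 fun y => ch_not_mem hq
  obtain ⟨t, ht⟩ := hkap b hbL
  have hyt : Kap T k y t := by
    clear hy
    induction hconn with
    | refl => exact ht
    | tail _ h2 ih =>
      obtain ⟨t', ht'⟩ := hkap _ h2.2
      rw [kap_adj hT k1 ih ht' h2.1]
      exact ht'
  have hvb : T.Adj v b := hm b (by simp [hb])
  have hvy : T.Adj v y := hm y (by simp [hy])
  -- the first segment
  have n1 : (w :: (X ++ [u])).Nodup := by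
    have : (w :: (X ++ [u])).Sublist (w :: (X ++ u :: Y)) := by
      refine List.Sublist.cons_cons w ?_
      refine List.Sublist.append (List.Sublist.refl X) ?_
      simp
    exact this.nodup hn
  have n2 : (u :: (Y ++ [w])).Nodup := by
    have h1 : (w :: (u :: Y)).Sublist (w :: (X ++ u :: Y)) :=
      List.Sublist.cons_cons w (List.sublist_append_right _ _)
    have h2 := h1.nodup hn
    have h3 : (u :: (Y ++ [w])).Perm (w :: (u :: Y)) := by
      rw [← List.cons_append]
      exact List.perm_append_comm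
    exact h3.nodup_iff.2 h2
  have c12 := (List.isChain_cons_split (l₁ := X) (c := u) (l₂ := Y ++ [w]) (a := w)).1 hc
  obtain ⟨x1, X', hX⟩ : ∃ x1 X', X ++ [u] = x1 :: X' := by
    cases X with
    | nil => exact ⟨u, [], rfl⟩
    | cons a X => exact ⟨a, X ++ [u], rfl⟩
  obtain ⟨y1, Y', hY⟩ : ∃ y1 Y', Y ++ [w] = y1 :: Y' := by
    cases Y with
    | nil => exact ⟨w, [], rfl⟩
    | cons a Y => exact ⟨a, Y ++ [w], rfl⟩
  have mX : ∀ x ∈ w :: (X ++ [u]), T.Adj v x := by
    intro x hx
    apply hm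
    simp only [mem_cons, mem_append, not_mem_nil, or_false] at hx ⊢
    tauto
  have mY : ∀ x ∈ u :: (Y ++ [w]), T.Adj v x := by
    intro x hx
    apply hm
    simp only [mem_cons, mem_append, not_mem_nil, or_false] at hx ⊢
    tauto
  have s1 := seg (c := ch (x0 :: L)) (k := k) (v := v) (s := w) (s' := x1) (l := X') k2 k3
    (by rw [← hX]; exact n1) (by rw [← hX]; exact mX) (by rw [← hX]; exact c12.1) (by
      intro l1 a b d l2 h
      rw [← hX] at h
      exact hv _ (interior n1 h).2 (interior n1 h).1)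
  have s2 := seg (c := ch (x0 :: L)) (k := k) (v := v) (s := u) (s' := y1) (l := Y') k2 k3
    (by rw [← hY]; exact n2) (by rw [← hY]; exact mY) (by rw [← hY]; exact c12.2) (by
      intro l1 a b d l2 h
      rw [← hY] at h
      exact hv _ (interior n2 h).1 (interior n2 h).2)
  rw [← hX] at s1
  rw [← hY] at s2
  -- value at b
  have e1 : k v w x1 = t := by
    obtain ⟨P, Q, hPQ⟩ := List.append_of_mem hb
    obtain ⟨d, Q', hQ'⟩ : ∃ d Q', Q ++ [u] = d :: Q' := by
      cases Q with
      | nil => exact ⟨u, [], rfl⟩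
      | cons a Q => exact ⟨a, Q ++ [u], rfl⟩
    have h1 : w :: (X ++ [u]) = (w :: P) ++ b :: d :: Q' := by
      rw [hPQ, ← hQ']; simp
    have h2 := s1 (w :: P) b d Q' h1
    have hbd : T.Adj b d := List.isChain_iff_forall_rel_of_append_cons_cons.1 c12.1 h1
    rw [← h2, k1]
    exact ht v d hvb.symm hbd (mX d (by rw [h1]; simp))
  have e2 : k v u y1 = t := by
    obtain ⟨P, Q, hPQ⟩ := List.append_of_mem hy
    obtain ⟨d, Q', hQ'⟩ : ∃ d Q', Q ++ [w] = d :: Q' := by
      cases Q with
      | nil => exact ⟨w, [], rfl⟩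
      | cons a Q => exact ⟨a, Q ++ [w], rfl⟩
    have h1 : u :: (Y ++ [w]) = (u :: P) ++ y :: d :: Q' := by
      rw [hPQ, ← hQ']; simp
    have h2 := s2 (u :: P) y d Q' h1
    have hbd : T.Adj y d := List.isChain_iff_forall_rel_of_append_cons_cons.1 c12.2 h1
    rw [← h2, k1]
    exact hyt v d hvy.symm hbd (mY d (by rw [h1]; simp))
  -- value across u
  obtain ⟨X2, xl, hX2⟩ : ∃ X2 xl, w :: X = X2 ++ [xl] := by
    rcases List.eq_nil_or_concat (w :: X) with h | ⟨a, b, h⟩
    · simp at h
    · exact ⟨a, b, by simpa using h⟩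
  have h5 : w :: (X ++ [u]) = X2 ++ xl :: u :: [] := by
    rw [← List.cons_append, hX2]; simp
  have e3 : k v xl u = t := by rw [s1 _ _ _ _ h5, e1]
  have hxlu : T.Adj xl u := List.isChain_iff_forall_rel_of_append_cons_cons.1 c12.1 h5
  have h6 : u :: (Y ++ [w]) = [] ++ u :: y1 :: Y' := by rw [hY]; simp
  have huy : T.Adj u y1 := List.isChain_iff_forall_rel_of_append_cons_cons.1 c12.2 h6
  have hne : xl ≠ y1 := by
    have hxl : xl ∈ w :: X := by rw [hX2]; simp
    have hy1 : y1 ∈ Y := by
      cases Y with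
      | nil => simp at hy
      | cons a Y => simp at hY; simp [hY.1]
    intro h
    rw [h] at hxl
    rw [← List.cons_append, List.nodup_append] at hn
    exact hn.2.2 y1 hxl y1 (by simp [hy1]) rfl
  have h7 := k3 v u xl y1 (hm u (by simp)) hne (mX xl (by rw [h5]; simp)) hxlu.symm
    (mY y1 (by rw [h6]; simp)) huy
  rw [hu, k2 v u xl, e3, e2] at h7
  have : ∀ t : ZMod 2, 1 ≠ t + t := by decide
  exact this t h7

/-! ## Consecutive elements -/

/-- consecutive elements of a list -/
def C2 : List W → W → W → Prop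
  | a :: b :: l, x, y => (x = a ∧ y = b) ∨ C2 (b :: l) x y
  | _, _, _ => False

theorem c2_iff : ∀ {l : List W} {x y : W}, C2 l x y ↔ ∃ l1 l2, l = l1 ++ x :: y :: l2
  | [], x, y => by simp [C2]
  | [a], x, y => by
    simp only [C2, false_iff, not_exists]
    intro l1 l2 h
    have := congrArg List.length h
    simp at this
    omega
  | a :: b :: l, x, y => by
    simp only [C2]
    constructor
    · rintro (⟨rfl, rfl⟩ | h)
      · exact ⟨[], l, rfl⟩
      · obtain ⟨l1, l2, h⟩ := c2_iff.1 h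
        exact ⟨a :: l1, l2, by rw [h]; rfl⟩
    · rintro ⟨l1, l2, h⟩
      cases l1 with
      | nil =>
        simp at h
        exact Or.inl ⟨h.1.symm, h.2.1.symm⟩
      | cons c l1 =>
        right
        simp at h
        exact c2_iff.2 ⟨l1, l2, h.2⟩

theorem c2_split : ∀ (P : List W) (u : W) (l : List W) (x y : W),
    C2 (P ++ u :: l) x y ↔ C2 (P ++ [u]) x y ∨ C2 (u :: l) x y
  | [], u, l, x, y => by simp [C2]
  | [a], u, l, x, y => by simp [C2]
  | a :: b :: P, u, l, x, y => by
    have := c2_split (b :: P) u l x y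
    simp only [List.cons_append, C2] at this ⊢
    rw [this, or_assoc]

theorem c2_chain {r : W → W → Prop} {l : List W} : l.IsChain r ↔ ∀ x y, C2 l x y → r x y := by
  rw [List.isChain_iff_forall_rel_of_append_cons_cons]
  constructor
  · intro h x y hxy
    obtain ⟨l1, l2, h'⟩ := c2_iff.1 hxy
    exact h h'
  · intro h x y l1 l2 h'
    exact h x y (c2_iff.2 ⟨l1, l2, h'⟩)

theorem c2_mem_left {l : List W} {x y : W} (h : C2 l x y) : x ∈ l := by
  obtain ⟨l1, l2, rfl⟩ := c2_iff.1 h
  simp

theorem c2_mem_right {l : List W} {x y : W} (h : C2 l x y) : y ∈ l := by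
  obtain ⟨l1, l2, rfl⟩ := c2_iff.1 h
  simp

theorem app_inj {l1 l2 l1' l2' : List W} {x : W} (h : l1 ++ x :: l2 = l1' ++ x :: l2')
    (hn : (l1 ++ x :: l2).Nodup) : l1 = l1' ∧ l2 = l2' := by
  induction l1 generalizing l1' with
  | nil =>
    cases l1' with
    | nil => simpa using h
    | cons a l1' =>
      simp only [nil_append, cons_append, List.cons.injEq] at h
      obtain ⟨rfl, rfl⟩ := h
      simp at hn
  | cons b l1 ih =>
    cases l1' with
    | nil =>
      simp only [nil_append, cons_append, List.cons.injEq] at h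
      obtain ⟨rfl, rfl⟩ := h
      simp at hn
    | cons a l1' =>
      simp only [cons_append, List.cons.injEq] at h
      obtain ⟨rfl, h⟩ := h
      obtain ⟨rfl, rfl⟩ := ih h (List.nodup_cons.1 hn).2
      exact ⟨rfl, rfl⟩

theorem c2_succ {l l1 l2 : List W} {x y t : W} (hn : l.Nodup) (h : l = l1 ++ x :: y :: l2)
    (ht : C2 l x t) : t = y := by
  obtain ⟨l1', l2', h'⟩ := c2_iff.1 ht
  have h1 : l1 ++ x :: y :: l2 = l1' ++ x :: t :: l2' := by rw [← h, h']
  have h2 := (app_inj h1 (h ▸ hn)).2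
  simp at h2
  exact h2.1.symm

theorem c2_pred {l l1 l2 : List W} {x y t : W} (hn : l.Nodup) (h : l = l1 ++ x :: y :: l2)
    (ht : C2 l t y) : t = x := by
  obtain ⟨l1', l2', h'⟩ := c2_iff.1 ht
  have h1 : (l1 ++ [x]) ++ y :: l2 = (l1' ++ [t]) ++ y :: l2' := by
    simp only [append_assoc, cons_append, nil_append]
    rw [← h, h']
  have h2 := (app_inj h1 (by rw [h] at hn; simpa using hn)).1
  have h3 := List.append_inj' h2 rfl
  simp at h3
  exact h3.2.symm

theorem c2_init {l : List W} {u x y : W} (h : C2 (l ++ [u]) x y) : x ∈ l := by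
  obtain ⟨l1, l2, h⟩ := c2_iff.1 h
  obtain ⟨m, t, hm⟩ : ∃ m t, y :: l2 = m ++ [t] := by
    rcases List.eq_nil_or_concat (y :: l2) with h | ⟨m, g, h⟩
    · simp at h
    · exact ⟨m, g, by simpa using h⟩
  rw [hm] at h
  have h1 : l ++ [u] = (l1 ++ x :: m) ++ [t] := by rw [h]; simp
  have h2 := (List.append_inj' h1 rfl).1
  rw [h2]
  simp

theorem arc_pair {w b u x y : W} {X : List W} (h : C2 (w :: b :: (X ++ [u])) x y) :
    x ∈ b :: X ∨ y ∈ b :: X := by
  simp only [C2] at h
  rcases h with h | h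
  · right; rw [h.2]; simp
  · left
    exact c2_init (l := b :: X) (by simpa using h)

/-- In a closed list every element has a successor and a different predecessor. -/
theorem closed_nbrs {x0 : W} {L : List W} (hn : (x0 :: L).Nodup) (hl : 2 ≤ L.length) {x : W}
    (hx : x ∈ x0 :: L) : ∃ f g, C2 (x0 :: (L ++ [x0])) x f ∧ C2 (x0 :: (L ++ [x0])) g x ∧
      f ≠ g ∧ f ∈ x0 :: L ∧ g ∈ x0 :: L := by
  rcases List.mem_cons.1 hx with rfl | hx
  · obtain ⟨f, t, rfl⟩ : ∃ f t, L = f :: t := by
      cases L with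
      | nil => simp at hl
      | cons f t => exact ⟨f, t, rfl⟩
    obtain ⟨m, g, rfl⟩ : ∃ m g, t = m ++ [g] := by
      rcases List.eq_nil_or_concat t with h | ⟨m, g, h⟩
      · rw [h] at hl; simp at hl
      · exact ⟨m, g, by simpa using h⟩
    refine ⟨f, g, c2_iff.2 ⟨[], m ++ [g] ++ [x], by simp⟩, c2_iff.2 ⟨x :: f :: m, [], by simp⟩,
      ?_, by simp, by simp⟩
    rintro rfl
    simp at hn
  · obtain ⟨L1, L2, rfl⟩ := List.append_of_mem hx
    obtain ⟨f, F, hf⟩ : ∃ f F, L2 ++ [x0] = f :: F := by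
      cases L2 with
      | nil => exact ⟨x0, [], rfl⟩
      | cons a L => exact ⟨a, L ++ [x0], rfl⟩
    obtain ⟨G, g, hg⟩ : ∃ G g, x0 :: L1 = G ++ [g] := by
      rcases List.eq_nil_or_concat (x0 :: L1) with h | ⟨m, g, h⟩
      · simp at h
      · exact ⟨m, g, by simpa using h⟩
    have e : x0 :: (L1 ++ x :: L2 ++ [x0]) = G ++ g :: x :: f :: F := by
      have : x0 :: (L1 ++ x :: L2 ++ [x0]) = (x0 :: L1) ++ x :: (L2 ++ [x0]) := by simp
      rw [this, hf, hg]
      simp
    have hfm : f ∈ L2 ++ [x0] := by rw [hf]; simp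
    have hgm : g ∈ x0 :: L1 := by rw [hg]; simp
    refine ⟨f, g, c2_iff.2 ⟨G ++ [g], F, by rw [e]; simp⟩, c2_iff.2 ⟨G, f :: F, e⟩, ?_, ?_, ?_⟩
    · rintro rfl
      simp only [mem_append, mem_cons, not_mem_nil, or_false] at hfm hgm
      rw [List.nodup_cons, List.nodup_append] at hn
      rcases hfm with h1 | h1
      · rcases hgm with h2 | h2
        · subst h2
          exact hn.1 (by simp [h1])
        · exact hn.2.2.2 f h2 f (by simp [h1]) rfl
      · subst h1
        -- then both lists are empty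
        have h3 : L1 = [] := by
          cases L1 with
          | nil => rfl
          | cons a L1 =>
            exfalso
            have h4 : (f :: a :: L1).getLast? = some f := by rw [hg]; simp
            rw [List.getLast?_cons_cons] at h4
            exact hn.1 (List.mem_append_left _ (List.mem_of_getLast? h4))
        have h4 : L2 = [] := by
          cases L2 with
          | nil => rfl
          | cons a L2 =>
            exfalso
            simp at hf
            exact hn.1 (by simp [hf.1])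
        subst h3 h4
        simp at hl
    · simp only [mem_append, mem_cons, not_mem_nil, or_false] at hfm ⊢
      tauto
    · simp only [mem_cons, mem_append] at hgm ⊢
      tauto

/-- In a closed link list adjacent elements are consecutive. -/
theorem closed_consec (hT : Tri T) {v x0 : W} {L : List W} (hn : (x0 :: L).Nodup)
    (hl : 2 ≤ L.length) (hm : ∀ y, y ∈ x0 :: L ↔ T.Adj v y)
    (hc : (x0 :: (L ++ [x0])).IsChain T.Adj) {x y : W} (hx : T.Adj v x) (hy : T.Adj v y)
    (hxy : T.Adj x y) : C2 (x0 :: (L ++ [x0])) x y ∨ C2 (x0 :: (L ++ [x0])) y x := by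
  obtain ⟨f, g, h1, h2, h3, h4, h5⟩ := closed_nbrs hn hl ((hm x).2 hx)
  obtain ⟨c, d, -, hcd⟩ := hT.two v x hx
  rw [c2_chain] at hc
  have a1 := (hcd f).1 ⟨(hm f).1 h4, hc _ _ h1⟩
  have a2 := (hcd g).1 ⟨(hm g).1 h5, (hc _ _ h2).symm⟩
  have a3 := (hcd y).1 ⟨hy, hxy⟩
  have : y = f ∨ y = g := by grind
  rcases this with rfl | rfl
  · exact Or.inl h1
  · exact Or.inr h2

/-! ## The invariant -/

/-- the set `A` of remaining vertices with frontier `p` -/
structure Inv (T : SimpleGraph W) (z v1 v2 : W) (A : Finset W) (p : List W) : Prop where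
  hz : z ∉ A
  nodup : p.Nodup
  sub : ∀ x ∈ p, x ∈ A
  hd : ∃ mid, p = v1 :: (mid ++ [v2])
  i2 : ∀ x y, C2 p x y → T.Adj x y ∧ ∃ b, b ∉ A ∧ T.Adj x b ∧ T.Adj y b
  i3 : ∀ x ∈ A, x ∉ p → ∀ y, T.Adj x y → y ∈ A
  i4 : ∀ x ∈ A, ∀ y ∈ A, T.Adj x y → ∀ b, b ∉ A → T.Adj x b → T.Adj y b →
    C2 p x y ∨ C2 p y x ∨ (x = v1 ∧ y = v2) ∨ (x = v2 ∧ y = v1)
  i5 : ∀ b b', b ∉ A → b' ∉ A → Relation.ReflTransGen (fun q q' => T.Adj q q' ∧ q' ∉ A) b b'

variable {z v1 v2 : W} {A : Finset W} {p : List W}

theorem Inv.chain (hI : Inv T z v1 v2 A p) : p.IsChain T.Adj := by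
  rw [c2_chain]
  exact fun x y h => (hI.i2 x y h).1

theorem Inv.nbr (hI : Inv T z v1 v2 A p) {x : W} (hx : x ∈ p) : ∃ b, b ∉ A ∧ T.Adj x b := by
  obtain ⟨mid, hp⟩ := hI.hd
  obtain ⟨l1, l2, h⟩ := List.append_of_mem hx
  cases l2 with
  | nil =>
    rcases List.eq_nil_or_concat l1 with h1 | ⟨m, g, h1⟩
    · rw [h1] at h
      rw [h] at hp
      simp at hp
    · have : p = m ++ g :: x :: [] := by rw [h, h1]; simp
      obtain ⟨-, b, hb, -, h2⟩ := hI.i2 g x (c2_iff.2 ⟨_, _, this⟩)
      exact ⟨b, hb, h2⟩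
  | cons a l2 =>
    obtain ⟨-, b, hb, h2, -⟩ := hI.i2 x a (c2_iff.2 ⟨_, _, h⟩)
    exact ⟨b, hb, h2⟩

theorem walk_B (hI : Inv T z v1 v2 A p) {v b : W} {l : List W} (hv : v ∈ A)
    (hc : (b :: l).IsChain T.Adj) (hm : ∀ x ∈ b :: l, T.Adj v x) (hb : b ∉ A)
    (hs : ∀ t ∈ l, C2 p v t ∨ C2 p t v ∨ (v = v1 ∧ t = v2) ∨ (v = v2 ∧ t = v1) → False) :
    ∀ t ∈ b :: l, t ∉ A := by
  apply chain_prop (p := fun t => t ∉ A)
  · rw [List.isChain_iff_forall_rel_of_append_cons_cons] at hc ⊢
    intro s t l1 l2 h hs' ht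
    have hst := hc h
    have h1 : t ∈ l := by
      cases l1 with
      | nil => simp at h; rw [h.2]; simp
      | cons a l1 => simp at h; rw [h.2]; simp
    exact hs t h1 (hI.i4 v hv t ht (hm t (by rw [h]; simp)) s hs' (hm s (by rw [h]; simp)) hst.symm)
  · exact hb

theorem ne_of_interior (hI : Inv T z v1 v2 A p) {P Q : List W} {u v w : W}
    (hp : p = P ++ u :: v :: w :: Q) : v ≠ v1 ∧ v ≠ v2 := by
  obtain ⟨mid, h⟩ := hI.hd
  have hn := hI.nodup
  rw [h] at hn hp
  exact interior hn hp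

theorem two_case (hT : Tri T) (hI : Inv T z v1 v2 A [v1, v2]) {x : W} (hx : x ∈ A) :
    x = v1 ∨ x = v2 := by
  have hn := hI.nodup
  have hne : v1 ≠ v2 := by
    rintro rfl
    simp at hn
  obtain ⟨h12, b, hb, hb1, hb2⟩ := hI.i2 v1 v2 (by simp [C2])
  have k1 : ∀ y ∈ A, T.Adj v1 y → y = v2 := by
    intro y hy h
    obtain ⟨l, n, m, c⟩ := link_from hT h12 hb1 hb2
    have c' : (b :: l).IsChain T.Adj := by
      have : v2 :: b :: (l ++ [v2]) = [v2] ++ ((b :: l) ++ [v2]) := by simp
      rw [this] at c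
      exact c.right_of_append.left_of_append
    have h1 := walk_B hI (v := v1) (hI.sub v1 (by simp)) c'
      (fun x hx => (m x).1 (by simp at hx ⊢; tauto)) hb (by
        intro t ht h
        have h2 : t ≠ v2 := by
          rintro rfl
          simp [ht] at n
        simp [C2, hne, h2] at h)
    have h3 := (m y).2 h
    rcases List.mem_cons.1 h3 with h3 | h3
    · exact h3
    · exact absurd hy (h1 y h3)
  have k2 : ∀ y ∈ A, T.Adj v2 y → y = v1 := by
    intro y hy h
    obtain ⟨l, n, m, c⟩ := link_from hT h12.symm hb2 hb1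
    have c' : (b :: l).IsChain T.Adj := by
      have : v1 :: b :: (l ++ [v1]) = [v1] ++ ((b :: l) ++ [v1]) := by simp
      rw [this] at c
      exact c.right_of_append.left_of_append
    have h1 := walk_B hI (v := v2) (hI.sub v2 (by simp)) c'
      (fun x hx => (m x).1 (by simp at hx ⊢; tauto)) hb (by
        intro t ht h
        have h2 : t ≠ v1 := by
          rintro rfl
          simp [ht] at n
        simp [C2, hne.symm, h2] at h)
    have h3 := (m y).2 h
    rcases List.mem_cons.1 h3 with h3 | h3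
    · exact h3
    · exact absurd hy (h1 y h3)
  by_contra hcon
  push Not at hcon
  have h1 := hT.conn.preconnected x z
  rw [SimpleGraph.reachable_iff_reflTransGen] at h1
  have h2 : ∀ y, Relation.ReflTransGen T.Adj x y → y ∈ A ∧ y ≠ v1 ∧ y ≠ v2 := by
    intro y hy
    induction hy with
    | refl => exact ⟨hx, hcon⟩
    | @tail q q' _ h3 ih =>
      refine ⟨hI.i3 q ih.1 (by simp [ih.2.1, ih.2.2]) q' h3, ?_, ?_⟩
      · rintro rfl
        exact ih.2.2 (k1 q ih.1 h3.symm)
      · rintro rfl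
        exact ih.2.1 (k2 q ih.1 h3.symm)
  exact hI.hz (h2 z h1).1

theorem local_link (hT : Tri T) (hI : Inv T z v1 v2 A p) {P Q : List W} {u v w : W}
    (hp : p = P ++ u :: v :: w :: Q) : ∃ b X Y, b ∉ A ∧ (w :: b :: (X ++ u :: Y)).Nodup ∧
      (∀ y, y ∈ w :: b :: (X ++ u :: Y) ↔ T.Adj v y) ∧
      (w :: b :: (X ++ u :: (Y ++ [w]))).IsChain T.Adj ∧ ∀ t ∈ b :: X, t ∉ A := by
  have hn := hI.nodup
  obtain ⟨hv1, hv2⟩ := ne_of_interior hI hp
  have hvA : v ∈ A := hI.sub v (by rw [hp]; simp)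
  have hp' : p = (P ++ [u]) ++ v :: w :: Q := by rw [hp]; simp
  have hcu : C2 p u v := c2_iff.2 ⟨_, _, hp⟩
  have hcw : C2 p v w := c2_iff.2 ⟨_, _, hp'⟩
  obtain ⟨hvw, b, hb, hb1, hb2⟩ := hI.i2 v w hcw
  have huv := (hI.i2 u v hcu).1
  obtain ⟨l, n, m, c⟩ := link_from hT hvw hb1 hb2
  have huw : u ≠ w := by
    rintro rfl
    rw [hp] at hn
    simp [List.nodup_append] at hn
  have hub : u ≠ b := by
    rintro rfl
    exact hb (hI.sub _ (c2_mem_left hcu))
  have hul : u ∈ l := by
    have := (m u).2 huv.symm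
    simpa [huw, hub] using this
  obtain ⟨X, Y, rfl⟩ := List.append_of_mem hul
  refine ⟨b, X, Y, hb, n, m, by simpa using c, ?_⟩
  refine walk_B hI hvA ?_ (fun x hx => (m x).1 (by simp at hx ⊢; tauto)) hb ?_
  · have : w :: b :: (X ++ u :: Y ++ [w]) = [w] ++ ((b :: X) ++ (u :: Y ++ [w])) := by simp
    rw [this] at c
    exact c.right_of_append.left_of_append
  · intro t ht h
    rcases h with h | h | h | h
    · have := c2_succ hn hp' h
      subst this
      simp [ht] at n
    · have := c2_pred hn hp h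
      subst this
      rw [List.nodup_cons, List.nodup_cons, List.nodup_append] at n
      exact n.2.2.2.2 t ht t (by simp) rfl
    · exact hv1 h.1
    · exact hv2 h.1

theorem full_side (hT : Tri T) (h12 : T.Adj v1 v2) (hI : Inv T z v1 v2 A p)
    {P Q : List W} {u v w : W} (hp : p = P ++ u :: v :: w :: Q) {b : W} {X Y : List W}
    (hb : b ∉ A) (n : (w :: b :: (X ++ u :: Y)).Nodup)
    (m : ∀ y, y ∈ w :: b :: (X ++ u :: Y) ↔ T.Adj v y)
    (c : (w :: b :: (X ++ u :: (Y ++ [w]))).IsChain T.Adj) : ∀ y ∈ Y, y ∈ A := by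
  intro y hy
  by_contra hyA
  obtain ⟨mid, hmid⟩ := hI.hd
  have hn := hI.nodup
  obtain ⟨hv1, hv2⟩ := ne_of_interior hI hp
  have a1 : v ∉ (v2 :: P) ++ [u] := by
    rw [hp] at hn
    intro h
    simp only [cons_append, mem_cons, mem_append, not_mem_nil, or_false] at h
    rcases h with h | h | h
    · exact hv2 h
    · rw [List.nodup_append] at hn
      exact hn.2.2 v h v (by simp) rfl
    · subst h
      rw [List.nodup_append] at hn
      simp at hn
  have a2 : v ∉ w :: Q := by
    rw [hp] at hn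
    intro h
    have h1 := (List.nodup_append.1 hn).2.1
    rw [List.nodup_cons, List.nodup_cons] at h1
    exact h1.2.1 h
  have huw : u ≠ w := by
    rintro rfl
    simp at n
  classical
  have hch : ∀ y, ch (v2 :: p) v y = (if y = u then 1 else 0) + (if y = w then 1 else 0) := by
    intro y
    have : v2 :: p = (v2 :: P) ++ u :: v :: w :: Q := by rw [hp]; rfl
    rw [this, ch_at a1 a2]
  refine jordan hT (x0 := v2) (L := p) ?_ ?_ (v := v) (u := u) (w := w) (X := b :: X) (Y := Y)
    (by simpa using n) (fun y hy => (m y).1 (by simpa using hy)) (by simpa using c)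
    (fun y h1 h2 => ?_) ?_ (b := b) (y := y) (by simp) hy ?_ ?_
  · rw [isChain_cons]
    refine ⟨?_, hI.chain⟩
    rw [hmid]
    intro y hy
    simp at hy
    subst hy
    exact h12.symm
  · simp only [hmid]
    simp
  · rw [hch]
    simp [h1, h2]
  · rw [hch]
    simp [huw]
  · intro h
    rcases List.mem_cons.1 h with h | h
    · subst h
      exact hb (hI.sub _ (by rw [hmid]; simp))
    · exact hb (hI.sub _ h)
  · refine rtg_mono ?_ (hI.i5 b y hb hyA)
    rintro q q' ⟨h1, h2⟩
    refine ⟨h1, fun h => h2 ?_⟩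
    rcases List.mem_cons.1 h with h | h
    · subst h
      exact hI.sub _ (by rw [hmid]; simp)
    · exact hI.sub _ h

theorem no_chord (hT : Tri T) (hI : Inv T z v1 v2 A p) {P M Q : List W} {a e : W}
    (hp : p = P ++ a :: (M ++ e :: Q)) (hae : T.Adj a e)
    (hmin : ∀ P' a' M' e' Q', p = P' ++ a' :: (M' ++ e' :: Q') → M' ≠ [] → T.Adj a' e' →
      M.length ≤ M'.length) {M1 M2 U V : List W} {u v w : W} (hM : M = M1 ++ v :: M2)
    (hU : a :: M1 = U ++ [u]) (hV : M2 ++ [e] = w :: V) :
    ∀ y ∈ p, T.Adj v y → y = u ∨ y = w := by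
  intro y hy hvy
  by_contra hcon
  push Not at hcon
  have hn := hI.nodup
  have hp1 : p = (P ++ U) ++ u :: v :: w :: (V ++ Q) := by
    have h1 : p = P ++ ((a :: M1) ++ v :: ((M2 ++ [e]) ++ Q)) := by rw [hp, hM]; simp
    rw [h1, hU, hV]
    simp
  have lU : U.length = M1.length := by
    have := congrArg List.length hU
    simpa using this.symm
  have lV : V.length = M2.length := by
    have := congrArg List.length hV
    simpa using this.symm
  have lM : M.length = M1.length + 1 + M2.length := by rw [hM]; simp; omega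
  -- `y` is not in `U`
  have yU : y ∉ U := by
    intro h
    obtain ⟨U1, U2, rfl⟩ := List.append_of_mem h
    have h1 : p = (P ++ U1) ++ y :: ((U2 ++ [u]) ++ v :: (w :: (V ++ Q))) := by
      rw [hp1]; simp
    have h2 := hmin _ _ _ _ _ h1 (by simp) hvy.symm
    simp at h2 lU
    omega
  have yV : y ∉ V := by
    intro h
    obtain ⟨V1, V2, rfl⟩ := List.append_of_mem h
    have h1 : p = (P ++ U ++ [u]) ++ v :: ((w :: V1) ++ y :: (V2 ++ Q)) := by
      rw [hp1]; simp
    have h2 := hmin _ _ _ _ _ h1 (by simp) hvy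
    simp at h2 lV
    omega
  have yD : y ∉ e :: (a :: (M ++ [e])) := by
    intro h
    have h1 : y ∈ (a :: M1) ++ v :: (M2 ++ [e]) := by
      rw [hM] at h
      simp only [mem_cons, mem_append, not_mem_nil, or_false] at h ⊢
      tauto
    rw [hU, hV] at h1
    simp only [mem_cons, mem_append, not_mem_nil, or_false] at h1
    rcases h1 with (h1 | h1) | h1 | h1 | h1
    · exact yU h1
    · exact hcon.1 h1
    · exact hvy.ne h1.symm
    · exact hcon.2 h1
    · exact yV h1
  have subD : ∀ x ∈ e :: (a :: (M ++ [e])), x ∈ p := by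
    intro x hx
    rw [hp]
    simp only [mem_cons, mem_append, not_mem_nil, or_false] at hx ⊢
    tauto
  obtain ⟨b, X, Y, hb, n, m, c, hX⟩ := local_link hT hI hp1
  have hyA : y ∈ A := hI.sub y hy
  have hyY : y ∈ Y := by
    have h1 := (m y).2 hvy
    simp only [mem_cons, mem_append] at h1
    rcases h1 with h1 | h1 | h1 | h1 | h1
    · exact absurd h1 hcon.2
    · subst h1; exact absurd hyA hb
    · exact absurd hyA (hX y (by simp [h1]))
    · exact absurd h1 hcon.1
    · exact h1
  have huw : u ≠ w := by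
    rintro rfl
    simp at n
  have hD : e :: (a :: (M ++ [e])) = (e :: U) ++ u :: v :: w :: V := by
    have h1 : a :: (M ++ [e]) = (a :: M1) ++ v :: (M2 ++ [e]) := by rw [hM]; simp
    rw [h1, hU, hV]
    simp
  have hnD : (a :: (M ++ [e])).Nodup := by
    have : (a :: (M ++ [e])).Sublist p := by
      rw [hp]
      have h1 : (a :: (M ++ [e])).Sublist (a :: (M ++ e :: Q)) := by
        refine List.Sublist.cons_cons a ?_
        refine List.Sublist.append (List.Sublist.refl M) ?_
        simp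
      exact h1.trans (List.sublist_append_right _ _)
    exact this.nodup hn
  have hvD : v ≠ e ∧ v ∉ U ++ [u] ∧ v ∉ w :: V := by
    have h1 : a :: (M ++ [e]) = (a :: M1) ++ v :: (M2 ++ [e]) := by rw [hM]; simp
    rw [h1, List.nodup_append] at hnD
    have hnD2 := List.nodup_cons.1 hnD.2.1
    refine ⟨?_, ?_, ?_⟩
    · rintro rfl
      exact hnD2.1 (by simp)
    · rw [← hU]
      intro h
      exact hnD.2.2 v h v (by simp) rfl
    · rw [← hV]
      exact hnD2.1
  have a1 : v ∉ (e :: U) ++ [u] := by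
    simp only [cons_append, mem_cons, not_or]
    exact ⟨hvD.1, hvD.2.1⟩
  classical
  have hch : ∀ y, ch (e :: (a :: (M ++ [e]))) v y =
      (if y = u then 1 else 0) + (if y = w then 1 else 0) := by
    intro y
    rw [hD, ch_at a1 hvD.2.2]
  refine jordan hT (x0 := e) (L := a :: (M ++ [e])) ?_ ?_ (v := v) (u := u) (w := w)
    (X := b :: X) (Y := Y)
    (by simpa using n) (fun y hy => (m y).1 (by simpa using hy)) (by simpa using c)
    (fun y h1 h2 => ?_) ?_ (b := b) (y := y) (by simp) hyY ?_ ?_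
  · rw [isChain_cons_cons]
    refine ⟨hae.symm, ?_⟩
    have h1 := hI.chain
    have h2 : p = P ++ ((a :: (M ++ [e])) ++ Q) := by rw [hp]; simp
    rw [h2] at h1
    exact h1.right_of_append.left_of_append
  · simp
  · rw [hch]
    simp [h1, h2]
  · rw [hch]
    simp [huw]
  · exact fun h => hb (hI.sub _ (subD _ h))
  · obtain ⟨b', hb', hyb'⟩ := hI.nbr hy
    have h1 : Relation.ReflTransGen (fun q q' => T.Adj q q' ∧ q' ∉ e :: (a :: (M ++ [e]))) b b' := by
      refine rtg_mono ?_ (hI.i5 b b' hb hb')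
      rintro q q' ⟨h1, h2⟩
      exact ⟨h1, fun h => h2 (hI.sub _ (subD _ h))⟩
    exact h1.tail ⟨hyb'.symm, yD⟩

theorem common_nbr (A : Finset W) {R : W → W → Prop}
    (hR : ∀ x y, R x y → T.Adj x y ∧ ∃ b, b ∉ A ∧ T.Adj x b ∧ T.Adj y b) :
    ∀ (M : List W) (a e : W), (a :: (M ++ [e])).IsChain R →
      (∀ v ∈ M, ∀ b b', b ∉ A → b' ∉ A → T.Adj v b → T.Adj v b' → b = b') →
      ∃ b, b ∉ A ∧ ∀ x ∈ a :: (M ++ [e]), T.Adj x b
  | [], a, e, hc, _ => by
    simp only [nil_append, isChain_cons_cons] at hc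
    obtain ⟨-, b, hb, h1, h2⟩ := hR _ _ hc.1
    exact ⟨b, hb, by simp [h1, h2]⟩
  | m :: M, a, e, hc, hu => by
    simp only [cons_append, isChain_cons_cons] at hc
    obtain ⟨b, hb, h⟩ := common_nbr A hR M m e hc.2 fun v hv => hu v (by simp [hv])
    obtain ⟨-, b', hb', h1, h2⟩ := hR _ _ hc.1
    have : b' = b := hu m (by simp) _ _ hb' hb h2 (h m (by simp))
    subst this
    refine ⟨b', hb, ?_⟩
    intro x hx
    rcases List.mem_cons.1 hx with rfl | hx
    · exact h1
    · exact h x (by simpa using hx)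

theorem choose_two (hT : Tri T) (hI : Inv T z v1 v2 A p) {P M Q : List W} {a e : W}
    (hp : p = P ++ a :: (M ++ e :: Q)) (hM : M ≠ []) (hae : T.Adj a e)
    (hB : ∃ b, b ∉ A ∧ b ≠ z) :
    ∃ v ∈ M, ∃ b b', b ∉ A ∧ b' ∉ A ∧ b ≠ b' ∧ T.Adj v b ∧ T.Adj v b' := by
  by_contra hcon
  push Not at hcon
  have hR : ∀ x y, (T.Adj x y ∧ ∃ b, b ∉ A ∧ T.Adj x b ∧ T.Adj y b) →
    (T.Adj x y ∧ ∃ b, b ∉ A ∧ T.Adj x b ∧ T.Adj y b) := fun x y h => h
  have hch : p.IsChain (fun x y => T.Adj x y ∧ ∃ b, b ∉ A ∧ T.Adj x b ∧ T.Adj y b) := by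
    rw [c2_chain]
    exact hI.i2
  have hp2 : p = P ++ ((a :: (M ++ [e])) ++ Q) := by rw [hp]; simp
  have hch2 : (a :: (M ++ [e])).IsChain
      (fun x y => T.Adj x y ∧ ∃ b, b ∉ A ∧ T.Adj x b ∧ T.Adj y b) := by
    rw [hp2] at hch
    exact hch.right_of_append.left_of_append
  obtain ⟨β, hβ, hall⟩ := common_nbr (T := T) A hR M a e hch2 (by
    intro v hv b b' hb hb' h1 h2
    by_contra hne
    exact hcon v hv b b' hb hb' hne h1 h2)
  have hnD : (a :: (M ++ [e])).Nodup := by
    have : (a :: (M ++ [e])).Sublist p := by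
      rw [hp2]
      exact (List.sublist_append_left _ _).trans (List.sublist_append_right _ _)
    exact this.nodup hI.nodup
  have hcD : (a :: (M ++ [e])).IsChain T.Adj := hch2.imp fun x y h => h.1
  have hlen : 3 ≤ (a :: (M ++ [e])).length := by
    cases M with
    | nil => exact absurd rfl hM
    | cons x M => simp
  have subD : ∀ x ∈ a :: (M ++ [e]), x ∈ A := by
    intro x hx
    apply hI.sub
    rw [hp2]
    exact List.mem_append_right _ (List.mem_append_left _ hx)
  -- the neighbourhood of `β` is contained in the cycle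
  have hclosed : ∀ x ∈ a :: (M ++ [e]), ∀ y, T.Adj β y → T.Adj x y → y ∈ a :: (M ++ [e]) := by
    intro x hx y hβy hxy
    obtain ⟨f, m, g, l1, l2, -, -, h1, h2, h3⟩ := closed_at hnD hlen hcD (by
      intro x y hx hy
      simp at hx
      rw [← List.cons_append, List.getLast?_append] at hy
      simp at hy
      subst hx hy
      exact hae.symm) hx
    have hf := (h2 f).1 (by simp)
    have hg := (h2 g).1 (by simp)
    have hxf : T.Adj x f := by
      simp only [isChain_cons_cons] at h3
      exact h3.1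
    have hxg : T.Adj x g := by
      have h5 : x :: f :: (m ++ [g, x]) = (x :: f :: m) ++ g :: x :: [] := by simp
      exact (List.isChain_iff_forall_rel_of_append_cons_cons.1 h3 h5).symm
    have hfg : f ≠ g := by
      rintro rfl
      simp at h1
    obtain ⟨c, d, -, hcd⟩ := hT.two β x (hall x hx).symm
    have a1 := (hcd f).1 ⟨(hall f hf).symm, hxf⟩
    have a2 := (hcd g).1 ⟨(hall g hg).symm, hxg⟩
    have a3 := (hcd y).1 ⟨hβy, hxy⟩
    have : y = f ∨ y = g := by grind
    rcases this with rfl | rfl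
    · exact hf
    · exact hg
  have hN : ∀ y, T.Adj β y → y ∈ a :: (M ++ [e]) := by
    obtain ⟨f, m, g, h1, h2, h3, -⟩ := link_at hT (hall a (by simp)).symm
    have h4 : (a :: f :: (m ++ [g])).IsChain T.Adj := by
      have h6 : a :: f :: (m ++ [g, a]) = (a :: f :: (m ++ [g])) ++ [a] := by simp
      rw [h6] at h3
      exact h3.left_of_append
    have h5 := chain_prop (p := fun y => y ∈ a :: (M ++ [e])) (l := f :: (m ++ [g])) (a := a) (by
      rw [List.isChain_iff_forall_rel_of_append_cons_cons] at h4 ⊢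
      intro s t l1 l2 h hs
      exact hclosed s hs t ((h2 t).1 (by rw [h]; simp)) (h4 h)) (by simp)
    intro y hy
    exact h5 y ((h2 y).2 hy)
  -- contradiction with connectedness of the complement
  obtain ⟨b0, hb0, hb0z⟩ := hB
  obtain ⟨b1, hb1, hne⟩ : ∃ b1, b1 ∉ A ∧ b1 ≠ β := by
    by_cases h : z = β
    · exact ⟨b0, hb0, h ▸ hb0z⟩
    · exact ⟨z, hI.hz, h⟩
  rcases Relation.ReflTransGen.cases_head (hI.i5 β b1 hβ hb1) with h | ⟨q, ⟨h1, h2⟩, -⟩
  · exact hne h.symm
  · exact h2 (subD q (hN q h1))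

open Classical in
theorem inv_step (hT : Tri T) (h12 : T.Adj v1 v2) (hI : Inv T z v1 v2 A p)
    {P Q : List W} {u v w : W} (hp : p = P ++ u :: v :: w :: Q)
    (hcf : ∀ y ∈ p, T.Adj v y → y = u ∨ y = w) :
    ∃ M, Inv T z v1 v2 (A.erase v) (P ++ u :: (M ++ w :: Q)) ∧
      (∀ x ∈ A.erase v, T.Adj v x ↔ (x = u ∨ x ∈ M ∨ x = w)) ∧ ∀ m ∈ M, m ∈ A ∧ m ∉ p := by
  obtain ⟨b, X, Y, hb, n, m, c, hX⟩ := local_link hT hI hp
  have hY := full_side hT h12 hI hp hb n m c
  have hn := hI.nodup
  have hvp : v ∈ p := by rw [hp]; simp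
  have hvA : v ∈ A := hI.sub v hvp
  have hup : u ∈ p := by rw [hp]; simp
  have hwp : w ∈ p := by rw [hp]; simp
  obtain ⟨hv1, hv2⟩ := ne_of_interior hI hp
  have hvu : T.Adj v u := (m u).1 (by simp)
  have hvw : T.Adj v w := (m w).1 (by simp)
  have hvb : T.Adj v b := (m b).1 (by simp)
  have n' : (u ∉ Y ∧ w ∉ Y ∧ u ≠ w ∧ Y.Nodup) := by
    simp only [List.nodup_cons, List.nodup_append, mem_cons, mem_append] at n
    grind
  have hYp : ∀ y ∈ Y, y ∉ p := by
    intro y hy hyp
    rcases hcf y hyp ((m y).1 (by simp [hy])) with rfl | rfl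
    · exact n'.1 hy
    · exact n'.2.1 hy
  have hYv : ∀ y ∈ Y, y ≠ v := by
    rintro y hy rfl
    exact hYp _ hy hvp
  have hNA : ∀ x ∈ A, T.Adj v x ↔ (x = u ∨ x ∈ Y ∨ x = w) := by
    intro x hx
    rw [← m]
    simp only [mem_cons, mem_append]
    constructor
    · rintro (h | h | h | h | h)
      · exact Or.inr (Or.inr h)
      · subst h; exact absurd hx hb
      · exact absurd hx (hX x (by simp [h]))
      · exact Or.inl h
      · exact Or.inr (Or.inl h)
    · tauto
  have hpne : v ∉ P ∧ v ≠ u ∧ v ≠ w ∧ v ∉ Q := by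
    rw [hp] at hn
    simp only [List.nodup_append, List.nodup_cons, mem_cons] at hn
    grind
  have split_p : ∀ x y, C2 p x y ↔ C2 (P ++ [u]) x y ∨ (x = u ∧ y = v) ∨ (x = v ∧ y = w) ∨
      C2 (w :: Q) x y := by
    intro x y
    rw [hp, c2_split]
    simp only [C2]
  have split_p' : ∀ x y, C2 (P ++ u :: (Y ++ w :: Q)) x y ↔
      C2 (P ++ [u]) x y ∨ C2 (u :: (Y ++ [w])) x y ∨ C2 (w :: Q) x y := by
    intro x y
    rw [c2_split P u, ← List.cons_append, c2_split (u :: Y) w Q]
    simp only [cons_append]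
  have c' : (w :: (b :: X ++ u :: (Y ++ [w]))).IsChain T.Adj := c
  have cuw : (u :: (Y ++ [w])).IsChain T.Adj := (List.isChain_cons_split.1 c').2
  refine ⟨Y, ?_, ?_, fun y hy => ⟨hY y hy, hYp y hy⟩⟩
  · constructor
    · exact fun h => hI.hz (Finset.mem_of_mem_erase h)
    · -- nodup
      rw [hp] at hn hYp
      simp only [List.nodup_append, List.nodup_cons, mem_cons, mem_append] at hn hYp ⊢
      grind
    · intro x hx
      rw [Finset.mem_erase]
      simp only [mem_append, mem_cons] at hx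
      rcases hx with h | h | h | h | h
      · refine ⟨?_, hI.sub x (by rw [hp]; simp [h])⟩
        rintro rfl
        exact hpne.1 h
      · subst h
        exact ⟨hpne.2.1.symm, hI.sub x hup⟩
      · exact ⟨hYv x h, hY x h⟩
      · subst h
        exact ⟨hpne.2.2.1.symm, hI.sub x hwp⟩
      · refine ⟨?_, hI.sub x (by rw [hp]; simp [h])⟩
        rintro rfl
        exact hpne.2.2.2 h
    · obtain ⟨mid, hmid⟩ := hI.hd
      obtain ⟨S, hS⟩ : ∃ S, P ++ [u] = v1 :: S := by
        cases P with
        | nil =>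
          rw [hp] at hmid
          simp at hmid
          exact ⟨[], by simp [hmid.1]⟩
        | cons x P =>
          rw [hp] at hmid
          simp at hmid
          exact ⟨P ++ [u], by simp [hmid.1]⟩
      obtain ⟨R, hR⟩ : ∃ R, w :: Q = R ++ [v2] := by
        rcases List.eq_nil_or_concat (w :: Q) with h | ⟨R, t, h⟩
        · simp at h
        · have h' : w :: Q = R ++ [t] := by simpa using h
          refine ⟨R, ?_⟩
          have h1 : (v1 :: mid) ++ [v2] = (P ++ [u, v] ++ R) ++ [t] := by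
            rw [List.append_assoc, ← h']
            simp only [cons_append]
            rw [← hmid, hp]
            simp
          have h2 := List.append_inj' h1 rfl
          simp at h2
          rw [h', h2.2]
      refine ⟨S ++ Y ++ R, ?_⟩
      calc P ++ u :: (Y ++ w :: Q) = (P ++ [u]) ++ (Y ++ (w :: Q)) := by simp
        _ = _ := by rw [hS, hR]; simp
    · intro x y h
      rw [split_p'] at h
      rcases h with h | h | h
      · obtain ⟨h1, b, h2, h3, h4⟩ := hI.i2 x y ((split_p x y).2 (Or.inl h))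
        exact ⟨h1, b, fun h => h2 (Finset.mem_of_mem_erase h), h3, h4⟩
      · have h1 : T.Adj x y := c2_chain.1 cuw x y h
        have hx : T.Adj v x := by
          rw [← m]
          have := c2_mem_left h
          simp only [mem_cons, mem_append, not_mem_nil, or_false] at this ⊢
          tauto
        have hy : T.Adj v y := by
          rw [← m]
          have := c2_mem_right h
          simp only [mem_cons, mem_append, not_mem_nil, or_false] at this ⊢
          tauto
        exact ⟨h1, v, by simp, hx.symm, hy.symm⟩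
      · obtain ⟨h1, b, h2, h3, h4⟩ := hI.i2 x y ((split_p x y).2 (Or.inr (Or.inr (Or.inr h))))
        exact ⟨h1, b, fun h => h2 (Finset.mem_of_mem_erase h), h3, h4⟩
    · intro x hx hxp y hxy
      rw [Finset.mem_erase] at hx ⊢
      have hxp' : x ∉ p := by
        rw [hp]
        simp only [mem_append, mem_cons] at hxp ⊢
        have := hx.1
        tauto
      refine ⟨?_, hI.i3 x hx.2 hxp' y hxy⟩
      rintro rfl
      have := (hNA x hx.2).1 hxy.symm
      simp only [mem_append, mem_cons] at hxp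
      tauto
    · intro x hx y hy hxy b' hb' hxb hyb
      rw [Finset.mem_erase] at hx hy hb'
      rw [split_p', split_p']
      by_cases hb'v : b' = v
      · subst hb'v
        -- both are neighbours of `v`
        have hl : 2 ≤ (b :: (X ++ u :: Y)).length := by simp; omega
        have harc : ∀ x y, x ∈ A → y ∈ A → ¬ C2 (w :: b :: (X ++ [u])) x y := by
          intro x y hx hy h
          rcases arc_pair h with h | h
          · exact hX x h hx
          · exact hX y h hy
        rcases closed_consec hT n hl m (by simpa using c) hxb.symm hyb.symm hxy with h | h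
        · have h1 : C2 ((w :: b :: X) ++ u :: (Y ++ [w])) x y := by simpa using h
          rw [c2_split] at h1
          rcases h1 with h1 | h1
          · exact absurd (by simpa using h1) (harc x y hx.2 hy.2)
          · exact Or.inl (Or.inr (Or.inl h1))
        · have h1 : C2 ((w :: b :: X) ++ u :: (Y ++ [w])) y x := by simpa using h
          rw [c2_split] at h1
          rcases h1 with h1 | h1
          · exact absurd (by simpa using h1) (harc y x hy.2 hx.2)
          · exact Or.inr (Or.inl (Or.inr (Or.inl h1)))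
      · have hb'A : b' ∉ A := fun h => hb' ⟨hb'v, h⟩
        have := hI.i4 x hx.2 y hy.2 hxy b' hb'A hxb hyb
        rw [split_p, split_p] at this
        have h1 := hx.1
        have h2 := hy.1
        tauto
    · -- connectedness
      have key : ∀ s, s ∉ A.erase v →
          Relation.ReflTransGen (fun q q' => T.Adj q q' ∧ q' ∉ A.erase v) s b ∧
          Relation.ReflTransGen (fun q q' => T.Adj q q' ∧ q' ∉ A.erase v) b s := by
        intro s hs
        have hmono : ∀ q q', (T.Adj q q' ∧ q' ∉ A) → (T.Adj q q' ∧ q' ∉ A.erase v) :=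
          fun q q' h => ⟨h.1, fun h' => h.2 (Finset.mem_of_mem_erase h')⟩
        by_cases hsv : s = v
        · subst hsv
          exact ⟨Relation.ReflTransGen.single ⟨hvb, fun h => hb (Finset.mem_of_mem_erase h)⟩,
            Relation.ReflTransGen.single ⟨hvb.symm, hs⟩⟩
        · have hsA : s ∉ A := fun h => hs (Finset.mem_erase.2 ⟨hsv, h⟩)
          exact ⟨rtg_mono hmono (hI.i5 s b hsA hb), rtg_mono hmono (hI.i5 b s hb hsA)⟩
      intro s s' hs hs'
      exact (key s hs).1.trans (key s' hs').2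
  · intro x hx
    exact hNA x (Finset.mem_of_mem_erase hx)

/-! ## The construction -/

/-- `y` has been placed later than `x`. -/
def Later (ord : List W) (x y : W) : Prop := ∃ l₁ l₂, ord = l₁ ++ y :: l₂ ∧ x ∈ l₂

/-- All vertices have two neighbours outside of `A` or placed later. -/
def Star (T : SimpleGraph W) (v1 v2 : W) (A : Finset W) (ord : List W) : Prop :=
  ∀ x ∈ A, x ≠ v1 → x ≠ v2 → ∃ y1 y2, y1 ≠ y2 ∧ T.Adj x y1 ∧ T.Adj x y2 ∧
    (y1 ∉ A ∨ Later ord x y1) ∧ (y2 ∉ A ∨ Later ord x y2)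

theorem exists_chord (h12 : T.Adj v1 v2) (hI : Inv T z v1 v2 A p) (hl : 3 ≤ p.length) :
    ∃ P a M e Q, p = P ++ a :: (M ++ e :: Q) ∧ M ≠ [] ∧ T.Adj a e ∧
      ∀ P' a' M' e' Q', p = P' ++ a' :: (M' ++ e' :: Q') → M' ≠ [] → T.Adj a' e' →
        M.length ≤ M'.length := by
  classical
  have hex : ∃ n, ∃ P a M e Q, p = P ++ a :: (M ++ e :: Q) ∧ M ≠ [] ∧ T.Adj a e ∧
      M.length = n := by
    obtain ⟨mid, hmid⟩ := hI.hd
    refine ⟨mid.length, [], v1, mid, v2, [], by simpa using hmid, ?_, h12, rfl⟩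
    rintro rfl
    rw [hmid] at hl
    simp at hl
  obtain ⟨P, a, M, e, Q, h1, h2, h3, h4⟩ := Nat.find_spec hex
  refine ⟨P, a, M, e, Q, h1, h2, h3, ?_⟩
  intro P' a' M' e' Q' h1' h2' h3'
  rw [h4]
  exact Nat.find_min' hex ⟨P', a', M', e', Q', h1', h2', h3', rfl⟩

theorem exists_cut (hT : Tri T) (hI : Inv T z v1 v2 A p) {P M Q : List W} {a e : W}
    (hp : p = P ++ a :: (M ++ e :: Q)) (hae : T.Adj a e)
    (hmin : ∀ P' a' M' e' Q', p = P' ++ a' :: (M' ++ e' :: Q') → M' ≠ [] → T.Adj a' e' →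
      M.length ≤ M'.length) {v : W} (hv : v ∈ M) :
    ∃ P' u w Q', p = P' ++ u :: v :: w :: Q' ∧ ∀ y ∈ p, T.Adj v y → y = u ∨ y = w := by
  obtain ⟨M1, M2, hM⟩ := List.append_of_mem hv
  obtain ⟨U, u, hU⟩ : ∃ U u, a :: M1 = U ++ [u] := by
    rcases List.eq_nil_or_concat (a :: M1) with h | ⟨m, g, h⟩
    · simp at h
    · exact ⟨m, g, by simpa using h⟩
  obtain ⟨w, V, hV⟩ : ∃ w V, M2 ++ [e] = w :: V := by
    cases M2 with
    | nil => exact ⟨e, [], rfl⟩
    | cons x M2 => exact ⟨x, M2 ++ [e], rfl⟩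
  refine ⟨P ++ U, u, w, V ++ Q, ?_, no_chord hT hI hp hae hmin hM hU hV⟩
  have h1 : p = P ++ ((a :: M1) ++ v :: ((M2 ++ [e]) ++ Q)) := by rw [hp, hM]; simp
  rw [h1, hU, hV]
  simp

open Classical in
theorem extend (hI : Inv T z v1 v2 A p) {P Q M : List W} {u v w : W}
    (hp : p = P ++ u :: v :: w :: Q)
    (hN : ∀ x ∈ A.erase v, T.Adj v x ↔ (x = u ∨ x ∈ M ∨ x = w))
    (hM : ∀ m ∈ M, m ∈ A ∧ m ∉ p) {ord : List W}
    (hC : Canon T ord (P ++ u :: (M ++ w :: Q))) (hm : ∀ x, x ∈ ord ↔ x ∈ A.erase v)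
    (hS : Star T v1 v2 (A.erase v) ord) :
    Canon T (v :: ord) p ∧ ∀ x, x ∈ v :: ord ↔ x ∈ A := by
  have hvp : v ∈ p := by rw [hp]; simp
  have hvA : v ∈ A := hI.sub v hvp
  obtain ⟨mid, hmid⟩ := hI.hd
  constructor
  · rw [hp]
    refine Canon.step ord P M Q u v w hC (fun h => ?_) (fun x hx => hN x ((hm x).1 hx)) ?_
    · exact Finset.notMem_erase v A ((hm v).1 h)
    · intro m hmM
      obtain ⟨hmA, hmp⟩ := hM m hmM
      have hmv : m ≠ v := by
        rintro rfl
        exact hmp hvp
      have hm1 : m ≠ v1 := by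
        rintro rfl
        exact hmp (by rw [hmid]; simp)
      have hm2 : m ≠ v2 := by
        rintro rfl
        exact hmp (by rw [hmid]; simp)
      obtain ⟨y1, y2, hne, ha1, ha2, hy1, hy2⟩ := hS m (Finset.mem_erase.2 ⟨hmv, hmA⟩) hm1 hm2
      have key : ∀ y, T.Adj m y → (y ∉ A.erase v ∨ Later ord m y) → y = v ∨ Later ord m y := by
        rintro y hy (h | h)
        · left
          by_contra hyv
          exact h (Finset.mem_erase.2 ⟨hyv, hI.i3 m hmA hmp y hy⟩)
        · exact Or.inr h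
      rcases key y1 ha1 hy1 with h1 | h1
      · rcases key y2 ha2 hy2 with h2 | h2
        · exact absurd (h1.trans h2.symm) hne
        · obtain ⟨l1, l2, h3, h4⟩ := h2
          exact ⟨l1, y2, l2, h3, h4, ha2⟩
      · obtain ⟨l1, l2, h3, h4⟩ := h1
        exact ⟨l1, y1, l2, h3, h4, ha1⟩
  · intro x
    rw [List.mem_cons, hm, Finset.mem_erase]
    constructor
    · rintro (rfl | h)
      · exact hvA
      · exact h.2
    · intro h
      by_cases hx : x = v
      · exact Or.inl hx
      · exact Or.inr ⟨hx, h⟩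

theorem main (hT : Tri T) (h12 : T.Adj v1 v2) : ∀ (n : ℕ) (A : Finset W) (p : List W),
    A.card = n → Inv T z v1 v2 A p → (∃ b, b ∉ A ∧ b ≠ z) →
      ∃ ord, Canon T ord p ∧ (∀ x, x ∈ ord ↔ x ∈ A) ∧ Star T v1 v2 A ord := by
  classical
  intro n
  induction n with
  | zero =>
    intro A p hc hI _
    obtain ⟨mid, hmid⟩ := hI.hd
    have : v1 ∈ A := hI.sub v1 (by rw [hmid]; simp)
    rw [Finset.card_eq_zero.1 hc] at this
    simp at this
  | succ n ih =>
    intro A p hc hI hB
    by_cases hl : 3 ≤ p.length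
    · obtain ⟨P, a, M, e, Q, hp, hM, hae, hmin⟩ := exists_chord h12 hI hl
      obtain ⟨v, hv, b, b', hb, hb', hbb, hvb, hvb'⟩ := choose_two hT hI hp hM hae hB
      obtain ⟨P', u, w, Q', hp', hcf⟩ := exists_cut hT hI hp hae hmin hv
      obtain ⟨M', hI', hN, hM'⟩ := inv_step hT h12 hI hp' hcf
      have hvp : v ∈ p := by rw [hp']; simp
      have hvA : v ∈ A := hI.sub v hvp
      have hvz : v ≠ z := by
        rintro rfl
        exact hI.hz hvA
      obtain ⟨ord, hC, hm, hS⟩ := ih (A.erase v) _ (by rw [Finset.card_erase_of_mem hvA, hc]; rfl)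
        hI' ⟨v, Finset.notMem_erase v A, hvz⟩
      obtain ⟨h1, h2⟩ := extend hI hp' hN hM' hC hm hS
      refine ⟨v :: ord, h1, h2, ?_⟩
      intro x hx hx1 hx2
      by_cases hxv : x = v
      · subst hxv
        exact ⟨b, b', hbb, hvb, hvb', Or.inl hb, Or.inl hb'⟩
      · obtain ⟨y1, y2, hne, ha1, ha2, hy1, hy2⟩ := hS x (Finset.mem_erase.2 ⟨hxv, hx⟩) hx1 hx2
        have key : ∀ y, (y ∉ A.erase v ∨ Later ord x y) → (y ∉ A ∨ Later (v :: ord) x y) := by
          rintro y (h | h)
          · by_cases hyv : y = v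
            · subst hyv
              exact Or.inr ⟨[], ord, rfl, (hm x).2 (Finset.mem_erase.2 ⟨hxv, hx⟩)⟩
            · exact Or.inl fun h' => h (Finset.mem_erase.2 ⟨hyv, h'⟩)
          · obtain ⟨l1, l2, h3, h4⟩ := h
            exact Or.inr ⟨v :: l1, l2, by rw [h3]; rfl, h4⟩
        exact ⟨y1, y2, hne, ha1, ha2, key y1 hy1, key y2 hy2⟩
    · obtain ⟨mid, hmid⟩ := hI.hd
      have hmid0 : mid = [] := by
        rw [hmid] at hl
        simp at hl
        exact hl
      have hp2 : p = [v1, v2] := by rw [hmid, hmid0]; rfl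
      rw [hp2] at hI ⊢
      refine ⟨[v2, v1], Canon.base v1 v2 h12, ?_, ?_⟩
      · intro x
        constructor
        · intro h
          exact hI.sub x (by simp at h ⊢; tauto)
        · intro h
          have := two_case hT hI h
          simp
          tauto
      · intro x hx h1 h2
        rcases two_case hT hI hx with h | h
        · exact absurd h h1
        · exact absurd h h2

open Classical in
theorem start [Fintype W] (hT : Tri T) (z : W) : ∃ v1 v2 p, T.Adj v1 v2 ∧ 3 ≤ p.length ∧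
    Inv T z v1 v2 (Finset.univ.erase z) p := by
  obtain ⟨l, hn, hl, hm, hc, hr⟩ := hT.link z
  obtain ⟨v1, L, rfl⟩ : ∃ v1 L, l = v1 :: L := by
    cases l with
    | nil => simp at hl
    | cons x l => exact ⟨x, l, rfl⟩
  obtain ⟨mid, v2, rfl⟩ : ∃ mid v2, L = mid ++ [v2] := by
    rcases List.eq_nil_or_concat L with h | ⟨m, g, h⟩
    · rw [h] at hl; simp at hl
    · exact ⟨m, g, by simpa using h⟩
  have h21 : T.Adj v2 v1 := hr v1 v2 rfl (by simp [List.getLast?_cons])
  refine ⟨v1, v2, v1 :: (mid ++ [v2]), h21.symm, hl, ?_⟩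
  have hzb : ∀ b, b ∉ (Finset.univ.erase z : Finset W) ↔ b = z := by
    intro b
    simp
  constructor
  · simp
  · exact hn
  · intro x hx
    have := ((hm x).1 hx).ne
    simp [this.symm]
  · exact ⟨mid, rfl⟩
  · intro x y h
    refine ⟨c2_chain.1 hc x y h, z, by simp, ((hm x).1 (c2_mem_left h)).symm,
      ((hm y).1 (c2_mem_right h)).symm⟩
  · intro x _ hx y hxy
    rw [Finset.mem_erase]
    refine ⟨?_, Finset.mem_univ y⟩
    rintro rfl
    exact hx ((hm x).2 hxy.symm)
  · intro x _ y _ hxy b hb hxb hyb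
    rw [hzb] at hb
    subst hb
    have hc' : (v1 :: (mid ++ [v2] ++ [v1])).IsChain T.Adj := by
      have : v1 :: (mid ++ [v2] ++ [v1]) = (v1 :: mid) ++ v2 :: v1 :: [] := by simp
      rw [this, List.isChain_append_cons_cons]
      exact ⟨by simpa using hc, h21, by simp⟩
    have key : ∀ x y, C2 (v1 :: (mid ++ [v2] ++ [v1])) x y →
        C2 (v1 :: (mid ++ [v2])) x y ∨ (x = v2 ∧ y = v1) := by
      intro x y h
      have : v1 :: (mid ++ [v2] ++ [v1]) = (v1 :: mid) ++ v2 :: [v1] := by simp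
      rw [this, c2_split] at h
      rcases h with h | h
      · exact Or.inl (by simpa using h)
      · right
        simpa [C2] using h
    have hlen : 2 ≤ (mid ++ [v2]).length := by
      simp at hl ⊢
      omega
    rcases closed_consec hT hn hlen hm hc' hxb.symm hyb.symm hxy with h | h
    · rcases key x y h with h | h
      · exact Or.inl h
      · exact Or.inr (Or.inr (Or.inr h))
    · rcases key y x h with h | h
      · exact Or.inr (Or.inl h)
      · exact Or.inr (Or.inr (Or.inl ⟨h.2, h.1⟩))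
  · intro b b' hb hb'
    rw [hzb] at hb hb'
    rw [hb, hb']

end Pool.Agent.MP_cdcb37.Can

namespace Pool.Agent.MP_cdcb37

open Can in
/-- CAN: canonical orders. -/
theorem specCan : SpecCan := by
  classical
  intro W _ T z hT
  obtain ⟨v1, v2, p, h12, hl, hI⟩ := start hT z
  obtain ⟨P, a, M, e, Q, hp, hM, hae, hmin⟩ := exists_chord h12 hI hl
  obtain ⟨v, hv⟩ : ∃ v, v ∈ M := List.exists_mem_of_ne_nil M hM
  obtain ⟨P', u, w, Q', hp', hcf⟩ := exists_cut hT hI hp hae hmin hv
  obtain ⟨M', hI', hN, hM'⟩ := inv_step hT h12 hI hp' hcf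
  have hvp : v ∈ p := by rw [hp']; simp
  have hvA := hI.sub v hvp
  have hvz : v ≠ z := by
    rintro rfl
    exact hI.hz hvA
  obtain ⟨ord, hC, hm, hS⟩ := main hT h12 _ _ _ rfl hI'
    ⟨v, Finset.notMem_erase v _, hvz⟩
  obtain ⟨h1, h2⟩ := extend hI hp' hN hM' hC hm hS
  refine ⟨v :: ord, p, h1, ?_⟩
  intro x
  rw [h2]
  simp

end Pool.Agent.MP_cdcb37
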