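import Pool.Agent.Lib.MP_cdcb37_lc.Spec

/-!
# Module CONN: reduction to connected graphs
-/

namespace Pool.Agent.MP_cdcb37

open Finset

section glue
variable {V : Type} (K : V → Prop) [DecidablePred K]

/-- Gluing positions of two parts, the second part being moved by `M`. -/
def conn_glue (X1 : {v // K v} → ℕ) (X2 : {v // ¬ K v} → ℕ) (M : ℕ) (v : V) : ℕ :=
  if h : K v then X1 ⟨v, h⟩ else X2 ⟨v, h⟩ + M

variable {K}

theorem conn_glue_pos (X1 : {v // K v} → ℕ) (X2 : {v // ¬ K v} → ℕ) (M : ℕ) {v : V} (h : K v) :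
    conn_glue K X1 X2 M v = X1 ⟨v, h⟩ := dif_pos h

theorem conn_glue_neg (X1 : {v // K v} → ℕ) (X2 : {v // ¬ K v} → ℕ) (M : ℕ) {v : V}
    (h : ¬ K v) : conn_glue K X1 X2 M v = X2 ⟨v, h⟩ + M := dif_neg h

theorem conn_glue_inj (X1 : {v // K v} → ℕ) (X2 : {v // ¬ K v} → ℕ) (M : ℕ)
    (h1 : Function.Injective X1) (h2 : Function.Injective X2) (hM : ∀ v, X1 v < M) :
    Function.Injective (conn_glue K X1 X2 M) := by
  intro a b h
  by_cases ha : K a <;> by_cases hb : K b
  · rw [conn_glue_pos _ _ _ ha, conn_glue_pos _ _ _ hb] at h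
    simpa using h1 h
  · rw [conn_glue_pos _ _ _ ha, conn_glue_neg _ _ _ hb] at h
    have := hM ⟨a, ha⟩
    omega
  · rw [conn_glue_neg _ _ _ ha, conn_glue_pos _ _ _ hb] at h
    have := hM ⟨b, hb⟩
    omega
  · rw [conn_glue_neg _ _ _ ha, conn_glue_neg _ _ _ hb] at h
    simpa using h2 (show X2 ⟨a, ha⟩ = X2 ⟨b, hb⟩ by omega)

end glue

/-- Strong placements of two parts without edges between them. -/
theorem conn_two {V : Type} [Fintype V] (G : SimpleGraph V) (K : V → Prop)
    (hK : ∀ a b, G.Adj a b → (K a ↔ K b))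
    (h1 : HasStrong (G.comap (Subtype.val : {v // K v} → V)))
    (h2 : HasStrong (G.comap (Subtype.val : {v // ¬ K v} → V))) : HasStrong G := by
  classical
  obtain ⟨X1, Y1, iX1, iY1, p1, o1⟩ := h1
  obtain ⟨X2, Y2, iX2, iY2, p2, o2⟩ := h2
  obtain ⟨M, hMX⟩ : ∃ M, ∀ v, X1 v < M := by
    refine ⟨(univ : Finset {v // K v}).sup X1 + 1, fun v => ?_⟩
    have := Finset.le_sup (f := X1) (mem_univ v)
    omega
  obtain ⟨N, hMY⟩ : ∃ N, ∀ v, Y1 v < N := by
    refine ⟨(univ : Finset {v // K v}).sup Y1 + 1, fun v => ?_⟩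
    have := Finset.le_sup (f := Y1) (mem_univ v)
    omega
  refine ⟨conn_glue K X1 X2 M, conn_glue K Y1 Y2 N, conn_glue_inj _ _ _ iX1 iX2 hMX,
    conn_glue_inj _ _ _ iY1 iY2 hMY, ?_, ?_⟩
  · intro a b c d hab hcd g1 g2 g3 g4
    by_cases ha : K a <;> by_cases hc : K c
    · have hb := (hK a b hab).1 ha
      have hd := (hK c d hcd).1 hc
      have := p1 ⟨a, ha⟩ ⟨b, hb⟩ ⟨c, hc⟩ ⟨d, hd⟩ hab hcd (by simpa using g1) (by simpa using g2)
        (by simpa using g3) (by simpa using g4)
      unfold Sep at this ⊢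
      simpa only [conn_glue_pos _ _ _ ha, conn_glue_pos _ _ _ hb, conn_glue_pos _ _ _ hc,
        conn_glue_pos _ _ _ hd] using this
    · have hb := (hK a b hab).1 ha
      have hd := fun h => hc ((hK c d hcd).2 h)
      left; left
      rw [conn_glue_pos _ _ _ ha, conn_glue_pos _ _ _ hb, conn_glue_neg _ _ _ hc,
        conn_glue_neg _ _ _ hd]
      have ka := hMX ⟨a, ha⟩
      have kb := hMX ⟨b, hb⟩
      omega
    · have hb := fun h => ha ((hK a b hab).2 h)
      have hd := (hK c d hcd).1 hc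
      left; right
      rw [conn_glue_neg _ _ _ ha, conn_glue_neg _ _ _ hb, conn_glue_pos _ _ _ hc,
        conn_glue_pos _ _ _ hd]
      have ka := hMX ⟨c, hc⟩
      have kb := hMX ⟨d, hd⟩
      omega
    · have hb := fun h => ha ((hK a b hab).2 h)
      have hd := fun h => hc ((hK c d hcd).2 h)
      have := p2 ⟨a, ha⟩ ⟨b, hb⟩ ⟨c, hc⟩ ⟨d, hd⟩ hab hcd (by simpa using g1) (by simpa using g2)
        (by simpa using g3) (by simpa using g4)
      unfold Sep at this ⊢
      simpa only [conn_glue_neg _ _ _ ha, conn_glue_neg _ _ _ hb, conn_glue_neg _ _ _ hc,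
        conn_glue_neg _ _ _ hd, add_lt_add_iff_right] using this
  · intro a b q hab g1 g2
    by_cases ha : K a <;> by_cases hq : K q
    · have hb := (hK a b hab).1 ha
      have := o1 ⟨a, ha⟩ ⟨b, hb⟩ ⟨q, hq⟩ hab (by simpa using g1) (by simpa using g2)
      unfold Outside at this ⊢
      simpa only [conn_glue_pos _ _ _ ha, conn_glue_pos _ _ _ hb, conn_glue_pos _ _ _ hq]
        using this
    · have hb := (hK a b hab).1 ha
      right; left
      rw [conn_glue_pos _ _ _ ha, conn_glue_pos _ _ _ hb, conn_glue_neg _ _ _ hq]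
      have ka := hMX ⟨a, ha⟩
      have kb := hMX ⟨b, hb⟩
      omega
    · have hb := fun h => ha ((hK a b hab).2 h)
      left
      rw [conn_glue_neg _ _ _ ha, conn_glue_neg _ _ _ hb, conn_glue_pos _ _ _ hq]
      have ka := hMX ⟨q, hq⟩
      omega
    · have hb := fun h => ha ((hK a b hab).2 h)
      have := o2 ⟨a, ha⟩ ⟨b, hb⟩ ⟨q, hq⟩ hab (by simpa using g1) (by simpa using g2)
      unfold Outside at this ⊢
      simpa only [conn_glue_neg _ _ _ ha, conn_glue_neg _ _ _ hb, conn_glue_neg _ _ _ hq,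
        add_lt_add_iff_right] using this

theorem specConn : SpecConn := by
  intro hconn
  suffices h : ∀ n : ℕ, ∀ (V : Type) [Fintype V] (G : SimpleGraph V), Fintype.card V = n →
      HTD G → HasStrong G from fun V _ G hG => h _ V G rfl hG
  intro n
  induction n using Nat.strong_induction_on with
  | _ n ih =>
    intro V _ G hn hG
    classical
    by_cases hc : G.Connected
    · exact hconn V G hc hG
    by_cases he : Nonempty V
    · have hp : ¬ G.Preconnected := fun h => hc ⟨h⟩
      unfold SimpleGraph.Preconnected at hp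
      push Not at hp
      obtain ⟨a, b, hab⟩ := hp
      let K : V → Prop := fun v => G.Reachable a v
      have hK : ∀ x y, G.Adj x y → (K x ↔ K y) := fun x y h =>
        ⟨fun hx => hx.trans h.reachable, fun hy => hy.trans h.symm.reachable⟩
      have c1 : Fintype.card {v // K v} < n := by
        rw [← hn]
        exact Fintype.card_subtype_lt (x := b) hab
      have c2 : Fintype.card {v // ¬ K v} < n := by
        rw [← hn]
        exact Fintype.card_subtype_lt (x := a) (fun h => h (SimpleGraph.Reachable.refl a))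
      refine conn_two G K hK ?_ ?_
      · exact ih _ c1 _ _ rfl (hG.comap _ Subtype.val_injective fun _ _ h => h)
      · exact ih _ c2 _ _ rfl (hG.comap _ Subtype.val_injective fun _ _ h => h)
    · have : IsEmpty V := not_nonempty_iff.1 he
      exact ⟨fun _ => 0, fun _ => 0, fun a => isEmptyElim a, fun a => isEmptyElim a,
        fun a => isEmptyElim a, fun a => isEmptyElim a⟩

end Pool.Agent.MP_cdcb37
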