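import Pool.Agent.Lib.MP_cdcb37_lc.Official

/-!
# MP_cdcb37_lc: graphs of separation dimension at most 2 are recognizable in polynomial time

Definitions and the statements of the modules.
-/

namespace Pool.Agent.MP_cdcb37

open Finset

/-! ## Placements -/

/-- Positions in the plane such that the boxes of disjoint edges are separated. -/
def Place {V α : Type} [LT α] (G : SimpleGraph V) (X Y : V → α) : Prop :=
  ∀ a b c d, G.Adj a b → G.Adj c d → a ≠ c → a ≠ d → b ≠ c → b ≠ d →
    Sep X a b c d ∨ Sep Y a b c d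

/-- `q` is outside of the closed box spanned by `a` and `b`. -/
def Outside {V α : Type} [LT α] (X Y : V → α) (a b q : V) : Prop :=
  (X q < X a ∧ X q < X b) ∨ (X a < X q ∧ X b < X q) ∨ (Y q < Y a ∧ Y q < Y b) ∨
    (Y a < Y q ∧ Y b < Y q)

/-- A placement in which no vertex lies in the closed box of an edge not containing it. -/
def Strong {V α : Type} [LT α] (G : SimpleGraph V) (X Y : V → α) : Prop :=
  Place G X Y ∧ ∀ a b q, G.Adj a b → q ≠ a → q ≠ b → Outside X Y a b q

/-- `G` has a strong placement. -/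
def HasStrong {V : Type} (G : SimpleGraph V) : Prop :=
  ∃ X Y : V → ℕ, Function.Injective X ∧ Function.Injective Y ∧ Strong G X Y

/-! ## The linear criterion -/

/-- The criterion: `y` is a tournament, and `z` (parities of `edge above vertex`) satisfies the
linear equations for disjoint edges and for triangles. -/
structure HT {V : Type} (G : SimpleGraph V) (y : V → V → ZMod 2) (z : Sym2 V → V → ZMod 2) :
    Prop where
  tour : ∀ p q, p ≠ q → y p q + y q p = 1
  dis : ∀ a b c d, G.Adj a b → G.Adj c d → a ≠ c → a ≠ d → b ≠ c → b ≠ d →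
    z s(a, b) c + z s(a, b) d + z s(c, d) a + z s(c, d) b = y a c + y a d + y b c + y b d
  tri : ∀ a b c q, G.Adj a b → G.Adj b c → G.Adj a c → q ≠ a → q ≠ b → q ≠ c →
    z s(a, b) q + z s(b, c) q + z s(a, c) q = 0

/-- The criterion holds for `G`. -/
def HTD {V : Type} (G : SimpleGraph V) : Prop := ∃ y z, HT G y z

/-! ## The reduction -/

section core
variable {V : Type} [LinearOrder V]

/-- Leaves whose neighbour has another neighbour. -/
def Leaf (G : SimpleGraph V) (c : V) : Prop :=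
  ∃ a, G.Adj c a ∧ (∀ x, G.Adj c x → x = a) ∧ ∃ b, b ≠ c ∧ G.Adj a b

/-- Vertices of degree two whose neighbours are adjacent, where of two adjacent such vertices
in one triangle only the smaller one counts. -/
def Ear (G : SimpleGraph V) (c : V) : Prop :=
  ∃ a b, G.Adj c a ∧ G.Adj c b ∧ G.Adj a b ∧ (∀ x, G.Adj c x → x = a ∨ x = b) ∧
    (c < a ∨ ∃ x, x ≠ b ∧ x ≠ c ∧ G.Adj a x) ∧ (c < b ∨ ∃ x, x ≠ a ∧ x ≠ c ∧ G.Adj b x)

/-- Removed vertices. -/
def Rem (G : SimpleGraph V) (c : V) : Prop := Leaf G c ∨ Ear G c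

/-- The graph `G` after isolating all removed vertices. -/
def core (G : SimpleGraph V) : SimpleGraph V where
  Adj a b := G.Adj a b ∧ ¬ Rem G a ∧ ¬ Rem G b
  symm := ⟨fun _ _ h => ⟨h.1.symm, h.2.2, h.2.1⟩⟩
  loopless := ⟨fun a h => G.loopless.irrefl a h.1⟩

end core

/-! ## st-numberings and left-right orders -/

section st
variable {V : Type} [LinearOrder V]

/-- The linear order of `V` is an `st`-numbering of `G`. -/
structure STOrd (G : SimpleGraph V) (s t : V) : Prop where
  adj : G.Adj s t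
  min : ∀ v, s ≤ v
  max : ∀ v, v ≤ t
  down : ∀ v, v ≠ s → ∃ u, u < v ∧ G.Adj u v
  up : ∀ v, v ≠ t → ∃ u, v < u ∧ G.Adj v u

/-- Upward edges: pairs `(tail, head)`. -/
def UE (G : SimpleGraph V) : Type := {p : V × V // p.1 < p.2 ∧ G.Adj p.1 p.2}

namespace UE
variable {G : SimpleGraph V}
/-- lower end -/
def tl (e : UE G) : V := e.1.1
/-- upper end -/
def hd (e : UE G) : V := e.1.2
theorem lt (e : UE G) : e.tl < e.hd := e.2.1
theorem adj (e : UE G) : G.Adj e.tl e.hd := e.2.2
/-- the edge as an unordered pair -/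
def sym (e : UE G) : Sym2 V := s(e.tl, e.hd)
end UE

/-- Reachability by upward paths. -/
def Reach (G : SimpleGraph V) : V → V → Prop :=
  Relation.ReflTransGen (fun a b => a < b ∧ G.Adj a b)

/-- The strict partial order of the upward edges. -/
def Below {G : SimpleGraph V} (e f : UE G) : Prop := Reach G e.hd f.tl

/-- Incomparable upward edges. -/
def Inc {G : SimpleGraph V} (e f : UE G) : Prop := e ≠ f ∧ ¬ Below e f ∧ ¬ Below f e

/-- `e` is the long edge and `e'` a short edge of a triangle. -/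
def TriTie {G : SimpleGraph V} (e e' : UE G) : Prop :=
  (e'.tl = e.tl ∧ e'.hd < e.hd ∧ G.Adj e'.hd e.hd) ∨
    (e'.hd = e.hd ∧ e.tl < e'.tl ∧ G.Adj e.tl e'.tl)

/-- Orientation data derived from a solution of the linear criterion. -/
structure Mu (G : SimpleGraph V) (μ : UE G → UE G → ZMod 2) : Prop where
  anti : ∀ e f, Inc e f → μ e f + μ f e = 1
  tie : ∀ e e' f, Below e e' → Inc e f → Inc e' f → μ e f = μ e' f
  tri : ∀ e e' f, TriTie e e' → Inc e f → Inc e' f → μ e f = μ e' f

/-- Left-right orders of the upward edges (`Q e f`: `e` is to the left of `f`). -/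
structure LR (G : SimpleGraph V) (Q : UE G → UE G → Prop) : Prop where
  inc : ∀ e f, Q e f → Inc e f
  tot : ∀ e f, Inc e f → Q e f ∨ Q f e
  trans : ∀ e f g, Q e f → Q f g → Q e g
  tie : ∀ e e' f, Below e e' → Inc e f → Inc e' f → (Q e f ↔ Q e' f)
  tri : ∀ e e' f, TriTie e e' → Inc e f → Inc e' f → (Q e f ↔ Q e' f)

end st

/-! ## Embeddings -/

section emb
variable {V : Type}

/-- The rotation `d ↦ φ (reverse of d)` of a face permutation. -/
def rot {G : SimpleGraph V} (φ : Equiv.Perm G.Dart) : Equiv.Perm G.Dart :=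
  (Function.Involutive.toPerm SimpleGraph.Dart.symm SimpleGraph.Dart.symm_involutive).trans φ

/-- Plane embeddings of 2-connected graphs, given by the face permutation `φ` of the darts. -/
structure Emb (G : SimpleGraph V) (φ : Equiv.Perm G.Dart) : Prop where
  step : ∀ d, (φ d).fst = d.snd
  nosym : ∀ d, φ d ≠ d.symm
  simple : ∀ d d', φ.SameCycle d d' → d.fst = d'.fst → d = d'
  rot : ∀ d d' : G.Dart, d.fst = d'.fst → (rot φ).SameCycle d d'
  gen : ∀ c : G.Dart → ZMod 2, (∀ d, c d.symm = c d) →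
    (∀ v, ∀ S : Finset G.Dart, (∀ d, d ∈ S ↔ d.fst = v) → ∑ d ∈ S, c d = 0) →
    ∃ k : G.Dart → ZMod 2, (∀ d, k (φ d) = k d) ∧ ∀ d, c d = k d + k d.symm
  tri : ∀ a b c, G.Adj a b → G.Adj b c → G.Adj a c →
    (∃ d : G.Dart, d.fst = a ∧ d.snd = b ∧ (φ d).snd = c ∧ φ (φ (φ d)) = d) ∨
    (∃ d : G.Dart, d.fst = b ∧ d.snd = a ∧ (φ d).snd = c ∧ φ (φ (φ d)) = d)

/-- Triangulated spheres all of whose 3-cycles are faces. -/
structure Tri (T : SimpleGraph V) : Prop where
  conn : T.Connected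
  link : ∀ v, ∃ l : List V, l.Nodup ∧ 3 ≤ l.length ∧ (∀ x, x ∈ l ↔ T.Adj v x) ∧
    l.IsChain T.Adj ∧ (∀ x y, l.head? = some x → l.getLast? = some y → T.Adj y x)
  two : ∀ a b, T.Adj a b → ∃ c d, c ≠ d ∧ ∀ x, (T.Adj a x ∧ T.Adj b x) ↔ (x = c ∨ x = d)
  gen : ∀ c : V → V → ZMod 2, (∀ a b, c a b = c b a) → (∀ a b, ¬ T.Adj a b → c a b = 0) →
    (∀ a, ∀ S : Finset V, (∀ b, b ∈ S ↔ T.Adj a b) → ∑ b ∈ S, c a b = 0) →
    ∃ k : V → V → V → ZMod 2, (∀ a b x, k a b x = k b a x) ∧ (∀ a b x, k a b x = k a x b) ∧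
      ∀ a b x x', T.Adj a b → x ≠ x' → T.Adj a x → T.Adj b x → T.Adj a x' → T.Adj b x' →
        c a b = k a b x + k a b x'

/-- Canonical orders: `Canon T ord fr` says that the vertices in the list `ord` (latest first)
have been placed, with frontier path `fr` from left to right. -/
inductive Canon (T : SimpleGraph V) : List V → List V → Prop
  | base (u v : V) : T.Adj u v → Canon T [v, u] [u, v]
  | step (ord A M B : List V) (u v w : V) :
      Canon T ord (A ++ u :: (M ++ w :: B)) → v ∉ ord →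
      (∀ x ∈ ord, T.Adj v x ↔ (x = u ∨ x ∈ M ∨ x = w)) →
      (∀ m ∈ M, ∃ l₁ m' l₂, ord = l₁ ++ m' :: l₂ ∧ m ∈ l₂ ∧ T.Adj m m') →
      Canon T (v :: ord) (A ++ u :: v :: w :: B)

end emb

end Pool.Agent.MP_cdcb37
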