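import Pool.Agent.Lib.MP_cdcb37_lc.Emb4

/-!
# Embeddings from left-right orders
-/

namespace Pool.Agent.MP_cdcb37

open Finset

section gen
variable {n : ℕ} {G : SimpleGraph (Fin n)} {s t : Fin n} {Q : UE G → UE G → Prop}

theorem zmod2_add_self (a : ZMod 2) : a + a = 0 := CharTwo.add_self_eq_zero a

open Classical in
/-- Sum over a part of the frontier. -/
noncomputable def fsum (c : UE G → ZMod 2) (k : ℕ) (p : UE G → Prop) : ZMod 2 :=
  haveI : Fintype (UE G) := Fintype.ofFinite _
  ∑ g : UE G, if Fr k g ∧ p g then c g else 0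

open Classical in
/-- The sum at a vertex. -/
noncomputable def vsum (c : UE G → ZMod 2) (v : Fin n) : ZMod 2 :=
  haveI : Fintype (UE G) := Fintype.ofFinite _
  ∑ g : UE G, if g.hd = v ∨ g.tl = v then c g else 0

theorem fsum_congr {c : UE G → ZMod 2} {k k' : ℕ} {p p' : UE G → Prop}
    (h : ∀ g, (Fr k g ∧ p g) ↔ (Fr k' g ∧ p' g)) : fsum c k p = fsum c k' p' := by
  classical
  unfold fsum
  refine Finset.sum_congr rfl fun g _ => ?_
  simp only [h g]

theorem fsum_step {c : UE G → ZMod 2} {k : ℕ} {v : Fin n} {e0 g0 : UE G}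
    (D : StepData Q k v e0 g0) (hv : vsum c v = 0) (p : UE G → Prop)
    (hp : ∀ x y : UE G, (x.hd = v ∨ x.tl = v) → (y.hd = v ∨ y.tl = v) → (p x ↔ p y)) :
    fsum c (k + 1) p = fsum c k p := by
  classical
  have key : fsum c (k + 1) p + fsum c k p = 0 := by
    have h1 : fsum c (k + 1) p + fsum c k p =
        @Finset.sum (UE G) (ZMod 2) _ (@Finset.univ _ (Fintype.ofFinite _))
          (fun g => if (g.hd = v ∨ g.tl = v) ∧ p g then c g else 0) := by
      unfold fsum
      rw [← Finset.sum_add_distrib]
      refine Finset.sum_congr rfl fun g _ => ?_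
      by_cases hpg : p g
      · simp only [hpg, and_true]
        by_cases h1 : g.tl = v
        · have h2 := D.new g h1
          have h3 : ¬ Fr k g := by
            intro h
            have := h.1
            rw [h1, D.val] at this
            omega
          simp [h1, h2, h3]
        · by_cases h4 : g.hd = v
          · have h5 := D.inn g h4
            have h6 : ¬ Fr (k + 1) g := by
              intro h
              have := h.2
              rw [h4, D.val] at this
              omega
            simp [h4, h5, h6]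
          · have h7 : Fr (k + 1) g ↔ Fr k g := by
              constructor
              · intro h
                rcases D.cases' g h with h | h
                · exact h.1
                · exact absurd h h1
              · intro h
                exact D.old g h h4
            simp only [h7, h1, h4, or_self, if_false]
            exact zmod2_add_self _
      · simp [hpg]
    rw [h1]
    by_cases h2 : p e0
    · have : ∀ g : UE G, ((g.hd = v ∨ g.tl = v) ∧ p g) ↔ (g.hd = v ∨ g.tl = v) := by
        intro g
        constructor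
        · exact fun h => h.1
        · exact fun h => ⟨h, (hp g e0 h (Or.inl D.e0in.1)).2 h2⟩
      simp only [this]
      exact hv
    · apply Finset.sum_eq_zero
      intro g _
      rw [if_neg]
      rintro ⟨h, h'⟩
      exact h2 ((hp g e0 h (Or.inl D.e0in.1)).1 h')
  have h2 := zmod2_add_self (fsum c k p)
  have h3 : fsum c (k + 1) p + fsum c k p = fsum c k p + fsum c k p := by rw [key, h2]
  exact add_right_cancel h3

theorem fsum_cut (hST : STOrd G s t) (hQ : LR G Q) (c : UE G → ZMod 2)
    (hc : ∀ v, vsum c v = 0) (k : ℕ) (hk : 1 ≤ k) (hk' : k < n) :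
    fsum c k (fun _ => True) = 0 := by
  classical
  induction k, hk using Nat.le_induction with
  | base =>
    have := hc s
    unfold vsum at this
    unfold fsum
    refine Eq.trans (Finset.sum_congr rfl fun g _ => ?_) this
    have h1 : (Fr 1 g ∧ True) ↔ (g.hd = s ∨ g.tl = s) := by
      have h2 := hST.s_val (by omega : 0 < n)
      have h3 := Fin.lt_def.1 g.lt
      constructor
      · rintro ⟨h, -⟩
        right
        apply Fin.ext
        have := h.1
        omega
      · rintro (h | h)
        · exact absurd h (hd_ne_s hST g)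
        · refine ⟨⟨?_, ?_⟩, trivial⟩
          · rw [h, h2]; omega
          · omega
    simp only [h1]
  | succ k hk ih =>
    obtain ⟨v, e0, g0, D⟩ := exists_stepData hST hQ hk hk'
    rw [fsum_step D (hc v) _ (fun _ _ _ _ => Iff.rfl)]
    exact ih (by omega)

/-- The coefficient of a face. -/
noncomputable def kap (Q : UE G → UE G → Prop) (c : UE G → ZMod 2) :
    Option (UE G) → ZMod 2
  | none => 0
  | some e' => fsum c (e'.tl.val + 1) (fun g => g = e' ∨ Q g e')

/-- Left of an out-edge. -/
theorem prev_left (hQ : LR G Q) {e e' g : UE G} (h : PrevOut Q e' e)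
    (hg : Fr (e.tl.val + 1) g) (hs : 1 ≤ e.tl.val → ∃ x : UE G, x.hd = e.tl) :
    (g = e' ∨ Q g e') ↔ Q g e := by
  constructor
  · rintro (rfl | h1)
    · exact h.2.1
    · exact hQ.trans _ _ _ h1 h.2.1
  · intro h1
    by_cases hgv : g.tl = e.tl
    · exact h.2.2 g hgv h1
    · right
      have h2 := hg.1
      have h3 : g.tl.val ≠ e.tl.val := fun h => hgv (Fin.ext h)
      obtain ⟨x, hx⟩ := hs (by omega)
      have hgx : Fr x.hd.val g := by
        rw [hx]
        exact ⟨by omega, by have := hg.2; omega⟩
      have hgh : g.hd ≠ x.hd := by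
        intro h4
        have := hg.2
        rw [h4, hx] at this
        omega
      rw [← (hQ.block (e := x) (g := e') (f := g) (hx.trans h.1.symm) hgx hgh).2,
        (hQ.block (e := x) (g := e) (f := g) hx hgx hgh).2]
      exact h1

theorem kap_prev (hST : STOrd G s t) (hQ : LR G Q) (c : UE G → ZMod 2) {e e' : UE G}
    (h : PrevOut Q e' e) :
    kap Q c (some e') = fsum c (e.tl.val + 1) (fun g => Q g e) := by
  change fsum c (e'.tl.val + 1) (fun g => g = e' ∨ Q g e') = _
  rw [h.1]
  apply fsum_congr
  intro g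
  constructor
  · rintro ⟨h1, h2⟩
    refine ⟨h1, (prev_left hQ h h1 fun h3 => ?_).1 h2⟩
    apply exists_in hST
    intro h4
    rw [h4, hST.s_val (by have := e.tl.isLt; omega)] at h3
    omega
  · rintro ⟨h1, h2⟩
    refine ⟨h1, (prev_left hQ h h1 fun h3 => ?_).2 h2⟩
    apply exists_in hST
    intro h4
    rw [h4, hST.s_val (by have := e.tl.isLt; omega)] at h3
    omega

theorem kap_lab (hST : STOrd G s t) (hQ : LR G Q) (c : UE G → ZMod 2)
    (hc : ∀ v, vsum c v = 0) (k : ℕ) (hk : 1 ≤ k) (hk' : k < n) :
    ∀ e : UE G, Fr k e → kap Q c (Lab Q e) = fsum c k (fun g => Q g e) := by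
  classical
  induction k, hk using Nat.le_induction with
  | base =>
    intro e he
    have h0 : e.tl.val = 0 := by have := he.1; omega
    have hes : e.tl = s := by
      apply Fin.ext
      rw [h0, hST.s_val (by omega)]
    rcases prev_or_first hQ e with ⟨e', h⟩ | h
    · rw [Lab_prev hQ h, kap_prev hST hQ c h, h0]
    · rw [lab_first_s hST hQ h hes]
      symm
      change fsum c 1 _ = 0
      unfold fsum
      apply Finset.sum_eq_zero
      intro g _
      rw [if_neg]
      rintro ⟨h1, h2⟩
      have h3 : g.tl = e.tl := by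
        apply Fin.ext
        have := h1.1
        omega
      rcases h g h3 with h4 | h4
      · rw [h4] at h2; exact hQ.irr _ h2
      · exact hQ.asymm h2 h4
  | succ k hk ih =>
    have ih := ih (by omega)
    obtain ⟨v, e0, g0, D⟩ := exists_stepData hST hQ hk hk'
    intro e he
    rcases D.cases' e he with ⟨h1, h2⟩ | h1
    · rw [ih e h1]
      symm
      apply fsum_step D (hc v)
      have hx : ∀ x : UE G, (x.hd = v ∨ x.tl = v) → (Q x e ↔ Q e0 e) := by
        intro x hx
        rcases hx with hx | hx
        · rw [(D.blk x g0 e hx D.g0tl h1 h2).1, (D.blk e0 g0 e D.e0in.1 D.g0tl h1 h2).1]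
        · rw [(D.blk e0 x e D.e0in.1 hx h1 h2).1]
      intro x y hx' hy'
      rw [hx x hx', hx y hy']
    · rcases prev_or_first hQ e with ⟨e', h⟩ | h
      · rw [Lab_prev hQ h, kap_prev hST hQ c h, h1, D.val]
      · have hfi : FirstIn Q e0 e.tl := by rw [h1]; exact D.e0in
        rw [Lab_first hQ (fun e' => h.not_prev hQ e') hfi, ih e0 (D.inn _ D.e0in.1)]
        apply fsum_congr
        intro g
        constructor
        · rintro ⟨h3, h4⟩
          have h5 : g.hd ≠ v := by
            intro h6
            rcases D.e0in.2 g h6 with h7 | h7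
            · rw [h7] at h4; exact hQ.irr _ h4
            · exact hQ.asymm h4 h7
          exact ⟨D.old g h3 h5, ((D.blk e0 e g D.e0in.1 h1 h3 h5).2).1 h4⟩
        · rintro ⟨h3, h4⟩
          rcases D.cases' g h3 with ⟨h5, h6⟩ | h5
          · exact ⟨h5, ((D.blk e0 e g D.e0in.1 h1 h5 h6).2).2 h4⟩
          · rcases h g (h5.trans h1.symm) with h7 | h7
            · rw [h7] at h4; exact absurd h4 (hQ.irr _)
            · exact absurd h4 (hQ.asymm h7)

theorem kap_rab (hST : STOrd G s t) (hQ : LR G Q) (c : UE G → ZMod 2)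
    (hc : ∀ v, vsum c v = 0) (e : UE G) :
    c e = kap Q c (Rab Q e) + kap Q c (Lab Q e) := by
  classical
  have he := fr_hd e
  have hk : 1 ≤ e.hd.val := by have := Fin.lt_def.1 e.lt; omega
  have hk' : e.hd.val < n := e.hd.isLt
  -- the sum up to and including `e`
  have h1 : fsum c e.hd.val (fun g => g = e ∨ Q g e) =
      c e + fsum c e.hd.val (fun g => Q g e) := by
    unfold fsum
    refine (Finset.sum_congr (g := fun g => (if g = e then c g else 0) +
      (if Fr e.hd.val g ∧ Q g e then c g else 0)) rfl fun g _ => ?_).trans ?_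
    · by_cases h3 : g = e
      · subst h3
        simp [he, hQ.irr g]
      · simp [h3]
    rw [Finset.sum_add_distrib]
    congr 1
    rw [Finset.sum_ite_eq' _ e c]
    simp
  rw [kap_lab hST hQ c hc _ hk hk' e he]
  have h3 : kap Q c (Rab Q e) = fsum c e.hd.val (fun g => g = e ∨ Q g e) := by
    rcases nxt_or_lst hQ he with ⟨f, hf⟩ | h
    · rw [(rab_spec hST hQ he).1 f hf, kap_lab hST hQ c hc _ hk hk' f hf.1]
      apply fsum_congr
      intro g
      constructor
      · rintro ⟨h4, h5⟩
        refine ⟨h4, ?_⟩
        by_cases hge : g = e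
        · exact Or.inl hge
        · rcases hQ.fr_tot h4 he hge with h6 | h6
          · exact Or.inr h6
          · rcases hf.2.2 g h4 h6 with h7 | h7
            · rw [h7] at h5; exact absurd h5 (hQ.irr _)
            · exact absurd h5 (hQ.asymm h7)
      · rintro ⟨h4, rfl | h5⟩
        · exact ⟨h4, hf.2.1⟩
        · exact ⟨h4, hQ.trans _ _ _ h5 hf.2.1⟩
    · rw [(rab_spec hST hQ he).2 h]
      symm
      change _ = (0 : ZMod 2)
      rw [← fsum_cut hST hQ c hc e.hd.val hk hk']
      apply fsum_congr
      intro g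
      constructor
      · rintro ⟨h4, -⟩
        exact ⟨h4, trivial⟩
      · rintro ⟨h4, -⟩
        exact ⟨h4, h g h4⟩
  rw [h3, h1, add_assoc, zmod2_add_self, add_zero]

/-- The upward edge of a dart. -/
def ofDart (d : G.Dart) : UE G :=
  if h : d.fst < d.snd then (show UE G from ⟨(d.fst, d.snd), h, d.adj⟩)
  else (show UE G from ⟨(d.snd, d.fst), lt_of_le_of_ne (not_lt.1 h) d.snd_ne_fst, d.adj.symm⟩)

theorem ofDart_up (e : UE G) : ofDart e.up = e := by
  unfold ofDart
  rw [dif_pos (show e.up.fst < e.up.snd from e.lt)]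
  rfl

theorem ofDart_dn (e : UE G) : ofDart e.dn = e := by
  unfold ofDart
  rw [dif_neg (show ¬ e.dn.fst < e.dn.snd from not_lt.2 e.lt.le)]
  rfl

theorem vsum_of_even (c : G.Dart → ZMod 2) (hsymm : ∀ d, c d.symm = c d) (v : Fin n)
    (h : ∀ S : Finset G.Dart, (∀ d, d ∈ S ↔ d.fst = v) → ∑ d ∈ S, c d = 0) :
    vsum (fun e : UE G => c e.up) v = 0 := by
  classical
  have : Finite G.Dart := Finite.of_injective _ SimpleGraph.Dart.toProd_injective
  let _ : Fintype G.Dart := Fintype.ofFinite _
  let _ : Fintype (UE G) := Fintype.ofFinite _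
  have h1 := h (univ.filter fun d => d.fst = v) (by simp)
  have h2 : vsum (fun e : UE G => c e.up) v =
      ∑ g ∈ univ.filter (fun g : UE G => g.hd = v ∨ g.tl = v), c g.up := by
    unfold vsum
    rw [Finset.sum_filter]
  rw [h2, ← h1]
  refine Finset.sum_bij' (fun g _ => if g.tl = v then g.up else g.dn)
    (fun d _ => ofDart d) ?_ ?_ ?_ ?_ ?_
  · intro g hg
    simp only [mem_filter, mem_univ, true_and] at hg ⊢
    split_ifs with h3
    · exact h3
    · exact hg.resolve_right h3
  · intro d hd
    simp only [mem_filter, mem_univ, true_and] at hd ⊢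
    rcases dart_cases d with ⟨e, rfl⟩ | ⟨e, rfl⟩
    · rw [ofDart_up]
      exact Or.inr hd
    · rw [ofDart_dn]
      exact Or.inl hd
  · intro g hg
    split_ifs with h3
    · exact ofDart_up g
    · exact ofDart_dn g
  · intro d hd
    simp only [mem_filter, mem_univ, true_and] at hd
    rcases dart_cases d with ⟨e, rfl⟩ | ⟨e, rfl⟩
    · rw [ofDart_up, if_pos (show e.tl = v from hd)]
    · rw [ofDart_dn, if_neg]
      intro h3
      exact e.lt.ne (h3.trans hd.symm)
  · intro g hg
    split_ifs with h3
    · rfl
    · rw [← UE.up_symm, hsymm]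

end gen

theorem specEmb : SpecEmb := by
  intro n G s t Q hn hST hQ
  refine ⟨fac hQ, ?_, ?_, ?_, ?_, ?_, ?_⟩
  · intro d
    exact fac_fst hQ d
  · intro d h
    exact sig_ne hST hQ hn d.symm h
  · intro d d' h hf
    exact lam_inj hST hQ hn hf (lam_sameCycle hST hQ hn h)
  · intro d d' h
    have : rot (fac hQ) = sig hQ := by
      ext1 x
      change sig hQ (SimpleGraph.Dart.symm (SimpleGraph.Dart.symm x)) = sig hQ x
      rw [SimpleGraph.Dart.symm_symm]
    rw [this]
    exact sig_sameCycle hQ h
  · intro c hsymm hc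
    have hv : ∀ v, vsum (fun e : UE G => c e.up) v = 0 :=
      fun v => vsum_of_even c hsymm v (hc v)
    refine ⟨fun d => kap Q (fun e : UE G => c e.up) (lam Q d), ?_, ?_⟩
    · intro d
      change kap Q _ (lam Q (fac hQ d)) = kap Q _ (lam Q d)
      rw [lam_fac hST hQ hn]
    · intro d
      change c d = kap Q _ (lam Q d) + kap Q _ (lam Q d.symm)
      rcases dart_cases d with ⟨e, rfl⟩ | ⟨e, rfl⟩
      · rw [UE.up_symm, lam_up, lam_dn]
        exact kap_rab hST hQ _ hv e
      · rw [UE.dn_symm, lam_up, lam_dn, add_comm, ← UE.up_symm, hsymm]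
        exact kap_rab hST hQ _ hv e
  · intro a b c h1 h2 h3
    exact face3 hST hQ a b c h1 h2 h3

end Pool.Agent.MP_cdcb37
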