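import Pool.Agent.Lib.MP_cdcb37_lc.Spec

/-!
# Frontiers and labels of a left-right order
-/

namespace Pool.Agent.MP_cdcb37

open Finset

section generic
variable {E : Type}

/-- Minimum of a nonempty finite set. -/
theorem exists_first [Finite E] (Q : E → E → Prop) (irr : ∀ e, ¬ Q e e)
    (tr : ∀ e f g, Q e f → Q f g → Q e g) (S : E → Prop)
    (tot : ∀ e f, S e → S f → e ≠ f → Q e f ∨ Q f e) (h : ∃ e, S e) :
    ∃ m, S m ∧ ∀ g, S g → g = m ∨ Q m g := by
  have wf : WellFounded Q := by
    have : IsTrans E Q := ⟨tr⟩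
    have : Std.Irrefl Q := ⟨irr⟩
    exact Finite.wellFounded_of_trans_of_irrefl Q
  obtain ⟨m, hm, hmin⟩ := wf.has_min {e | S e} h
  refine ⟨m, hm, fun g hg => ?_⟩
  by_cases hgm : g = m
  · exact Or.inl hgm
  · rcases tot g m hg hm hgm with h1 | h1
    · exact absurd h1 (hmin g hg)
    · exact Or.inr h1

/-- Maximum of a nonempty finite set. -/
theorem exists_last [Finite E] (Q : E → E → Prop) (irr : ∀ e, ¬ Q e e)
    (tr : ∀ e f g, Q e f → Q f g → Q e g) (S : E → Prop)
    (tot : ∀ e f, S e → S f → e ≠ f → Q e f ∨ Q f e) (h : ∃ e, S e) :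
    ∃ m, S m ∧ ∀ g, S g → g = m ∨ Q g m :=
  exists_first (fun a b => Q b a) irr (fun e f g h1 h2 => tr _ _ _ h2 h1) S
    (fun e f h1 h2 h3 => (tot e f h1 h2 h3).symm) h

/-- Sorted lists of finite sets. -/
theorem exists_sorted [Finite E] (Q : E → E → Prop) (irr : ∀ e, ¬ Q e e)
    (tr : ∀ e f g, Q e f → Q f g → Q e g) (S : E → Prop)
    (tot : ∀ e f, S e → S f → e ≠ f → Q e f ∨ Q f e) :
    ∃ l : List E, (∀ e, e ∈ l ↔ S e) ∧ l.Pairwise Q := by
  classical
  have := Fintype.ofFinite E
  suffices H : ∀ (k : ℕ) (S : Finset E), S.card = k →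
      (∀ e f, e ∈ S → f ∈ S → e ≠ f → Q e f ∨ Q f e) →
      ∃ l : List E, (∀ e, e ∈ l ↔ e ∈ S) ∧ l.Pairwise Q by
    obtain ⟨l, h1, h2⟩ := H _ (univ.filter S) rfl (by simpa using tot)
    exact ⟨l, by simpa using h1, h2⟩
  intro k
  induction k with
  | zero =>
    intro S hS _
    rw [Finset.card_eq_zero] at hS
    subst hS
    exact ⟨[], by simp, List.Pairwise.nil⟩
  | succ k ih =>
    intro S hS htot
    have hne : S.Nonempty := by rw [← Finset.card_pos]; omega
    obtain ⟨m, hm, hmin⟩ := exists_first Q irr tr (fun e => e ∈ S) htot hne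
    obtain ⟨l, h1, h2⟩ := ih (S.erase m) (by rw [Finset.card_erase_of_mem hm]; omega)
      (fun e f he hf => htot e f (Finset.mem_of_mem_erase he) (Finset.mem_of_mem_erase hf))
    refine ⟨m :: l, ?_, ?_⟩
    · intro e
      rw [List.mem_cons, h1, Finset.mem_erase]
      constructor
      · rintro (rfl | h)
        · exact hm
        · exact h.2
      · intro h
        by_cases hem : e = m
        · exact Or.inl hem
        · exact Or.inr ⟨hem, h⟩
    · rw [List.pairwise_cons]
      refine ⟨fun e he => ?_, h2⟩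
      rw [h1, Finset.mem_erase] at he
      rcases hmin e he.2 with h | h
      · exact absurd h he.1
      · exact h

/-- Consecutive elements of a sorted list. -/
theorem isChain_of_pairwise (Q : E → E → Prop) (irr : ∀ e, ¬ Q e e)
    (tr : ∀ e f g, Q e f → Q f g → Q e g) (l : List E) (h : l.Pairwise Q) :
    l.IsChain (fun x y => x ∈ l ∧ y ∈ l ∧ Q x y ∧ ∀ g ∈ l, Q x g → g = y ∨ Q y g) := by
  induction l with
  | nil => exact List.IsChain.nil
  | cons x l ih =>
    rw [List.pairwise_cons] at h
    cases l with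
    | nil => exact List.IsChain.singleton _
    | cons y l =>
      have ih' := ih h.2
      rw [List.isChain_cons_cons]
      refine ⟨⟨by simp, by simp, h.1 y (by simp), ?_⟩, ?_⟩
      · intro g hg hxg
        rcases List.mem_cons.1 hg with rfl | hg
        · exact absurd hxg (irr _)
        · rcases List.mem_cons.1 hg with rfl | hg
          · exact Or.inl rfl
          · exact Or.inr ((List.pairwise_cons.1 h.2).1 g hg)
      · refine ih'.imp ?_
        rintro a b ⟨ha, hb, h1, h2⟩
        refine ⟨List.mem_cons_of_mem _ ha, List.mem_cons_of_mem _ hb, h1, fun g hg hag => ?_⟩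
        rcases List.mem_cons.1 hg with rfl | hg
        · exact absurd (tr _ _ _ hag (h.1 a ha)) (irr _)
        · exact h2 g hg hag

end generic

section frontier
variable {n : ℕ} {G : SimpleGraph (Fin n)} {s t : Fin n} {Q : UE G → UE G → Prop}

instance : Finite (UE G) := inferInstanceAs (Finite {p : Fin n × Fin n // _})

theorem Reach.le {a b : Fin n} (h : Reach G a b) : a ≤ b := by
  induction h with
  | refl => exact le_refl _
  | tail _ h ih => exact ih.trans h.1.le

theorem UE.ext {e f : UE G} (h1 : e.tl = f.tl) (h2 : e.hd = f.hd) : e = f :=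
  Subtype.ext (Prod.ext h1 h2)

theorem LR.irr (hQ : LR G Q) (e : UE G) : ¬ Q e e := fun h => (hQ.inc e e h).1 rfl

theorem LR.asymm (hQ : LR G Q) {e f : UE G} (h : Q e f) : ¬ Q f e :=
  fun h' => hQ.irr e (hQ.trans _ _ _ h h')

/-- The frontier at time `k`. -/
def Fr (k : ℕ) (e : UE G) : Prop := e.tl.val < k ∧ k ≤ e.hd.val

theorem fr_inc {k : ℕ} {e f : UE G} (he : Fr k e) (hf : Fr k f) (h : e ≠ f) : Inc e f := by
  refine ⟨h, fun hb => ?_, fun hb => ?_⟩
  · have := Reach.le hb
    have h1 := he.2; have h2 := hf.1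
    rw [Fin.le_def] at this
    omega
  · have := Reach.le hb
    have h1 := hf.2; have h2 := he.1
    rw [Fin.le_def] at this
    omega

theorem LR.fr_tot (hQ : LR G Q) {k : ℕ} {e f : UE G} (he : Fr k e) (hf : Fr k f) (h : e ≠ f) :
    Q e f ∨ Q f e := hQ.tot _ _ (fr_inc he hf h)

theorem fr_hd (e : UE G) : Fr e.hd.val e := ⟨Fin.lt_def.1 e.lt, le_refl _⟩

theorem fr_tl (e : UE G) : Fr (e.tl.val + 1) e := ⟨by omega, Fin.lt_def.1 e.lt⟩

theorem fr_succ {k : ℕ} {e : UE G} :
    Fr (k + 1) e ↔ (Fr k e ∧ e.hd.val ≠ k) ∨ e.tl.val = k := by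
  have := Fin.lt_def.1 e.lt
  unfold Fr
  omega

/-- The in-edges of a vertex are in the same position as its out-edges relative to the other
edges of the frontier. -/
theorem LR.block (hQ : LR G Q) {e g f : UE G} (heg : e.hd = g.tl) (hf : Fr e.hd.val f)
    (hne : f.hd ≠ e.hd) : (Q e f ↔ Q g f) ∧ (Q f e ↔ Q f g) := by
  have hb : Below e g := by
    unfold Below
    rw [heg]
    exact Relation.ReflTransGen.refl
  have h1 : Inc e f := fr_inc (fr_hd e) hf (fun h => hne (by rw [h]))
  have hf' : Fr (g.tl.val + 1) f := by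
    rw [← heg, fr_succ]
    exact Or.inl ⟨hf, fun h => hne (Fin.ext h)⟩
  have h2 : Inc g f := by
    refine fr_inc (fr_tl g) hf' (fun h => ?_)
    have := hf.1
    rw [← h, ← heg] at this
    omega
  have key := hQ.tie e g f hb h1 h2
  refine ⟨key, ?_⟩
  constructor
  · intro h
    rcases hQ.tot g f h2 with h3 | h3
    · exact absurd (key.2 h3) (hQ.asymm h)
    · exact h3
  · intro h
    rcases hQ.tot e f h1 with h3 | h3
    · exact absurd (key.1 h3) (hQ.asymm h)
    · exact h3

/-- `e'` is the left neighbour of `e` among the out-edges of its tail. -/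
def PrevOut (Q : UE G → UE G → Prop) (e' e : UE G) : Prop :=
  e'.tl = e.tl ∧ Q e' e ∧ ∀ g, g.tl = e.tl → Q g e → g = e' ∨ Q g e'

/-- `f` is the leftmost in-edge of `v`. -/
def FirstIn (Q : UE G → UE G → Prop) (f : UE G) (v : Fin n) : Prop :=
  f.hd = v ∧ ∀ g : UE G, g.hd = v → g = f ∨ Q f g

theorem LR.in_tot (hQ : LR G Q) {e f : UE G} (h : e.hd = f.hd) (hne : e ≠ f) :
    Q e f ∨ Q f e := by
  refine hQ.fr_tot (fr_hd e) ?_ hne
  rw [h]
  exact fr_hd f

theorem LR.out_tot (hQ : LR G Q) {e f : UE G} (h : e.tl = f.tl) (hne : e ≠ f) :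
    Q e f ∨ Q f e := by
  refine hQ.fr_tot (fr_tl e) ?_ hne
  rw [h]
  exact fr_tl f

theorem PrevOut.unique (hQ : LR G Q) {e e' e'' : UE G} (h : PrevOut Q e' e)
    (h' : PrevOut Q e'' e) : e' = e'' := by
  rcases h.2.2 e'' h'.1 h'.2.1 with h1 | h1
  · exact h1.symm
  rcases h'.2.2 e' h.1 h.2.1 with h2 | h2
  · exact h2
  exact absurd h1 (hQ.asymm h2)

theorem FirstIn.unique (hQ : LR G Q) {f f' : UE G} {v : Fin n} (h : FirstIn Q f v)
    (h' : FirstIn Q f' v) : f = f' := by
  rcases h.2 f' h'.1 with h1 | h1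
  · exact h1.symm
  rcases h'.2 f h.1 with h2 | h2
  · exact h2
  exact absurd h1 (hQ.asymm h2)

open Classical in
/-- The label of the face to the left of `e`: `some e'` is the face with source corner between
`e'` and the next out-edge, `none` is the outer face. -/
noncomputable def Lab (Q : UE G → UE G → Prop) (e : UE G) : Option (UE G) :=
  if h : ∃ e', PrevOut Q e' e then some h.choose
  else if h : ∃ f, FirstIn Q f e.tl then Lab Q h.choose else none
termination_by e.tl.val
decreasing_by
  have h1 := h.choose_spec.1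
  have h2 := Fin.lt_def.1 h.choose.lt
  rw [h1] at h2
  exact h2

theorem Lab_prev (hQ : LR G Q) {e e' : UE G} (h : PrevOut Q e' e) : Lab Q e = some e' := by
  have h' : ∃ e', PrevOut Q e' e := ⟨e', h⟩
  rw [Lab, dif_pos h']
  exact congrArg some (PrevOut.unique hQ h'.choose_spec h)

theorem Lab_first (hQ : LR G Q) {e f : UE G} (h : ∀ e', ¬ PrevOut Q e' e)
    (hf : FirstIn Q f e.tl) : Lab Q e = Lab Q f := by
  have h' : ¬ ∃ e', PrevOut Q e' e := fun ⟨e', he'⟩ => h e' he'
  have h'' : ∃ f, FirstIn Q f e.tl := ⟨f, hf⟩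
  rw [Lab, dif_neg h', dif_pos h'']
  exact congrArg (Lab Q) (FirstIn.unique hQ h''.choose_spec hf)

theorem Lab_none {e : UE G} (h : ∀ e', ¬ PrevOut Q e' e)
    (hf : ∀ f, ¬ FirstIn Q f e.tl) : Lab Q e = none := by
  have h' : ¬ ∃ e', PrevOut Q e' e := fun ⟨e', he'⟩ => h e' he'
  have h'' : ¬ ∃ f, FirstIn Q f e.tl := fun ⟨e', he'⟩ => hf e' he'
  rw [Lab, dif_neg h', dif_neg h'']

/-- `e` is the leftmost out-edge of its tail. -/
def FirstOut (Q : UE G → UE G → Prop) (e : UE G) : Prop :=
  ∀ g : UE G, g.tl = e.tl → g = e ∨ Q e g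

theorem prev_or_first (hQ : LR G Q) (e : UE G) : (∃ e', PrevOut Q e' e) ∨ FirstOut Q e := by
  by_cases h : ∃ g : UE G, g.tl = e.tl ∧ Q g e
  · left
    obtain ⟨m, hm, hmax⟩ := exists_last Q hQ.irr hQ.trans (fun g : UE G => g.tl = e.tl ∧ Q g e)
      (fun a b ha hb hab => hQ.out_tot (ha.1.trans hb.1.symm) hab) h
    exact ⟨m, hm.1, hm.2, fun g h1 h2 => hmax g ⟨h1, h2⟩⟩
  · right
    intro g hg
    by_cases hge : g = e
    · exact Or.inl hge
    · rcases hQ.out_tot hg hge with h1 | h1
      · exact absurd ⟨g, hg, h1⟩ h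
      · exact Or.inr h1

theorem FirstOut.not_prev (hQ : LR G Q) {e : UE G} (h : FirstOut Q e) (e' : UE G) :
    ¬ PrevOut Q e' e := by
  rintro ⟨h1, h2, _⟩
  rcases h e' h1 with h3 | h3
  · rw [h3] at h2; exact hQ.irr _ h2
  · exact hQ.asymm h2 h3

theorem exists_in (hST : STOrd G s t) {v : Fin n} (hv : v ≠ s) : ∃ e : UE G, e.hd = v := by
  obtain ⟨u, hu, hadj⟩ := hST.down v hv
  exact ⟨⟨(u, v), hu, hadj⟩, rfl⟩

theorem exists_out (hST : STOrd G s t) {v : Fin n} (hv : v ≠ t) : ∃ e : UE G, e.tl = v := by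
  obtain ⟨u, hu, hadj⟩ := hST.up v hv
  exact ⟨⟨(v, u), hu, hadj⟩, rfl⟩

theorem exists_firstIn (hST : STOrd G s t) (hQ : LR G Q) {v : Fin n} (hv : v ≠ s) :
    ∃ e, FirstIn Q e v := by
  obtain ⟨m, hm, hmin⟩ := exists_first Q hQ.irr hQ.trans (fun g : UE G => g.hd = v)
      (fun a b ha hb hab => hQ.in_tot (ha.trans hb.symm) hab) (exists_in hST hv)
  exact ⟨m, hm, hmin⟩

theorem exists_firstOut (hST : STOrd G s t) (hQ : LR G Q) {v : Fin n} (hv : v ≠ t) :
    ∃ e, FirstOut Q e ∧ e.tl = v := by
  obtain ⟨m, hm, hmin⟩ := exists_first Q hQ.irr hQ.trans (fun g : UE G => g.tl = v)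
      (fun a b ha hb hab => hQ.out_tot (ha.trans hb.symm) hab) (exists_out hST hv)
  exact ⟨m, fun g hg => hmin g (hg.trans hm), hm⟩

theorem STOrd.s_val (hST : STOrd G s t) (hn : 0 < n) : s.val = 0 := by
  have := hST.min ⟨0, hn⟩
  rw [Fin.le_def] at this
  simpa using this

theorem STOrd.t_val (hST : STOrd G s t) (hn : 0 < n) : t.val = n - 1 := by
  have := hST.max ⟨n - 1, by omega⟩
  rw [Fin.le_def] at this
  have h2 := t.isLt
  simp only at this
  omega

/-- The invariants of the labels at time `k`. -/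
structure LabInv (Q : UE G → UE G → Prop) (k : ℕ) : Prop where
  inj : ∀ e f : UE G, Fr k e → Fr k f → Lab Q e = Lab Q f → e = f
  fst : ∀ e : UE G, Fr k e → (Lab Q e = none ↔ ∀ g : UE G, Fr k g → g = e ∨ Q e g)
  lt : ∀ e e' : UE G, Fr k e → Lab Q e = some e' → e'.tl.val < k

theorem labInv_one (hST : STOrd G s t) (hQ : LR G Q) (hn : 0 < n) : LabInv Q 1 := by
  have h0 : ∀ e : UE G, Fr 1 e → e.tl = s := by
    intro e he
    apply Fin.ext
    rw [hST.s_val hn]
    have := he.1
    omega
  have hno : ∀ f : UE G, ¬ f.hd = s := by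
    intro f hf
    have h1 := hST.min f.tl
    have h2 := f.lt
    rw [hf] at h2
    exact absurd h1 (not_le.2 h2)
  have h1 : ∀ e : UE G, Fr 1 e → FirstOut Q e → Lab Q e = none := by
    intro e he hf
    apply Lab_none (fun e' => hf.not_prev hQ e')
    intro f hf'
    exact hno f (hf'.1.trans (h0 e he))
  have hall : ∀ e g : UE G, Fr 1 e → Fr 1 g → g.tl = e.tl := by
    intro e g he hg
    rw [h0 e he, h0 g hg]
  refine ⟨?_, ?_, ?_⟩
  · intro e f he hf hef
    rcases prev_or_first hQ e with ⟨e', h2⟩ | h2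
    · rw [Lab_prev hQ h2] at hef
      rcases prev_or_first hQ f with ⟨f', h3⟩ | h3
      · rw [Lab_prev hQ h3] at hef
        have h4 : e' = f' := Option.some.inj hef
        subst h4
        by_contra hne
        rcases hQ.out_tot (hall f e hf he) hne with h5 | h5
        · rcases h3.2.2 e (hall f e hf he) h5 with h6 | h6
          · rw [h6] at h2; exact hQ.irr _ h2.2.1
          · exact hQ.asymm h6 h2.2.1
        · rcases h2.2.2 f (hall e f he hf) h5 with h6 | h6
          · rw [h6] at h3; exact hQ.irr _ h3.2.1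
          · exact hQ.asymm h6 h3.2.1
      · rw [h1 f hf h3] at hef
        exact absurd hef (by simp)
    · rw [h1 e he h2] at hef
      rcases prev_or_first hQ f with ⟨f', h3⟩ | h3
      · rw [Lab_prev hQ h3] at hef
        exact absurd hef (by simp)
      · rcases h2 f (hall e f he hf) with h4 | h4
        · exact h4.symm
        · rcases h3 e (hall f e hf he) with h5 | h5
          · exact h5
          · exact absurd h4 (hQ.asymm h5)
  · intro e he
    constructor
    · intro h2 g hg
      rcases prev_or_first hQ e with ⟨e', h3⟩ | h3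
      · rw [Lab_prev hQ h3] at h2
        exact absurd h2 (by simp)
      · exact h3 g (hall e g he hg)
    · intro h2
      apply h1 e he
      intro g hg
      refine h2 g ⟨?_, ?_⟩
      · rw [hg]; exact he.1
      · have := Fin.lt_def.1 g.lt
        omega
  · intro e e' he h2
    rcases prev_or_first hQ e with ⟨e'', h3⟩ | h3
    · rw [Lab_prev hQ h3] at h2
      have h4 : e'' = e' := Option.some.inj h2
      rw [← h4, h3.1]
      exact he.1
    · rw [h1 e he h3] at h2
      exact absurd h2 (by simp)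

theorem labInv_succ (hST : STOrd G s t) (hQ : LR G Q) {k : ℕ} (hk : 1 ≤ k) (hk' : k + 1 < n)
    (ih : LabInv Q k) : LabInv Q (k + 1) := by
  have hn : 0 < n := by omega
  obtain ⟨v, hv⟩ : ∃ v : Fin n, v.val = k := ⟨⟨k, by omega⟩, rfl⟩
  have hvs : v ≠ s := by
    rintro rfl
    rw [hST.s_val hn] at hv
    omega
  have hvt : v ≠ t := by
    rintro rfl
    rw [hST.t_val hn] at hv
    omega
  obtain ⟨e0, he0⟩ := exists_firstIn hST hQ hvs
  obtain ⟨g0, hg0, hg0v⟩ := exists_firstOut hST hQ hvt
  have he0f : Fr k e0 := by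
    have := fr_hd e0
    rwa [he0.1, hv] at this
  -- the block lemma at this vertex
  have hblk : ∀ e g f : UE G, e.hd = v → g.tl = v → Fr k f → f.hd ≠ v →
      (Q e f ↔ Q g f) ∧ (Q f e ↔ Q f g) := by
    intro e g f he hg hf hfv
    refine hQ.block (he.trans hg.symm) ?_ (by rw [he]; exact hfv)
    rw [he, hv]; exact hf
  -- labels of the new edges
  have hnew : ∀ g : UE G, g.tl = v → (g = g0 ∧ Lab Q g = Lab Q e0) ∨
      (g ≠ g0 ∧ Q g0 g ∧ ∃ g', PrevOut Q g' g ∧ Lab Q g = some g') := by
    intro g hg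
    by_cases hgg : g = g0
    · left
      refine ⟨hgg, ?_⟩
      rw [hgg]
      exact Lab_first hQ (fun e' => hg0.not_prev hQ e') (by rw [hg0v]; exact he0)
    · right
      rcases hg0 g (hg.trans hg0v.symm) with h | h
      · exact absurd h hgg
      · refine ⟨hgg, h, ?_⟩
        rcases prev_or_first hQ g with ⟨g', h'⟩ | h'
        · exact ⟨g', h', Lab_prev hQ h'⟩
        · rcases h' g0 (hg0v.trans hg.symm) with h3 | h3
          · exact absurd h3.symm hgg
          · exact absurd h (hQ.asymm h3)
  have hcases : ∀ e : UE G, Fr (k + 1) e → (Fr k e ∧ e.hd ≠ v) ∨ e.tl = v := by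
    intro e he
    rcases fr_succ.1 he with h | h
    · exact Or.inl ⟨h.1, fun h2 => h.2 (by rw [h2, hv])⟩
    · exact Or.inr (Fin.ext (by rw [h, hv]))
  have hfrv : ∀ g : UE G, g.tl = v → Fr (k + 1) g := by
    intro g hg
    have := fr_tl g
    rwa [hg, hv] at this
  have hfrold : ∀ e : UE G, Fr k e → e.hd ≠ v → Fr (k + 1) e := by
    intro e he h
    exact fr_succ.2 (Or.inl ⟨he, fun h2 => h (Fin.ext (by rw [h2, hv]))⟩)
  have hinj : ∀ e f : UE G, Fr (k + 1) e → Fr (k + 1) f → Lab Q e = Lab Q f → e = f := by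
    -- it suffices to treat: both old, old and new, both new
    have hon : ∀ e f : UE G, Fr k e → e.hd ≠ v → f.tl = v → Lab Q e ≠ Lab Q f := by
      intro e f he hev hf hef
      rcases hnew f hf with ⟨-, h2⟩ | ⟨-, -, g', h3, h4⟩
      · have := ih.inj e e0 he he0f (hef.trans h2)
        rw [this] at hev
        exact hev he0.1
      · have := ih.lt e g' he (hef.trans h4)
        rw [h3.1, hf, hv] at this
        omega
    intro e f he hf hef
    rcases hcases e he with ⟨h1, h2⟩ | h1
    · rcases hcases f hf with ⟨h3, h4⟩ | h3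
      · exact ih.inj e f h1 h3 hef
      · exact absurd hef (hon e f h1 h2 h3)
    · rcases hcases f hf with ⟨h3, h4⟩ | h3
      · exact absurd hef.symm (hon f e h3 h4 h1)
      · rcases hnew e h1 with ⟨h5, h6⟩ | ⟨h5, h6, g', h7, h8⟩
        · rcases hnew f h3 with ⟨h9, h10⟩ | ⟨h9, h10, g'', h11, h12⟩
          · rw [h5, h9]
          · have := ih.lt e0 g'' he0f (by rw [← h12, ← hef, h6])
            rw [h11.1, h3, hv] at this
            omega
        · rcases hnew f h3 with ⟨h9, h10⟩ | ⟨h9, h10, g'', h11, h12⟩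
          · have := ih.lt e0 g' he0f (by rw [← h8, hef, h10])
            rw [h7.1, h1, hv] at this
            omega
          · have h13 : g' = g'' := by
              rw [h8, h12] at hef
              exact Option.some.inj hef
            subst h13
            by_contra hne
            rcases hQ.out_tot (h1.trans h3.symm) hne with h14 | h14
            · rcases h11.2.2 e (h1.trans h3.symm) h14 with h15 | h15
              · rw [h15] at h7; exact hQ.irr _ h7.2.1
              · exact hQ.asymm h15 h7.2.1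
            · rcases h7.2.2 f (h3.trans h1.symm) h14 with h15 | h15
              · rw [h15] at h11; exact hQ.irr _ h11.2.1
              · exact hQ.asymm h15 h11.2.1
  refine ⟨hinj, ?_, ?_⟩
  · intro e he
    rcases hcases e he with ⟨h1, h2⟩ | h1
    · rw [ih.fst e h1]
      constructor
      · intro h g hg
        rcases hcases g hg with ⟨h3, h4⟩ | h3
        · exact h g h3
        · right
          have h5 := (hblk e0 g e he0.1 h3 h1 h2).2
          rcases h e0 he0f with h6 | h6
          · rw [h6] at he0; exact absurd he0.1 h2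
          · exact h5.1 h6
      · intro h g hg
        by_cases hgv : g.hd = v
        · right
          have h5 := (hblk g g0 e hgv hg0v h1 h2).2
          rcases h g0 (hfrv g0 hg0v) with h6 | h6
          · have h7 := h1.1
            rw [← h6, hg0v, hv] at h7
            omega
          · exact h5.2 h6
        · exact h g (hfrold g hg hgv)
    · rcases hnew e h1 with ⟨h5, h6⟩ | ⟨h5, h6, g', h7, h8⟩
      · rw [h6, ih.fst e0 he0f]
        constructor
        · intro h g hg
          rcases hcases g hg with ⟨h3, h4⟩ | h3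
          · right
            have h9 := (hblk e0 e g he0.1 h1 h3 h4).1
            rcases h g h3 with h10 | h10
            · rw [h10] at h4; exact absurd he0.1 h4
            · exact h9.1 h10
          · rw [h5]
            exact hg0 g (h3.trans hg0v.symm)
        · intro h g hg
          by_cases hgv : g.hd = v
          · exact he0.2 g hgv
          · right
            have h9 := (hblk e0 e g he0.1 h1 hg hgv).1
            rcases h g (hfrold g hg hgv) with h10 | h10
            · have h11 := hg.1
              rw [h10, h1, hv] at h11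
              omega
            · exact h9.2 h10
      · rw [h8]
        constructor
        · intro h; exact absurd h (by simp)
        · intro h
          rcases h g0 (hfrv g0 hg0v) with h9 | h9
          · exact absurd h9.symm h5
          · exact absurd h6 (hQ.asymm h9)
  · intro e e' he h
    rcases hcases e he with ⟨h1, h2⟩ | h1
    · have := ih.lt e e' h1 h
      omega
    · rcases hnew e h1 with ⟨h5, h6⟩ | ⟨h5, h6, g', h7, h8⟩
      · have := ih.lt e0 e' he0f (by rw [← h6, h])
        omega
      · rw [h8] at h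
        have h9 : g' = e' := Option.some.inj h
        rw [← h9, h7.1, h1, hv]
        omega

theorem labInv (hST : STOrd G s t) (hQ : LR G Q) (k : ℕ) (hk : 1 ≤ k) (hk' : k < n) :
    LabInv Q k := by
  induction k, hk using Nat.le_induction with
  | base => exact labInv_one hST hQ (by omega)
  | succ k hk ih => exact labInv_succ hST hQ hk hk' (ih (by omega))

end frontier

end Pool.Agent.MP_cdcb37
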