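import Pool.Agent.Lib.MP_cdcb37_lc.Emb1

/-!
# Right labels, rotation and the face permutation
-/

namespace Pool.Agent.MP_cdcb37

open Finset

section right
variable {n : ℕ} {G : SimpleGraph (Fin n)} {s t : Fin n} {Q : UE G → UE G → Prop}

/-- `f` is the right neighbour of `e` in the frontier at time `k`. -/
def Nxt (Q : UE G → UE G → Prop) (k : ℕ) (e f : UE G) : Prop :=
  Fr k f ∧ Q e f ∧ ∀ g, Fr k g → Q e g → g = f ∨ Q f g

/-- `e` is the last edge of the frontier at time `k`. -/
def Lst (Q : UE G → UE G → Prop) (k : ℕ) (e : UE G) : Prop := ∀ g, Fr k g → g = e ∨ Q g e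

theorem Nxt.unique (hQ : LR G Q) {k : ℕ} {e f f' : UE G} (h : Nxt Q k e f)
    (h' : Nxt Q k e f') : f = f' := by
  rcases h.2.2 f' h'.1 h'.2.1 with h1 | h1
  · exact h1.symm
  rcases h'.2.2 f h.1 h.2.1 with h2 | h2
  · exact h2
  exact absurd h1 (hQ.asymm h2)

theorem nxt_or_lst (hQ : LR G Q) {k : ℕ} {e : UE G} (he : Fr k e) :
    (∃ f, Nxt Q k e f) ∨ Lst Q k e := by
  by_cases h : ∃ g : UE G, Fr k g ∧ Q e g
  · left
    obtain ⟨m, hm, hmin⟩ := exists_first Q hQ.irr hQ.trans (fun g : UE G => Fr k g ∧ Q e g)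
      (fun a b ha hb hab => hQ.fr_tot ha.1 hb.1 hab) h
    exact ⟨m, hm.1, hm.2, fun g h1 h2 => hmin g ⟨h1, h2⟩⟩
  · right
    intro g hg
    by_cases hge : g = e
    · exact Or.inl hge
    · rcases hQ.fr_tot hg he hge with h1 | h1
      · exact Or.inr h1
      · exact absurd ⟨g, hg, h1⟩ h

theorem Lst.not_nxt (hQ : LR G Q) {k : ℕ} {e f : UE G} (h : Lst Q k e) : ¬ Nxt Q k e f := by
  rintro ⟨h1, h2, -⟩
  rcases h f h1 with h3 | h3
  · rw [h3] at h2; exact hQ.irr _ h2
  · exact hQ.asymm h2 h3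

open Classical in
/-- The label of the face to the right of `e`. -/
noncomputable def Rab (Q : UE G → UE G → Prop) (e : UE G) : Option (UE G) :=
  if h : ∃ f, Nxt Q e.hd.val e f then Lab Q h.choose else none

/-- The step of the frontier analysis at one vertex. -/
structure StepData (Q : UE G → UE G → Prop) (k : ℕ) (v : Fin n) (e0 g0 : UE G) : Prop where
  val : v.val = k
  e0in : FirstIn Q e0 v
  g0first : FirstOut Q g0
  g0tl : g0.tl = v
  blk : ∀ e g f : UE G, e.hd = v → g.tl = v → Fr k f → f.hd ≠ v →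
      (Q e f ↔ Q g f) ∧ (Q f e ↔ Q f g)
  cases' : ∀ e : UE G, Fr (k + 1) e → (Fr k e ∧ e.hd ≠ v) ∨ e.tl = v
  new : ∀ g : UE G, g.tl = v → Fr (k + 1) g
  old : ∀ e : UE G, Fr k e → e.hd ≠ v → Fr (k + 1) e
  inn : ∀ e : UE G, e.hd = v → Fr k e
  lab0 : Lab Q g0 = Lab Q e0

theorem exists_stepData (hST : STOrd G s t) (hQ : LR G Q) {k : ℕ} (hk : 1 ≤ k)
    (hk' : k + 1 < n) : ∃ v e0 g0, StepData Q k v e0 g0 := by
  have hn : 0 < n := by omega
  obtain ⟨v, hv⟩ : ∃ v : Fin n, v.val = k := ⟨⟨k, by omega⟩, rfl⟩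
  have hvs : v ≠ s := by
    rintro rfl
    rw [hST.s_val hn] at hv
    omega
  have hvt : v ≠ t := by
    rintro rfl
    rw [hST.t_val hn] at hv
    omega
  obtain ⟨e0, he0⟩ := exists_firstIn hST hQ hvs
  obtain ⟨g0, hg0, hg0v⟩ := exists_firstOut hST hQ hvt
  refine ⟨v, e0, g0, ⟨hv, he0, hg0, hg0v, ?_, ?_, ?_, ?_, ?_, ?_⟩⟩
  · intro e g f he hg hf hfv
    refine hQ.block (he.trans hg.symm) ?_ (by rw [he]; exact hfv)
    rw [he, hv]; exact hf
  · intro e he
    rcases fr_succ.1 he with h | h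
    · exact Or.inl ⟨h.1, fun h2 => h.2 (by rw [h2, hv])⟩
    · exact Or.inr (Fin.ext (by rw [h, hv]))
  · intro g hg
    have := fr_tl g
    rwa [hg, hv] at this
  · intro e he h
    exact fr_succ.2 (Or.inl ⟨he, fun h2 => h (Fin.ext (by rw [h2, hv]))⟩)
  · intro e he
    have := fr_hd e
    rwa [he, hv] at this
  · exact Lab_first hQ (fun e' => hg0.not_prev hQ e') (by rw [hg0v]; exact he0)

theorem StepData.nxt {k : ℕ} {v : Fin n} {e0 g0 : UE G} (D : StepData Q k v e0 g0)
    (hQ : LR G Q) {e f : UE G} (he : Fr k e) (hev : e.hd ≠ v) (hf : Nxt Q k e f) :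
    ∃ f', Nxt Q (k + 1) e f' ∧ Lab Q f' = Lab Q f := by
  by_cases hfv : f.hd = v
  · have hfe : f = e0 := by
      by_contra hne
      rcases D.e0in.2 f hfv with h | h
      · exact hne h
      · have h1 : Q e e0 := by
          rw [(D.blk e0 g0 e D.e0in.1 D.g0tl he hev).2,
            ← (D.blk f g0 e hfv D.g0tl he hev).2]
          exact hf.2.1
        rcases hf.2.2 e0 (D.inn _ D.e0in.1) h1 with h2 | h2
        · exact hne h2.symm
        · exact hQ.asymm h h2
    refine ⟨g0, ⟨D.new _ D.g0tl, ?_, ?_⟩, by rw [D.lab0, hfe]⟩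
    · rw [← (D.blk f g0 e hfv D.g0tl he hev).2]
      exact hf.2.1
    · intro g hg heg
      rcases D.cases' g hg with ⟨h1, h2⟩ | h1
      · right
        rw [← (D.blk f g0 g hfv D.g0tl h1 h2).1]
        rcases hf.2.2 g h1 heg with h3 | h3
        · rw [h3] at h2; exact absurd hfv h2
        · exact h3
      · exact D.g0first g (h1.trans D.g0tl.symm)
  · refine ⟨f, ⟨D.old _ hf.1 hfv, hf.2.1, ?_⟩, rfl⟩
    intro g hg heg
    rcases D.cases' g hg with ⟨h1, h2⟩ | h1
    · exact hf.2.2 g h1 heg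
    · right
      rw [← (D.blk e0 g f D.e0in.1 h1 hf.1 hfv).2]
      have h2 : Q e e0 := by
        rw [(D.blk e0 g e D.e0in.1 h1 he hev).2]
        exact heg
      rcases hf.2.2 e0 (D.inn _ D.e0in.1) h2 with h3 | h3
      · rw [← h3] at hfv; exact absurd D.e0in.1 hfv
      · exact h3

theorem StepData.lst {k : ℕ} {v : Fin n} {e0 g0 : UE G} (D : StepData Q k v e0 g0)
    {e : UE G} (he : Fr k e) (hev : e.hd ≠ v) (hf : Lst Q k e) : Lst Q (k + 1) e := by
  intro g hg
  rcases D.cases' g hg with ⟨h1, h2⟩ | h1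
  · exact hf g h1
  · right
    rw [← (D.blk e0 g e D.e0in.1 h1 he hev).1]
    rcases hf e0 (D.inn _ D.e0in.1) with h3 | h3
    · rw [← h3] at hev; exact absurd D.e0in.1 hev
    · exact h3

/-- The right label can be read off at any time. -/
theorem rab_spec (hST : STOrd G s t) (hQ : LR G Q) {k : ℕ} {e : UE G} (he : Fr k e) :
    (∀ f, Nxt Q k e f → Rab Q e = Lab Q f) ∧ (Lst Q k e → Rab Q e = none) := by
  obtain ⟨j, hj⟩ : ∃ j, j = e.hd.val - k := ⟨_, rfl⟩
  induction j generalizing k with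
  | zero =>
    have hk : k = e.hd.val := by have := he.2; omega
    subst hk
    constructor
    · intro f hf
      have h : ∃ f, Nxt Q e.hd.val e f := ⟨f, hf⟩
      unfold Rab
      rw [dif_pos h]
      exact congrArg (Lab Q) (Nxt.unique hQ h.choose_spec hf)
    · intro h
      unfold Rab
      rw [dif_neg]
      rintro ⟨f, hf⟩
      exact h.not_nxt hQ hf
  | succ j ih =>
    have hk1 : 1 ≤ k := by have := he.1; omega
    have hlt := e.hd.isLt
    obtain ⟨v, e0, g0, D⟩ := exists_stepData hST hQ hk1 (by omega)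
    have hev : e.hd ≠ v := by
      intro h
      have := D.val
      rw [← h] at this
      omega
    have he' : Fr (k + 1) e := D.old e he hev
    have ih' := ih he' (by omega)
    constructor
    · intro f hf
      obtain ⟨f', h1, h2⟩ := D.nxt hQ he hev hf
      rw [ih'.1 f' h1, h2]
    · intro h
      exact ih'.2 (D.lst he hev h)

end right

/-! ## Rotations from lists -/

section rotation
variable {D V : Type} [DecidableEq D]

theorem formPerm_mem {l : List D} {x : D} (h : x ∈ l) : l.formPerm x ∈ l :=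
  List.formPerm_apply_mem_of_mem h

/-- The permutation of `D` which rotates each fibre list. -/
def rotPerm (f : D → V) (l : V → List D) (hm : ∀ v x, x ∈ l v ↔ f x = v) :
    Equiv.Perm D where
  toFun x := (l (f x)).formPerm x
  invFun x := (l (f x)).formPerm.symm x
  left_inv x := by
    have h1 : x ∈ l (f x) := (hm _ _).2 rfl
    have h2 : f ((l (f x)).formPerm x) = f x := (hm _ _).1 (formPerm_mem h1)
    simp only [h2, Equiv.symm_apply_apply]
  right_inv x := by
    have h1 : x ∈ l (f x) := (hm _ _).2 rfl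
    have h2 : f ((l (f x)).formPerm.symm x) = f x := by
      apply (hm _ _).1
      rw [← List.formPerm_mem_iff_mem, Equiv.apply_symm_apply]
      exact h1
    simp only [h2, Equiv.apply_symm_apply]

variable (f : D → V) (l : V → List D) (hm : ∀ v x, x ∈ l v ↔ f x = v)

theorem rotPerm_apply (x : D) : rotPerm f l hm x = (l (f x)).formPerm x := rfl

theorem rotPerm_fst (x : D) : f (rotPerm f l hm x) = f x :=
  (hm _ _).1 (formPerm_mem ((hm _ _).2 rfl))

theorem rotPerm_pow (x : D) (k : ℕ) : (rotPerm f l hm ^ k) x = ((l (f x)).formPerm ^ k) x ∧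
    f ((rotPerm f l hm ^ k) x) = f x := by
  induction k with
  | zero => simp
  | succ k ih =>
    rw [pow_succ', pow_succ', Equiv.Perm.mul_apply, Equiv.Perm.mul_apply]
    refine ⟨?_, ?_⟩
    · rw [rotPerm_apply, ih.2, ih.1]
    · rw [rotPerm_fst f l hm, ih.2]

theorem rotPerm_sameCycle (hn : ∀ v, (l v).Nodup) {x y : D} (h : f x = f y) :
    (rotPerm f l hm).SameCycle x y := by
  have hx : x ∈ l (f x) := (hm _ _).2 rfl
  have hy : y ∈ l (f x) := (hm _ _).2 h.symm
  obtain ⟨i, hi, hi'⟩ := List.getElem_of_mem hx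
  obtain ⟨j, hj, hij⟩ := List.getElem_of_mem hy
  refine ⟨((j + ((l (f x)).length - i) : ℕ) : ℤ), ?_⟩
  rw [zpow_natCast, (rotPerm_pow f l hm x _).1]
  have h1 := List.formPerm_pow_apply_getElem (l (f x)) (hn _) (j + ((l (f x)).length - i)) i hi
  rw [hi'] at h1
  rw [h1, ← hij]
  congr 1
  have : i + (j + ((l (f x)).length - i)) = j + (l (f x)).length := by omega
  rw [this, Nat.add_mod_right, Nat.mod_eq_of_lt hj]

/-- A relation holding between cyclically consecutive elements. -/
theorem rotPerm_chain (hn : ∀ v, (l v).Nodup) (P : D → D → Prop) (v : V)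
    (hc : (l v).IsChain P) (hw : ∀ x y, (l v).head? = some x → (l v).getLast? = some y → P y x)
    (x : D) (hx : f x = v) : P x (rotPerm f l hm x) := by
  have hx' : x ∈ l v := (hm _ _).2 hx
  obtain ⟨i, hi, hi'⟩ := List.getElem_of_mem hx'
  rw [rotPerm_apply, hx, ← hi', List.formPerm_apply_getElem _ (hn v)]
  by_cases h : i + 1 < (l v).length
  · have h2 : (i + 1) % (l v).length = i + 1 := Nat.mod_eq_of_lt h
    have h3 := (List.isChain_iff_getElem.1 hc) i h
    simpa only [h2] using h3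
  · have h1 : i + 1 = (l v).length := by omega
    have h2 : (i + 1) % (l v).length = 0 := by rw [h1, Nat.mod_self]
    simp only [h2]
    apply hw
    · rw [List.head?_eq_getElem?, List.getElem?_eq_getElem (by omega)]
    · rw [List.getLast?_eq_getElem?, ← h1, Nat.add_sub_cancel, List.getElem?_eq_getElem hi]

theorem rotPerm_ne (hn : ∀ v, (l v).Nodup) (x : D) (h : 2 ≤ (l (f x)).length) :
    rotPerm f l hm x ≠ x := by
  rw [rotPerm_apply]
  exact (List.formPerm_apply_mem_ne_self_iff _ (hn _) x ((hm _ _).2 rfl)).2 h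

end rotation

end Pool.Agent.MP_cdcb37
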