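import Pool.Agent.Lib.MP_cdcb37_lc.Emb2

/-!
# The rotation system of a left-right order
-/

namespace Pool.Agent.MP_cdcb37

open Finset

section darts
variable {n : ℕ} {G : SimpleGraph (Fin n)} {s t : Fin n} {Q : UE G → UE G → Prop}

/-- the upward dart -/
def UE.up (e : UE G) : G.Dart := ⟨(e.tl, e.hd), e.adj⟩
/-- the downward dart -/
def UE.dn (e : UE G) : G.Dart := ⟨(e.hd, e.tl), e.adj.symm⟩

@[simp] theorem UE.up_fst (e : UE G) : e.up.fst = e.tl := rfl
@[simp] theorem UE.up_snd (e : UE G) : e.up.snd = e.hd := rfl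
@[simp] theorem UE.dn_fst (e : UE G) : e.dn.fst = e.hd := rfl
@[simp] theorem UE.dn_snd (e : UE G) : e.dn.snd = e.tl := rfl
@[simp] theorem UE.up_symm (e : UE G) : e.up.symm = e.dn := rfl
@[simp] theorem UE.dn_symm (e : UE G) : e.dn.symm = e.up := rfl

theorem dart_cases (d : G.Dart) : (∃ e : UE G, d = e.up) ∨ (∃ e : UE G, d = e.dn) := by
  rcases lt_trichotomy d.fst d.snd with h | h | h
  · left
    exact ⟨⟨(d.fst, d.snd), h, d.adj⟩, rfl⟩
  · exact absurd h d.fst_ne_snd
  · right
    exact ⟨⟨(d.snd, d.fst), h, d.adj.symm⟩, rfl⟩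

theorem UE.up_inj {e f : UE G} (h : e.up = f.up) : e = f :=
  UE.ext (congrArg (fun d : G.Dart => d.fst) h) (congrArg (fun d : G.Dart => d.snd) h)

theorem UE.dn_inj {e f : UE G} (h : e.dn = f.dn) : e = f :=
  UE.ext (congrArg (fun d : G.Dart => d.snd) h) (congrArg (fun d : G.Dart => d.fst) h)

theorem UE.up_ne_dn (e f : UE G) : e.up ≠ f.dn := by
  intro h
  have h1 : e.tl = f.hd := congrArg (fun d : G.Dart => d.fst) h
  have h2 : e.hd = f.tl := congrArg (fun d : G.Dart => d.snd) h
  have h3 := e.lt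
  have h4 := f.lt
  rw [h1, h2] at h3
  exact absurd h3 (not_lt.2 h4.le)

/-- The label of the face to the right of a dart. -/
noncomputable def lam (Q : UE G → UE G → Prop) (d : G.Dart) : Option (UE G) :=
  if h : d.fst < d.snd then Rab Q ⟨(d.fst, d.snd), h, d.adj⟩
  else Lab Q ⟨(d.snd, d.fst), lt_of_le_of_ne (not_lt.1 h) d.snd_ne_fst, d.adj.symm⟩

theorem lam_up (e : UE G) : lam Q e.up = Rab Q e := by
  unfold lam
  rw [dif_pos (show e.up.fst < e.up.snd from e.lt)]
  rfl

theorem lam_dn (e : UE G) : lam Q e.dn = Lab Q e := by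
  unfold lam
  rw [dif_neg (show ¬ e.dn.fst < e.dn.snd from not_lt.2 e.lt.le)]
  rfl

/-- `e'` is the right neighbour of `e` among the in-edges. -/
def NextIn (Q : UE G → UE G → Prop) (e e' : UE G) : Prop :=
  e.hd = e'.hd ∧ Q e e' ∧ ∀ g : UE G, g.hd = e.hd → Q e g → g = e' ∨ Q e' g
/-- `e` is the rightmost in-edge of `v`. -/
def LastIn (Q : UE G → UE G → Prop) (e : UE G) (v : Fin n) : Prop :=
  e.hd = v ∧ ∀ g : UE G, g.hd = v → g = e ∨ Q g e
/-- `g'` is the right neighbour of `g` among the out-edges. -/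
def NextOut (Q : UE G → UE G → Prop) (g g' : UE G) : Prop :=
  g.tl = g'.tl ∧ Q g g' ∧ ∀ h : UE G, h.tl = g.tl → Q g h → h = g' ∨ Q g' h
/-- `g` is the rightmost out-edge of `v`. -/
def LastOut (Q : UE G → UE G → Prop) (g : UE G) (v : Fin n) : Prop :=
  g.tl = v ∧ ∀ h : UE G, h.tl = v → h = g ∨ Q h g

/-- The rotation relation: consecutive darts at a vertex. -/
inductive RStep (Q : UE G → UE G → Prop) (s t : Fin n) : G.Dart → G.Dart → Prop
  | ii (e e' : UE G) : NextIn Q e e' → RStep Q s t e.dn e'.dn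
  | io (e g : UE G) (v : Fin n) : v ≠ s → v ≠ t → LastIn Q e v → LastOut Q g v →
      RStep Q s t e.dn g.up
  | oo (g' g : UE G) : NextOut Q g' g → RStep Q s t g.up g'.up
  | oi (g e : UE G) (v : Fin n) : v ≠ s → v ≠ t → FirstOut Q g → g.tl = v → FirstIn Q e v →
      RStep Q s t g.up e.dn
  | s (g g' : UE G) : FirstOut Q g → g.tl = s → LastOut Q g' s → RStep Q s t g.up g'.up
  | t (e e' : UE G) : LastIn Q e t → FirstIn Q e' t → RStep Q s t e.dn e'.dn

/-- Last edges of the block and of the new block. -/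
theorem rab_last (hST : STOrd G s t) (hQ : LR G Q) {e g : UE G} {v : Fin n} (hvs : v ≠ s)
    (hvt : v ≠ t) (he : LastIn Q e v) (hg : LastOut Q g v) : Rab Q e = Rab Q g := by
  have hn : 0 < n := lt_of_le_of_lt (Nat.zero_le _) v.isLt
  have h1 : 1 ≤ v.val := by
    by_contra h
    apply hvs
    apply Fin.ext
    rw [hST.s_val hn]; omega
  have h2 : v.val + 1 < n := by
    by_contra h
    apply hvt
    apply Fin.ext
    have := v.isLt
    rw [hST.t_val hn]; omega
  obtain ⟨v', e0, g0, D⟩ := exists_stepData hST hQ h1 h2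
  have hv' : v' = v := Fin.ext D.val
  subst hv'
  have hef : Fr v'.val e := D.inn e he.1
  have hgf : Fr (v'.val + 1) g := D.new g hg.1
  rcases nxt_or_lst hQ hef with ⟨f, hf⟩ | h3
  · have hfv : f.hd ≠ v' := by
      intro h
      rcases he.2 f h with h4 | h4
      · rw [h4] at hf; exact hQ.irr _ hf.2.1
      · exact hQ.asymm h4 hf.2.1
    rw [(rab_spec hST hQ hef).1 f hf]
    symm
    apply (rab_spec hST hQ hgf).1 f
    refine ⟨D.old f hf.1 hfv, ((D.blk e g f he.1 hg.1 hf.1 hfv).1).1 hf.2.1, ?_⟩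
    intro x hx hgx
    rcases D.cases' x hx with ⟨h4, h5⟩ | h4
    · exact hf.2.2 x h4 (((D.blk e g x he.1 hg.1 h4 h5).1).2 hgx)
    · rcases hg.2 x h4 with h5 | h5
      · rw [h5] at hgx; exact absurd hgx (hQ.irr _)
      · exact absurd hgx (hQ.asymm h5)
  · rw [(rab_spec hST hQ hef).2 h3]
    symm
    apply (rab_spec hST hQ hgf).2
    intro x hx
    rcases D.cases' x hx with ⟨h4, h5⟩ | h4
    · right
      rw [← (D.blk e g x he.1 hg.1 h4 h5).2]
      rcases h3 x h4 with h6 | h6
      · rw [h6] at h5; exact absurd he.1 h5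
      · exact h6
    · exact hg.2 x h4

/-- Consecutive in-edges are consecutive in the frontier. -/
theorem NextIn.nxt (hST : STOrd G s t) (hQ : LR G Q) {e e' : UE G} (h : NextIn Q e e') :
    Nxt Q e.hd.val e e' := by
  have hf : Fr e.hd.val e' := by rw [h.1]; exact fr_hd e'
  refine ⟨hf, h.2.1, fun g hg heg => ?_⟩
  by_cases hgv : g.hd = e.hd
  · exact h.2.2 g hgv heg
  · right
    -- `g` is not an in-edge, so `e.hd ≠ t` and there is an out-edge
    have hvt : e.hd ≠ t := by
      intro h1
      apply hgv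
      have h2 := hg.2
      rw [← Fin.le_def, h1] at h2
      rw [h1]
      exact le_antisymm (hST.max _) h2
    obtain ⟨x, hx⟩ := exists_out hST hvt
    have h1 := (hQ.block (e := e) (g := x) (f := g) hx.symm hg hgv).1
    have hg' : Fr e'.hd.val g := by rw [← h.1]; exact hg
    have h2 := (hQ.block (e := e') (g := x) (f := g) (h.1.symm.trans hx.symm) hg'
      (by rw [← h.1]; exact hgv)).1
    rw [h2, ← h1]
    exact heg

/-- Consecutive out-edges are consecutive in the frontier. -/
theorem NextOut.nxt (hST : STOrd G s t) (hQ : LR G Q) {g g' : UE G} (h : NextOut Q g g') :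
    Nxt Q (g.tl.val + 1) g g' := by
  have hf : Fr (g.tl.val + 1) g' := by rw [h.1]; exact fr_tl g'
  refine ⟨hf, h.2.1, fun x hx hgx => ?_⟩
  by_cases hxv : x.tl = g.tl
  · exact h.2.2 x hxv hgx
  · right
    have hn : 0 < n := lt_of_le_of_lt (Nat.zero_le _) g.tl.isLt
    have hvs : g.tl ≠ s := by
      intro h1
      apply hxv
      apply Fin.ext
      have h2 := hx.1
      rw [h1, hST.s_val hn] at h2 ⊢
      omega
    obtain ⟨e, he⟩ := exists_in hST hvs
    have hx' : Fr e.hd.val x := by
      rw [he]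
      refine ⟨?_, by have := hx.2; omega⟩
      have h2 := hx.1
      have h3 : x.tl.val ≠ g.tl.val := fun h4 => hxv (Fin.ext h4)
      omega
    have hxe : x.hd ≠ e.hd := by
      intro h1
      have h2 := hx.2
      rw [h1, he] at h2
      omega
    have h1 := (hQ.block (e := e) (g := g) (f := x) he hx' hxe).1
    have h2 := (hQ.block (e := e) (g := g') (f := x) (he.trans h.1) hx' hxe).1
    rw [← h2, h1]
    exact hgx

theorem lab_first_s (hST : STOrd G s t) (hQ : LR G Q) {g : UE G} (hg : FirstOut Q g)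
    (hs : g.tl = s) : Lab Q g = none := by
  apply Lab_none (fun e' => hg.not_prev hQ e')
  intro f hf
  have h1 := hST.min f.tl
  have h2 := f.lt
  rw [hf.1, hs] at h2
  exact absurd h1 (not_le.2 h2)

theorem fr_one_tl (hST : STOrd G s t) {x : UE G} (hx : Fr (s.val + 1) x) : x.tl = s := by
  apply le_antisymm _ (hST.min _)
  have := hx.1
  rw [Fin.le_def]
  omega

theorem fr_t_hd (hST : STOrd G s t) {x : UE G} (hx : Fr t.val x) : x.hd = t := by
  apply le_antisymm (hST.max _)
  have := hx.2
  rw [Fin.le_def]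
  exact this

/-- Labels are constant along the face permutation. -/
theorem RStep.lam_eq (hST : STOrd G s t) (hQ : LR G Q) (hn : 3 ≤ n) {x y : G.Dart}
    (h : RStep Q s t x y) : lam Q x.symm = lam Q y := by
  cases h with
  | ii e e' h =>
    rw [UE.dn_symm, lam_up, lam_dn]
    exact (rab_spec hST hQ (fr_hd e)).1 _ (h.nxt hST hQ)
  | io e g v hvs hvt he hg =>
    rw [UE.dn_symm, lam_up, lam_up]
    exact rab_last hST hQ hvs hvt he hg
  | oo g' g h =>
    rw [UE.up_symm, lam_dn, lam_up]
    exact ((rab_spec hST hQ (fr_tl g')).1 _ (h.nxt hST hQ)).symm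
  | oi g e v hvs hvt hg hgv he =>
    rw [UE.up_symm, lam_dn, lam_dn]
    exact Lab_first hQ (fun e' => hg.not_prev hQ e') (by rw [hgv]; exact he)
  | s g g' hg hgs hg' =>
    rw [UE.up_symm, lam_dn, lam_up, lab_first_s hST hQ hg hgs]
    symm
    have h1 := fr_tl g'
    rw [hg'.1] at h1
    apply (rab_spec hST hQ h1).2
    intro x hx
    exact hg'.2 x (fr_one_tl hST hx)
  | t e e' he he' =>
    rw [UE.dn_symm, lam_up, lam_dn]
    have h1 : Fr t.val e := by have := fr_hd e; rwa [he.1] at this
    have h2 : Fr t.val e' := by have := fr_hd e'; rwa [he'.1] at this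
    rw [(rab_spec hST hQ h1).2 (fun x hx => he.2 x (fr_t_hd hST hx))]
    symm
    have hnn : 0 < n := by omega
    have inv := labInv hST hQ t.val (by rw [hST.t_val hnn]; omega)
      (by rw [hST.t_val hnn]; omega)
    rw [inv.fst e' h2]
    intro x hx
    exact he'.2 x (fr_t_hd hST hx)

/-- The right label of an out-edge. -/
theorem rab_out (hST : STOrd G s t) (hQ : LR G Q) {g : UE G} :
    (Rab Q g = some g) ∨ (LastOut Q g g.tl) := by
  by_cases h : ∃ x : UE G, x.tl = g.tl ∧ Q g x
  · left
    obtain ⟨m, hm, hmin⟩ := exists_first Q hQ.irr hQ.trans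
      (fun x : UE G => x.tl = g.tl ∧ Q g x)
      (fun a b ha hb hab => hQ.out_tot (ha.1.trans hb.1.symm) hab) h
    have hno : NextOut Q g m := ⟨hm.1.symm, hm.2, fun x h1 h2 => hmin x ⟨h1, h2⟩⟩
    rw [(rab_spec hST hQ (fr_tl g)).1 _ (hno.nxt hST hQ)]
    apply Lab_prev hQ
    refine ⟨hm.1.symm, hm.2, fun x hx hxm => ?_⟩
    by_cases hxg : x = g
    · exact Or.inl hxg
    · right
      rcases hQ.out_tot (hx.trans hm.1) hxg with h1 | h1
      · exact h1
      · rcases hno.2.2 x (hx.trans hm.1) h1 with h2 | h2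
        · rw [h2] at hxm; exact absurd hxm (hQ.irr _)
        · exact absurd hxm (hQ.asymm h2)
  · right
    refine ⟨rfl, fun x hx => ?_⟩
    by_cases hxg : x = g
    · exact Or.inl hxg
    · rcases hQ.out_tot hx hxg with h1 | h1
      · exact Or.inr h1
      · exact absurd ⟨x, hx, h1⟩ h

theorem LastOut.unique (hQ : LR G Q) {g g' : UE G} {v : Fin n} (h : LastOut Q g v)
    (h' : LastOut Q g' v) : g = g' := by
  rcases h.2 g' h'.1 with h1 | h1
  · exact h1.symm
  rcases h'.2 g h.1 with h2 | h2
  · exact h2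
  exact absurd h1 (hQ.asymm h2)

theorem exists_lastIn (hST : STOrd G s t) (hQ : LR G Q) {v : Fin n} (hv : v ≠ s) :
    ∃ e, LastIn Q e v := by
  obtain ⟨m, hm, hmin⟩ := exists_last Q hQ.irr hQ.trans (fun g : UE G => g.hd = v)
      (fun a b ha hb hab => hQ.in_tot (ha.trans hb.symm) hab) (exists_in hST hv)
  exact ⟨m, hm, hmin⟩

/-- The label of the last out-edge in terms of the frontier below. -/
theorem rab_lastOut (hST : STOrd G s t) (hQ : LR G Q) {g : UE G} {v : Fin n}
    (hg : LastOut Q g v) : (Rab Q g = none) ∨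
      (∃ f : UE G, Fr v.val f ∧ f.hd ≠ v ∧ Rab Q g = Lab Q f) := by
  have hgf := fr_tl g
  rw [hg.1] at hgf
  rcases nxt_or_lst hQ hgf with ⟨f, hf⟩ | h
  · right
    have hfv : f.tl ≠ v := by
      intro h
      rcases hg.2 f h with h1 | h1
      · rw [h1] at hf; exact hQ.irr _ hf.2.1
      · exact hQ.asymm h1 hf.2.1
    have h1 := hf.1.1
    have h2 := hf.1.2
    have h3 : f.tl.val ≠ v.val := fun h => hfv (Fin.ext h)
    refine ⟨f, ⟨by omega, by omega⟩, fun h => ?_, (rab_spec hST hQ hgf).1 _ hf⟩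
    rw [h] at h2
    omega
  · left
    exact (rab_spec hST hQ hgf).2 h

/-- `s t` is in every frontier. -/
theorem fr_st (hST : STOrd G s t) {k : ℕ} (hk : 1 ≤ k) (hk' : k < n) :
    ∃ e : UE G, Fr k e ∧ e.tl = s ∧ e.hd = t := by
  have hlt : s < t := lt_of_le_of_ne (hST.min t) hST.adj.ne
  refine ⟨⟨(s, t), hlt, hST.adj⟩, ⟨?_, ?_⟩, rfl, rfl⟩
  · change s.val < k
    rw [hST.s_val (by omega)]; omega
  · change k ≤ t.val
    rw [hST.t_val (by omega)]; omega

/-- Labels of darts with the same tail are distinct. -/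
theorem lam_inj (hST : STOrd G s t) (hQ : LR G Q) (hn : 3 ≤ n) {x y : G.Dart}
    (hxy : x.fst = y.fst) (h : lam Q x = lam Q y) : x = y := by
  have hnn : 0 < n := by omega
  -- in-edges
  have hii : ∀ e f : UE G, e.hd = f.hd → Lab Q e = Lab Q f → e = f := by
    intro e f hef hl
    have inv := labInv hST hQ e.hd.val (by have := Fin.lt_def.1 e.lt; omega) e.hd.isLt
    exact inv.inj e f (fr_hd e) (by rw [hef]; exact fr_hd f) hl
  -- in- and out-edges
  have hio : ∀ e g : UE G, e.hd = g.tl → Lab Q e ≠ Rab Q g := by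
    intro e g heg hl
    have inv := labInv hST hQ e.hd.val (by have := Fin.lt_def.1 e.lt; omega) e.hd.isLt
    rcases rab_out hST hQ (g := g) with h1 | h1
    · rw [h1] at hl
      have := inv.lt e g (fr_hd e) hl
      rw [heg] at this
      omega
    · rw [← heg] at h1
      rcases rab_lastOut hST hQ h1 with h2 | ⟨f, h2, h3, h4⟩
      · rw [h2] at hl
        obtain ⟨x, hx, hx1, hx2⟩ := fr_st hST (k := e.hd.val)
          (by have := Fin.lt_def.1 e.lt; omega) e.hd.isLt
        have h5 := (inv.fst e (fr_hd e)).1 hl x hx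
        have hxne : x.hd ≠ e.hd := by
          intro h6
          rw [heg] at h6
          have h7 := hST.max g.hd
          have h8 := g.lt
          rw [← h6, hx2] at h8
          exact absurd h7 (not_le.2 h8)
        have hex : Q e x := by
          rcases h5 with h5 | h5
          · rw [h5] at hxne; exact absurd rfl hxne
          · exact h5
        -- the last edge of the frontier is `g`, so nothing is to the right
        have hgx := ((hQ.block heg hx hxne).1).1 hex
        have hgf := fr_tl g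
        rcases nxt_or_lst hQ hgf with ⟨f, hf⟩ | h6
        · -- then the label of `g` is the label of `f`, which would be the first
          have h7 := (rab_spec hST hQ hgf).1 f hf
          rw [h2] at h7
          have hk1 : g.tl.val + 1 < n := by have := Fin.lt_def.1 g.lt; have := g.hd.isLt; omega
          have inv' := labInv hST hQ (g.tl.val + 1) (by omega) hk1
          rcases (inv'.fst f hf.1).1 h7.symm g hgf with h8 | h8
          · rw [h8] at hf; exact hQ.irr _ hf.2.1
          · exact hQ.asymm h8 hf.2.1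
        · have hxf : Fr (g.tl.val + 1) x := by
            rw [← heg, fr_succ]
            exact Or.inl ⟨hx, fun h => hxne (Fin.ext h)⟩
          rcases h6 x hxf with h8 | h8
          · rw [h8] at hgx; exact hQ.irr _ hgx
          · exact hQ.asymm h8 hgx
      · rw [h4] at hl
        have := inv.inj e f (fr_hd e) h2 hl
        rw [this] at h3
        exact h3 rfl
  have hoo : ∀ g g' : UE G, g.tl = g'.tl → Rab Q g = Rab Q g' → g = g' := by
    have aux : ∀ g g' : UE G, g.tl = g'.tl → Rab Q g = some g → LastOut Q g' g'.tl →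
        Rab Q g = Rab Q g' → False := by
      intro g g' hgg h1 h2 hl
      rcases rab_lastOut hST hQ h2 with h3 | ⟨f, h3, h4, h5⟩
      · rw [h1, h3] at hl; exact absurd hl (by simp)
      · rw [h1, h5] at hl
        have hk : 1 ≤ g'.tl.val := by have := h3.1; omega
        have inv := labInv hST hQ g'.tl.val hk g'.tl.isLt
        have := inv.lt f g h3 hl.symm
        rw [hgg] at this
        omega
    intro g g' hgg hl
    rcases rab_out hST hQ (g := g) with h1 | h1
    · rcases rab_out hST hQ (g := g') with h2 | h2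
      · rw [h1, h2] at hl
        exact Option.some.inj hl
      · exact (aux g g' hgg h1 h2 hl).elim
    · rcases rab_out hST hQ (g := g') with h2 | h2
      · exact (aux g' g hgg.symm h2 h1 hl.symm).elim
      · rw [hgg] at h1
        exact h1.unique hQ h2
  rcases dart_cases x with ⟨e, rfl⟩ | ⟨e, rfl⟩
  · rcases dart_cases y with ⟨f, rfl⟩ | ⟨f, rfl⟩
    · rw [lam_up, lam_up] at h
      rw [hoo e f hxy h]
    · rw [lam_up, lam_dn] at h
      exact absurd h.symm (hio f e hxy.symm)
  · rcases dart_cases y with ⟨f, rfl⟩ | ⟨f, rfl⟩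
    · rw [lam_up, lam_dn] at h
      exact absurd h (hio e f hxy)
    · rw [lam_dn, lam_dn] at h
      rw [hii e f hxy h]

end darts

end Pool.Agent.MP_cdcb37
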