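import Pool.Agent.Lib.MP_cdcb37_lc.Emb3

/-!
# The face permutation of a left-right order
-/

namespace Pool.Agent.MP_cdcb37

open Finset

section lists
variable {n : ℕ} {G : SimpleGraph (Fin n)} {s t : Fin n} {Q : UE G → UE G → Prop}

theorem exists_inL (hQ : LR G Q) (v : Fin n) :
    ∃ l : List (UE G), (∀ e, e ∈ l ↔ e.hd = v) ∧ l.Pairwise Q :=
  exists_sorted Q hQ.irr hQ.trans (fun e => e.hd = v)
    (fun _ _ he hf => hQ.in_tot (he.trans hf.symm))

theorem exists_outL (hQ : LR G Q) (v : Fin n) :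
    ∃ l : List (UE G), (∀ e, e ∈ l ↔ e.tl = v) ∧ l.Pairwise Q :=
  exists_sorted Q hQ.irr hQ.trans (fun e => e.tl = v)
    (fun _ _ he hf => hQ.out_tot (he.trans hf.symm))

/-- in-edges from left to right -/
noncomputable def inL (hQ : LR G Q) (v : Fin n) : List (UE G) := (exists_inL hQ v).choose
/-- out-edges from left to right -/
noncomputable def outL (hQ : LR G Q) (v : Fin n) : List (UE G) := (exists_outL hQ v).choose

theorem mem_inL (hQ : LR G Q) {v : Fin n} {e : UE G} : e ∈ inL hQ v ↔ e.hd = v :=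
  (exists_inL hQ v).choose_spec.1 e
theorem mem_outL (hQ : LR G Q) {v : Fin n} {e : UE G} : e ∈ outL hQ v ↔ e.tl = v :=
  (exists_outL hQ v).choose_spec.1 e
theorem pw_inL (hQ : LR G Q) (v : Fin n) : (inL hQ v).Pairwise Q :=
  (exists_inL hQ v).choose_spec.2
theorem pw_outL (hQ : LR G Q) (v : Fin n) : (outL hQ v).Pairwise Q :=
  (exists_outL hQ v).choose_spec.2

theorem pw_head {E : Type} {Q : E → E → Prop} {l : List E} (h : l.Pairwise Q) {x : E}
    (hx : l.head? = some x) : ∀ g ∈ l, g = x ∨ Q x g := by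
  cases l with
  | nil => simp at hx
  | cons y l =>
    simp only [List.head?_cons, Option.some.injEq] at hx
    subst hx
    intro g hg
    rcases List.mem_cons.1 hg with h1 | h1
    · exact Or.inl h1
    · exact Or.inr ((List.pairwise_cons.1 h).1 g h1)

theorem pw_last {E : Type} {Q : E → E → Prop} {l : List E} (h : l.Pairwise Q) {x : E}
    (hx : l.getLast? = some x) : ∀ g ∈ l, g = x ∨ Q g x := by
  obtain ⟨ys, rfl⟩ := List.getLast?_eq_some_iff.1 hx
  intro g hg
  rcases List.mem_append.1 hg with h1 | h1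
  · exact Or.inr ((List.pairwise_append.1 h).2.2 g h1 x (by simp))
  · exact Or.inl (by simpa using h1)

theorem firstIn_of_head (hQ : LR G Q) {v : Fin n} {x : UE G}
    (hx : (inL hQ v).head? = some x) : FirstIn Q x v :=
  ⟨(mem_inL hQ).1 (List.mem_of_head? hx),
    fun g hg => pw_head (pw_inL hQ v) hx g ((mem_inL hQ).2 hg)⟩

theorem lastIn_of_last (hQ : LR G Q) {v : Fin n} {x : UE G}
    (hx : (inL hQ v).getLast? = some x) : LastIn Q x v :=
  ⟨(mem_inL hQ).1 (List.mem_of_getLast? hx),
    fun g hg => pw_last (pw_inL hQ v) hx g ((mem_inL hQ).2 hg)⟩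

theorem firstOut_of_head (hQ : LR G Q) {v : Fin n} {x : UE G}
    (hx : (outL hQ v).head? = some x) : FirstOut Q x ∧ x.tl = v := by
  have h1 := (mem_outL hQ).1 (List.mem_of_head? hx)
  exact ⟨fun g hg => pw_head (pw_outL hQ v) hx g ((mem_outL hQ).2 (hg.trans h1)), h1⟩

theorem lastOut_of_last (hQ : LR G Q) {v : Fin n} {x : UE G}
    (hx : (outL hQ v).getLast? = some x) : LastOut Q x v :=
  ⟨(mem_outL hQ).1 (List.mem_of_getLast? hx),
    fun g hg => pw_last (pw_outL hQ v) hx g ((mem_outL hQ).2 hg)⟩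

/-- The rotation list of a vertex. -/
noncomputable def rl (hQ : LR G Q) (v : Fin n) : List G.Dart :=
  (inL hQ v).map UE.dn ++ (outL hQ v).reverse.map UE.up

theorem mem_rl (hQ : LR G Q) (v : Fin n) (x : G.Dart) : x ∈ rl hQ v ↔ x.fst = v := by
  unfold rl
  rw [List.mem_append, List.mem_map, List.mem_map]
  constructor
  · rintro (⟨e, he, rfl⟩ | ⟨e, he, rfl⟩)
    · exact (mem_inL hQ).1 he
    · exact (mem_outL hQ).1 (List.mem_reverse.1 he)
  · intro h
    rcases dart_cases x with ⟨e, rfl⟩ | ⟨e, rfl⟩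
    · exact Or.inr ⟨e, List.mem_reverse.2 ((mem_outL hQ).2 h), rfl⟩
    · exact Or.inl ⟨e, (mem_inL hQ).2 h, rfl⟩

theorem nodup_of_pw (hQ : LR G Q) {l : List (UE G)} (h : l.Pairwise Q) : l.Nodup :=
  List.Pairwise.imp (S := (· ≠ ·)) (fun {a b} hab he => hQ.irr a (by rw [← he] at hab; exact hab))
    h

theorem nodup_rl (hQ : LR G Q) (v : Fin n) : (rl hQ v).Nodup := by
  unfold rl
  apply List.Nodup.append
  · exact (nodup_of_pw hQ (pw_inL hQ v)).map (fun _ _ => UE.dn_inj)
  · exact (List.nodup_reverse.2 (nodup_of_pw hQ (pw_outL hQ v))).map (fun _ _ => UE.up_inj)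
  · intro x hx hy
    obtain ⟨e, -, rfl⟩ := List.mem_map.1 hx
    obtain ⟨f, -, h⟩ := List.mem_map.1 hy
    exact UE.up_ne_dn f e h

theorem hd_ne_s (hST : STOrd G s t) (e : UE G) : e.hd ≠ s := by
  intro h
  have h1 := hST.min e.tl
  have h2 := e.lt
  rw [h] at h2
  exact absurd h1 (not_le.2 h2)

theorem tl_ne_t (hST : STOrd G s t) (e : UE G) : e.tl ≠ t := by
  intro h
  have h1 := hST.max e.hd
  have h2 := e.lt
  rw [h] at h2
  exact absurd h1 (not_le.2 h2)

theorem rl_chain (hST : STOrd G s t) (hQ : LR G Q) (v : Fin n) :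
    (rl hQ v).IsChain (RStep Q s t) := by
  unfold rl
  rw [List.isChain_append]
  refine ⟨?_, ?_, ?_⟩
  · rw [List.isChain_map]
    refine (isChain_of_pairwise Q hQ.irr hQ.trans _ (pw_inL hQ v)).imp ?_
    rintro a b ⟨h1, h2, h3, h4⟩
    rw [mem_inL] at h1 h2
    refine RStep.ii a b ⟨h1.trans h2.symm, h3, fun g hg => h4 g ?_⟩
    rw [mem_inL, hg, h1]
  · rw [List.isChain_map, List.isChain_reverse]
    refine (isChain_of_pairwise Q hQ.irr hQ.trans _ (pw_outL hQ v)).imp ?_
    rintro a b ⟨h1, h2, h3, h4⟩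
    rw [mem_outL] at h1 h2
    refine RStep.oo a b ⟨h1.trans h2.symm, h3, fun g hg => h4 g ?_⟩
    rw [mem_outL, hg, h1]
  · intro x hx y hy
    rw [List.getLast?_map, Option.mem_def, Option.map_eq_some_iff] at hx
    rw [List.head?_map, List.head?_reverse, Option.mem_def, Option.map_eq_some_iff] at hy
    obtain ⟨e, he, rfl⟩ := hx
    obtain ⟨g, hg, rfl⟩ := hy
    have h1 := lastIn_of_last hQ he
    have h2 := lastOut_of_last hQ hg
    exact RStep.io e g v (by rw [← h1.1]; exact hd_ne_s hST e)
      (by rw [← h2.1]; exact tl_ne_t hST g) h1 h2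

theorem rl_wrap (hST : STOrd G s t) (hQ : LR G Q) (v : Fin n) :
    ∀ x y, (rl hQ v).head? = some x → (rl hQ v).getLast? = some y → RStep Q s t y x := by
  intro x y hx hy
  unfold rl at hx hy
  rw [List.head?_append, List.head?_map, List.head?_map, List.head?_reverse] at hx
  rw [List.getLast?_append, List.getLast?_map, List.getLast?_map, List.getLast?_reverse] at hy
  cases hi : (inL hQ v).head? with
  | none =>
    have hnil : inL hQ v = [] := List.head?_eq_none_iff.1 hi
    rw [hnil] at hx hy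
    simp only [List.head?_nil, List.getLast?_nil, Option.map_none, Option.none_or,
      Option.or_none, Option.map_eq_some_iff] at hx hy
    obtain ⟨g', hg', rfl⟩ := hx
    obtain ⟨g, hg, rfl⟩ := hy
    have h1 := firstOut_of_head hQ hg
    have h2 := lastOut_of_last hQ hg'
    have hvs : v = s := by
      by_contra hne
      obtain ⟨e, he⟩ := exists_in hST hne
      have := (mem_inL hQ).2 he
      rw [hnil] at this
      exact absurd this (by simp)
    rw [hvs] at h1 h2
    exact RStep.s g g' h1.1 h1.2 h2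
  | some e =>
    have he := firstIn_of_head hQ hi
    rw [hi] at hx
    simp only [Option.map_some, Option.some_or, Option.some.injEq] at hx
    subst hx
    cases ho : (outL hQ v).head? with
    | none =>
      have hnil : outL hQ v = [] := List.head?_eq_none_iff.1 ho
      rw [hnil] at hy
      simp only [List.head?_nil, Option.map_none, Option.none_or, Option.map_eq_some_iff] at hy
      obtain ⟨e', he', rfl⟩ := hy
      have h1 := lastIn_of_last hQ he'
      have hvt : v = t := by
        by_contra hne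
        obtain ⟨g, hg⟩ := exists_out hST hne
        have := (mem_outL hQ).2 hg
        rw [hnil] at this
        exact absurd this (by simp)
      rw [hvt] at h1 he
      exact RStep.t e' e h1 he
    | some g =>
      have hg := firstOut_of_head hQ ho
      rw [ho] at hy
      simp only [Option.map_some, Option.some_or, Option.some.injEq] at hy
      subst hy
      exact RStep.oi g e v (by rw [← he.1]; exact hd_ne_s hST e)
        (by rw [← hg.2]; exact tl_ne_t hST g) hg.1 hg.2 he

open Classical in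
/-- The rotation. -/
noncomputable def sig (hQ : LR G Q) : Equiv.Perm G.Dart :=
  rotPerm (fun d : G.Dart => d.fst) (rl hQ) (mem_rl hQ)

theorem sig_fst (hQ : LR G Q) (d : G.Dart) : (sig hQ d).fst = d.fst := by
  classical
  exact rotPerm_fst (fun d : G.Dart => d.fst) (rl hQ) (mem_rl hQ) d

theorem sig_step (hST : STOrd G s t) (hQ : LR G Q) (d : G.Dart) :
    RStep Q s t d (sig hQ d) := by
  classical
  exact rotPerm_chain (fun d : G.Dart => d.fst) (rl hQ) (mem_rl hQ) (nodup_rl hQ)
    (RStep Q s t) d.fst (rl_chain hST hQ _) (rl_wrap hST hQ _) d rfl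

theorem sig_sameCycle (hQ : LR G Q) {d d' : G.Dart} (h : d.fst = d'.fst) :
    (sig hQ).SameCycle d d' := by
  classical
  exact rotPerm_sameCycle (fun d : G.Dart => d.fst) (rl hQ) (mem_rl hQ) (nodup_rl hQ) h

theorem sig_ne (hST : STOrd G s t) (hQ : LR G Q) (hn : 3 ≤ n) (d : G.Dart) :
    sig hQ d ≠ d := by
  classical
  apply rotPerm_ne (fun d : G.Dart => d.fst) (rl hQ) (mem_rl hQ) (nodup_rl hQ)
  have hnn : 0 < n := by omega
  obtain ⟨x, y, hxy, hx, hy⟩ : ∃ x y : G.Dart, x ≠ y ∧ x.fst = d.fst ∧ y.fst = d.fst := by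
    have hlt : s < t := lt_of_le_of_ne (hST.min t) hST.adj.ne
    obtain ⟨k, hk1, hk2⟩ : ∃ k : UE G, k.tl = s ∧ k.hd = t := ⟨⟨(s, t), hlt, hST.adj⟩, rfl, rfl⟩
    by_cases hs : d.fst = s
    · obtain ⟨e, he⟩ := exists_in hST (v := (⟨1, by omega⟩ : Fin n)) (by
        intro h
        have := congrArg Fin.val h
        rw [hST.s_val hnn] at this
        simp at this)
      refine ⟨e.up, k.up, ?_, ?_, hk1.trans hs.symm⟩
      · intro h
        have h1 := UE.up_inj h
        have h2 := congrArg (fun e : UE G => e.hd.val) h1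
        simp only [he, hk2] at h2
        rw [hST.t_val hnn] at h2
        omega
      · rw [hs, UE.up_fst]
        have h1 := Fin.lt_def.1 e.lt
        rw [he] at h1
        apply Fin.ext
        rw [hST.s_val hnn]
        simp only at h1
        omega
    · by_cases ht : d.fst = t
      · obtain ⟨e, he⟩ := exists_out hST (v := (⟨n - 2, by omega⟩ : Fin n)) (by
          intro h
          have := congrArg Fin.val h
          rw [hST.t_val hnn] at this
          simp only at this
          omega)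
        refine ⟨e.dn, k.dn, ?_, ?_, hk2.trans ht.symm⟩
        · intro h
          have h1 := UE.dn_inj h
          have h2 := congrArg (fun e : UE G => e.tl.val) h1
          simp only [he, hk1] at h2
          rw [hST.s_val hnn] at h2
          omega
        · rw [ht, UE.dn_fst]
          have h1 := Fin.lt_def.1 e.lt
          rw [he] at h1
          apply Fin.ext
          rw [hST.t_val hnn]
          have h2 := e.hd.isLt
          simp only at h1
          omega
      · obtain ⟨e, he⟩ := exists_in hST hs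
        obtain ⟨g, hg⟩ := exists_out hST ht
        exact ⟨g.up, e.dn, UE.up_ne_dn g e, hg, he⟩
  have hx' := (mem_rl hQ d.fst x).2 hx
  have hy' := (mem_rl hQ d.fst y).2 hy
  by_contra hlen
  push Not at hlen
  have hlen' : (rl hQ d.fst).length ≤ 1 := Nat.lt_succ_iff.1 hlen
  match hl : rl hQ d.fst with
  | [] => rw [hl] at hx'; exact absurd hx' (by simp)
  | [a] =>
    rw [hl] at hx' hy'
    exact hxy ((List.mem_singleton.1 hx').trans (List.mem_singleton.1 hy').symm)
  | a :: b :: l =>
    rw [hl] at hlen'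
    simp at hlen'

/-- The face permutation. -/
noncomputable def fac (hQ : LR G Q) : Equiv.Perm G.Dart :=
  (Function.Involutive.toPerm SimpleGraph.Dart.symm SimpleGraph.Dart.symm_involutive).trans
    (sig hQ)

theorem fac_apply (hQ : LR G Q) (d : G.Dart) : fac hQ d = sig hQ d.symm := rfl

theorem lam_fac (hST : STOrd G s t) (hQ : LR G Q) (hn : 3 ≤ n) (d : G.Dart) :
    lam Q (fac hQ d) = lam Q d := by
  have := (sig_step hST hQ d.symm).lam_eq hST hQ hn
  rw [SimpleGraph.Dart.symm_symm] at this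
  rw [fac_apply]
  exact this.symm

theorem lam_sameCycle (hST : STOrd G s t) (hQ : LR G Q) (hn : 3 ≤ n) {d d' : G.Dart}
    (h : (fac hQ).SameCycle d d') : lam Q d = lam Q d' := by
  have : Finite G.Dart := Finite.of_injective _ SimpleGraph.Dart.toProd_injective
  obtain ⟨k, rfl⟩ := h.exists_nat_pow_eq
  induction k with
  | zero => rfl
  | succ k ih =>
    rw [pow_succ', Equiv.Perm.mul_apply, lam_fac hST hQ hn]
    exact ih ⟨k, by simp⟩

/-! ### Triangles -/

theorem sig_dn_last (hST : STOrd G s t) (hQ : LR G Q) {e g : UE G} {v : Fin n}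
    (he : LastIn Q e v) (hg : LastOut Q g v) : sig hQ e.dn = g.up := by
  have h := sig_step hST hQ e.dn
  generalize sig hQ e.dn = y at h
  generalize hx : e.dn = x at h
  cases h with
  | ii e1 e2 h1 =>
    have := UE.dn_inj hx
    subst this
    rcases he.2 e2 (h1.1.symm.trans he.1) with h2 | h2
    · rw [h2] at h1; exact absurd h1.2.1 (hQ.irr _)
    · exact absurd h1.2.1 (hQ.asymm h2)
  | io e1 g1 w _ _ h1 h2 =>
    have := UE.dn_inj hx
    subst this
    have hw : w = v := h1.1.symm.trans he.1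
    subst hw
    rw [h2.unique hQ hg]
  | oo _ _ _ => exact absurd hx.symm (UE.up_ne_dn _ _)
  | oi _ _ _ _ _ _ _ _ => exact absurd hx.symm (UE.up_ne_dn _ _)
  | s _ _ _ _ _ => exact absurd hx.symm (UE.up_ne_dn _ _)
  | t e1 e2 h1 h2 =>
    have := UE.dn_inj hx
    subst this
    exact absurd (hg.1.trans (he.1.symm.trans h1.1)) (tl_ne_t hST g)

theorem sig_dn_next (hST : STOrd G s t) (hQ : LR G Q) {e e' : UE G}
    (h : NextIn Q e e') : sig hQ e.dn = e'.dn := by
  have hs := sig_step hST hQ e.dn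
  generalize sig hQ e.dn = y at hs
  generalize hx : e.dn = x at hs
  have hlast : ∀ w, ¬ LastIn Q e w := by
    intro w hw
    rcases hw.2 e' (h.1.symm.trans hw.1) with h2 | h2
    · rw [h2] at h; exact absurd h.2.1 (hQ.irr _)
    · exact absurd h.2.1 (hQ.asymm h2)
  cases hs with
  | ii e1 e2 h1 =>
    have := UE.dn_inj hx
    subst this
    rcases h1.2.2 e' h.1.symm h.2.1 with h2 | h2
    · rw [h2]
    rcases h.2.2 e2 h1.1.symm h1.2.1 with h3 | h3
    · rw [h3]
    · exact absurd h2 (hQ.asymm h3)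
  | io e1 g1 w _ _ h1 h2 =>
    have := UE.dn_inj hx
    subst this
    exact absurd h1 (hlast _)
  | oo _ _ _ => exact absurd hx.symm (UE.up_ne_dn _ _)
  | oi _ _ _ _ _ _ _ _ => exact absurd hx.symm (UE.up_ne_dn _ _)
  | s _ _ _ _ _ => exact absurd hx.symm (UE.up_ne_dn _ _)
  | t e1 e2 h1 h2 =>
    have := UE.dn_inj hx
    subst this
    exact absurd h1 (hlast _)

theorem NextOut.not_first (hQ : LR G Q) {g g' : UE G} (h : NextOut Q g g') :
    ¬ FirstOut Q g' := by
  intro h1
  rcases h1 g h.1 with h2 | h2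
  · rw [h2] at h; exact hQ.irr _ h.2.1
  · exact hQ.asymm h.2.1 h2

theorem sig_up_prev (hST : STOrd G s t) (hQ : LR G Q) {g g' : UE G}
    (h : NextOut Q g g') : sig hQ g'.up = g.up := by
  have hs := sig_step hST hQ g'.up
  generalize sig hQ g'.up = y at hs
  generalize hx : g'.up = x at hs
  cases hs with
  | ii _ _ _ => exact absurd hx (UE.up_ne_dn _ _)
  | io _ _ _ _ _ _ _ => exact absurd hx (UE.up_ne_dn _ _)
  | oo g1 g2 h1 =>
    have := UE.up_inj hx
    subst this
    by_contra hne
    have hne' : g1 ≠ g := fun h => hne (by rw [h])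
    rcases hQ.out_tot (h1.1.trans h.1.symm) hne' with h2 | h2
    · rcases h1.2.2 g (h.1.trans h1.1.symm) h2 with h3 | h3
      · rw [h3] at h; exact hQ.irr _ h.2.1
      · exact hQ.asymm h.2.1 h3
    · rcases h.2.2 g1 (h1.1.trans h.1.symm) h2 with h3 | h3
      · rw [h3] at h1; exact hQ.irr _ h1.2.1
      · exact hQ.asymm h1.2.1 h3
  | oi g1 e1 _ _ _ h1 _ _ =>
    have := UE.up_inj hx
    subst this
    exact absurd h1 (h.not_first hQ)
  | s g1 g2 h1 _ _ =>
    have := UE.up_inj hx
    subst this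
    exact absurd h1 (h.not_first hQ)
  | t _ _ _ _ => exact absurd hx (UE.up_ne_dn _ _)

theorem sig_up_first (hST : STOrd G s t) (hQ : LR G Q) {g e : UE G} {v : Fin n}
    (hg : FirstOut Q g) (hgv : g.tl = v) (he : FirstIn Q e v) : sig hQ g.up = e.dn := by
  have hs := sig_step hST hQ g.up
  generalize sig hQ g.up = y at hs
  generalize hx : g.up = x at hs
  cases hs with
  | ii _ _ _ => exact absurd hx (UE.up_ne_dn _ _)
  | io _ _ _ _ _ _ _ => exact absurd hx (UE.up_ne_dn _ _)
  | oo g1 g2 h1 =>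
    have := UE.up_inj hx
    subst this
    exact absurd hg (h1.not_first hQ)
  | oi g1 e1 w _ _ h1 h2 h3 =>
    have := UE.up_inj hx
    subst this
    have hw : w = v := h2.symm.trans hgv
    subst hw
    rw [h3.unique hQ he]
  | s g1 g2 h1 h2 _ =>
    have := UE.up_inj hx
    subst this
    exact absurd (he.1.trans (hgv.symm.trans h2)) (hd_ne_s hST e)
  | t _ _ _ _ => exact absurd hx (UE.up_ne_dn _ _)

/-- Triangular faces. -/
def Face3 (hQ : LR G Q) (a b c : Fin n) : Prop :=
  ∃ d : G.Dart, d.fst = a ∧ d.snd = b ∧ (fac hQ d).snd = c ∧ fac hQ (fac hQ (fac hQ d)) = d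

theorem fac_fst (hQ : LR G Q) (d : G.Dart) : (fac hQ d).fst = d.snd := by
  rw [fac_apply, sig_fst]
  rfl

theorem Face3.rotate (hQ : LR G Q) {a b c : Fin n} (h : Face3 hQ a b c) : Face3 hQ b c a := by
  obtain ⟨d, h1, h2, h3, h4⟩ := h
  refine ⟨fac hQ d, by rw [fac_fst, h2], h3, ?_, by rw [h4]⟩
  rw [← fac_fst hQ, h4, h1]

theorem face3_sorted (hST : STOrd G s t) (hQ : LR G Q) {a b c : Fin n} (hab : a < b)
    (hbc : b < c) (h1 : G.Adj a b) (h2 : G.Adj b c) (h3 : G.Adj a c) :
    Face3 hQ a b c ∨ Face3 hQ a c b := by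
  have hac := hab.trans hbc
  obtain ⟨e1, t1, d1⟩ : ∃ e : UE G, e.tl = a ∧ e.hd = b := ⟨⟨(a, b), hab, h1⟩, rfl, rfl⟩
  obtain ⟨e2, t2, d2⟩ : ∃ e : UE G, e.tl = b ∧ e.hd = c := ⟨⟨(b, c), hbc, h2⟩, rfl, rfl⟩
  obtain ⟨e3, t3, d3⟩ : ∃ e : UE G, e.tl = a ∧ e.hd = c := ⟨⟨(a, c), hac, h3⟩, rfl, rfl⟩
  have i13 : Inc e1 e3 := by
    refine ⟨fun h => hbc.ne (by rw [← d1, ← d3, h]), fun h => ?_, fun h => ?_⟩
    · have := Reach.le h; rw [d1, t3] at this; exact absurd hab (not_lt.2 this)
    · have := Reach.le h; rw [d3, t1] at this; exact absurd hac (not_lt.2 this)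
  have i23 : Inc e2 e3 := by
    refine ⟨fun h => hab.ne (by rw [← t2, ← t3, h]), fun h => ?_, fun h => ?_⟩
    · have := Reach.le h; rw [d2, t3] at this; exact absurd hac (not_lt.2 this)
    · have := Reach.le h; rw [d3, t2] at this; exact absurd hbc (not_lt.2 this)
  have symm' : ∀ {e f : UE G}, Inc e f → Inc f e := fun h => ⟨h.1.symm, h.2.2, h.2.1⟩
  have T1 : TriTie e3 e1 := Or.inl ⟨t1.trans t3.symm, by rw [d1, d3]; exact hbc,
    by rw [d1, d3]; exact h2⟩
  have T2 : TriTie e3 e2 := Or.inr ⟨d2.trans d3.symm, by rw [t2, t3]; exact hab,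
    by rw [t2, t3]; exact h1⟩
  have b12 : Below e1 e2 := by unfold Below; rw [d1, t2]; exact Relation.ReflTransGen.refl
  have e12 : (Q e1 e3 ↔ Q e2 e3) := hQ.tie e1 e2 e3 b12 i13 i23
  have e12' : (Q e3 e1 ↔ Q e3 e2) := by
    constructor
    · intro h
      rcases hQ.tot _ _ i23 with h' | h'
      · exact absurd (e12.2 h') (hQ.asymm h)
      · exact h'
    · intro h
      rcases hQ.tot _ _ i13 with h' | h'
      · exact absurd (e12.1 h') (hQ.asymm h)
      · exact h'
  -- ties for in-edges and out-edges of `b`, out-edges of `a`, in-edges of `c`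
  have inb : ∀ g : UE G, g.hd = b → g ≠ e1 → (Q e3 g ↔ Q e1 g) ∧ (Q g e3 ↔ Q e2 e3) := by
    intro g hg hne
    have hgf : Fr b.val g := by have := fr_hd g; rwa [hg] at this
    have h1f : Fr b.val e1 := by have := fr_hd e1; rwa [d1] at this
    have h3f : Fr b.val e3 := ⟨by rw [t3]; exact hab, by rw [d3]; exact hbc.le⟩
    have hne3 : g ≠ e3 := by rintro rfl; exact hbc.ne (hg.symm.trans d3)
    refine ⟨hQ.tri e3 e1 g T1 (fr_inc h3f hgf hne3.symm) (fr_inc h1f hgf hne.symm), ?_⟩
    refine hQ.tie g e2 e3 ?_ (fr_inc hgf h3f hne3) i23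
    unfold Below; rw [hg, t2]; exact Relation.ReflTransGen.refl
  have outb : ∀ g : UE G, g.tl = b → g ≠ e2 → (Q e3 g ↔ Q e2 g) ∧ (Q e1 e3 ↔ Q g e3) := by
    intro g hg hne
    have hgf : Fr (b.val + 1) g := by have := fr_tl g; rwa [hg] at this
    have h2f : Fr (b.val + 1) e2 := by have := fr_tl e2; rwa [t2] at this
    have h3f : Fr (b.val + 1) e3 :=
      ⟨by rw [t3]; have := Fin.lt_def.1 hab; omega, by rw [d3]; exact Fin.lt_def.1 hbc⟩
    have hne3 : g ≠ e3 := by rintro rfl; exact hab.ne (t3.symm.trans hg)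
    refine ⟨hQ.tri e3 e2 g T2 (fr_inc h3f hgf hne3.symm) (fr_inc h2f hgf hne.symm), ?_⟩
    refine hQ.tie e1 g e3 ?_ i13 (fr_inc hgf h3f hne3)
    unfold Below; rw [hg, d1]; exact Relation.ReflTransGen.refl
  have outa : ∀ g : UE G, g.tl = a → g ≠ e1 → g ≠ e3 → (Q e3 g ↔ Q e1 g) := by
    intro g hg hne hne3
    have hgf : Fr (a.val + 1) g := by have := fr_tl g; rwa [hg] at this
    have h1f : Fr (a.val + 1) e1 := by have := fr_tl e1; rwa [t1] at this
    have h3f : Fr (a.val + 1) e3 := by have := fr_tl e3; rwa [t3] at this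
    exact hQ.tri e3 e1 g T1 (fr_inc h3f hgf hne3.symm) (fr_inc h1f hgf hne.symm)
  have inc : ∀ g : UE G, g.hd = c → g ≠ e2 → g ≠ e3 → (Q e3 g ↔ Q e2 g) := by
    intro g hg hne hne3
    have hgf : Fr c.val g := by have := fr_hd g; rwa [hg] at this
    have h2f : Fr c.val e2 := by have := fr_hd e2; rwa [d2] at this
    have h3f : Fr c.val e3 := by have := fr_hd e3; rwa [d3] at this
    exact hQ.tri e3 e2 g T2 (fr_inc h3f hgf hne3.symm) (fr_inc h2f hgf hne.symm)
  rcases hQ.tot e1 e3 i13 with hlr | hlr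
  · left
    have hlr2 := e12.1 hlr
    have l1 : LastIn Q e1 b := by
      refine ⟨d1, fun g hg => ?_⟩
      by_cases hne : g = e1
      · exact Or.inl hne
      · right
        rcases hQ.in_tot (hg.trans d1.symm) hne with h | h
        · exact h
        · have h4 := ((inb g hg hne).1).2 h
          have h5 := ((inb g hg hne).2).2 hlr2
          exact absurd h4 (hQ.asymm h5)
    have l2 : LastOut Q e2 b := by
      refine ⟨t2, fun g hg => ?_⟩
      by_cases hne : g = e2
      · exact Or.inl hne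
      · right
        rcases hQ.out_tot (hg.trans t2.symm) hne with h | h
        · exact h
        · have h4 := ((outb g hg hne).1).2 h
          have h5 := ((outb g hg hne).2).1 hlr
          exact absurd h4 (hQ.asymm h5)
    have n1 : NextOut Q e1 e3 := by
      refine ⟨t1.trans t3.symm, hlr, fun g hg h => ?_⟩
      by_cases hne : g = e3
      · exact Or.inl hne
      · right
        refine (outa g (hg.trans t1) ?_ hne).2 h
        rintro rfl; exact hQ.irr _ h
    have n2 : NextIn Q e2 e3 := by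
      refine ⟨d2.trans d3.symm, hlr2, fun g hg h => ?_⟩
      by_cases hne : g = e3
      · exact Or.inl hne
      · right
        refine (inc g (hg.trans d2) ?_ hne).2 h
        rintro rfl; exact hQ.irr _ h
    have f1 : fac hQ e1.up = e2.up := sig_dn_last hST hQ l1 l2
    have f2 : fac hQ e2.up = e3.dn := sig_dn_next hST hQ n2
    have f3 : fac hQ e3.dn = e1.up := sig_up_prev hST hQ n1
    exact ⟨e1.up, t1, d1, by rw [f1]; exact d2, by rw [f1, f2, f3]⟩
  · right
    have hlr2 := e12'.1 hlr
    have l1 : FirstIn Q e1 b := by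
      refine ⟨d1, fun g hg => ?_⟩
      by_cases hne : g = e1
      · exact Or.inl hne
      · right
        rcases hQ.in_tot (hg.trans d1.symm) hne with h | h
        · have hgf : Inc g e3 := by
            have hgf : Fr b.val g := by have := fr_hd g; rwa [hg] at this
            have h3f : Fr b.val e3 := ⟨by rw [t3]; exact hab, by rw [d3]; exact hbc.le⟩
            exact fr_inc hgf h3f (by rintro rfl; exact hbc.ne (hg.symm.trans d3))
          rcases hQ.tot _ _ hgf with h4 | h4
          · have h5 := ((inb g hg hne).2).1 h4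
            exact absurd hlr2 (hQ.asymm h5)
          · have h5 := ((inb g hg hne).1).1 h4
            exact absurd h (hQ.asymm h5)
        · exact h
    have l2 : FirstOut Q e2 := by
      intro g hg
      by_cases hne : g = e2
      · exact Or.inl hne
      · right
        rcases hQ.out_tot hg hne with h | h
        · have hgf : Inc g e3 := by
            have hgf : Fr (b.val + 1) g := by have := fr_tl g; rwa [hg.trans t2] at this
            have h3f : Fr (b.val + 1) e3 :=
              ⟨by rw [t3]; have := Fin.lt_def.1 hab; omega, by rw [d3]; exact Fin.lt_def.1 hbc⟩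
            exact fr_inc hgf h3f (by rintro rfl; exact hab.ne (t3.symm.trans (hg.trans t2)))
          rcases hQ.tot _ _ hgf with h4 | h4
          · have h5 := ((outb g (hg.trans t2) hne).2).2 h4
            exact absurd hlr (hQ.asymm h5)
          · have h5 := ((outb g (hg.trans t2) hne).1).1 h4
            exact absurd h (hQ.asymm h5)
        · exact h
    have n1 : NextOut Q e3 e1 := by
      refine ⟨t3.trans t1.symm, hlr, fun g hg h => ?_⟩
      by_cases hne : g = e1
      · exact Or.inl hne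
      · right
        refine (outa g (hg.trans t3) hne ?_).1 h
        rintro rfl; exact hQ.irr _ h
    have n2 : NextIn Q e3 e2 := by
      refine ⟨d3.trans d2.symm, hlr2, fun g hg h => ?_⟩
      by_cases hne : g = e2
      · exact Or.inl hne
      · right
        refine (inc g (hg.trans d3) hne ?_).1 h
        rintro rfl; exact hQ.irr _ h
    have f1 : fac hQ e3.up = e2.dn := sig_dn_next hST hQ n2
    have f2 : fac hQ e2.dn = e1.dn := sig_up_first hST hQ l2 t2 l1
    have f3 : fac hQ e1.dn = e3.up := sig_up_prev hST hQ n1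
    exact ⟨e3.up, t3, d3, by rw [f1]; exact t2, by rw [f1, f2, f3]⟩

theorem face3 (hST : STOrd G s t) (hQ : LR G Q) (a b c : Fin n)
    (h1 : G.Adj a b) (h2 : G.Adj b c) (h3 : G.Adj a c) : Face3 hQ a b c ∨ Face3 hQ b a c := by
  have R := fun (x y z : Fin n) => Face3.rotate hQ (a := x) (b := y) (c := z)
  rcases lt_or_gt_of_ne h1.ne with hab | hab <;> rcases lt_or_gt_of_ne h2.ne with hbc | hbc <;>
    rcases lt_or_gt_of_ne h3.ne with hac | hac
  · rcases face3_sorted hST hQ hab hbc h1 h2 h3 with h | h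
    · exact Or.inl h
    · exact Or.inr (R _ _ _ (R _ _ _ h))
  · exact absurd (hab.trans hbc) (not_lt.2 hac.le)
  · rcases face3_sorted hST hQ hac hbc h3 h2.symm h1 with h | h
    · exact Or.inr (R _ _ _ (R _ _ _ h))
    · exact Or.inl h
  · rcases face3_sorted hST hQ hac hab h3.symm h1 h2.symm with h | h
    · exact Or.inl (R _ _ _ h)
    · exact Or.inr (R _ _ _ h)
  · rcases face3_sorted hST hQ hab hac h1.symm h3 h2 with h | h
    · exact Or.inr h
    · exact Or.inl (R _ _ _ (R _ _ _ h))
  · rcases face3_sorted hST hQ hbc hac h2 h3.symm h1.symm with h | h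
    · exact Or.inl (R _ _ _ (R _ _ _ h))
    · exact Or.inr h
  · exact absurd (hac.trans hbc) (not_lt.2 hab.le)
  · rcases face3_sorted hST hQ hbc hab h2.symm h1.symm h3.symm with h | h
    · exact Or.inr (R _ _ _ h)
    · exact Or.inl (R _ _ _ h)

end lists

end Pool.Agent.MP_cdcb37
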