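import Pool.Agent.Lib.MP_cdcb37_lc.Spec

/-!
# Module GH: a generalization of the theorem of Ghouila-Houri
-/

namespace Pool.Agent.MP_cdcb37

namespace GH

variable {E : Type} (I R : E → E → Prop)

/-- One step of the forcing relation. -/
def Stp (p p' : E × E) : Prop :=
  I p.1 p.2 ∧ I p'.1 p'.2 ∧ ((p.2 = p'.2 ∧ R p.1 p'.1) ∨ (p.1 = p'.1 ∧ R p.2 p'.2))

/-- The forcing relation. -/
def Frc : E × E → E × E → Prop := Relation.ReflTransGen (Stp I R)

variable {I R}

/-- The hypotheses. -/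
structure Hyp (I R : E → E → Prop) (μ : E → E → ZMod 2) : Prop where
  irr : ∀ e, ¬ I e e
  symI : ∀ e f, I e f → I f e
  symR : ∀ e f, R e f → R f e
  non : ∀ e f, e ≠ f → ¬ I e f → R e f
  anti : ∀ e f, I e f → μ e f + μ f e = 1
  tie : ∀ e e' f, R e e' → I e f → I e' f → μ e f = μ e' f

variable {μ : E → E → ZMod 2} (H : Hyp I R μ)
include H

theorem stp_symm {p p' : E × E} (h : Stp I R p p') : Stp I R p' p := by
  obtain ⟨h1, h2, h3⟩ := h
  refine ⟨h2, h1, ?_⟩
  rcases h3 with ⟨h3, h4⟩ | ⟨h3, h4⟩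
  · exact Or.inl ⟨h3.symm, H.symR _ _ h4⟩
  · exact Or.inr ⟨h3.symm, H.symR _ _ h4⟩

theorem frc_symm {p p' : E × E} (h : Frc I R p p') : Frc I R p' p := by
  induction h with
  | refl => exact Relation.ReflTransGen.refl
  | tail _ h2 ih => exact Relation.ReflTransGen.head (stp_symm H h2) ih

theorem frc_swap {p p' : E × E} (h : Frc I R p p') : Frc I R p.swap p'.swap := by
  induction h with
  | refl => exact Relation.ReflTransGen.refl
  | tail _ h2 ih =>
    refine Relation.ReflTransGen.tail ih ?_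
    obtain ⟨h1, h2, h3⟩ := h2
    refine ⟨H.symI _ _ h1, H.symI _ _ h2, ?_⟩
    rcases h3 with ⟨h3, h4⟩ | ⟨h3, h4⟩
    · exact Or.inr ⟨h3, h4⟩
    · exact Or.inl ⟨h3, h4⟩

theorem frc_I {p p' : E × E} (h : Frc I R p p') (hp : I p.1 p.2) : I p'.1 p'.2 := by
  induction h with
  | refl => exact hp
  | tail _ h2 _ => exact h2.2.1

theorem frc_mu {p p' : E × E} (h : Frc I R p p') : μ p.1 p.2 = μ p'.1 p'.2 := by
  induction h with
  | refl => rfl
  | tail _ h2 ih =>
    rw [ih]
    obtain ⟨h1, h2, h3⟩ := h2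
    rcases h3 with ⟨h3, h4⟩ | ⟨h3, h4⟩
    · rw [h3] at h1 ⊢
      exact H.tie _ _ _ h4 h1 h2
    · rw [h3] at h1 ⊢
      have e1 := H.anti _ _ h1
      have e2 := H.anti _ _ h2
      have e3 := H.tie _ _ _ h4 (H.symI _ _ h1) (H.symI _ _ h2)
      rw [e3] at e1
      exact add_right_cancel (e1.trans e2.symm)

theorem not_frc_swap {x y : E} (h : I x y) : ¬ Frc I R (x, y) (y, x) := by
  intro hf
  have h1 := frc_mu H hf
  have h2 := H.anti _ _ h
  simp only at h1
  rw [h1] at h2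
  have : ∀ t : ZMod 2, t + t ≠ 1 := by decide
  exact this _ h2

/-- The triangle lemma. -/
theorem triangle {p q x : E} (hpq : I p q) (hpx : I p x)
    (h1 : ¬ Frc I R (q, x) (q, p)) (h2 : ¬ Frc I R (q, x) (p, x)) {w : E × E}
    (hw : Frc I R (q, x) w) :
    I p w.1 ∧ I p w.2 ∧ Frc I R (p, q) (p, w.1) ∧ Frc I R (p, x) (p, w.2) := by
  induction hw with
  | refl => exact ⟨hpq, hpx, Relation.ReflTransGen.refl, Relation.ReflTransGen.refl⟩
  | @tail u w hu hs ih =>
    obtain ⟨i1, i2, i3, i4⟩ := ih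
    obtain ⟨q1, x1⟩ := u
    obtain ⟨q2, x2⟩ := w
    obtain ⟨j1, j2, j3⟩ := hs
    simp only at i1 i2 i3 i4 j1 j2 j3 ⊢
    rcases j3 with ⟨rfl, j4⟩ | ⟨rfl, j4⟩
    · -- a step in the first component
      have hI : I p q2 := by
        by_contra hn
        by_cases hp : p = q2
        · subst hp
          apply h2
          have s1 : Frc I R (q1, x1) (p, x1) := Relation.ReflTransGen.single
            ⟨j1, j2, Or.inl ⟨rfl, j4⟩⟩
          exact (hu.trans s1).trans (frc_symm H i4)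
        · apply h2
          have s1 : Frc I R (q2, x1) (p, x1) := Relation.ReflTransGen.single
            ⟨j2, i2, Or.inl ⟨rfl, H.symR _ _ (H.non _ _ hp hn)⟩⟩
          have s2 : Frc I R (q1, x1) (q2, x1) := Relation.ReflTransGen.single
            ⟨j1, j2, Or.inl ⟨rfl, j4⟩⟩
          exact ((hu.trans s2).trans s1).trans (frc_symm H i4)
      refine ⟨hI, i2, ?_, i4⟩
      exact i3.tail ⟨i1, hI, Or.inr ⟨rfl, j4⟩⟩
    · have hI : I p x2 := by
        by_contra hn
        have s0 : Frc I R (q1, p) (q, p) := frc_swap H (frc_symm H i3)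
        by_cases hp : p = x2
        · subst hp
          apply h1
          have s1 : Frc I R (q1, x1) (q1, p) := Relation.ReflTransGen.single
            ⟨j1, j2, Or.inr ⟨rfl, j4⟩⟩
          exact (hu.trans s1).trans s0
        · apply h1
          have s1 : Frc I R (q1, x2) (q1, p) := Relation.ReflTransGen.single
            ⟨j2, H.symI _ _ i1, Or.inr ⟨rfl, H.symR _ _ (H.non _ _ hp hn)⟩⟩
          have s2 : Frc I R (q1, x1) (q1, x2) := Relation.ReflTransGen.single
            ⟨j1, j2, Or.inr ⟨rfl, j4⟩⟩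
          exact ((hu.trans s2).trans s1).trans s0
      refine ⟨i1, hI, i3, ?_⟩
      exact i4.tail ⟨i2, hI, Or.inr ⟨rfl, j4⟩⟩

omit H in
/-- The transitive orientation. -/
def Qr (I R : E → E → Prop) [LinearOrder E] (x y : E) : Prop :=
  I x y ∧ ∃ m : E × E, Frc I R (x, y) m ∧
    ∀ m' : E × E, (Frc I R (x, y) m' ∨ Frc I R (y, x) m') → toLex m ≤ toLex m'

variable [LinearOrder E]

theorem qr_anti {x y : E} (h1 : Qr I R x y) (h2 : Qr I R y x) : False := by
  obtain ⟨h1, m1, h3, h4⟩ := h1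
  obtain ⟨h2, m2, h5, h6⟩ := h2
  have e1 := h4 m2 (Or.inr h5)
  have e2 := h6 m1 (Or.inr h3)
  have e3 : m1 = m2 := toLex.injective (le_antisymm e1 e2)
  subst e3
  exact not_frc_swap H h1 (h3.trans (frc_symm H h5))

theorem qr_tot [Finite E] {x y : E} (h : I x y) : Qr I R x y ∨ Qr I R y x := by
  classical
  have hfin : ({m : Lex (E × E) | Frc I R (x, y) (ofLex m) ∨ Frc I R (y, x) (ofLex m)}).Finite := by
    have : Finite (Lex (E × E)) := inferInstanceAs (Finite (E × E))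
    exact Set.toFinite _
  obtain ⟨m, hm⟩ := hfin.exists_minimal ⟨toLex (x, y), Or.inl Relation.ReflTransGen.refl⟩
  have hmin : ∀ m' : E × E, (Frc I R (x, y) m' ∨ Frc I R (y, x) m') → m ≤ toLex m' := by
    intro m' hm'
    rcases le_total m (toLex m') with h' | h'
    · exact h'
    · exact hm.le_of_le (y := toLex m') hm' h'
  rcases hm.prop with h' | h'
  · exact Or.inl ⟨h, ofLex m, h', hmin⟩
  · exact Or.inr ⟨H.symI _ _ h, ofLex m, h', fun m' hm' => hmin m' hm'.symm⟩

theorem qr_frc {x y x' y' : E} (h : Qr I R x y) (hf : Frc I R (x, y) (x', y')) :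
    Qr I R x' y' := by
  obtain ⟨h1, m, h2, h3⟩ := h
  refine ⟨frc_I H hf h1, m, (frc_symm H hf).trans h2, ?_⟩
  intro m' hm'
  apply h3
  rcases hm' with hm' | hm'
  · exact Or.inl (hf.trans hm')
  · exact Or.inr ((frc_swap H hf).trans hm')

/-- Forcing inside a cyclically oriented triangle. -/
theorem cyc {a b c : E} (hab : Qr I R a b) (hbc : Qr I R b c) (hca : Qr I R c a) {b' c' : E}
    (h : Frc I R (b, c) (b', c')) : Frc I R (a, b) (a, b') ∧ Frc I R (c, a) (c', a) := by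
  have h1 := triangle H (p := a) (q := b) (x := c) hab.1 (H.symI _ _ hca.1)
    (fun h => qr_anti H hab (qr_frc H hbc h)) (fun h => qr_anti H hca (qr_frc H hbc h)) h
  exact ⟨h1.2.2.1, frc_swap H h1.2.2.2⟩

omit H in
theorem qr_min {x y : E} (h : Qr I R x y) : ∃ i j, Frc I R (x, y) (i, j) ∧
    (∀ u v, Frc I R (x, y) (u, v) → i ≤ u) ∧ (∀ u v, Frc I R (y, x) (u, v) → i ≤ u) := by
  obtain ⟨-, m, h2, h3⟩ := h
  refine ⟨m.1, m.2, h2, ?_, ?_⟩
  · intro u v huv
    have := h3 _ (Or.inl huv)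
    rw [Prod.Lex.toLex_le_toLex] at this
    rcases this with h | h
    · exact h.le
    · exact h.1.le
  · intro u v huv
    have := h3 _ (Or.inr huv)
    rw [Prod.Lex.toLex_le_toLex] at this
    rcases this with h | h
    · exact h.le
    · exact h.1.le

theorem no_cyc_aux {a b c : E} (hab : Qr I R a b) (hbc : Qr I R b c) (hca : Qr I R c a)
    {i j k l m n : E} (h1 : Frc I R (b, c) (i, j)) (h2 : Frc I R (a, b) (k, l))
    (h3 : Frc I R (c, a) (m, n))
    (h2' : ∀ u v, Frc I R (b, a) (u, v) → k ≤ u) (h3' : ∀ u v, Frc I R (a, c) (u, v) → m ≤ u)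
    (hik : i ≤ k) (him : i ≤ m) : False := by
  have s1 := (cyc H hab hbc hca h1).1
  have s2 : k = i := le_antisymm (h2' _ _ (frc_swap H s1)) hik
  subst s2
  have s3 := (cyc H hca hab hbc h2).1
  have s4 : m = k := le_antisymm (h3' _ _ (frc_swap H s3)) him
  subst s4
  have s5 := (cyc H hbc hca hab h3).1
  have s6 := (cyc H hab hbc hca s5).2
  exact qr_anti H (qr_frc H hab s1) (qr_frc H hca s6)

theorem no_cyc {a b c : E} (hab : Qr I R a b) (hbc : Qr I R b c) (hca : Qr I R c a) : False := by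
  obtain ⟨i, j, a1, a2, a3⟩ := qr_min hbc
  obtain ⟨k, l, b1, b2, b3⟩ := qr_min hab
  obtain ⟨m, n, c1, c2, c3⟩ := qr_min hca
  rcases le_total i k with h1 | h1
  · rcases le_total i m with h2 | h2
    · exact no_cyc_aux H hab hbc hca a1 b1 c1 b3 c3 h1 h2
    · exact no_cyc_aux H hbc hca hab c1 a1 b1 a3 b3 h2 (h2.trans h1)
  · rcases le_total k m with h2 | h2
    · exact no_cyc_aux H hca hab hbc b1 c1 a1 c3 a3 h2 h1
    · exact no_cyc_aux H hbc hca hab c1 a1 b1 a3 b3 (h2.trans h1) h2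

theorem qr_trans [Finite E] {a b c : E} (hab : Qr I R a b) (hbc : Qr I R b c) : Qr I R a c := by
  by_cases hac : a = c
  · subst hac
    exact (qr_anti H hab hbc).elim
  by_cases hI : I a c
  · rcases qr_tot H hI with h | h
    · exact h
    · exact (no_cyc H hab hbc h).elim
  · have h1 : Frc I R (a, b) (c, b) := Relation.ReflTransGen.single
      ⟨hab.1, H.symI _ _ hbc.1, Or.inl ⟨rfl, H.non _ _ hac hI⟩⟩
    exact (qr_anti H (qr_frc H hab h1) hbc).elim

end GH

/-- Module GH. -/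
theorem specGH : SpecGH := by
  intro E _ I R μ h1 h2 h3 h4 h5 h6
  obtain ⟨n, ⟨e⟩⟩ := Finite.exists_equiv_fin E
  let _ : LinearOrder E := LinearOrder.lift' e e.injective
  have H : GH.Hyp I R μ := ⟨h1, h2, h3, h4, h5, h6⟩
  refine ⟨GH.Qr I R, fun e f h => h.1, fun e f h => GH.qr_tot H h,
    fun e f g h h' => GH.qr_trans H h h', ?_⟩
  intro e e' f hR he he'
  have hf : GH.Frc I R (e, f) (e', f) := Relation.ReflTransGen.single
    ⟨he, he', Or.inl ⟨rfl, hR⟩⟩
  exact ⟨fun h => GH.qr_frc H h hf, fun h => GH.qr_frc H h (GH.frc_symm H hf)⟩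

end Pool.Agent.MP_cdcb37
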