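import Pool.Agent.Lib.MP_cdcb37_lc.Spec

/-!
# MP_cdcb37_lc, modules AUG and OPEN: linear algebra over `F₂`
-/

namespace Pool.Agent.MP_cdcb37

open Finset

namespace Link

variable {V : Type}

/-- Symmetric lift of a sum. -/
def ls (f : V → ZMod 2) (e : Sym2 V) : ZMod 2 :=
  Sym2.lift ⟨fun a b => f a + f b, fun _ _ => add_comm _ _⟩ e

@[simp] theorem ls_mk (f : V → ZMod 2) (a b : V) : ls f s(a, b) = f a + f b := rfl

theorem add_self' (x : ZMod 2) : x + x = 0 := by grind

theorem change_aux : ∀ (u u' w w' : ZMod 2), u + u' = 1 → w + w' = 1 →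
    (u + w) * w + (u' + w') * w' = u + w := by decide

/-- Change of the tournament. -/
theorem change {G : SimpleGraph V} {y : V → V → ZMod 2} {z : Sym2 V → V → ZMod 2}
    (h : HT G y z) (y0 : V → V → ZMod 2) (h0 : ∀ p q, p ≠ q → y0 p q + y0 q p = 1) :
    ∃ z0, HT G y0 z0 := by
  refine ⟨fun e q => z e q + ls (fun p => (y p q + y0 p q) * y0 p q) e, h0, ?_, ?_⟩
  · intro a b c d hab hcd h1 h2 h3 h4
    have e := h.dis a b c d hab hcd h1 h2 h3 h4
    have e1 := change_aux _ _ _ _ (h.tour a c h1) (h0 a c h1)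
    have e2 := change_aux _ _ _ _ (h.tour a d h2) (h0 a d h2)
    have e3 := change_aux _ _ _ _ (h.tour b c h3) (h0 b c h3)
    have e4 := change_aux _ _ _ _ (h.tour b d h4) (h0 b d h4)
    simp only [ls_mk]
    generalize (y a c + y0 a c) * y0 a c = t1 at *
    generalize (y c a + y0 c a) * y0 c a = t2 at *
    generalize (y a d + y0 a d) * y0 a d = t3 at *
    generalize (y d a + y0 d a) * y0 d a = t4 at *
    generalize (y b c + y0 b c) * y0 b c = t5 at *
    generalize (y c b + y0 c b) * y0 c b = t6 at *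
    generalize (y b d + y0 b d) * y0 b d = t7 at *
    generalize (y d b + y0 d b) * y0 d b = t8 at *
    grind
  · intro a b c q hab hbc hac h1 h2 h3
    have e := h.tri a b c q hab hbc hac h1 h2 h3
    simp only [ls_mk]
    generalize (y a q + y0 a q) * y0 a q = t1 at *
    generalize (y b q + y0 b q) * y0 b q = t2 at *
    generalize (y c q + y0 c q) * y0 c q = t3 at *
    grind

/-- The invariant of the triangle `v a b` at the edge `v a`. -/
def kap (y : V → V → ZMod 2) (z : Sym2 V → V → ZMod 2) (v a b : V) : ZMod 2 :=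
  z s(v, a) b + z s(v, b) a + z s(a, b) v + y v b + y b a

theorem kap_add {G : SimpleGraph V} {y : V → V → ZMod 2} {z : Sym2 V → V → ZMod 2}
    (h : HT G y z) {v a b c : V} (hva : G.Adj v a) (hvb : G.Adj v b) (hvc : G.Adj v c)
    (hab : G.Adj a b) (hac : G.Adj a c) (hbc : b ≠ c) :
    kap y z v a b + kap y z v a c = 1 := by
  have e1 := h.dis v b a c hvb hac hva.ne hvc.ne hab.ne' hbc
  have e2 := h.dis v c a b hvc hab hva.ne hvb.ne hac.ne' hbc.symm
  have e3 := h.tri v a b c hva hab hvb hvc.ne' hac.ne' hbc.symm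
  have e4 := h.tri v a c b hva hac hvc hvb.ne' hab.ne' hbc
  have t1 := h.tour b c hbc
  have t2 := h.tour v a hva.ne
  unfold kap
  grind

theorem kap_three {G : SimpleGraph V} {y : V → V → ZMod 2} {z : Sym2 V → V → ZMod 2}
    (h : HT G y z) {v a b c d : V} (hva : G.Adj v a) (hvb : G.Adj v b) (hvc : G.Adj v c)
    (hvd : G.Adj v d) (hab : G.Adj a b) (hac : G.Adj a c) (had : G.Adj a d) (hbc : b ≠ c)
    (hbd : b ≠ d) (hcd : c ≠ d) : False := by
  have e1 := kap_add h hva hvb hvc hab hac hbc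
  have e2 := kap_add h hva hvb hvd hab had hbd
  have e3 := kap_add h hva hvc hvd hac had hcd
  grind

/-- The function `rho_a`. -/
def rho (y : V → V → ZMod 2) (z : Sym2 V → V → ZMod 2) (v a x : V) : ZMod 2 :=
  z s(v, a) x + z s(v, x) a + y x v + y x a

theorem rho_add {G : SimpleGraph V} {y : V → V → ZMod 2} {z : Sym2 V → V → ZMod 2}
    (h : HT G y z) {v a x x' : V} (hva : G.Adj v a) (hvx : G.Adj v x) (hvx' : G.Adj v x')
    (hxx : G.Adj x x') (hax : a ≠ x) (hax' : a ≠ x') :
    z s(x, x') v = rho y z v a x + rho y z v a x' := by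
  have e1 := h.dis x x' v a hxx hva hvx.ne' hax.symm hvx'.ne' hax'.symm
  have e2 := h.tri v x x' a hvx hxx hvx' hva.ne' hax hax'
  unfold rho
  grind

theorem rho_add_kap {G : SimpleGraph V} {y : V → V → ZMod 2} {z : Sym2 V → V → ZMod 2}
    (h : HT G y z) {v a b c : V} (hva : G.Adj v a) (hvb : G.Adj v b) (hvc : G.Adj v c)
    (hab : G.Adj a b) (hac : G.Adj a c) (hbc : b ≠ c) :
    (z s(a, b) v + rho y z v a b) + (z s(a, c) v + rho y z v a c) = 1 := by
  have e1 := kap_add h hva hvb hvc hab hac hbc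
  have t1 := h.tour v b hvb.ne
  have t2 := h.tour v c hvc.ne
  unfold kap at e1
  unfold rho
  grind

/-- The link graph at `v` restricted to `S`. -/
def linkG (G : SimpleGraph V) (v : V) (S : V → Prop) : SimpleGraph V where
  Adj b c := G.Adj b c ∧ G.Adj v b ∧ G.Adj v c ∧ S b ∧ S c
  symm := ⟨fun _ _ h => ⟨h.1.symm, h.2.2.1, h.2.1, h.2.2.2.2, h.2.2.2.1⟩⟩
  loopless := ⟨fun a h => G.loopless.irrefl a h.1⟩

section sums
variable [Fintype V] [DecidableEq V]

theorem sum_ls (L : SimpleGraph V) [DecidableRel L.Adj] (f : V → ZMod 2) :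
    ∑ e ∈ L.edgeFinset, ls f e = ∑ x, (L.degree x : ZMod 2) * f x := by
  have h1 : ∀ e ∈ L.edgeFinset, ls f e = ∑ x, if x ∈ e then f x else 0 := by
    intro e he
    induction e with
    | _ a b =>
      have hab : L.Adj a b := by simpa using he
      rw [ls_mk, ← Finset.sum_filter]
      have : (univ.filter fun x => x ∈ s(a, b)) = {a, b} := by
        ext x; simp
      rw [this, Finset.sum_pair hab.ne]
  rw [Finset.sum_congr rfl h1, Finset.sum_comm]
  refine Finset.sum_congr rfl fun x _ => ?_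
  rw [← Finset.sum_filter, Finset.sum_const, nsmul_eq_mul]
  congr 2
  rw [← L.card_incidenceFinset_eq_degree]
  congr 1
  ext e
  simp [SimpleGraph.mem_incidenceFinset, SimpleGraph.incidenceSet]

theorem sum_ls_even (L : SimpleGraph V) [DecidableRel L.Adj] (f : V → ZMod 2)
    (hL : ∀ x, Even (L.degree x)) : ∑ e ∈ L.edgeFinset, ls f e = 0 := by
  rw [sum_ls]
  refine Finset.sum_eq_zero fun x _ => ?_
  obtain ⟨k, hk⟩ := hL x
  rw [hk]
  push_cast
  rw [add_self', zero_mul]

variable {G : SimpleGraph V} {y : V → V → ZMod 2} {z : Sym2 V → V → ZMod 2}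

theorem link_zero (h : HT G y z) (v : V) (S : V → Prop) (L : SimpleGraph V)
    [DecidableRel L.Adj] (hLS : L = linkG G v S) (hL : ∀ x, Even (L.degree x)) (a : V)
    (hva : G.Adj v a) (ha : ¬ S a) : ∑ e ∈ L.edgeFinset, z e v = 0 := by
  rw [← sum_ls_even L (rho y z v a) hL]
  refine Finset.sum_congr rfl fun e he => ?_
  induction e with
  | _ b c =>
    have hbc : L.Adj b c := by simpa using he
    rw [hLS] at hbc
    obtain ⟨h1, h2, h3, h4, h5⟩ := hbc
    rw [ls_mk]
    exact rho_add h hva h2 h3 h1 (by rintro rfl; exact ha h4) (by rintro rfl; exact ha h5)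

theorem link_one (h : HT G y z) (v : V) (S : V → Prop) (L : SimpleGraph V)
    [DecidableRel L.Adj] (hLS : L = linkG G v S) (hL : ∀ x, Even (L.degree x)) (a b c : V)
    (hbc : b ≠ c) (ha : ∀ x, L.Adj a x ↔ x = b ∨ x = c) : ∑ e ∈ L.edgeFinset, z e v = 1 := by
  have hab : L.Adj a b := (ha b).2 (Or.inl rfl)
  have hac : L.Adj a c := (ha c).2 (Or.inr rfl)
  have hab' := hab
  have hac' := hac
  rw [hLS] at hab' hac'
  have hva : G.Adj v a := hab'.2.1
  set g : V → ZMod 2 := fun x => if x = a then 0 else rho y z v a x with hg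
  have e0 := sum_ls_even L g hL
  have : ∑ e ∈ L.edgeFinset, (z e v + ls g e) = 1 := by
    have hsub : ({s(a, b), s(a, c)} : Finset (Sym2 V)) ⊆ L.edgeFinset := by
      intro e he
      simp only [mem_insert, mem_singleton] at he
      rcases he with rfl | rfl
      · simpa using hab
      · simpa using hac
    rw [← Finset.sum_subset hsub, Finset.sum_pair]
    · have e1 := rho_add_kap h hva hab'.2.2.1 hac'.2.2.1 hab'.1 hac'.1 hbc
      simp only [ls_mk, hg, if_true, if_neg hab.ne', if_neg hac.ne']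
      rw [← e1]
      ring
    · intro he
      have : b ∈ s(a, c) := by rw [← he]; simp
      simp only [Sym2.mem_iff] at this
      rcases this with h' | h'
      · exact hab.ne' h'
      · exact hbc h'
    · intro e he hne
      induction e with
      | _ p q =>
        have hpq : L.Adj p q := by simpa using he
        have hpq' := hpq
        rw [hLS] at hpq'
        have hpa : p ≠ a := by
          rintro rfl
          rcases (ha q).1 hpq with rfl | rfl <;> simp at hne
        have hqa : q ≠ a := by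
          rintro rfl
          rcases (ha p).1 hpq.symm with rfl | rfl
          · exact hne (by simp [Sym2.eq_swap])
          · exact hne (by simp [Sym2.eq_swap])
        rw [ls_mk, hg]
        simp only [if_neg hpa, if_neg hqa]
        rw [rho_add h hva hpq'.2.1 hpq'.2.2.1 hpq'.1 hpa.symm hqa.symm]
        exact add_self' _
  rw [Finset.sum_add_distrib, e0, add_zero] at this
  exact this

end sums

section opn
variable [Fintype V] [DecidableEq V]
variable {G : SimpleGraph V} {y : V → V → ZMod 2} {z : Sym2 V → V → ZMod 2}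

theorem tri_sum [DecidableRel G.Adj] (h : HT G y z) (v : V) (T : Finset V)
    (hT : T ∈ G.cliqueFinset 3) (hv : v ∉ T) :
    ∑ e ∈ G.edgeFinset.filter (fun e => ∀ x ∈ e, x ∈ T), z e v = 0 := by
  rw [SimpleGraph.mem_cliqueFinset_iff, SimpleGraph.is3Clique_iff] at hT
  obtain ⟨a, b, c, hab, hac, hbc, rfl⟩ := hT
  simp only [mem_insert, mem_singleton, not_or] at hv
  have : G.edgeFinset.filter (fun e => ∀ x ∈ e, x ∈ ({a, b, c} : Finset V)) =
      {s(a, b), s(b, c), s(a, c)} := by
    ext e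
    induction e with
    | _ p q =>
      simp only [mem_filter, SimpleGraph.mem_edgeFinset, SimpleGraph.mem_edgeSet, Sym2.mem_iff,
        mem_insert, mem_singleton, Sym2.eq_iff, forall_eq_or_imp, forall_eq]
      constructor
      · rintro ⟨hpq, hp, hq⟩
        have := hpq.ne
        rcases hp with rfl | rfl | rfl <;> rcases hq with rfl | rfl | rfl <;> simp at this ⊢
      · rintro ((⟨rfl, rfl⟩ | ⟨rfl, rfl⟩) | (⟨rfl, rfl⟩ | ⟨rfl, rfl⟩) | (⟨rfl, rfl⟩ | ⟨rfl, rfl⟩)) <;>
          simp [hab, hac, hbc, hab.symm, hac.symm, hbc.symm]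
  rw [this, Finset.sum_insert, Finset.sum_insert, Finset.sum_singleton]
  · rw [← h.tri a b c v hab hbc hac hv.1 hv.2.1 hv.2.2]
    ring
  · simp only [mem_singleton, Sym2.eq_iff, not_or]
    exact ⟨fun h' => hab.ne h'.1.symm, fun h' => hbc.ne h'.1⟩
  · simp only [mem_insert, mem_singleton, Sym2.eq_iff, not_or]
    exact ⟨⟨fun h' => hab.ne h'.1, fun h' => hac.ne h'.1⟩, fun h' => hbc.ne h'.2,
      fun h' => hac.ne h'.1⟩

theorem count_tri [DecidableRel G.Adj] (v : V) (a b c c' : V) (hab : G.Adj a b) (hcc : c ≠ c')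
    (hc : ∀ x, (G.Adj a x ∧ G.Adj b x) ↔ (x = c ∨ x = c')) (S : V → Prop) (hS : ∀ x, S x)
    [DecidableRel (linkG G v S).Adj] :
    (((G.cliqueFinset 3).filter (fun T => v ∉ T ∧ ∀ x ∈ s(a, b), x ∈ T)).card : ZMod 2) =
      if s(a, b) ∈ (linkG G v S).edgeFinset then 1 else 0 := by
  have hac := (hc c).2 (Or.inl rfl)
  have hac' := (hc c').2 (Or.inr rfl)
  by_cases hva : v = a
  · subst hva
    have : (G.cliqueFinset 3).filter (fun T => v ∉ T ∧ ∀ x ∈ s(v, b), x ∈ T) = ∅ := by
      ext T
      simp only [mem_filter, notMem_empty, iff_false, not_and]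
      intro _ h1 h2
      exact h1 (h2 v (by simp))
    rw [this, if_neg]
    · simp
    · simp [linkG]
  by_cases hvb : v = b
  · subst hvb
    have : (G.cliqueFinset 3).filter (fun T => v ∉ T ∧ ∀ x ∈ s(a, v), x ∈ T) = ∅ := by
      ext T
      simp only [mem_filter, notMem_empty, iff_false, not_and]
      intro _ h1 h2
      exact h1 (h2 v (by simp))
    rw [this, if_neg]
    · simp
    · simp [linkG]
  have key : (G.cliqueFinset 3).filter (fun T => v ∉ T ∧ ∀ x ∈ s(a, b), x ∈ T) =
      (({c, c'} : Finset V).filter (fun x => x ≠ v)).image (fun x => ({a, b, x} : Finset V)) := by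
    ext T
    simp only [mem_filter, SimpleGraph.mem_cliqueFinset_iff, mem_image, mem_insert,
      mem_singleton]
    constructor
    · rintro ⟨hT, hv, hT'⟩
      have ha : a ∈ T := hT' a (by simp)
      have hb : b ∈ T := hT' b (by simp)
      have hcard := hT.card_eq
      have hcl := hT.isClique
      have h2 : ((T.erase a).erase b).card = 1 := by
        rw [Finset.card_erase_of_mem (by simp [hab.ne', hb]), Finset.card_erase_of_mem ha, hcard]
      obtain ⟨x, hx⟩ := Finset.card_eq_one.1 h2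
      have hxT : x ∈ (T.erase a).erase b := by rw [hx]; simp
      simp only [mem_erase] at hxT
      refine ⟨x, ⟨(hc x).1 ⟨hcl ha hxT.2.2 hxT.2.1.symm, hcl hb hxT.2.2 hxT.1.symm⟩, ?_⟩, ?_⟩
      · rintro rfl; exact hv hxT.2.2
      · rw [← hx]
        ext t
        simp only [mem_insert, mem_erase]
        constructor
        · rintro (rfl | rfl | ⟨_, _, h⟩)
          · exact ha
          · exact hb
          · exact h
        · intro ht
          by_cases h1 : t = a
          · exact Or.inl h1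
          by_cases h2 : t = b
          · exact Or.inr (Or.inl h2)
          exact Or.inr (Or.inr ⟨h2, h1, ht⟩)
    · rintro ⟨x, ⟨hx, hxv⟩, rfl⟩
      have hx' := (hc x).2 hx
      refine ⟨?_, ?_, ?_⟩
      · rw [SimpleGraph.is3Clique_iff]
        exact ⟨a, b, x, hab, hx'.1, hx'.2, rfl⟩
      · simp [hva, hvb, Ne.symm hxv]
      · intro t ht
        simp only [Sym2.mem_iff] at ht
        rcases ht with rfl | rfl <;> simp
  have hinj : Set.InjOn (fun x => ({a, b, x} : Finset V))
      (↑(({c, c'} : Finset V).filter (fun x => x ≠ v)) : Set V) := by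
    intro x hx x' hx' he
    simp only [coe_filter, mem_insert, mem_singleton, Set.mem_ofPred_eq] at hx hx'
    have h1 := (hc x).2 hx.1
    have : x ∈ ({a, b, x'} : Finset V) := by
      have : x ∈ ({a, b, x} : Finset V) := by simp
      exact (Finset.ext_iff.1 he x).1 this
    simp only [mem_insert, mem_singleton] at this
    rcases this with h' | h' | h'
    · exact absurd h' h1.1.ne'
    · exact absurd h' h1.2.ne'
    · exact h'
  rw [key, Finset.card_image_of_injOn hinj]
  have hlink : s(a, b) ∈ (linkG G v S).edgeFinset ↔ (c = v ∨ c' = v) := by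
    simp only [SimpleGraph.mem_edgeFinset, SimpleGraph.mem_edgeSet]
    constructor
    · rintro ⟨_, h1, h2, _⟩
      rcases (hc v).1 ⟨h1.symm, h2.symm⟩ with h | h
      · exact Or.inl h.symm
      · exact Or.inr h.symm
    · intro h
      have h' := (hc v).2 (by rcases h with h | h <;> simp [h])
      exact ⟨hab, h'.1.symm, h'.2.symm, hS _, hS _⟩
  by_cases h1 : c = v
  · subst h1
    rw [if_pos (hlink.2 (Or.inl rfl))]
    have : ({c, c'} : Finset V).filter (fun x => x ≠ c) = {c'} := by
      ext x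
      simp only [mem_filter, mem_insert, mem_singleton]
      constructor
      · rintro ⟨rfl | rfl, h⟩
        · exact absurd rfl h
        · rfl
      · rintro rfl
        exact ⟨Or.inr rfl, hcc.symm⟩
    rw [this]
    simp
  by_cases h2 : c' = v
  · subst h2
    rw [if_pos (hlink.2 (Or.inr rfl))]
    have : ({c, c'} : Finset V).filter (fun x => x ≠ c') = {c} := by
      ext x
      simp only [mem_filter, mem_insert, mem_singleton]
      constructor
      · rintro ⟨rfl | rfl, h⟩
        · rfl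
        · exact absurd rfl h
      · rintro rfl
        exact ⟨Or.inl rfl, hcc⟩
    rw [this]
    simp
  rw [if_neg (fun h => by rcases hlink.1 h with h | h <;> contradiction)]
  have : ({c, c'} : Finset V).filter (fun x => x ≠ v) = {c, c'} := by
    ext x
    simp only [mem_filter, mem_insert, mem_singleton, and_iff_left_iff_imp]
    rintro (rfl | rfl) <;> assumption
  rw [this, Finset.card_pair hcc]
  rfl

end opn

section addEdge

variable {G : SimpleGraph V} {y : V → V → ZMod 2} {z : Sym2 V → V → ZMod 2}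

theorem addEdge_aux (h : HT G y z) {v p1 p2 : V} (h1 : G.Adj v p1) (h2 : G.Adj v p2)
    (k : ZMod 2) (hV : ∀ a, G.Adj v a → a ≠ p1 → a ≠ p2 →
      z s(v, p1) a + z s(v, a) p1 + y a p1 + z s(v, p2) a + z s(v, a) p2 + y a p2 = k)
    (w : V → ZMod 2) (hwv : w v = k + y v p1 + y v p2)
    (hw : ∀ q, q ≠ v → w q = z s(v, p1) q + z s(v, p2) q)
    (c d : V) (hcd : G.Adj c d) (hc1 : c ≠ p1) (hc2 : c ≠ p2) (hd1 : d ≠ p1) (hd2 : d ≠ p2) :
    w c + w d + z s(c, d) p1 + z s(c, d) p2 = y p1 c + y p1 d + y p2 c + y p2 d := by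
  have key : ∀ a, G.Adj v a → a ≠ p1 → a ≠ p2 →
      w v + w a + z s(v, a) p1 + z s(v, a) p2 = y p1 v + y p1 a + y p2 v + y p2 a := by
    intro a hva ha1 ha2
    have e := hV a hva ha1 ha2
    have t1 := h.tour v p1 h1.ne
    have t2 := h.tour v p2 h2.ne
    have t3 := h.tour a p1 ha1
    have t4 := h.tour a p2 ha2
    rw [hwv, hw a hva.ne']
    grind
  by_cases hcv : c = v
  · subst hcv
    exact key d hcd hd1 hd2
  by_cases hdv : d = v
  · subst hdv
    have e := key c hcd.symm hc1 hc2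
    rw [Sym2.eq_swap]
    grind
  have e1 := h.dis v p1 c d h1 hcd (Ne.symm hcv) (Ne.symm hdv) hc1.symm hd1.symm
  have e2 := h.dis v p2 c d h2 hcd (Ne.symm hcv) (Ne.symm hdv) hc2.symm hd2.symm
  rw [hw c hcv, hw d hdv]
  grind

theorem addEdge (h : HT G y z) {v p1 p2 : V} (h1 : G.Adj v p1) (h2 : G.Adj v p2)
    (hp : p1 ≠ p2) (hna : ¬ G.Adj p1 p2) (hcom : ∀ x, G.Adj p1 x → G.Adj p2 x → x = v)
    (k : ZMod 2) (hV : ∀ a, G.Adj v a → a ≠ p1 → a ≠ p2 →
      z s(v, p1) a + z s(v, a) p1 + y a p1 + z s(v, p2) a + z s(v, a) p2 + y a p2 = k) :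
    HTD (G ⊔ SimpleGraph.edge p1 p2) := by
  classical
  set w : V → ZMod 2 := fun q => if q = v then k + y v p1 + y v p2
    else z s(v, p1) q + z s(v, p2) q with hwdef
  have hwv : w v = k + y v p1 + y v p2 := by simp [hwdef]
  have hw : ∀ q, q ≠ v → w q = z s(v, p1) q + z s(v, p2) q := fun q hq => by
    simp [hwdef, hq]
  have aux := addEdge_aux h h1 h2 k hV w hwv hw
  set z' : Sym2 V → V → ZMod 2 := fun e q => if e = s(p1, p2) then w q else z e q with hz'
  have zf : ∀ q, z' s(p1, p2) q = w q := fun q => by simp [hz']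
  have zf' : ∀ q, z' s(p2, p1) q = w q := fun q => by rw [Sym2.eq_swap]; exact zf q
  have zg : ∀ a b q, G.Adj a b → z' s(a, b) q = z s(a, b) q := by
    intro a b q hab
    have : s(a, b) ≠ s(p1, p2) := by
      intro he
      rw [Sym2.eq_iff] at he
      rcases he with ⟨rfl, rfl⟩ | ⟨rfl, rfl⟩
      · exact hna hab
      · exact hna hab.symm
    simp [hz', this]
  have adj : ∀ a b, (G ⊔ SimpleGraph.edge p1 p2).Adj a b →
      G.Adj a b ∨ (a = p1 ∧ b = p2) ∨ (a = p2 ∧ b = p1) := by
    intro a b hab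
    rw [SimpleGraph.sup_adj, SimpleGraph.edge_adj] at hab
    tauto
  refine ⟨y, z', h.tour, ?_, ?_⟩
  · intro a b c d hab hcd n1 n2 n3 n4
    rcases adj a b hab with hab' | ⟨rfl, rfl⟩ | ⟨rfl, rfl⟩
    · rcases adj c d hcd with hcd' | ⟨rfl, rfl⟩ | ⟨rfl, rfl⟩
      · rw [zg _ _ _ hab', zg _ _ _ hab', zg _ _ _ hcd', zg _ _ _ hcd']
        exact h.dis a b c d hab' hcd' n1 n2 n3 n4
      · rw [zg _ _ _ hab', zg _ _ _ hab', zf, zf]
        have e := aux a b hab' n1 n2 n3 n4
        have t1 := h.tour a c n1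
        have t2 := h.tour a d n2
        have t3 := h.tour b c n3
        have t4 := h.tour b d n4
        grind
      · rw [zg _ _ _ hab', zg _ _ _ hab', zf', zf']
        have e := aux a b hab' n2 n1 n4 n3
        have t1 := h.tour a c n1
        have t2 := h.tour a d n2
        have t3 := h.tour b c n3
        have t4 := h.tour b d n4
        grind
    · rcases adj c d hcd with hcd' | ⟨rfl, rfl⟩ | ⟨rfl, rfl⟩
      · rw [zg _ _ _ hcd', zg _ _ _ hcd', zf, zf]
        exact aux c d hcd' n1.symm n3.symm n2.symm n4.symm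
      · exact absurd rfl n1
      · exact absurd rfl n2
    · rcases adj c d hcd with hcd' | ⟨rfl, rfl⟩ | ⟨rfl, rfl⟩
      · rw [zg _ _ _ hcd', zg _ _ _ hcd', zf', zf']
        have e := aux c d hcd' n3.symm n1.symm n4.symm n2.symm
        grind
      · exact absurd rfl n2
      · exact absurd rfl n1
  · -- triangles
    have third : ∀ x, (G ⊔ SimpleGraph.edge p1 p2).Adj p1 x →
        (G ⊔ SimpleGraph.edge p1 p2).Adj p2 x → x = v := by
      intro x hx1 hx2
      apply hcom
      · rcases adj _ _ hx1 with h' | ⟨_, rfl⟩ | ⟨h', _⟩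
        · exact h'
        · exact absurd rfl hx2.ne
        · exact absurd h' hp
      · rcases adj _ _ hx2 with h' | ⟨h', _⟩ | ⟨_, rfl⟩
        · exact h'
        · exact absurd h'.symm hp
        · exact absurd rfl hx1.ne
    have zv1 : ∀ q, z' s(v, p1) q = z s(v, p1) q := fun q => zg _ _ _ h1
    have zv2 : ∀ q, z' s(v, p2) q = z s(v, p2) q := fun q => zg _ _ _ h2
    have zv1' : ∀ q, z' s(p1, v) q = z s(v, p1) q := fun q => by rw [Sym2.eq_swap]; exact zv1 q
    have zv2' : ∀ q, z' s(p2, v) q = z s(v, p2) q := fun q => by rw [Sym2.eq_swap]; exact zv2 q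
    intro a b c q hab hbc hac n1 n2 n3
    rcases adj a b hab with hab' | ⟨rfl, rfl⟩ | ⟨rfl, rfl⟩
    · rcases adj b c hbc with hbc' | ⟨rfl, rfl⟩ | ⟨rfl, rfl⟩
      · rcases adj a c hac with hac' | ⟨rfl, rfl⟩ | ⟨rfl, rfl⟩
        · rw [zg _ _ _ hab', zg _ _ _ hac', zg _ _ _ hbc']
          exact h.tri a b c q hab' hbc' hac' n1 n2 n3
        · obtain rfl : b = v := third b hab hbc.symm
          rw [zf, zv1', zv2, hw q n2]
          grind
        · obtain rfl : b = v := third b hbc.symm hab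
          rw [zf', zv2', zv1, hw q n2]
          grind
      · obtain rfl : a = v := third a hab.symm hac.symm
        rw [zf, zv1, zv2, hw q n1]
        grind
      · obtain rfl : a = v := third a hac.symm hab.symm
        rw [zf', zv1, zv2, hw q n1]
        grind
    · obtain rfl : c = v := third c hac hbc
      rw [zf, zv1', zv2', hw q n3]
      grind
    · obtain rfl : c = v := third c hbc hac
      rw [zf', zv1', zv2', hw q n3]
      grind

end addEdge

section cut

variable {G : SimpleGraph V} {y : V → V → ZMod 2} {z : Sym2 V → V → ZMod 2}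

open Classical in
/-- The value of `z'` of an edge at the vertices of the other side. -/
noncomputable def AA (z : Sym2 V → V → ZMod 2) (τ : V → ZMod 2) (v : V) (e : Sym2 V) : ZMod 2 :=
  if v ∈ e then ls τ e else z e v

open Classical in
/-- The modified solution. -/
noncomputable def zc (y : V → V → ZMod 2) (z : Sym2 V → V → ZMod 2) (τ : V → ZMod 2) (v : V)
    (K : V → Prop) (ε : ZMod 2) (e : Sym2 V) (q : V) : ZMod 2 :=
  if ∀ x ∈ e, x = v ∨ (K x ↔ K q) then z e q + (if K q then 0 else ε * ls (fun p => y p q) e)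
  else AA z τ v e

variable {v : V} {K : V → Prop} {τ : V → ZMod 2} {ε : ZMod 2}

theorem zc_one (hv : ¬ K v) {a b q : V} (ha : K a ∨ a = v) (hb : K b ∨ b = v)
    (hq : K q ∨ q = v) (hqa : q ≠ a) (hqb : q ≠ b) :
    zc y z τ v K ε s(a, b) q = z s(a, b) q := by
  unfold zc
  rcases hq with hq | rfl
  · rw [if_pos, if_pos hq, add_zero]
    intro x hx
    rw [Sym2.mem_iff] at hx
    rcases hx with rfl | rfl <;> tauto
  · have ha' : K a := by tauto
    have hb' : K b := by tauto
    rw [if_neg, AA, if_neg]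
    · simp [hqa, hqb]
    · intro h
      have := h a (by simp)
      rcases this with h' | h'
      · exact hqa h'.symm
      · exact hv (h'.1 ha')

theorem zc_two {a b q : V} (ha : ¬ K a) (hb : ¬ K b) (hq : ¬ K q) :
    zc y z τ v K ε s(a, b) q = z s(a, b) q + ε * (y a q + y b q) := by
  unfold zc
  rw [if_pos, if_neg hq, ls_mk]
  intro x hx
  rw [Sym2.mem_iff] at hx
  rcases hx with rfl | rfl <;> tauto

theorem zc_three (hv : ¬ K v) {a b q : V} (hab : a ≠ b) (ha : K a ∨ a = v) (hb : K b ∨ b = v)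
    (hq : ¬ K q) : zc y z τ v K ε s(a, b) q = AA z τ v s(a, b) := by
  unfold zc
  rw [if_neg]
  intro h
  rcases ha with ha | rfl
  · rcases h a (by simp) with h' | h'
    · exact hv (h' ▸ ha)
    · exact hq (h'.1 ha)
  · rcases hb with hb | rfl
    · rcases h b (by simp) with h' | h'
      · exact hv (h' ▸ hb)
      · exact hq (h'.1 hb)
    · exact hab rfl

theorem zc_four (hyv : ∀ q, ¬ K q → q ≠ v → y q v = 0) {a b q : V} (hab : a ≠ b)
    (ha : ¬ K a) (hb : ¬ K b) (hq : K q ∨ q = v) (hqa : q ≠ a) (hqb : q ≠ b) :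
    zc y z τ v K ε s(a, b) q = AA z τ v s(a, b) := by
  rcases hq with hq | rfl
  · unfold zc
    rw [if_neg]
    intro h
    by_cases hav : a = v
    · subst hav
      rcases h b (by simp) with h' | h'
      · exact hab h'.symm
      · exact hb (h'.2 hq)
    · rcases h a (by simp) with h' | h'
      · exact hav h'
      · exact ha (h'.2 hq)
  · by_cases hvK : K q
    · unfold zc
      rw [if_neg]
      intro h
      rcases h a (by simp) with h' | h'
      · exact hqa h'.symm
      · exact ha (h'.2 hvK)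
    rw [zc_two ha hb hvK, hyv a ha hqa.symm, hyv b hb hqb.symm, AA, if_neg (by simp [hqa, hqb])]
    simp

theorem AA_tri (h : HT G y z)
    (hτ : ∀ a b, G.Adj v a → G.Adj v b → G.Adj a b → τ a + τ b = z s(a, b) v)
    {a b c : V} (hab : G.Adj a b) (hbc : G.Adj b c) (hac : G.Adj a c) :
    AA z τ v s(a, b) + AA z τ v s(b, c) + AA z τ v s(a, c) = 0 := by
  unfold AA
  by_cases h1 : v = a
  · subst h1
    have e := hτ b c hab hac hbc
    rw [if_pos (by simp), if_neg (by simp [hab.ne, hac.ne]), if_pos (by simp), ls_mk, ls_mk]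
    grind
  by_cases h2 : v = b
  · subst h2
    have e := hτ a c hab.symm hbc hac
    rw [if_pos (by simp), if_pos (by simp), if_neg (by simp [h1, hbc.ne]), ls_mk, ls_mk]
    grind
  by_cases h3 : v = c
  · subst h3
    have e := hτ a b hac.symm hbc.symm hab
    rw [if_neg (by simp [h1, h2]), if_pos (by simp), if_pos (by simp), ls_mk, ls_mk]
    grind
  rw [if_neg (by simp [h1, h2]), if_neg (by simp [h2, h3]), if_neg (by simp [h1, h3])]
  exact h.tri a b c v hab hbc hac h1 h2 h3

theorem zc_HT (h : HT G y z) (hv : ¬ K v)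
    (hsep : ∀ a b, G.Adj a b → K a → K b ∨ b = v)
    (hy1 : ∀ p q, K p → ¬ K q → y p q = 1) (hy2 : ∀ q, ¬ K q → q ≠ v → y v q = 1)
    (hyv : ∀ q, ¬ K q → q ≠ v → y q v = 0)
    (hτ : ∀ a b, G.Adj v a → G.Adj v b → G.Adj a b → τ a + τ b = z s(a, b) v) :
    HT G y (zc y z τ v K ε) := by
  have side : ∀ a b, G.Adj a b → ((K a ∨ a = v) ∧ (K b ∨ b = v)) ∨ (¬ K a ∧ ¬ K b) := by
    intro a b hab
    by_cases ha : K a
    · exact Or.inl ⟨Or.inl ha, hsep a b hab ha⟩
    by_cases hb : K b
    · exact Or.inl ⟨hsep b a hab.symm hb, Or.inl hb⟩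
    exact Or.inr ⟨ha, hb⟩
  have mixed : ∀ a b c d, G.Adj a b → G.Adj c d → a ≠ c → a ≠ d → b ≠ c → b ≠ d →
      (K a ∨ a = v) → (K b ∨ b = v) → ¬ K c → ¬ K d →
      zc y z τ v K ε s(a, b) c + zc y z τ v K ε s(a, b) d + zc y z τ v K ε s(c, d) a +
        zc y z τ v K ε s(c, d) b = 0 ∧ y a c = 1 ∧ y a d = 1 ∧ y b c = 1 ∧ y b d = 1 := by
    intro a b c d hab hcd n1 n2 n3 n4 ha hb hc hd
    rw [zc_three hv hab.ne ha hb hc, zc_three hv hab.ne ha hb hd,
      zc_four hyv hcd.ne hc hd ha n1 n2, zc_four hyv hcd.ne hc hd hb n3 n4]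
    have yy : ∀ a' c', (K a' ∨ a' = v) → ¬ K c' → a' ≠ c' → y a' c' = 1 := by
      intro a' c' ha' hc' hne
      rcases ha' with ha' | rfl
      · exact hy1 _ _ ha' hc'
      · exact hy2 _ hc' hne.symm
    refine ⟨by grind, yy _ _ ha hc n1, yy _ _ ha hd n2, yy _ _ hb hc n3, yy _ _ hb hd n4⟩
  refine ⟨h.tour, ?_, ?_⟩
  · intro a b c d hab hcd n1 n2 n3 n4
    have e := h.dis a b c d hab hcd n1 n2 n3 n4
    have t1 := h.tour a c n1
    have t2 := h.tour a d n2
    have t3 := h.tour b c n3
    have t4 := h.tour b d n4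
    rcases side a b hab with ⟨ha, hb⟩ | ⟨ha, hb⟩ <;> rcases side c d hcd with ⟨hc, hd⟩ | ⟨hc, hd⟩
    · rw [zc_one hv ha hb hc n1.symm n3.symm, zc_one hv ha hb hd n2.symm n4.symm,
        zc_one hv hc hd ha n1 n2, zc_one hv hc hd hb n3 n4]
      exact e
    · obtain ⟨m0, m1, m2, m3, m4⟩ := mixed a b c d hab hcd n1 n2 n3 n4 ha hb hc hd
      rw [m0, m1, m2, m3, m4]
      rfl
    · obtain ⟨m0, m1, m2, m3, m4⟩ := mixed c d a b hcd hab n1.symm n3.symm n2.symm n4.symm
        hc hd ha hb
      grind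
    · rw [zc_two ha hb hc, zc_two ha hb hd, zc_two hc hd ha, zc_two hc hd hb]
      have m : (y a c + y b c) + (y a d + y b d) + (y c a + y d a) + (y c b + y d b) = 0 := by
        grind
      have m' : ε * (y a c + y b c) + ε * (y a d + y b d) + ε * (y c a + y d a) +
          ε * (y c b + y d b) = 0 := by
        rw [← mul_add, ← mul_add, ← mul_add, m, mul_zero]
      generalize ε * (y a c + y b c) = s1 at *
      generalize ε * (y a d + y b d) = s2 at *
      generalize ε * (y c a + y d a) = s3 at *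
      generalize ε * (y c b + y d b) = s4 at *
      grind
  · intro a b c q hab hbc hac n1 n2 n3
    have e := h.tri a b c q hab hbc hac n1 n2 n3
    have A := AA_tri h hτ hab hbc hac
    by_cases hK : K a ∨ K b ∨ K c
    · have hs : (K a ∨ a = v) ∧ (K b ∨ b = v) ∧ (K c ∨ c = v) := by
        rcases hK with h' | h' | h'
        · exact ⟨Or.inl h', hsep _ _ hab h', hsep _ _ hac h'⟩
        · exact ⟨hsep _ _ hab.symm h', Or.inl h', hsep _ _ hbc h'⟩
        · exact ⟨hsep _ _ hac.symm h', hsep _ _ hbc.symm h', Or.inl h'⟩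
      obtain ⟨ha, hb, hc⟩ := hs
      by_cases hq : K q ∨ q = v
      · rw [zc_one hv ha hb hq n1 n2, zc_one hv hb hc hq n2 n3, zc_one hv ha hc hq n1 n3]
        exact e
      · push Not at hq
        rw [zc_three hv hab.ne ha hb hq.1, zc_three hv hbc.ne hb hc hq.1,
          zc_three hv hac.ne ha hc hq.1]
        exact A
    · push Not at hK
      obtain ⟨ha, hb, hc⟩ := hK
      by_cases hq : K q
      · rw [zc_four hyv hab.ne ha hb (Or.inl hq) n1 n2, zc_four hyv hbc.ne hb hc (Or.inl hq) n2 n3,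
          zc_four hyv hac.ne ha hc (Or.inl hq) n1 n3]
        exact A
      · rw [zc_two ha hb hq, zc_two hb hc hq, zc_two ha hc hq]
        have m' : ε * (y a q + y b q) + ε * (y b q + y c q) + ε * (y a q + y c q) = 0 := by
          rw [← mul_add, ← mul_add]
          have : (y a q + y b q) + (y b q + y c q) + (y a q + y c q) = 0 := by grind
          rw [this, mul_zero]
        generalize ε * (y a q + y b q) = s1 at *
        generalize ε * (y b q + y c q) = s2 at *
        generalize ε * (y a q + y c q) = s3 at *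
        grind

end cut

section step

variable {G : SimpleGraph V} {y : V → V → ZMod 2} {z : Sym2 V → V → ZMod 2}

/-- `psi`. -/
def psi (y : V → V → ZMod 2) (z : Sym2 V → V → ZMod 2) (v p a : V) : ZMod 2 :=
  z s(v, p) a + z s(v, a) p + y a p

theorem psi_add (h : HT G y z) {v p a b : V} (hp : G.Adj v p) (ha : G.Adj v a)
    (hb : G.Adj v b) (hab : G.Adj a b) (hpa : a ≠ p) (hpb : b ≠ p) (hy : y a v = y b v) :
    psi y z v p a + psi y z v p b = z s(a, b) v := by
  have e1 := h.dis a b v p hab hp ha.ne' hpa hb.ne' hpb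
  have e2 := h.tri v a b p ha hab hb hp.ne' hpa.symm hpb.symm
  unfold psi
  grind

theorem cutStep (h : HT G y z) {v : V} {K : V → Prop} (hv : ¬ K v)
    (hsep : ∀ a b, G.Adj a b → K a → K b ∨ b = v)
    (hy1 : ∀ p q, K p → ¬ K q → y p q = 1) (hy2 : ∀ q, ¬ K q → q ≠ v → y v q = 1)
    {p1 p2 : V} (h1 : G.Adj v p1) (h2 : G.Adj v p2) (hp1 : K p1) (hp2 : ¬ K p2)
    (hu1 : ∀ b b', G.Adj v b → G.Adj p1 b → G.Adj v b' → G.Adj p1 b' → b = b')
    (hu2 : ∀ b b', G.Adj v b → G.Adj p2 b → G.Adj v b' → G.Adj p2 b' → b = b') :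
    HTD (G ⊔ SimpleGraph.edge p1 p2) := by
  classical
  have hyv : ∀ q, ¬ K q → q ≠ v → y q v = 0 := by
    intro q hq hqv
    have := h.tour q v hqv
    rw [hy2 q hq hqv] at this
    grind
  have hp12 : p1 ≠ p2 := fun he => hp2 (he ▸ hp1)
  have hsep' : ∀ a b, G.Adj a b → ¬ K a → a ≠ v → ¬ K b := by
    intro a b hab ha hav hb
    rcases hsep b a hab.symm hb with h' | h'
    · exact ha h'
    · exact hav h'
  -- the constant `k`
  obtain ⟨k, hk⟩ : ∃ k : ZMod 2, ∀ b, G.Adj v b → G.Adj p1 b →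
      psi y z v p1 b + 1 + k = z s(p1, b) v := by
    by_cases hb : ∃ b, G.Adj v b ∧ G.Adj p1 b
    · obtain ⟨b, hb1, hb2⟩ := hb
      refine ⟨psi y z v p1 b + 1 + z s(p1, b) v, fun b' hb1' hb2' => ?_⟩
      rw [hu1 b' b hb1' hb2' hb1 hb2]
      grind
    · exact ⟨0, fun b hb1 hb2 => absurd ⟨b, hb1, hb2⟩ hb⟩
  obtain ⟨ε, hε⟩ : ∃ ε : ZMod 2, ∀ b, G.Adj v b → G.Adj p2 b →
      psi y z v p2 b + ε + k = z s(p2, b) v := by
    by_cases hb : ∃ b, G.Adj v b ∧ G.Adj p2 b
    · obtain ⟨b, hb1, hb2⟩ := hb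
      refine ⟨psi y z v p2 b + k + z s(p2, b) v, fun b' hb1' hb2' => ?_⟩
      rw [hu2 b' b hb1' hb2' hb1 hb2]
      grind
    · exact ⟨0, fun b hb1 hb2 => absurd ⟨b, hb1, hb2⟩ hb⟩
  set τ : V → ZMod 2 := fun a => if a = v ∨ a = p1 ∨ a = p2 then 0 else
    if K a then psi y z v p1 a + 1 + k else psi y z v p2 a + ε + k with hτdef
  have τv : τ v = 0 := by simp [hτdef]
  have τ1 : τ p1 = 0 := by simp [hτdef]
  have τ2 : τ p2 = 0 := by simp [hτdef]
  have τK : ∀ a, K a → a ≠ p1 → τ a = psi y z v p1 a + 1 + k := by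
    intro a ha ha1
    have : ¬ (a = v ∨ a = p1 ∨ a = p2) := by
      rintro (rfl | h' | rfl)
      · exact hv ha
      · exact ha1 h'
      · exact hp2 ha
    simp only [hτdef, if_neg this, if_pos ha]
  have τN : ∀ a, ¬ K a → a ≠ v → a ≠ p2 → τ a = psi y z v p2 a + ε + k := by
    intro a ha hav ha2
    have : ¬ (a = v ∨ a = p1 ∨ a = p2) := by
      rintro (h' | rfl | h')
      · exact hav h'
      · exact ha hp1
      · exact ha2 h'
    simp only [hτdef, if_neg this, if_neg ha]
  have hτ : ∀ a b, G.Adj v a → G.Adj v b → G.Adj a b → τ a + τ b = z s(a, b) v := by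
    intro a b hva hvb hab
    by_cases ha : K a
    · have hb : K b := by
        rcases hsep a b hab ha with h' | h'
        · exact h'
        · exact absurd h' hvb.ne'
      by_cases ha1 : a = p1
      · subst ha1
        rw [τ1, τK b hb hab.ne', zero_add]
        exact hk b hvb hab
      by_cases hb1 : b = p1
      · subst hb1
        rw [τ1, τK a ha hab.ne, add_zero, Sym2.eq_swap]
        exact hk a hva hab.symm
      have e := psi_add h h1 hva hvb hab ha1 hb1 (by rw [hy1 a v ha hv, hy1 b v hb hv])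
      rw [τK a ha ha1, τK b hb hb1]
      grind
    · have hb : ¬ K b := hsep' a b hab ha hva.ne'
      by_cases ha2 : a = p2
      · subst ha2
        rw [τ2, τN b hb hvb.ne' hab.ne', zero_add]
        exact hε b hvb hab
      by_cases hb2 : b = p2
      · subst hb2
        rw [τ2, τN a ha hva.ne' hab.ne, add_zero, Sym2.eq_swap]
        exact hε a hva hab.symm
      have e := psi_add h h2 hva hvb hab ha2 hb2 (by rw [hyv a ha hva.ne', hyv b hb hvb.ne'])
      rw [τN a ha hva.ne' ha2, τN b hb hvb.ne' hb2]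
      grind
  have hHT := zc_HT (ε := ε) h hv hsep hy1 hy2 hyv hτ
  have hna : ¬ G.Adj p1 p2 := by
    intro hadj
    rcases hsep _ _ hadj hp1 with h' | h'
    · exact hp2 h'
    · exact h2.ne' h'
  refine addEdge hHT h1 h2 hp12 hna ?_ k ?_
  · intro x hx1 hx2
    rcases hsep p1 x hx1 hp1 with h' | h'
    · by_contra hxv
      rcases hsep x p2 hx2.symm h' with h'' | h''
      · exact hp2 h''
      · exact h2.ne' h''
    · exact h'
  · intro a hva ha1 ha2
    have av : ∀ b, AA z τ v s(v, b) = τ b := by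
      intro b
      unfold AA
      rw [if_pos (by simp), ls_mk, τv, zero_add]
    by_cases ha : K a
    · rw [zc_one hv (Or.inr rfl) (Or.inl hp1) (Or.inl ha) hva.ne' ha1,
        zc_one hv (Or.inr rfl) (Or.inl ha) (Or.inl hp1) h1.ne' ha1.symm,
        zc_four hyv h2.ne hv hp2 (Or.inl ha) hva.ne' ha2,
        zc_three hv hva.ne (Or.inr rfl) (Or.inl ha) hp2, av, av, τ2, τK a ha ha1,
        hy1 a p2 ha hp2]
      unfold psi
      grind
    · rw [zc_three hv h1.ne (Or.inr rfl) (Or.inl hp1) ha,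
        zc_four hyv hva.ne hv ha (Or.inl hp1) h1.ne' (Ne.symm ha1),
        zc_two hv hp2 ha, zc_two hv ha hp2, av, av, τ1, τN a ha hva.ne' ha2]
      have t1 := h.tour a p1 ha1
      rw [hy1 p1 a hp1 ha] at t1
      have t2 := h.tour a p2 ha2
      rw [hy2 a ha hva.ne', hy2 p2 hp2 h2.ne']
      have m : ε * (1 + y p2 a) + ε * (1 + y a p2) = ε := by
        rw [← mul_add]
        have : (1 + y p2 a) + (1 + y a p2) = 1 := by grind
        rw [this, mul_one]
      generalize ε * (1 + y p2 a) = s1 at *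
      generalize ε * (1 + y a p2) = s2 at *
      unfold psi
      grind

/-- A vertex in at most one triangle with `v` on each side. -/
theorem exists_few [Fintype V] (h : HT G y z) (v : V) (S : V → Prop)
    (hS : ∀ a b, G.Adj v a → G.Adj v b → G.Adj a b → S a → S b)
    (a0 : V) (ha0 : G.Adj v a0) (ha0S : S a0) (q0 : V) (hq0 : G.Adj v q0) (hq0S : ¬ S q0) :
    ∃ p, G.Adj v p ∧ S p ∧
      ∀ b b', G.Adj v b → G.Adj p b → G.Adj v b' → G.Adj p b' → b = b' := by
  classical
  by_contra hcon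
  push Not at hcon
  set L := linkG G v S with hL
  have hnb : ∀ x, G.Adj v x → S x → ∃ c c', c ≠ c' ∧ ∀ t, L.Adj x t ↔ (t = c ∨ t = c') := by
    intro x hx hxS
    obtain ⟨c, c', h1, h2, h3, h4, h5⟩ := hcon x hx hxS
    refine ⟨c, c', h5, fun t => ⟨?_, ?_⟩⟩
    · rintro ⟨k1, k2, k3, k4, k5⟩
      by_contra ht
      push Not at ht
      exact kap_three h hx h1 h3 k3 h2 h4 k1 h5 ht.1.symm ht.2.symm
    · rintro (rfl | rfl)
      · exact ⟨h2, hx, h1, hxS, hS _ _ hx h1 h2 hxS⟩
      · exact ⟨h4, hx, h3, hxS, hS _ _ hx h3 h4 hxS⟩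
  have hev : ∀ x, Even (L.degree x) := by
    intro x
    by_cases hx : G.Adj v x ∧ S x
    · obtain ⟨c, c', hcc, hc⟩ := hnb x hx.1 hx.2
      have : L.neighborFinset x = {c, c'} := by
        ext t
        simp [hc t]
      rw [← SimpleGraph.card_neighborFinset_eq_degree, this, Finset.card_pair hcc]
      exact ⟨1, rfl⟩
    · have : L.neighborFinset x = ∅ := by
        ext t
        simp only [SimpleGraph.mem_neighborFinset, notMem_empty, iff_false]
        rintro ⟨_, h', _, h'', _⟩
        exact hx ⟨h', h''⟩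
      rw [← SimpleGraph.card_neighborFinset_eq_degree, this]
      exact ⟨0, rfl⟩
  obtain ⟨c, c', hcc, hc⟩ := hnb a0 ha0 ha0S
  have e1 := link_one h v S L hL hev a0 c c' hcc hc
  have e2 := link_zero h v S L hL hev q0 hq0 hq0S
  rw [e1] at e2
  exact one_ne_zero e2

/-- Existence of a tournament for a cut vertex. -/
theorem exists_tour [Fintype V] (v : V) (K : V → Prop) (hv : ¬ K v) :
    ∃ y0 : V → V → ZMod 2, (∀ p q, p ≠ q → y0 p q + y0 q p = 1) ∧
      (∀ p q, K p → ¬ K q → y0 p q = 1) ∧ (∀ q, ¬ K q → q ≠ v → y0 v q = 1) := by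
  classical
  let idx : V ≃ Fin (Fintype.card V) := Fintype.equivFin V
  let key : V → ℕ := fun p => if K p then 0 else if p = v then 1 else 2
  refine ⟨fun p q => if key p < key q ∨ (key p = key q ∧ idx p < idx q) then 1 else 0,
    ?_, ?_, ?_⟩
  · intro p q hpq
    have hne : idx p ≠ idx q := idx.injective.ne hpq
    dsimp only
    rcases lt_trichotomy (key p) (key q) with h | h | h
    · rw [if_pos (Or.inl h), if_neg, add_zero]
      rintro (h' | ⟨h', _⟩) <;> omega
    · rcases lt_or_gt_of_ne hne with h' | h'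
      · rw [if_pos (Or.inr ⟨h, h'⟩), if_neg, add_zero]
        rintro (h'' | ⟨_, h''⟩)
        · omega
        · exact absurd h'' (not_lt.2 h'.le)
      · rw [if_neg, if_pos (Or.inr ⟨h.symm, h'⟩), zero_add]
        rintro (h'' | ⟨_, h''⟩)
        · omega
        · exact absurd h'' (not_lt.2 h'.le)
    · rw [if_neg, if_pos (Or.inl h), zero_add]
      rintro (h' | ⟨h', _⟩) <;> omega
  · intro p q hp hq
    dsimp only
    rw [if_pos]
    left
    simp only [key, if_pos hp, if_neg hq]
    split_ifs <;> omega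
  · intro q hq hqv
    dsimp only
    rw [if_pos]
    left
    simp only [key, if_neg hv, if_neg hq, if_neg hqv, if_true]
    omega

end step

theorem aug_step {V : Type} [Fintype V] (G : SimpleGraph V) (hG : HTD G)
    (hc : G.Connected) (hcard : 3 ≤ Fintype.card V) (v : V)
    (hv : ¬ (G.induce {v}ᶜ).Connected) :
    ∃ p1 p2, p1 ≠ p2 ∧ ¬ G.Adj p1 p2 ∧ HTD (G ⊔ SimpleGraph.edge p1 p2) := by
  classical
  obtain ⟨y', z', h'⟩ := hG
  -- two vertices in different components
  have hne : Nonempty ({v}ᶜ : Set V) := by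
    obtain ⟨w, hw⟩ := Fintype.exists_ne_of_one_lt_card (by omega : 1 < Fintype.card V) v
    exact ⟨⟨w, hw⟩⟩
  have hpre : ¬ (G.induce {v}ᶜ).Preconnected := fun hp => hv ⟨hp⟩
  unfold SimpleGraph.Preconnected at hpre
  push Not at hpre
  obtain ⟨a, b, hab⟩ := hpre
  set K : V → Prop := fun x => ∃ hx : x ∈ ({v}ᶜ : Set V), (G.induce {v}ᶜ).Reachable a ⟨x, hx⟩
    with hK
  have hvK : ¬ K v := fun ⟨hx, _⟩ => hx rfl
  have haK : K a := ⟨a.2, SimpleGraph.Reachable.refl _⟩
  have hbK : ¬ K b := fun ⟨_, hx⟩ => hab hx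
  have hbv : (b : V) ≠ v := b.2
  have hsep : ∀ a b, G.Adj a b → K a → K b ∨ b = v := by
    intro p q hpq ⟨hp, hp'⟩
    by_cases hqv : q = v
    · exact Or.inr hqv
    · refine Or.inl ⟨hqv, hp'.trans (SimpleGraph.Adj.reachable ?_)⟩
      simpa using hpq
  -- neighbours of `v` on both sides
  have nb1 : ∃ p, G.Adj v p ∧ K p := by
    by_contra hcon
    push Not at hcon
    have : ∀ x, G.Reachable (a : V) x → K x := by
      intro x hx
      rw [SimpleGraph.reachable_iff_reflTransGen] at hx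
      induction hx with
      | refl => exact haK
      | tail _ hst ih =>
        rcases hsep _ _ hst ih with h'' | h''
        · exact h''
        · exact absurd ih (hcon _ (h'' ▸ hst.symm))
    exact hvK (this v (hc.preconnected _ _))
  have nb2 : ∃ p, G.Adj v p ∧ ¬ K p := by
    by_contra hcon
    push Not at hcon
    have : ∀ x, G.Reachable (b : V) x → ¬ K x ∧ x ≠ v := by
      intro x hx
      rw [SimpleGraph.reachable_iff_reflTransGen] at hx
      induction hx with
      | refl => exact ⟨hbK, hbv⟩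
      | @tail s t _ hst ih =>
        refine ⟨fun ht => ?_, fun ht => ?_⟩
        · rcases hsep _ _ hst.symm ht with h'' | h''
          · exact ih.1 h''
          · exact ih.2 h''
        · subst ht
          exact ih.1 (hcon _ hst.symm)
    exact (this v (hc.preconnected _ _)).2 rfl
  obtain ⟨a1, ha1, ha1K⟩ := nb1
  obtain ⟨a2, ha2, ha2K⟩ := nb2
  obtain ⟨y, t0, t1, t2⟩ := exists_tour v K hvK
  obtain ⟨z, h⟩ := change h' y t0
  obtain ⟨p1, hp1, hp1K, hu1⟩ := exists_few h v K (by
    intro x x' hx hx' hxx hxK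
    rcases hsep x x' hxx hxK with h'' | h''
    · exact h''
    · exact absurd h'' hx'.ne') a1 ha1 ha1K a2 ha2 ha2K
  obtain ⟨p2, hp2, hp2K, hu2⟩ := exists_few h v (fun x => ¬ K x) (by
    intro x x' hx hx' hxx hxK hxK'
    rcases hsep x' x hxx.symm hxK' with h'' | h''
    · exact hxK h''
    · exact absurd h'' hx.ne') a2 ha2 ha2K a1 ha1 (fun h' => h' ha1K)
  refine ⟨p1, p2, fun he => hp2K (he ▸ hp1K), ?_, ?_⟩
  · intro hadj
    rcases hsep _ _ hadj hp1K with h'' | h''
    · exact hp2K h''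
    · exact hp2.ne' h''
  · exact cutStep h hvK hsep t1 t2 hp1 hp2 hp1K hp2K hu1 hu2

end Link

open Link

/-- OPEN -/
theorem specOpen : SpecOpen := by
  intro V _ G a0 b0 hab0 hHT
  classical
  obtain ⟨y, z, h⟩ := hHT
  by_contra hcon
  push Not at hcon
  have two : ∀ a b, G.Adj a b → ∃ c c', c ≠ c' ∧
      ∀ x, (G.Adj a x ∧ G.Adj b x) ↔ (x = c ∨ x = c') := by
    intro a b hab
    obtain ⟨c, c', h1, h2, h3, h4, h5⟩ := hcon a b hab
    refine ⟨c, c', h5, fun x => ⟨?_, ?_⟩⟩
    · rintro ⟨hax, hbx⟩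
      by_contra hx
      push Not at hx
      exact kap_three h hab h1 h3 hax h2 h4 hbx h5 hx.1.symm hx.2.symm
    · rintro (rfl | rfl)
      · exact ⟨h1, h2⟩
      · exact ⟨h3, h4⟩
  set L := linkG G a0 (fun _ => True) with hL
  have hnb : ∀ x, G.Adj a0 x → ∃ c c', c ≠ c' ∧ ∀ t, L.Adj x t ↔ (t = c ∨ t = c') := by
    intro x hx
    obtain ⟨c, c', hcc, hc⟩ := two a0 x hx
    refine ⟨c, c', hcc, fun t => ?_⟩
    rw [← hc t]
    simp only [hL, linkG]
    tauto
  have hev : ∀ x, Even (L.degree x) := by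
    intro x
    by_cases hx : G.Adj a0 x
    · obtain ⟨c, c', hcc, hc⟩ := hnb x hx
      have : L.neighborFinset x = {c, c'} := by
        ext t
        simp [hc t]
      rw [← SimpleGraph.card_neighborFinset_eq_degree, this, Finset.card_pair hcc]
      exact ⟨1, rfl⟩
    · have : L.neighborFinset x = ∅ := by
        ext t
        simp only [SimpleGraph.mem_neighborFinset, notMem_empty, iff_false]
        rintro ⟨_, h', _⟩
        exact hx h'
      rw [← SimpleGraph.card_neighborFinset_eq_degree, this]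
      exact ⟨0, rfl⟩
  obtain ⟨c, c', hcc, hc⟩ := hnb b0 hab0
  have e1 := link_one h a0 (fun _ => True) L hL hev b0 c c' hcc hc
  have e2 : ∑ T ∈ (G.cliqueFinset 3).filter (fun T => a0 ∉ T),
      ∑ e ∈ G.edgeFinset.filter (fun e => ∀ x ∈ e, x ∈ T), z e a0 = 0 := by
    refine Finset.sum_eq_zero fun T hT => ?_
    rw [mem_filter] at hT
    exact tri_sum h a0 T hT.1 hT.2
  have e3 : ∑ T ∈ (G.cliqueFinset 3).filter (fun T => a0 ∉ T),
      ∑ e ∈ G.edgeFinset.filter (fun e => ∀ x ∈ e, x ∈ T), z e a0 =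
      ∑ e ∈ G.edgeFinset, ∑ T ∈ (G.cliqueFinset 3).filter
        (fun T => a0 ∉ T ∧ ∀ x ∈ e, x ∈ T), z e a0 := by
    refine Finset.sum_comm' fun T e => ?_
    simp only [mem_filter]
    tauto
  rw [e3] at e2
  have e4 : ∑ e ∈ G.edgeFinset, ∑ T ∈ (G.cliqueFinset 3).filter
        (fun T => a0 ∉ T ∧ ∀ x ∈ e, x ∈ T), z e a0 =
      ∑ e ∈ G.edgeFinset, if e ∈ L.edgeFinset then z e a0 else 0 := by
    refine Finset.sum_congr rfl fun e he => ?_
    induction e with
    | _ a b =>
      have hab : G.Adj a b := by simpa using he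
      obtain ⟨c, c', hcc, hc⟩ := two a b hab
      rw [Finset.sum_const, nsmul_eq_mul,
        count_tri a0 a b c c' hab hcc hc (fun _ => True) (fun _ => trivial)]
      split_ifs <;> simp
  rw [e4, Finset.sum_ite_mem] at e2
  have e5 : G.edgeFinset ∩ L.edgeFinset = L.edgeFinset := by
    rw [Finset.inter_eq_right]
    intro e he
    induction e with
    | _ a b =>
      have : L.Adj a b := by simpa using he
      simpa using this.1
  rw [e5, e1] at e2
  exact one_ne_zero e2

/-- AUG -/
theorem specAug : SpecAug := by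
  intro V _ G hcard hc hG
  classical
  have hfin : Set.Finite {G' : SimpleGraph V | G ≤ G' ∧ HTD G'} := Set.toFinite _
  obtain ⟨M, hGM, hM⟩ := hfin.exists_le_maximal (show G ∈ _ from ⟨le_refl G, hG⟩)
  refine ⟨M, hGM, ?_, hM.prop.2⟩
  intro v
  by_contra hv
  have hcM : M.Connected := hc.mono hGM
  obtain ⟨p1, p2, hne, hna, hH⟩ := aug_step M hM.prop.2 hcM hcard v hv
  have hle : M ≤ M ⊔ SimpleGraph.edge p1 p2 := le_sup_left
  have := hM.le_of_ge ⟨hGM.trans hle, hH⟩ hle
  apply hna
  apply this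
  rw [SimpleGraph.sup_adj, SimpleGraph.edge_adj]
  tauto

end Pool.Agent.MP_cdcb37
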