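import Pool.Agent.Lib.MP_cdcb37_lc.Spec

/-!
# MP_cdcb37_lc, module MU: orientation data from a solution of the linear system
-/

namespace Pool.Agent.MP_cdcb37
namespace MuM

/-! ## Chains -/

section chains
variable {V : Type}

/-- The sum of a function over a chain. -/
def sm (c : Multiset (Sym2 V)) (g : Sym2 V → ZMod 2) : ZMod 2 := (c.map g).sum

theorem sm_zero (g : Sym2 V → ZMod 2) : sm 0 g = 0 := by simp [sm]

theorem sm_add (c d : Multiset (Sym2 V)) (g : Sym2 V → ZMod 2) :
    sm (c + d) g = sm c g + sm d g := by simp [sm]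

theorem sm_cons (e : Sym2 V) (c : Multiset (Sym2 V)) (g : Sym2 V → ZMod 2) :
    sm (e ::ₘ c) g = g e + sm c g := by simp [sm]

theorem sm_single (e : Sym2 V) (g : Sym2 V → ZMod 2) :
    sm {e} g = g e := by simp [sm]

theorem sm_fadd (c : Multiset (Sym2 V)) (g h : Sym2 V → ZMod 2) :
    sm c (fun e => g e + h e) = sm c g + sm c h := by simp [sm, Multiset.sum_map_add]

theorem sm_congr {c : Multiset (Sym2 V)} {g h : Sym2 V → ZMod 2} (H : ∀ e ∈ c, g e = h e) :
    sm c g = sm c h := by
  unfold sm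
  rw [Multiset.map_congr rfl H]

/-- The coboundary of a function on the vertices. -/
def cob (h : V → ZMod 2) : Sym2 V → ZMod 2 :=
  Sym2.lift ⟨fun a b => h a + h b, fun _ _ => add_comm _ _⟩

theorem cob_mk (h : V → ZMod 2) (a b : V) : cob h s(a, b) = h a + h b := rfl

/-- Even chains. -/
def Ev (c : Multiset (Sym2 V)) : Prop := ∀ h : V → ZMod 2, sm c (cob h) = 0

/-- The vertex `v` is not on the chain. -/
def Off (c : Multiset (Sym2 V)) (v : V) : Prop := ∀ e ∈ c, v ∉ e

/-- All members are edges. -/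
def Ed (G : SimpleGraph V) (c : Multiset (Sym2 V)) : Prop := ∀ e ∈ c, e ∈ G.edgeSet

theorem Ed.add {G : SimpleGraph V} {c d : Multiset (Sym2 V)} (hc : Ed G c) (hd : Ed G d) :
    Ed G (c + d) := by
  intro e he
  rcases Multiset.mem_add.1 he with h | h
  · exact hc e h
  · exact hd e h

theorem Ed.cons {G : SimpleGraph V} {c : Multiset (Sym2 V)} {e : Sym2 V} (he : e ∈ G.edgeSet)
    (hc : Ed G c) : Ed G (e ::ₘ c) := by
  intro f hf
  rcases Multiset.mem_cons.1 hf with h | h
  · exact h ▸ he
  · exact hc f h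

theorem Off.notMem {c : Multiset (Sym2 V)} {v : V} (h : Off c v) (w : V) : s(v, w) ∉ c :=
  fun hc => h _ hc (by simp)

theorem Off.notMem' {c : Multiset (Sym2 V)} {v : V} (h : Off c v) (w : V) : s(w, v) ∉ c :=
  fun hc => h _ hc (by simp)

end chains

/-! ## Midpoints -/

section mid
variable {V : Type} {G : SimpleGraph V} {y : V → V → ZMod 2} {z : Sym2 V → V → ZMod 2}

open Classical in
/-- The parity of `e` relative to the midpoint of `uv`, computed near `u`. -/
noncomputable def md (y : V → V → ZMod 2) (z : Sym2 V → V → ZMod 2) (u v : V) (e : Sym2 V) :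
    ZMod 2 :=
  if h : u ∈ e then 1 + z e v + z s(u, v) (Sym2.Mem.other h) + y u v + y (Sym2.Mem.other h) u +
    y (Sym2.Mem.other h) v else z e u

theorem md_of_not {u v : V} {e : Sym2 V} (h : u ∉ e) : md y z u v e = z e u := by
  unfold md
  rw [dif_neg h]

theorem md_inc {u v x : V} :
    md y z u v s(u, x) = 1 + z s(u, x) v + z s(u, v) x + y u v + y x u + y x v := by
  unfold md
  have h : u ∈ s(u, x) := by simp
  rw [dif_pos h]
  have h2 : Sym2.Mem.other h = x := by
    have h3 := Sym2.other_spec h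
    exact Sym2.congr_right.1 h3
  rw [h2]

theorem md_inc' {u v x : V} :
    md y z u v s(x, u) = 1 + z s(u, x) v + z s(u, v) x + y u v + y x u + y x v := by
  rw [Sym2.eq_swap, md_inc]

theorem md_anti (H : HT G y z) {u v x : V} (h1 : u ≠ v) (h2 : u ≠ x) (h3 : v ≠ x) :
    md y z u v s(u, x) + md y z u x s(u, v) = 1 := by
  rw [md_inc, md_inc]
  have e1 := H.tour u v h1
  have e2 := H.tour u x h2
  have e3 := H.tour v x h3
  grind

open Classical in
/-- The potential for the shift along `uv`. -/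
noncomputable def pot (y : V → V → ZMod 2) (z : Sym2 V → V → ZMod 2) (u v p : V) : ZMod 2 :=
  if p = u then 1 + y u v else if p = v then 1 + y v u else z s(u, v) p + y p u + y p v

theorem md_shift (H : HT G y z) {u v : V} (huv : G.Adj u v) {e : Sym2 V} (he : e ∈ G.edgeSet)
    (hne : e ≠ s(u, v)) : md y z u v e + md y z v u e = cob (pot y z u v) e := by
  have huv' : u ≠ v := huv.ne
  induction e using Sym2.ind with
  | _ a b =>
  have hab : G.Adj a b := he
  have hab' : a ≠ b := hab.ne
  rw [cob_mk]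
  by_cases hau : a = u
  · subst hau
    have hbv : b ≠ v := fun h => hne (by rw [h])
    rw [md_inc, md_of_not (by simp [huv'.symm, hbv.symm])]
    have : s(v, a) = s(a, v) := Sym2.eq_swap
    unfold pot
    rw [if_pos rfl, if_neg hab'.symm, if_neg hbv]
    grind
  by_cases hav : a = v
  · subst hav
    have hbu : b ≠ u := fun h => hne (by rw [h, Sym2.eq_swap])
    rw [md_inc, md_of_not (by simp [huv', hbu.symm])]
    have : s(u, a) = s(a, u) := Sym2.eq_swap
    unfold pot
    rw [if_neg hau, if_pos rfl, if_neg hbu, if_neg hab'.symm, this]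
    grind
  by_cases hbu : b = u
  · subst hbu
    rw [md_inc', md_of_not (by simp [huv'.symm, Ne.symm hav])]
    have : s(a, b) = s(b, a) := Sym2.eq_swap
    unfold pot
    rw [if_neg hau, if_neg hav, if_pos rfl, this]
    grind
  by_cases hbv : b = v
  · subst hbv
    rw [md_inc', md_of_not (by simp [huv', Ne.symm hau])]
    have : s(a, b) = s(b, a) := Sym2.eq_swap
    have h2 : s(u, b) = s(b, u) := Sym2.eq_swap
    unfold pot
    rw [if_neg hau, if_neg hav, if_neg hbu, if_pos rfl, this, h2]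
    grind
  · have h1 := H.dis a b u v hab huv hau hav hbu hbv
    rw [md_of_not (by simp [Ne.symm hau, Ne.symm hbu]), md_of_not (by simp [Ne.symm hav, Ne.symm hbv])]
    unfold pot
    rw [if_neg hau, if_neg hav, if_neg hbu, if_neg hbv]
    grind

theorem sm_shift (H : HT G y z) {u v : V} (huv : G.Adj u v) {c : Multiset (Sym2 V)} (hc : Ed G c)
    (hE : Ev c) (hne : s(u, v) ∉ c) : sm c (md y z u v) = sm c (md y z v u) := by
  have h1 : sm c (fun e => md y z u v e + md y z v u e) = 0 := by
    rw [sm_congr (h := cob (pot y z u v)), hE]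
    intro e he
    exact md_shift H huv (hc e he) (fun h => hne (h ▸ he))
  rw [sm_fadd] at h1
  grind

/-- The theta identity. -/
theorem theta (H : HT G y z) {u x1 x2 x3 : V} {L1 L2 L3 : Multiset (Sym2 V)}
    (h1 : u ≠ x1) (h2 : u ≠ x2) (h3 : u ≠ x3) (h12 : x1 ≠ x2) (h13 : x1 ≠ x3) (h23 : x2 ≠ x3)
    (o1 : Off L1 u) (o2 : Off L2 u) (o3 : Off L3 u) :
    sm (s(u, x1) ::ₘ L1) (md y z u x2) + sm (s(u, x1) ::ₘ L1) (md y z u x3) +
    sm (s(u, x2) ::ₘ L2) (md y z u x1) + sm (s(u, x2) ::ₘ L2) (md y z u x3) +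
    sm (s(u, x3) ::ₘ L3) (md y z u x1) + sm (s(u, x3) ::ₘ L3) (md y z u x2) = 1 := by
  have key : ∀ L : Multiset (Sym2 V), Off L u → ∀ v, sm L (md y z u v) = sm L (fun e => z e u) := by
    intro L hL v
    exact sm_congr fun e he => md_of_not (hL e he)
  simp only [sm_cons]
  rw [key L1 o1 x2, key L1 o1 x3, key L2 o2 x1, key L2 o2 x3, key L3 o3 x1, key L3 o3 x2]
  have a1 := md_anti H h1 h2 h12
  have a2 := md_anti H h1 h3 h13
  have a3 := md_anti H h2 h3 h23
  grind

/-- Triangles have value `0`. -/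
theorem tri_zero (H : HT G y z) {a b c p q : V} (hab : G.Adj a b) (hbc : G.Adj b c)
    (hac : G.Adj a c) (hpq : G.Adj p q) (h1 : s(p, q) ≠ s(a, b)) (h2 : s(p, q) ≠ s(b, c))
    (h3 : s(p, q) ≠ s(a, c)) :
    sm (s(a, b) ::ₘ s(b, c) ::ₘ {s(a, c)}) (md y z p q) = 0 := by
  have hEv : Ev (s(a, b) ::ₘ s(b, c) ::ₘ {s(a, c)}) := by
    intro h
    simp only [sm_cons, sm_single, cob_mk]
    grind
  have hEd : Ed G (s(a, b) ::ₘ s(b, c) ::ₘ {s(a, c)}) := by
    intro e he
    simp only [Multiset.mem_cons, Multiset.mem_singleton] at he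
    rcases he with rfl | rfl | rfl <;> simpa
  have key : ∀ p q, p ≠ a → p ≠ b → p ≠ c →
      sm (s(a, b) ::ₘ s(b, c) ::ₘ {s(a, c)}) (md y z p q) = 0 := by
    intro p q ha hb hc
    simp only [sm_cons, sm_single]
    rw [md_of_not (by simp [ha, hb]), md_of_not (by simp [hb, hc]), md_of_not (by simp [ha, hc])]
    have := H.tri a b c p hab hbc hac ha hb hc
    grind
  by_cases hp : p ≠ a ∧ p ≠ b ∧ p ≠ c
  · exact key p q hp.1 hp.2.1 hp.2.2
  by_cases hq : q ≠ a ∧ q ≠ b ∧ q ≠ c
  · rw [sm_shift H hpq hEd hEv]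
    · exact key q p hq.1 hq.2.1 hq.2.2
    · simp only [Multiset.mem_cons, Multiset.mem_singleton]
      tauto
  · exfalso
    have hne := hpq.ne
    have e1 : s(b, a) = s(a, b) := Sym2.eq_swap
    have e2 : s(c, b) = s(b, c) := Sym2.eq_swap
    have e3 : s(c, a) = s(a, c) := Sym2.eq_swap
    have hp' : p = a ∨ p = b ∨ p = c := by tauto
    have hq' : q = a ∨ q = b ∨ q = c := by tauto
    rcases hp' with rfl | rfl | rfl <;> rcases hq' with rfl | rfl | rfl <;> tauto

end mid

/-! ## Paths -/

section paths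
variable {n : ℕ} {G : SimpleGraph (Fin n)} {s t : Fin n}

theorem reach_le {a b : Fin n} (h : Reach G a b) : a ≤ b := by
  induction h with
  | refl => exact le_rfl
  | tail _ h ih => exact ih.trans h.1.le

/-- The chain of the descending path. -/
noncomputable def dn (pv : Fin n → Fin n) (s : Fin n) (h : ∀ v, v ≠ s → pv v < v) (v : Fin n) :
    Multiset (Sym2 (Fin n)) :=
  if _hv : v = s then 0 else s(v, pv v) ::ₘ dn pv s h (pv v)
termination_by v
decreasing_by exact h v _hv

/-- The chain of the ascending path. -/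
noncomputable def up (nx : Fin n → Fin n) (t : Fin n) (h : ∀ v, v ≠ t → v < nx v) (v : Fin n) :
    Multiset (Sym2 (Fin n)) :=
  if _hv : v = t then 0 else s(v, nx v) ::ₘ up nx t h (nx v)
termination_by n - v.val
decreasing_by
  have h1 := h v _hv
  have _h2 := (nx v).isLt
  have _h3 : v.val < (nx v).val := h1
  omega

/-- Everything needed about the paths. -/
structure Ctx (G : SimpleGraph (Fin n)) (s t : Fin n) (y : Fin n → Fin n → ZMod 2)
    (z : Sym2 (Fin n) → Fin n → ZMod 2) (pv : Fin n → Fin n)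
    (D U : Fin n → Multiset (Sym2 (Fin n))) : Prop where
  H : HT G y z
  sto : STOrd G s t
  pv_lt : ∀ v, v ≠ s → pv v < v
  pv_adj : ∀ v, v ≠ s → G.Adj v (pv v)
  D_s : D s = 0
  D_step : ∀ v, v ≠ s → D v = s(v, pv v) ::ₘ D (pv v)
  U_t : U t = 0
  U_ed : ∀ v, Ed G (U v)
  U_cob : ∀ v h, sm (U v) (cob h) = h v + h t
  U_mem : ∀ v, ∀ e ∈ U v, ∀ w ∈ e, Reach G v w
  U_reach : ∀ v, Reach G v t

theorem exists_ctx {y : Fin n → Fin n → ZMod 2} {z : Sym2 (Fin n) → Fin n → ZMod 2}
    (H : HT G y z) (hst : STOrd G s t) : ∃ pv D U, Ctx G s t y z pv D U := by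
  classical
  have h1 : ∀ v, ∃ u, v ≠ s → u < v ∧ G.Adj u v := by
    intro v
    by_cases hv : v = s
    · exact ⟨v, fun h => absurd hv h⟩
    · obtain ⟨u, hu⟩ := hst.down v hv
      exact ⟨u, fun _ => hu⟩
  have h2 : ∀ v, ∃ u, v ≠ t → v < u ∧ G.Adj v u := by
    intro v
    by_cases hv : v = t
    · exact ⟨v, fun h => absurd hv h⟩
    · obtain ⟨u, hu⟩ := hst.up v hv
      exact ⟨u, fun _ => hu⟩
  choose pv hpv using h1
  choose nx hnx using h2
  have h3 : ∀ v, v ≠ s → pv v < v := fun v hv => (hpv v hv).1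
  have h4 : ∀ v, v ≠ t → v < nx v := fun v hv => (hnx v hv).1
  have hU : ∀ v, v ≠ t → up nx t h4 v = s(v, nx v) ::ₘ up nx t h4 (nx v) := by
    intro v hv
    rw [up, dif_neg hv]
  have hUt : up nx t h4 t = 0 := by rw [up, dif_pos rfl]
  refine ⟨pv, dn pv s h3, up nx t h4, ⟨H, hst, h3, fun v hv => (hpv v hv).2.symm, ?_, ?_, hUt,
    ?_, ?_, ?_, ?_⟩⟩
  · rw [dn, dif_pos rfl]
  · intro v hv
    rw [dn, dif_neg hv]
  · intro v
    induction v using WellFoundedGT.induction with
    | _ v ih =>
    by_cases hv : v = t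
    · subst hv
      rw [hUt]
      intro e he
      simp at he
    · rw [hU v hv]
      exact Ed.cons (hnx v hv).2 (ih _ (h4 v hv))
  · intro v h
    induction v using WellFoundedGT.induction with
    | _ v ih =>
    by_cases hv : v = t
    · subst hv
      rw [hUt, sm_zero]
      grind
    · rw [hU v hv, sm_cons, ih _ (h4 v hv), cob_mk]
      grind
  · intro v
    induction v using WellFoundedGT.induction with
    | _ v ih =>
    by_cases hv : v = t
    · subst hv
      rw [hUt]
      intro e he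
      simp at he
    · rw [hU v hv]
      intro e he w hw
      have h5 : Reach G v (nx v) := Relation.ReflTransGen.single (hnx v hv)
      rcases Multiset.mem_cons.1 he with rfl | he
      · rcases Sym2.mem_iff.1 hw with rfl | rfl
        · exact Relation.ReflTransGen.refl
        · exact h5
      · exact h5.trans (ih _ (h4 v hv) e he w hw)
  · intro v
    induction v using WellFoundedGT.induction with
    | _ v ih =>
    by_cases hv : v = t
    · subst hv
      exact Relation.ReflTransGen.refl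
    · have h5 : Reach G v (nx v) := Relation.ReflTransGen.single (hnx v hv)
      exact h5.trans (ih _ (h4 v hv))

variable {y : Fin n → Fin n → ZMod 2} {z : Sym2 (Fin n) → Fin n → ZMod 2} {pv : Fin n → Fin n}
  {D U : Fin n → Multiset (Sym2 (Fin n))}

/-- `x` is on the descending path of `a`. -/
def OnD (pv : Fin n → Fin n) (s : Fin n) (a x : Fin n) : Prop :=
  Relation.ReflTransGen (fun p q => p ≠ s ∧ q = pv p) a x

namespace Ctx

theorem onD_reach (c : Ctx G s t y z pv D U) {a x : Fin n} (h : OnD pv s a x) : Reach G x a := by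
  induction h with
  | refl => exact Relation.ReflTransGen.refl
  | tail _ h ih =>
    obtain ⟨h1, rfl⟩ := h
    exact (Relation.ReflTransGen.single ⟨c.pv_lt _ h1, (c.pv_adj _ h1).symm⟩).trans ih

theorem onD_s (c : Ctx G s t y z pv D U) (a : Fin n) : OnD pv s a s := by
  induction a using WellFoundedLT.induction with
  | _ v ih =>
  by_cases hv : v = s
  · subst hv
    exact Relation.ReflTransGen.refl
  · exact (Relation.ReflTransGen.single ⟨hv, rfl⟩).trans (ih _ (c.pv_lt v hv))

theorem reach_s (c : Ctx G s t y z pv D U) (a : Fin n) : Reach G s a := c.onD_reach (c.onD_s a)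

theorem D_mem (c : Ctx G s t y z pv D U) (a : Fin n) : ∀ e ∈ D a, ∀ w ∈ e, OnD pv s a w := by
  induction a using WellFoundedLT.induction with
  | _ v ih =>
  by_cases hv : v = s
  · subst hv
    rw [c.D_s]
    intro e he
    simp at he
  · rw [c.D_step v hv]
    intro e he w hw
    have h5 : OnD pv s v (pv v) := Relation.ReflTransGen.single ⟨hv, rfl⟩
    rcases Multiset.mem_cons.1 he with rfl | he
    · rcases Sym2.mem_iff.1 hw with rfl | rfl
      · exact Relation.ReflTransGen.refl
      · exact h5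
    · exact h5.trans (ih _ (c.pv_lt v hv) e he w hw)

theorem D_ed (c : Ctx G s t y z pv D U) (a : Fin n) : Ed G (D a) := by
  induction a using WellFoundedLT.induction with
  | _ v ih =>
  by_cases hv : v = s
  · subst hv
    rw [c.D_s]
    intro e he
    simp at he
  · rw [c.D_step v hv]
    exact Ed.cons (c.pv_adj v hv) (ih _ (c.pv_lt v hv))

theorem D_cob (c : Ctx G s t y z pv D U) (a : Fin n) (h : Fin n → ZMod 2) :
    sm (D a) (cob h) = h a + h s := by
  induction a using WellFoundedLT.induction with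
  | _ v ih =>
  by_cases hv : v = s
  · subst hv
    rw [c.D_s, sm_zero]
    grind
  · rw [c.D_step v hv, sm_cons, ih _ (c.pv_lt v hv), cob_mk]
    grind

end Ctx

open Classical in
/-- The gauge. -/
noncomputable def gg (y : Fin n → Fin n → ZMod 2) (z : Sym2 (Fin n) → Fin n → ZMod 2)
    (s t : Fin n) (e : Sym2 (Fin n)) : ZMod 2 := if e = s(s, t) then 0 else md y z s t e

/-- Midpoint parities after the change of gauge. -/
noncomputable def mg (y : Fin n → Fin n → ZMod 2) (z : Sym2 (Fin n) → Fin n → ZMod 2)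
    (s t u v : Fin n) (e : Sym2 (Fin n)) : ZMod 2 := md y z u v e + gg y z s t e

/-- Vertex values. -/
noncomputable def wg (y : Fin n → Fin n → ZMod 2) (z : Sym2 (Fin n) → Fin n → ZMod 2)
    (s t : Fin n) (c : Multiset (Sym2 (Fin n))) (u : Fin n) : ZMod 2 :=
  sm c (fun e => z e u + gg y z s t e)

/-- The chain of an edge. -/
def ch (D U : Fin n → Multiset (Sym2 (Fin n))) (s t a b : Fin n) : Multiset (Sym2 (Fin n)) :=
  D a + (s(a, b) ::ₘ (U b + {s(s, t)}))

namespace Ctx

theorem mg_zero {L : Multiset (Sym2 (Fin n))}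
    (h : s(s, t) ∉ L) : sm L (mg y z s t s t) = 0 := by
  rw [sm_congr (h := fun _ => 0)]
  · simp [sm]
  · intro e he
    have hne : e ≠ s(s, t) := fun h' => h (h' ▸ he)
    unfold mg gg
    rw [if_neg hne]
    exact CharTwo.add_self_eq_zero _

theorem mg_off {L : Multiset (Sym2 (Fin n))} {v : Fin n} (h : Off L v) (u : Fin n) :
    sm L (mg y z s t v u) = wg y z s t L v := by
  unfold wg
  refine sm_congr fun e he => ?_
  unfold mg
  rw [md_of_not (h e he)]

theorem mg_shift (c : Ctx G s t y z pv D U) {L : Multiset (Sym2 (Fin n))} (hL : Ed G L)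
    (hE : Ev L) {u v : Fin n} (huv : G.Adj u v) (hne : s(u, v) ∉ L) :
    sm L (mg y z s t u v) = sm L (mg y z s t v u) := by
  unfold mg
  rw [sm_fadd, sm_fadd, sm_shift c.H huv hL hE hne]

theorem wg_adj (c : Ctx G s t y z pv D U) {L : Multiset (Sym2 (Fin n))} (hL : Ed G L)
    (hE : Ev L) {u v : Fin n} (huv : G.Adj u v) (hu : Off L u) (hv : Off L v) :
    wg y z s t L u = wg y z s t L v := by
  rw [← mg_off hu v, ← mg_off hv u]
  exact c.mg_shift hL hE huv (hu.notMem v)

theorem wg_path (c : Ctx G s t y z pv D U) {L : Multiset (Sym2 (Fin n))} (hL : Ed G L)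
    (hE : Ev L) {p q : Fin n} (hpq : Reach G p q)
    (h : ∀ x, Reach G p x → Reach G x q → Off L x) : wg y z s t L p = wg y z s t L q := by
  induction hpq using Relation.ReflTransGen.head_induction_on with
  | refl => rfl
  | @head p p' h1 h2 ih =>
    have h3 : Reach G p p' := Relation.ReflTransGen.single h1
    rw [← ih (fun x hx hx' => h x (h3.trans hx) hx')]
    exact c.wg_adj hL hE h1.2 (h p Relation.ReflTransGen.refl (h3.trans h2)) (h p' h3 h2)

theorem wg_down (c : Ctx G s t y z pv D U) {L : Multiset (Sym2 (Fin n))} (hL : Ed G L)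
    (hE : Ev L) {p : Fin n} (h : ∀ x, Reach G x p → Off L x) : wg y z s t L p = 0 := by
  rw [← c.wg_path hL hE (c.reach_s p) (fun x _ hx => h x hx),
    ← mg_off (h s (c.reach_s p)) t]
  exact mg_zero ((h s (c.reach_s p)).notMem t)

theorem wg_up (c : Ctx G s t y z pv D U) {L : Multiset (Sym2 (Fin n))} (hL : Ed G L)
    (hE : Ev L) {p : Fin n} (h : ∀ x, Reach G p x → Off L x) : wg y z s t L p = 0 := by
  have ht := h t (c.U_reach p)
  rw [c.wg_path hL hE (c.U_reach p) (fun x hx _ => h x hx), ← mg_off ht s,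
    ← c.mg_shift hL hE c.sto.adj (ht.notMem' s)]
  exact mg_zero (ht.notMem' s)

theorem ch_ed (c : Ctx G s t y z pv D U) {a b : Fin n} (h : G.Adj a b) :
    Ed G (ch D U s t a b) := by
  refine (c.D_ed a).add (Ed.cons h ((c.U_ed b).add ?_))
  intro e he
  rw [Multiset.mem_singleton] at he
  subst he
  exact c.sto.adj

theorem ch_ev (c : Ctx G s t y z pv D U) (a b : Fin n) : Ev (ch D U s t a b) := by
  intro h
  unfold ch
  rw [sm_add, sm_cons, sm_add, sm_single, c.D_cob, c.U_cob, cob_mk, cob_mk]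
  grind

theorem ch_off (c : Ctx G s t y z pv D U) {a b x : Fin n} (h1 : ¬ OnD pv s a x)
    (h2 : ¬ Reach G b x) : Off (ch D U s t a b) x := by
  intro e he hx
  unfold ch at he
  rcases Multiset.mem_add.1 he with he | he
  · exact h1 (c.D_mem a e he x hx)
  rcases Multiset.mem_cons.1 he with rfl | he
  · rcases Sym2.mem_iff.1 hx with rfl | rfl
    · exact h1 Relation.ReflTransGen.refl
    · exact h2 Relation.ReflTransGen.refl
  rcases Multiset.mem_add.1 he with he | he
  · exact h2 (c.U_mem b e he x hx)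
  · rw [Multiset.mem_singleton] at he
    subst he
    rcases Sym2.mem_iff.1 hx with rfl | rfl
    · exact h1 (c.onD_s a)
    · exact h2 (c.U_reach b)

/-- The part of `ch` above a vertex `u` of the descending path. -/
theorem split (c : Ctx G s t y z pv D U) {a b : Fin n} (hab : a < b) (hadj : G.Adj a b)
    {u : Fin n} (hu : OnD pv s a u) :
    ∃ (x : Fin n) (L : Multiset (Sym2 (Fin n))), u < x ∧ G.Adj u x ∧ Ed G L ∧
      (∀ e ∈ L, ∀ w ∈ e, u < w) ∧
      ch D U s t a b = (s(u, x) ::ₘ L) + (D u + {s(s, t)}) ∧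
      ((u = a ∧ x = b) ∨ OnD pv s a x) ∧
      ∀ L' : Multiset (Sym2 (Fin n)), Ev L' → Ed G L' →
        (∀ w, OnD pv s a w → u < w → Off L' w) → s(u, x) ∉ L' → s(a, b) ∉ L' →
        sm L' (mg y z s t u x) = sm L' (mg y z s t a b) := by
  induction hu with
  | refl =>
    refine ⟨b, U b, hab, hadj, c.U_ed b, ?_, ?_, Or.inl ⟨rfl, rfl⟩, fun _ _ _ _ _ _ => rfl⟩
    · intro e he w hw
      exact hab.trans_le (reach_le (c.U_mem b e he w hw))
    · unfold ch
      rw [Multiset.cons_add, add_comm (D a), Multiset.cons_add]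
      congr 1
      rw [add_assoc]
      congr 1
      rw [add_comm]
  | @tail u v hu h ih =>
    obtain ⟨hus, rfl⟩ := h
    obtain ⟨x, L, h1, h2, h3, h4, h5, h6, h7⟩ := ih
    refine ⟨u, s(u, x) ::ₘ L, c.pv_lt u hus, (c.pv_adj u hus).symm, Ed.cons h2 h3, ?_, ?_,
      Or.inr hu, ?_⟩
    · intro e he w hw
      rcases Multiset.mem_cons.1 he with rfl | he
      · rcases Sym2.mem_iff.1 hw with rfl | rfl
        · exact c.pv_lt _ hus
        · exact (c.pv_lt _ hus).trans h1
      · exact (c.pv_lt _ hus).trans (h4 e he w hw)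
    · rw [h5, c.D_step u hus, Sym2.eq_swap (a := pv u)]
      simp only [Multiset.cons_add, Multiset.add_cons]
    · intro L' hE hL hoff hn1 hn2
      have hu' : Off L' u := hoff u hu (c.pv_lt u hus)
      rw [← h7 L' hE hL (fun w hw hw' => hoff w hw ((c.pv_lt u hus).trans hw')) (hu'.notMem x) hn2,
        c.mg_shift hL hE (c.pv_adj u hus).symm hn1, mg_off hu', mg_off hu']

theorem ch_notMem (c : Ctx G s t y z pv D U) {a b p q : Fin n}
    (hne : s(p, q) ≠ s(a, b)) (hst : s(p, q) ≠ s(s, t)) (h1 : ¬ Reach G b p)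
    (h2 : ¬ Reach G q a) : s(p, q) ∉ ch D U s t a b := by
  intro he
  unfold ch at he
  rcases Multiset.mem_add.1 he with he | he
  · exact h2 (c.onD_reach (c.D_mem a _ he q (by simp)))
  rcases Multiset.mem_cons.1 he with he | he
  · exact hne he
  rcases Multiset.mem_add.1 he with he | he
  · exact h1 (c.U_mem b _ he p (by simp))
  · rw [Multiset.mem_singleton] at he
    exact hst he

/-- The value of a pair. -/
theorem anti_main (c : Ctx G s t y z pv D U) {a b p q : Fin n} (hab : a < b) (hadj : G.Adj a b)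
    (hpq : p < q) (hadj' : G.Adj p q) (hst1 : s(a, b) ≠ s(s, t)) (hst2 : s(p, q) ≠ s(s, t))
    (hne : s(p, q) ≠ s(a, b)) (hB1 : ¬ Reach G b p) (hB2 : ¬ Reach G q a) :
    sm (ch D U s t a b) (mg y z s t p q) + sm (ch D U s t p q) (mg y z s t a b) = 1 := by
  classical
  -- the merging point
  have hex : (Finset.univ.filter fun x => OnD pv s a x ∧ OnD pv s p x).Nonempty :=
    ⟨s, by simp [c.onD_s]⟩
  obtain ⟨u, hu, humax⟩ := Finset.exists_max_image _ id hex
  simp only [Finset.mem_filter, Finset.mem_univ, true_and, id] at hu humax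
  obtain ⟨hua, hup⟩ := hu
  obtain ⟨x1, L1, hx1, hux1, hL1, hM1, hch1, hor1, hsh1⟩ := c.split hab hadj hua
  obtain ⟨x2, L2, hx2, hux2, hL2, hM2, hch2, hor2, hsh2⟩ := c.split hpq hadj' hup
  have hx12 : x1 ≠ x2 := by
    rintro rfl
    rcases hor1 with ⟨h1, h2⟩ | h1 <;> rcases hor2 with ⟨h3, h4⟩ | h3
    · exact hne (by rw [← h1, ← h2, ← h3, ← h4])
    · exact hB1 (h2 ▸ c.onD_reach h3)
    · exact hB2 (h4 ▸ c.onD_reach h1)
    · exact absurd (humax x1 ⟨h1, h3⟩) (not_le.2 hx1)
  have ht1 : u = s → x1 ≠ t := by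
    rintro rfl rfl
    rcases hor1 with ⟨h1, h2⟩ | h1
    · exact hst1 (by rw [← h1, ← h2])
    · have h3 := reach_le (c.onD_reach h1)
      exact absurd (c.sto.max b) (not_le.2 (h3.trans_lt hab))
  have ht2 : u = s → x2 ≠ t := by
    rintro rfl rfl
    rcases hor2 with ⟨h1, h2⟩ | h1
    · exact hst2 (by rw [← h1, ← h2])
    · have h3 := reach_le (c.onD_reach h1)
      exact absurd (c.sto.max q) (not_le.2 (h3.trans_lt hpq))
  have hut : u ≠ t := by
    rintro rfl
    exact absurd (c.sto.max x1) (not_le.2 hx1)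
  have hDu : ∀ e ∈ D u, ∀ w ∈ e, w ≤ u := fun e he w hw => reach_le (c.onD_reach (c.D_mem u e he w hw))
  -- membership in the chains
  have hmem1 : s(u, x2) ∉ ch D U s t a b := by
    rw [hch1]
    intro he
    rcases Multiset.mem_add.1 he with he | he
    · rcases Multiset.mem_cons.1 he with he | he
      · exact hx12 (Sym2.congr_right.1 he).symm
      · exact absurd (hM1 _ he u (by simp)) (lt_irrefl _)
    · rcases Multiset.mem_add.1 he with he | he
      · exact absurd (hDu _ he x2 (by simp)) (not_le.2 hx2)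
      · rw [Multiset.mem_singleton, Sym2.eq_iff] at he
        rcases he with ⟨h1, h2⟩ | ⟨h1, h2⟩
        · exact ht2 h1 h2
        · exact hut h1
  have hmem2 : s(u, x1) ∉ ch D U s t p q := by
    rw [hch2]
    intro he
    rcases Multiset.mem_add.1 he with he | he
    · rcases Multiset.mem_cons.1 he with he | he
      · exact hx12 (Sym2.congr_right.1 he)
      · exact absurd (hM2 _ he u (by simp)) (lt_irrefl _)
    · rcases Multiset.mem_add.1 he with he | he
      · exact absurd (hDu _ he x1 (by simp)) (not_le.2 hx1)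
      · rw [Multiset.mem_singleton, Sym2.eq_iff] at he
        rcases he with ⟨h1, h2⟩ | ⟨h1, h2⟩
        · exact ht1 h1 h2
        · exact hut h1
  have hE1 := hsh2 (ch D U s t a b) (c.ch_ev a b) (c.ch_ed hadj) (fun w hw hw' =>
    c.ch_off (fun h => absurd (humax w ⟨h, hw⟩) (not_le.2 hw'))
      (fun h => hB1 (h.trans (c.onD_reach hw)))) hmem1 (c.ch_notMem hne hst2 hB1 hB2)
  have hE2 := hsh1 (ch D U s t p q) (c.ch_ev p q) (c.ch_ed hadj') (fun w hw hw' =>
    c.ch_off (fun h => absurd (humax w ⟨hw, h⟩) (not_le.2 hw'))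
      (fun h => hB2 (h.trans (c.onD_reach hw)))) hmem2 (c.ch_notMem hne.symm hst1 hB2 hB1)
  rw [← hE1, ← hE2]
  -- the sum of the upper parts
  have hev : Ev ((s(u, x1) ::ₘ L1) + (s(u, x2) ::ₘ L2)) := by
    intro h
    have e1 := c.ch_ev a b h
    have e2 := c.ch_ev p q h
    rw [hch1, sm_add] at e1
    rw [hch2, sm_add] at e2
    rw [sm_add]
    grind
  have hed : Ed G ((s(u, x1) ::ₘ L1) + (s(u, x2) ::ₘ L2)) :=
    (Ed.cons hux1 hL1).add (Ed.cons hux2 hL2)
  have hge : ∀ e ∈ (s(u, x1) ::ₘ L1) + (s(u, x2) ::ₘ L2), ∀ w ∈ e, u ≤ w := by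
    intro e he w hw
    rcases Multiset.mem_add.1 he with he | he
    · rcases Multiset.mem_cons.1 he with rfl | he
      · rcases Sym2.mem_iff.1 hw with rfl | rfl
        · exact le_rfl
        · exact hx1.le
      · exact (hM1 e he w hw).le
    · rcases Multiset.mem_cons.1 he with rfl | he
      · rcases Sym2.mem_iff.1 hw with rfl | rfl
        · exact le_rfl
        · exact hx2.le
      · exact (hM2 e he w hw).le
  have o1 : Off L1 u := fun e he hw => lt_irrefl _ (hM1 e he u hw)
  have o2 : Off L2 u := fun e he hw => lt_irrefl _ (hM2 e he u hw)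
  have final : ∀ (x3 : Fin n) (L3 : Multiset (Sym2 (Fin n))), u ≠ x3 → x1 ≠ x3 → x2 ≠ x3 →
      Off L3 u → D u + {s(s, t)} = s(u, x3) ::ₘ L3 →
      sm ((s(u, x1) ::ₘ L1) + (s(u, x2) ::ₘ L2)) (mg y z s t u x3) = 0 →
      sm (ch D U s t a b) (mg y z s t u x2) + sm (ch D U s t p q) (mg y z s t u x1) = 1 := by
    intro x3 L3 g1 g2 g3 o3 hD hz
    have hth := theta c.H hx1.ne hx2.ne g1 hx12 g2 g3 o1 o2 o3
    rw [hch1, hch2, hD]
    unfold mg at hz ⊢
    simp only [sm_add, sm_fadd] at hz ⊢
    grind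
  by_cases hus : u = s
  · refine final t 0 hut (ht1 hus) (ht2 hus) (fun e he => by simp at he) ?_ ?_
    · rw [hus, c.D_s]
      rfl
    · rw [hus]
      rw [hus] at hge
      refine mg_zero fun he => ?_
      rcases Multiset.mem_add.1 he with he | he
      · rcases Multiset.mem_cons.1 he with he | he
        · exact ht1 hus (Sym2.congr_right.1 he).symm
        · have h5 := hM1 _ he s (by simp)
          rw [hus] at h5
          exact lt_irrefl _ h5
      · rcases Multiset.mem_cons.1 he with he | he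
        · exact ht2 hus (Sym2.congr_right.1 he).symm
        · have h5 := hM2 _ he s (by simp)
          rw [hus] at h5
          exact lt_irrefl _ h5
  · have hlt := c.pv_lt u hus
    have hoff : ∀ x, x < u → Off ((s(u, x1) ::ₘ L1) + (s(u, x2) ::ₘ L2)) x :=
      fun x hx e he hw => absurd (hge e he x hw) (not_le.2 hx)
    refine final (pv u) (D (pv u) + {s(s, t)}) hlt.ne' (hlt.trans hx1).ne' (hlt.trans hx2).ne' ?_ ?_ ?_
    · intro e he hw
      rcases Multiset.mem_add.1 he with he | he
      · exact absurd (reach_le (c.onD_reach (c.D_mem _ e he u hw))) (not_le.2 hlt)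
      · rw [Multiset.mem_singleton] at he
        subst he
        rcases Sym2.mem_iff.1 hw with h | h
        · exact hus h
        · exact hut h
    · rw [c.D_step u hus, Multiset.cons_add]
    · rw [c.mg_shift hed hev (c.pv_adj u hus) ((hoff _ hlt).notMem' u), mg_off (hoff _ hlt)]
      exact c.wg_down hed hev (fun x hx => hoff x ((reach_le hx).trans_lt hlt))

/-- Moving the second argument. -/
theorem move (c : Ctx G s t y z pv D U) {a b p q p' q' : Fin n} (hadj : G.Adj a b)
    (hadj1 : G.Adj p q)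
    (hr : Reach G q p') (h1 : s(p, q) ∉ ch D U s t a b) (h3 : ¬ Reach G q a)
    (h4 : ¬ Reach G b p') :
    sm (ch D U s t a b) (mg y z s t p q) = sm (ch D U s t a b) (mg y z s t p' q') := by
  have hoff : ∀ x, Reach G q x → Reach G x p' → Off (ch D U s t a b) x := fun x hx hx' =>
    c.ch_off (fun h => h3 (hx.trans (c.onD_reach h))) (fun h => h4 (h.trans hx'))
  rw [c.mg_shift (c.ch_ed hadj) (c.ch_ev a b) hadj1 h1,
    mg_off (hoff q Relation.ReflTransGen.refl hr), mg_off (hoff p' hr Relation.ReflTransGen.refl)]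
  exact c.wg_path (c.ch_ed hadj) (c.ch_ev a b) hr hoff

/-- The triangle has the value of its gauge. -/
theorem tri_val (c : Ctx G s t y z pv D U) {a b d p q : Fin n} (hab : G.Adj a b)
    (hbd : G.Adj b d) (had : G.Adj a d) (hpq : G.Adj p q) (h1 : s(p, q) ≠ s(a, b))
    (h2 : s(p, q) ≠ s(b, d)) (h3 : s(p, q) ≠ s(a, d)) :
    sm (s(a, b) ::ₘ s(b, d) ::ₘ {s(a, d)}) (mg y z s t p q) =
      sm (s(a, b) ::ₘ s(b, d) ::ₘ {s(a, d)}) (gg y z s t) := by
  unfold mg
  rw [sm_fadd, tri_zero c.H hab hbd had hpq h1 h2 h3, zero_add]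

theorem tri_gauge (c : Ctx G s t y z pv D U) {a b d : Fin n} (hab : G.Adj a b)
    (hbd : G.Adj b d) (had : G.Adj a d) (h1 : s(s, t) ≠ s(a, b))
    (h2 : s(s, t) ≠ s(b, d)) (h3 : s(s, t) ≠ s(a, d)) :
    sm (s(a, b) ::ₘ s(b, d) ::ₘ {s(a, d)}) (gg y z s t) = 0 := by
  rw [← c.tri_val hab hbd had c.sto.adj h1 h2 h3]
  refine mg_zero ?_
  simp only [Multiset.mem_cons, Multiset.mem_singleton, not_or]
  exact ⟨h1, h2, h3⟩

/-- Comparison of `ac` and `ab`. -/
theorem tri_low (c : Ctx G s t y z pv D U) {a b d p q : Fin n} (hab : G.Adj a b)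
    (hbd : G.Adj b d) (had : G.Adj a d) (hlt2 : b < d) (hpq : G.Adj p q)
    (h1 : s(p, q) ≠ s(a, b)) (h3 : s(p, q) ≠ s(a, d)) (hB : ¬ Reach G b p) :
    sm (ch D U s t a d) (mg y z s t p q) + sm (ch D U s t a b) (mg y z s t p q) =
      sm (s(a, b) ::ₘ s(b, d) ::ₘ {s(a, d)}) (gg y z s t) := by
  have hr : Reach G b d := Relation.ReflTransGen.single ⟨hlt2, hbd⟩
  have hZe : Ed G (s(b, d) ::ₘ (U b + U d)) := Ed.cons hbd ((c.U_ed b).add (c.U_ed d))
  have hZv : Ev (s(b, d) ::ₘ (U b + U d)) := by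
    intro h
    rw [sm_cons, sm_add, c.U_cob, c.U_cob, cob_mk]
    grind
  have hZo : ∀ x, ¬ Reach G b x → Off (s(b, d) ::ₘ (U b + U d)) x := by
    intro x hx e he hw
    rcases Multiset.mem_cons.1 he with rfl | he
    · rcases Sym2.mem_iff.1 hw with rfl | rfl
      · exact hx Relation.ReflTransGen.refl
      · exact hx hr
    · rcases Multiset.mem_add.1 he with he | he
      · exact hx (c.U_mem b e he x hw)
      · exact hx (hr.trans (c.U_mem d e he x hw))
  have hp := hZo p hB
  have hZ0 : sm (s(b, d) ::ₘ (U b + U d)) (mg y z s t p q) = 0 := by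
    rw [mg_off hp]
    exact c.wg_down hZe hZv (fun x hx => hZo x fun h => hB (h.trans hx))
  have hpq2 : s(p, q) ≠ s(b, d) := by
    intro h
    rw [Sym2.eq_iff] at h
    rcases h with ⟨h, _⟩ | ⟨h, _⟩
    · exact hB (h ▸ Relation.ReflTransGen.refl)
    · exact hB (h ▸ hr)
  rw [← c.tri_val hab hbd had hpq h1 hpq2 h3]
  unfold ch
  simp only [sm_add, sm_cons, sm_single] at hZ0 ⊢
  grind

/-- Comparison of `ac` and `bc`. -/
theorem tri_high (c : Ctx G s t y z pv D U) {a b d p q : Fin n} (hab : G.Adj a b)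
    (hbd : G.Adj b d) (had : G.Adj a d) (hlt1 : a < b) (hpq : G.Adj p q)
    (h2 : s(p, q) ≠ s(b, d)) (h3 : s(p, q) ≠ s(a, d)) (hB : ¬ Reach G q b) :
    sm (ch D U s t a d) (mg y z s t p q) + sm (ch D U s t b d) (mg y z s t p q) =
      sm (s(a, b) ::ₘ s(b, d) ::ₘ {s(a, d)}) (gg y z s t) := by
  have hr : Reach G a b := Relation.ReflTransGen.single ⟨hlt1, hab⟩
  have hZe : Ed G (s(a, b) ::ₘ (D a + D b)) := Ed.cons hab ((c.D_ed a).add (c.D_ed b))
  have hZv : Ev (s(a, b) ::ₘ (D a + D b)) := by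
    intro h
    rw [sm_cons, sm_add, c.D_cob, c.D_cob, cob_mk]
    grind
  have hZo : ∀ x, ¬ Reach G x b → Off (s(a, b) ::ₘ (D a + D b)) x := by
    intro x hx e he hw
    rcases Multiset.mem_cons.1 he with rfl | he
    · rcases Sym2.mem_iff.1 hw with rfl | rfl
      · exact hx hr
      · exact hx Relation.ReflTransGen.refl
    · rcases Multiset.mem_add.1 he with he | he
      · exact hx ((c.onD_reach (c.D_mem a e he x hw)).trans hr)
      · exact hx (c.onD_reach (c.D_mem b e he x hw))
  have hq := hZo q hB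
  have hZ0 : sm (s(a, b) ::ₘ (D a + D b)) (mg y z s t p q) = 0 := by
    rw [c.mg_shift hZe hZv hpq (hq.notMem' p), mg_off hq]
    exact c.wg_up hZe hZv (fun x hx => hZo x fun h => hB (hx.trans h))
  have hpq2 : s(p, q) ≠ s(a, b) := by
    intro h
    rw [Sym2.eq_iff] at h
    rcases h with ⟨_, h⟩ | ⟨_, h⟩
    · exact hB (h ▸ Relation.ReflTransGen.refl)
    · exact hB (h ▸ hr)
  rw [← c.tri_val hab hbd had hpq hpq2 h2 h3]
  unfold ch
  simp only [sm_add, sm_cons, sm_single] at hZ0 ⊢
  grind

theorem ch_st (c : Ctx G s t y z pv D U) (g : Sym2 (Fin n) → ZMod 2) :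
    sm (ch D U s t s t) g = 0 := by
  unfold ch
  rw [c.D_s, c.U_t]
  simp only [sm_add, sm_cons, sm_single, sm_zero]
  grind

end Ctx

end paths

end MuM

open MuM in
theorem specMu : SpecMu := by
  intro n G s t hst huniq hHT
  obtain ⟨y, z, H⟩ := hHT
  obtain ⟨pv, D, U, c⟩ := exists_ctx H hst
  classical
  have hlt : s < t := lt_of_le_of_ne (hst.min t) hst.adj.ne
  let est : UE G := ⟨(s, t), hlt, hst.adj⟩
  have hinj : ∀ e f : UE G, e ≠ f → s(e.tl, e.hd) ≠ s(f.tl, f.hd) := by
    intro e f hne h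
    rw [Sym2.eq_iff] at h
    rcases h with ⟨h1, h2⟩ | ⟨h1, h2⟩
    · exact hne (Subtype.ext (Prod.ext h1 h2))
    · have h3 := e.lt
      have h4 := f.lt
      rw [h1, h2] at h3
      exact lt_asymm h3 h4
  obtain ⟨kap, hkap⟩ : ∃ kap : ZMod 2, ∀ b, G.Adj s b → G.Adj b t →
      kap = sm (s(s, b) ::ₘ s(b, t) ::ₘ {s(s, t)}) (gg y z s t) := by
    by_cases hex : ∃ b, G.Adj s b ∧ G.Adj b t
    · obtain ⟨b, hb1, hb2⟩ := hex
      refine ⟨sm (s(s, b) ::ₘ s(b, t) ::ₘ {s(s, t)}) (gg y z s t), fun b' hb1' hb2' => ?_⟩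
      rw [huniq b b' hb1 hb2.symm hb1' hb2'.symm]
    · exact ⟨0, fun b h1 h2 => absurd ⟨b, h1, h2⟩ hex⟩
  have main : ∀ e f : UE G, e ≠ est → f ≠ est → Inc e f →
      sm (ch D U s t e.tl e.hd) (mg y z s t f.tl f.hd) +
        sm (ch D U s t f.tl f.hd) (mg y z s t e.tl e.hd) = 1 := fun e f he hf hi =>
    c.anti_main e.lt e.adj f.lt f.adj (hinj e est he) (hinj f est hf) (hinj f e hi.1.symm)
      hi.2.1 hi.2.2
  refine ⟨fun e f => if e = est then kap else if f = est then 1 + kap else
    sm (ch D U s t e.tl e.hd) (mg y z s t f.tl f.hd), ?_, ?_, ?_⟩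
  · intro e f hi
    by_cases he : e = est
    · have hf : f ≠ est := fun hf => hi.1 (he.trans hf.symm)
      simp only [he, hf, if_true, if_false]
      grind
    by_cases hf : f = est
    · simp only [he, hf, if_true, if_false]
      grind
    · simp only [he, hf, if_false]
      exact main e f he hf hi
  · intro e e' f hB hi hi'
    have he : e ≠ est := by
      rintro rfl
      have h1 : t ≤ e'.tl := reach_le hB
      exact absurd (hst.max e'.hd) (not_le.2 (h1.trans_lt e'.lt))
    have he' : e' ≠ est := by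
      rintro rfl
      have h1 : e.hd ≤ s := reach_le hB
      exact absurd (hst.min e.tl) (not_le.2 (e.lt.trans_le h1))
    simp only [he, he', if_false]
    by_cases hf : f = est
    · simp only [hf, if_true]
    · simp only [hf, if_false]
      have h1 := main e f he hf hi
      have h2 := main e' f he' hf hi'
      have h3 := c.move (q' := e'.hd) f.adj e.adj hB
        (c.ch_notMem (hinj e f hi.1) (hinj e est he) hi.2.2 hi.2.1) hi.2.1 hi'.2.2
      rw [h3] at h1
      grind
  · intro e e' f hT hi hi'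
    have he' : e' ≠ est := by
      rintro rfl
      rcases hT with ⟨_, h2, _⟩ | ⟨_, h2, _⟩
      · exact absurd (hst.max e.hd) (not_le.2 h2)
      · exact absurd (hst.min e.tl) (not_le.2 h2)
    by_cases hf : f = est
    · have he : e ≠ est := fun he => hi.1 (he.trans hf.symm)
      simp only [he, he', hf, if_true, if_false]
    simp only [he', hf, if_false]
    rcases hT with ⟨h1, h2, h3⟩ | ⟨h1, h2, h3⟩
    · -- `e = ad`, `e' = ab`
      have hab : G.Adj e.tl e'.hd := h1 ▸ e'.adj
      have key := c.tri_low (a := e.tl) (b := e'.hd) (d := e.hd) (p := f.tl) (q := f.hd)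
        hab h3 e.adj h2 f.adj (by rw [← h1]; exact hinj f e' hi'.1.symm) (hinj f e hi.1.symm)
        hi'.2.1
      rw [← h1] at key
      by_cases he : e = est
      · subst he
        have h4 := hkap e'.hd hab h3
        have h5 : sm (ch D U s t e'.tl t) (mg y z s t f.tl f.hd) = 0 := by
          have h6 : e'.tl = s := h1
          rw [h6]
          exact c.ch_st _
        simp only [if_true]
        have h7 : e'.tl = s := h1
        rw [h7] at key ⊢
        rw [h7] at h5
        have h8 : (UE.hd est : Fin n) = t := rfl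
        rw [h8, h5, zero_add] at key
        rw [key, h4]
      · simp only [he, if_false]
        have hg := c.tri_gauge hab h3 e.adj (fun h => ?_) (fun h => ?_) (fun h => ?_)
        · rw [← h1] at hg
          rw [hg, h1] at key
          rw [h1]
          grind
        · refine hinj e' est he' ?_
          rw [h1]
          exact h.symm
        · rw [Sym2.eq_iff] at h
          have h4 := hst.min e.tl
          have h5 : e.tl < e'.hd := h1 ▸ e'.lt
          rcases h with ⟨h, _⟩ | ⟨h, _⟩
          · rw [h] at h4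
            exact absurd h5 (not_lt.2 h4)
          · rw [h] at h4
            exact absurd e.lt (not_lt.2 h4)
        · exact hinj e est he h.symm
    · -- `e = ad`, `e' = bd`
      have hbd : G.Adj e'.tl e.hd := h1 ▸ e'.adj
      have key := c.tri_high (a := e.tl) (b := e'.tl) (d := e.hd) (p := f.tl) (q := f.hd)
        h3 hbd e.adj h2 f.adj (by rw [← h1]; exact hinj f e' hi'.1.symm) (hinj f e hi.1.symm)
        hi'.2.2
      by_cases he : e = est
      · subst he
        have h4 := hkap e'.tl h3 hbd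
        have h6 : e'.hd = t := h1
        have h8 : (UE.hd est : Fin n) = t := rfl
        have h9 : (UE.tl est : Fin n) = s := rfl
        simp only [if_true]
        rw [h8, h9, c.ch_st, zero_add] at key
        rw [h6, key, h4]
      · simp only [he, if_false]
        have hg := c.tri_gauge h3 hbd e.adj (fun h => ?_) (fun h => ?_) (fun h => ?_)
        · rw [hg] at key
          rw [h1]
          grind
        · rw [Sym2.eq_iff] at h
          have h4 := hst.max e.hd
          have h5 : e'.tl < e.hd := h1 ▸ e'.lt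
          rcases h with ⟨_, h⟩ | ⟨_, h⟩
          · rw [h] at h4
            exact absurd h5 (not_lt.2 h4)
          · rw [h] at h4
            exact absurd e.lt (not_lt.2 h4)
        · refine hinj e' est he' ?_
          rw [h1]
          exact h.symm
        · exact hinj e est he h.symm

end Pool.Agent.MP_cdcb37
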