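import Pool.Agent.Lib.MP_cdcb37_lc.Spec

/-!
# Module OFF: separation dimension at most two is the existence of a placement
-/

namespace Pool.Agent.MP_cdcb37

open Finset

/-- Positions can be replaced by permutations. -/
theorem off_rank {n : ℕ} (X : Fin n → ℚ) :
    ∃ σ : Equiv.Perm (Fin n), ∀ a b, X a < X b → σ a < σ b := by
  refine ⟨(Tuple.sort X).symm, fun a b hab => ?_⟩
  by_contra h
  push Not at h
  have := Tuple.monotone_sort X h
  simp only [Function.comp_apply, Equiv.apply_symm_apply] at this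
  exact absurd hab this.not_gt

theorem off_sep {V α β : Type} [LT α] [LT β] {X : V → α} {X' : V → β}
    (h : ∀ a b, X a < X b → X' a < X' b) {a b c d : V} (hs : Sep X a b c d) :
    Sep X' a b c d := by
  rcases hs with ⟨h1, h2, h3, h4⟩ | ⟨h1, h2, h3, h4⟩
  · exact Or.inl ⟨h _ _ h1, h _ _ h2, h _ _ h3, h _ _ h4⟩
  · exact Or.inr ⟨h _ _ h1, h _ _ h2, h _ _ h3, h _ _ h4⟩

/-- The set of all permutations is pairwise suitable. -/
theorem off_univ {n : ℕ} (G : SimpleGraph (Fin n)) : PairwiseSuitable G univ := by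
  intro a b c d _ _ hac had hbc hbd
  classical
  obtain ⟨σ, hσ⟩ := off_rank (fun v => if v = a ∨ v = b then (0 : ℚ) else 1)
  refine ⟨σ, mem_univ _, ?_⟩
  apply off_sep hσ
  refine Or.inl ⟨?_, ?_, ?_, ?_⟩ <;> simp [hac.symm, had.symm, hbc.symm, hbd.symm]

theorem specOff : SpecOff := by
  intro n G
  classical
  constructor
  · intro h
    have hne : {k | ∃ F : Finset (Equiv.Perm (Fin n)), PairwiseSuitable G F ∧
        F.card = k}.Nonempty := ⟨_, univ, off_univ G, rfl⟩
    obtain ⟨F, hF, hcard⟩ := Nat.sInf_mem hne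
    have hc : F.card ≤ 2 := hcard.le.trans h
    obtain ⟨σ, τ, hst⟩ : ∃ σ τ : Equiv.Perm (Fin n), ∀ x ∈ F, x = σ ∨ x = τ := by
      by_cases h0 : F = ∅
      · exact ⟨1, 1, by simp [h0]⟩
      · obtain ⟨σ, hσ⟩ := Finset.nonempty_iff_ne_empty.2 h0
        have hc1 : (F.erase σ).card ≤ 1 := by
          rw [Finset.card_erase_of_mem hσ]; omega
        by_cases h1 : F.erase σ = ∅
        · refine ⟨σ, σ, fun x hx => ?_⟩
          by_contra hne
          push Not at hne
          have : x ∈ F.erase σ := Finset.mem_erase.2 ⟨hne.1, hx⟩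
          simp [h1] at this
        · obtain ⟨τ, hτ⟩ := Finset.nonempty_iff_ne_empty.2 h1
          refine ⟨σ, τ, fun x hx => ?_⟩
          by_cases hxs : x = σ
          · exact Or.inl hxs
          · exact Or.inr (Finset.card_le_one.1 hc1 _ (Finset.mem_erase.2 ⟨hxs, hx⟩) _ hτ)
    refine ⟨fun v => ((σ v).val : ℚ), fun v => ((τ v).val : ℚ), ?_⟩
    intro a b c d hab hcd h1 h2 h3 h4
    obtain ⟨ρ, hρ, hs⟩ := hF a b c d hab hcd h1 h2 h3 h4
    rcases hst ρ hρ with rfl | rfl
    · exact Or.inl (off_sep (fun x y hxy => by exact_mod_cast hxy) hs)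
    · exact Or.inr (off_sep (fun x y hxy => by exact_mod_cast hxy) hs)
  · rintro ⟨X, Y, hXY⟩
    obtain ⟨σ, hσ⟩ := off_rank X
    obtain ⟨τ, hτ⟩ := off_rank Y
    have : PairwiseSuitable G {σ, τ} := by
      intro a b c d hab hcd h1 h2 h3 h4
      rcases hXY a b c d hab hcd h1 h2 h3 h4 with h | h
      · exact ⟨σ, by simp, off_sep hσ h⟩
      · exact ⟨τ, by simp, off_sep hτ h⟩
    exact (Nat.sInf_le ⟨_, this, rfl⟩ : sepDim G ≤ _).trans Finset.card_le_two

end Pool.Agent.MP_cdcb37
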