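import Pool.Agent.Lib.MP_cdcb37_lc.Spec

/-!
# PLA: canonical orders give strong placements

Positions: `X` is the time of birth, and a new vertex is inserted in the order `Y` next to the
oldest vertex of its block.
-/

set_option autoImplicit false

namespace Pool.Agent.MP_cdcb37.Pla

open Finset

variable {W : Type}

/-- the invariants of the construction -/
structure Inv (T : SimpleGraph W) (ord fr : List W) (X Y : W → ℚ) : Prop where
  ordX : ord.Pairwise (fun a b => X b < X a)
  injY : ∀ a ∈ ord, ∀ b ∈ ord, Y a = Y b → a = b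
  sub : ∀ f ∈ fr, f ∈ ord
  inc : fr.Pairwise (fun a b => Y a < Y b)
  pred : ∀ f ∈ fr, ∀ b ∈ ord, T.Adj f b → X f < X b → Y b < Y f →
    ∃ l ∈ fr, Y l < Y f ∧ (∀ g ∈ fr, Y g < Y f → Y g ≤ Y l) ∧ X b ≤ X l
  succ : ∀ f ∈ fr, ∀ b ∈ ord, T.Adj f b → X f < X b → Y f < Y b →
    ∃ r ∈ fr, Y f < Y r ∧ (∀ g ∈ fr, Y f < Y g → Y r ≤ Y g) ∧ X b ≤ X r
  gap : ∀ x ∈ fr, ∀ x' ∈ fr, Y x < Y x' → (∀ g ∈ fr, Y x < Y g → ¬ Y g < Y x') →
    ∀ q ∈ ord, Y x < Y q → Y q < Y x' → X q < X x ∨ X q < X x'
  side : ∀ f ∈ fr, ∀ a ∈ ord, ∀ b ∈ ord, T.Adj a b → X a < X b → X f < X b → f ≠ a →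
    (Y a < Y f ∧ Y b < Y f) ∨ (Y f < Y a ∧ Y f < Y b)
  place : ∀ a ∈ ord, ∀ b ∈ ord, ∀ c ∈ ord, ∀ d ∈ ord, T.Adj a b → T.Adj c d → a ≠ c → a ≠ d →
    b ≠ c → b ≠ d → Sep X a b c d ∨ Sep Y a b c d
  strong : ∀ a ∈ ord, ∀ b ∈ ord, ∀ q ∈ ord, T.Adj a b → q ≠ a → q ≠ b → Outside X Y a b q

theorem inj_of_pairwise {X : W → ℚ} {l : List W} (h : l.Pairwise (fun a b => X b < X a)) :
    ∀ a ∈ l, ∀ b ∈ l, X a = X b → a = b := by
  induction l with
  | nil => simp
  | cons x l ih =>
    rw [List.pairwise_cons] at h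
    intro a ha b hb hab
    rw [List.mem_cons] at ha hb
    rcases ha with rfl | ha <;> rcases hb with rfl | hb
    · rfl
    · exact absurd hab (h.1 b hb).ne'
    · exact absurd hab (h.1 a ha).ne
    · exact ih h.2 a ha b hb hab

/-! ## Lists -/

theorem nil_or_snoc (l : List W) : l = [] ∨ ∃ l' z, l = l' ++ [z] := by
  rcases List.eq_nil_or_concat l with h | ⟨l', z, h⟩
  · exact Or.inl h
  · exact Or.inr ⟨l', z, by rw [h, List.concat_eq_append]⟩

theorem snoc_inj {a b : List W} {x y : W} (h : a ++ [x] = b ++ [y]) : a = b ∧ x = y := by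
  have := List.append_inj' h rfl
  simpa using this

/-- no interior local maximum -/
def NoMax (X : W → ℚ) (L : List W) : Prop :=
  ∀ P p y n S, L = P ++ p :: y :: n :: S → X y < X p ∨ X y < X n

theorem NoMax.tail {X : W → ℚ} {x : W} {L : List W} (h : NoMax X (x :: L)) : NoMax X L := by
  intro P p y n S hL
  exact h (x :: P) p y n S (by rw [hL]; rfl)

theorem incr_of_noMax {X : W → ℚ} : ∀ (l : List W) (x y : W), NoMax X (x :: y :: l) → X x < X y →
    (x :: y :: l).Pairwise (fun a b => X a < X b) := by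
  intro l
  induction l with
  | nil =>
    intro x y _ h
    simpa using h
  | cons z l ih =>
    intro x y hN h
    have h1 : X y < X z := by
      rcases hN [] x y z l rfl with h1 | h1
      · exact absurd h1 (not_lt.2 h.le)
      · exact h1
    have h2 := ih y z hN.tail h1
    rw [List.pairwise_cons]
    refine ⟨?_, h2⟩
    intro a ha
    rw [List.mem_cons] at ha
    rcases ha with rfl | ha
    · exact h
    · exact h.trans ((List.pairwise_cons.1 h2).1 a ha)

theorem valley_list {X : W → ℚ} : ∀ L : List W, L ≠ [] → L.Pairwise (fun a b => X a ≠ X b) →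
    NoMax X L → ∃ L1 um L2, L = L1 ++ um :: L2 ∧ (L1 ++ [um]).Pairwise (fun a b => X b < X a) ∧
      (um :: L2).Pairwise (fun a b => X a < X b) := by
  intro L
  induction L with
  | nil => intro h; exact absurd rfl h
  | cons x L ih =>
    intro _ hp hN
    cases L with
    | nil => exact ⟨[], x, [], by simp, by simp, by simp⟩
    | cons y l =>
      rw [List.pairwise_cons] at hp
      rcases lt_or_gt_of_ne (hp.1 y (by simp)) with h | h
      · exact ⟨[], x, y :: l, by simp, by simp, incr_of_noMax l x y hN h⟩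
      · obtain ⟨L1, um, L2, h1, h2, h3⟩ := ih (by simp) hp.2 hN.tail
        refine ⟨x :: L1, um, L2, by rw [h1]; rfl, ?_, h3⟩
        rw [List.cons_append, List.pairwise_cons]
        refine ⟨?_, h2⟩
        intro a ha
        cases L1 with
        | nil =>
          simp only [List.nil_append, List.cons.injEq] at h1
          simp only [List.nil_append, List.mem_singleton] at ha
          rw [ha, ← h1.1]
          exact h
        | cons y' L1 =>
          simp only [List.cons_append, List.cons.injEq] at h1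
          rw [List.cons_append, List.mem_cons] at ha
          rw [List.cons_append, List.pairwise_cons] at h2
          rcases ha with rfl | ha
          · rw [← h1.1]; exact h
          · have := h2.1 a ha
            rw [← h1.1] at this
            exact this.trans h

theorem exists_upper (X : W → ℚ) (l : List W) : ∃ t, ∀ q ∈ l, X q < t := by
  induction l with
  | nil => exact ⟨0, by simp⟩
  | cons a l ih =>
    obtain ⟨t, ht⟩ := ih
    refine ⟨max t (X a + 1), ?_⟩
    intro q hq
    rw [List.mem_cons] at hq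
    rcases hq with rfl | hq
    · exact lt_max_of_lt_right (by linarith)
    · exact lt_max_of_lt_left (ht q hq)

theorem exists_below (Y : W → ℚ) (m : ℚ) (l : List W) :
    ∃ y < m, ∀ q ∈ l, Y q < m → Y q < y := by
  induction l with
  | nil => exact ⟨m - 1, by linarith, by simp⟩
  | cons a l ih =>
    obtain ⟨y, hy, h⟩ := ih
    by_cases ha : Y a < m
    · refine ⟨max y ((Y a + m) / 2), max_lt hy (by linarith), ?_⟩
      intro q hq hqm
      rw [List.mem_cons] at hq
      rcases hq with rfl | hq
      · exact lt_max_of_lt_right (by linarith)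
      · exact lt_max_of_lt_left (h q hq hqm)
    · refine ⟨y, hy, ?_⟩
      intro q hq hqm
      rw [List.mem_cons] at hq
      rcases hq with rfl | hq
      · exact absurd hqm ha
      · exact h q hq hqm

section consec
variable {Y : W → ℚ} {fr : List W} (hinc : fr.Pairwise (fun a b => Y a < Y b))
include hinc

theorem split_lt {P S : List W} {x : W} (hfr : fr = P ++ x :: S) :
    (∀ g ∈ P, Y g < Y x) ∧ ∀ g ∈ S, Y x < Y g := by
  rw [hfr, List.pairwise_append, List.pairwise_cons] at hinc
  exact ⟨fun g hg => hinc.2.2 g hg x (by simp), hinc.2.1.1⟩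

theorem mem_left {P S : List W} {x g : W} (hfr : fr = P ++ x :: S) (hg : g ∈ fr)
    (h : Y g < Y x) : g ∈ P := by
  have h2 := (split_lt hinc hfr).2
  rw [hfr, List.mem_append, List.mem_cons] at hg
  rcases hg with hg | rfl | hg
  · exact hg
  · exact absurd h (lt_irrefl _)
  · exact absurd h (h2 g hg).not_gt

theorem mem_right {P S : List W} {x g : W} (hfr : fr = P ++ x :: S) (hg : g ∈ fr)
    (h : Y x < Y g) : g ∈ S := by
  have h2 := (split_lt hinc hfr).1
  rw [hfr, List.mem_append, List.mem_cons] at hg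
  rcases hg with hg | rfl | hg
  · exact absurd h (h2 g hg).not_gt
  · exact absurd h (lt_irrefl _)
  · exact hg

theorem consec_le {P S : List W} {x x' : W} (hfr : fr = P ++ x :: x' :: S) :
    Y x < Y x' ∧ (∀ g ∈ fr, Y g < Y x' → Y g ≤ Y x) ∧ (∀ g ∈ fr, Y x < Y g → Y x' ≤ Y g) := by
  have h1 := split_lt hinc hfr
  have hfr' : fr = (P ++ [x]) ++ x' :: S := by rw [hfr]; simp
  refine ⟨h1.2 x' (by simp), ?_, ?_⟩
  · intro g hg hlt
    have := mem_left hinc hfr' hg hlt
    rw [List.mem_append, List.mem_singleton] at this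
    rcases this with h | rfl
    · exact (h1.1 g h).le
    · exact le_rfl
  · intro g hg hlt
    have := mem_right hinc hfr hg hlt
    rw [List.mem_cons] at this
    rcases this with rfl | h
    · exact le_rfl
    · exact ((split_lt hinc hfr').2 g h).le

end consec

/-! ## Mirror image -/

theorem Outside.neg {X Y : W → ℚ} {a b q : W} (h : Outside X Y a b q) :
    Outside X (fun x => -Y x) a b q := by
  unfold Outside at *
  simp only [neg_lt_neg_iff]
  tauto

theorem Sep.swap1 {X : W → ℚ} {a b c d : W} (h : Sep X a b c d) : Sep X b a c d := by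
  rcases h with ⟨h1, h2, h3, h4⟩ | ⟨h1, h2, h3, h4⟩
  · exact Or.inl ⟨h3, h4, h1, h2⟩
  · exact Or.inr ⟨h2, h1, h4, h3⟩

theorem Sep.swap2 {X : W → ℚ} {a b c d : W} (h : Sep X a b c d) : Sep X a b d c := by
  rcases h with ⟨h1, h2, h3, h4⟩ | ⟨h1, h2, h3, h4⟩
  · exact Or.inl ⟨h2, h1, h4, h3⟩
  · exact Or.inr ⟨h3, h4, h1, h2⟩

theorem Sep.comm {X : W → ℚ} {a b c d : W} (h : Sep X a b c d) : Sep X c d a b := by
  rcases h with ⟨h1, h2, h3, h4⟩ | ⟨h1, h2, h3, h4⟩
  · exact Or.inr ⟨h1, h2, h3, h4⟩
  · exact Or.inl ⟨h1, h2, h3, h4⟩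

theorem Outside.symm {X Y : W → ℚ} {a b q : W} (h : Outside X Y a b q) :
    Outside X Y b a q := by
  rcases h with h | h | h | h
  · exact Or.inl (And.symm h)
  · exact Or.inr (Or.inl (And.symm h))
  · exact Or.inr (Or.inr (Or.inl (And.symm h)))
  · exact Or.inr (Or.inr (Or.inr (And.symm h)))

theorem Sep.neg {Y : W → ℚ} {a b c d : W} (h : Sep Y a b c d) :
    Sep (fun x => -Y x) a b c d := by
  unfold Sep at *
  simp only [neg_lt_neg_iff]
  tauto

theorem Inv.mirror {T : SimpleGraph W} {ord fr : List W} {X Y : W → ℚ} (h : Inv T ord fr X Y) :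
    Inv T ord fr.reverse X (fun a => -Y a) where
  ordX := h.ordX
  injY := fun a ha b hb hab => h.injY a ha b hb (neg_injective hab)
  sub := fun f hf => h.sub f (List.mem_reverse.1 hf)
  inc := by
    rw [List.pairwise_reverse]
    simpa only [neg_lt_neg_iff] using h.inc
  pred := by
    intro f hf b hb hadj hX hY
    simp only [neg_lt_neg_iff, neg_le_neg_iff, List.mem_reverse] at *
    exact h.succ f hf b hb hadj hX hY
  succ := by
    intro f hf b hb hadj hX hY
    simp only [neg_lt_neg_iff, neg_le_neg_iff, List.mem_reverse] at *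
    exact h.pred f hf b hb hadj hX hY
  gap := by
    intro x hx x' hx' hlt hno q hq h1 h2
    simp only [neg_lt_neg_iff, List.mem_reverse] at *
    exact (h.gap x' hx' x hx hlt (fun g hg h3 h4 => hno g hg h4 h3) q hq h2 h1).symm
  side := by
    intro f hf a ha b hb hadj h1 h2 h3
    simp only [neg_lt_neg_iff, List.mem_reverse] at *
    exact (h.side f hf a ha b hb hadj h1 h2 h3).symm
  place := by
    intro a ha b hb c hc d hd h1 h2 h3 h4 h5 h6
    exact (h.place a ha b hb c hc d hd h1 h2 h3 h4 h5 h6).imp id Sep.neg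
  strong := by
    intro a ha b hb q hq h1 h2 h3
    exact Outside.neg (h.strong a ha b hb q hq h1 h2 h3)

/-! ## Congruence -/

theorem Inv.congr {T : SimpleGraph W} {ord fr : List W} {X Y X' Y' : W → ℚ}
    (h : Inv T ord fr X Y) (hX : ∀ a ∈ ord, X' a = X a) (hY : ∀ a ∈ ord, Y' a = Y a) :
    Inv T ord fr X' Y' := by
  have hYf : ∀ f ∈ fr, Y' f = Y f := fun f hf => hY f (h.sub f hf)
  have hXf : ∀ f ∈ fr, X' f = X f := fun f hf => hX f (h.sub f hf)
  refine ⟨?_, ?_, h.sub, ?_, ?_, ?_, ?_, ?_, ?_, ?_⟩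
  · refine h.ordX.imp_of_mem ?_
    intro a b ha hb hab
    rwa [hX a ha, hX b hb]
  · intro a ha b hb hab
    rw [hY a ha, hY b hb] at hab
    exact h.injY a ha b hb hab
  · refine h.inc.imp_of_mem ?_
    intro a b ha hb hab
    rwa [hYf a ha, hYf b hb]
  · intro f hf b hb hadj h1 h2
    rw [hXf f hf, hX b hb] at h1
    rw [hYf f hf, hY b hb] at h2
    obtain ⟨l, hl, h3, h4, h5⟩ := h.pred f hf b hb hadj h1 h2
    refine ⟨l, hl, ?_, ?_, ?_⟩
    · rwa [hYf l hl, hYf f hf]
    · intro g hg hgf
      rw [hYf g hg, hYf f hf] at hgf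
      rw [hYf g hg, hYf l hl]
      exact h4 g hg hgf
    · rwa [hX b hb, hXf l hl]
  · intro f hf b hb hadj h1 h2
    rw [hXf f hf, hX b hb] at h1
    rw [hYf f hf, hY b hb] at h2
    obtain ⟨l, hl, h3, h4, h5⟩ := h.succ f hf b hb hadj h1 h2
    refine ⟨l, hl, ?_, ?_, ?_⟩
    · rwa [hYf l hl, hYf f hf]
    · intro g hg hgf
      rw [hYf g hg, hYf f hf] at hgf
      rw [hYf g hg, hYf l hl]
      exact h4 g hg hgf
    · rwa [hX b hb, hXf l hl]
  · intro x hx x' hx' h1 h2 q hq h3 h4
    rw [hYf x hx, hYf x' hx'] at h1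
    rw [hYf x hx, hY q hq] at h3
    rw [hYf x' hx', hY q hq] at h4
    rw [hX q hq, hXf x hx, hXf x' hx']
    refine h.gap x hx x' hx' h1 ?_ q hq h3 h4
    intro g hg h5 h6
    refine h2 g hg ?_ ?_
    · rwa [hYf x hx, hYf g hg]
    · rwa [hYf x' hx', hYf g hg]
  · intro f hf a ha b hb hadj h1 h2 h3
    rw [hX a ha, hX b hb] at h1
    rw [hXf f hf, hX b hb] at h2
    rw [hY a ha, hY b hb, hYf f hf]
    exact h.side f hf a ha b hb hadj h1 h2 h3
  · intro a ha b hb c hc d hd h1 h2 h3 h4 h5 h6
    have := h.place a ha b hb c hc d hd h1 h2 h3 h4 h5 h6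
    unfold Sep at *
    rw [hX a ha, hX b hb, hX c hc, hX d hd, hY a ha, hY b hb, hY c hc, hY d hd]
    exact this
  · intro a ha b hb q hq h1 h2 h3
    have := h.strong a ha b hb q hq h1 h2 h3
    unfold Outside at *
    rw [hX a ha, hX b hb, hX q hq, hY a ha, hY b hb, hY q hq]
    exact this

/-! ## The step -/

/-- the facts about the block needed in the step -/
structure Block (ord fr : List W) (X Y : W → ℚ) (u w um p : W) : Prop where
  hu : u ∈ fr
  hw : w ∈ fr
  hum : um ∈ fr
  hp : p ∈ fr
  up : Y u ≤ Y p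
  pm : Y p < Y um
  mw : Y um ≤ Y w
  left : ∀ c ∈ fr, Y u ≤ Y c → Y c < Y um → X um < X c ∧
    ∀ q ∈ ord, Y c < Y q → Y q < Y um → X q < X c
  right : ∀ c ∈ fr, Y um < Y c → Y c ≤ Y w → X um < X c ∧ X p < X c ∧
    ∀ q ∈ ord, Y um < Y q → Y q < Y c → X q < X c
  near : ∀ g ∈ fr, Y g < Y um → Y g ≤ Y p

theorem step_below {T : SimpleGraph W} {ord fr fr' : List W} {X Y : W → ℚ} {u w um p v : W}
    (h : Inv T ord fr X Y) (hB : Block ord fr X Y u w um p)
    (hadj : ∀ x ∈ ord, T.Adj v x ↔ (x ∈ fr ∧ Y u ≤ Y x ∧ Y x ≤ Y w))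
    (hXv : ∀ q ∈ ord, X q < X v) (hY1 : Y v < Y um) (hY2 : ∀ q ∈ ord, Y q < Y um → Y q < Y v)
    (hfr' : ∀ f, f ∈ fr' ↔ (f = v ∨ (f ∈ fr ∧ (Y f ≤ Y u ∨ Y w ≤ Y f))))
    (hinc' : fr'.Pairwise (fun a b => Y a < Y b)) :
    Inv T (v :: ord) fr' X Y := by
  have hXinj := inj_of_pairwise h.ordX
  have hne : ∀ q ∈ ord, q ≠ v := fun q hq e => (lt_irrefl _ (e ▸ hXv q hq))
  have hu := h.sub u hB.hu
  have hw := h.sub w hB.hw
  have hum := h.sub um hB.hum
  have hp := h.sub p hB.hp
  have huv : Y u < Y v := hY2 u hu (hB.up.trans_lt hB.pm)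
  have hvw : Y v < Y w := hY1.trans_le hB.mw
  have hYlt : ∀ a ∈ ord, ∀ b ∈ ord, a ≠ b → Y a ≤ Y b → Y a < Y b := fun a ha b hb hab hle =>
    lt_of_le_of_ne hle fun e => hab (h.injY a ha b hb e)
  -- above `um` or below `v`
  have hvq : ∀ q ∈ ord, Y v < Y q → Y um ≤ Y q := by
    intro q hq h1
    by_contra h2
    exact (hY2 q hq (not_le.1 h2)).not_gt h1
  -- emptiness of the boxes of the new edges
  have hempty : ∀ c ∈ fr, Y u ≤ Y c → Y c ≤ Y w → ∀ q ∈ ord, q ≠ c →
      Outside X Y c v q := by
    intro c hc h1 h2 q hq hqc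
    have hcord := h.sub c hc
    unfold Outside
    rcases lt_trichotomy (Y c) (Y um) with h3 | h3 | h3
    · have hcv := hY2 c hcord h3
      obtain ⟨_, h4⟩ := hB.left c hc h1 h3
      rcases lt_trichotomy (Y q) (Y c) with h5 | h5 | h5
      · exact Or.inr (Or.inr (Or.inl ⟨h5, h5.trans hcv⟩))
      · exact absurd (h.injY q hq c hcord h5) hqc
      · rcases lt_or_ge (Y q) (Y um) with h6 | h6
        · exact Or.inl ⟨h4 q hq h5 h6, hXv q hq⟩
        · exact Or.inr (Or.inr (Or.inr ⟨h5, hY1.trans_le h6⟩))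
    · have hcm : c = um := h.injY c hcord um hum h3
      subst hcm
      rcases lt_trichotomy (Y q) (Y c) with h5 | h5 | h5
      · exact Or.inr (Or.inr (Or.inl ⟨h5, hY2 q hq h5⟩))
      · exact absurd (h.injY q hq c hcord h5) hqc
      · exact Or.inr (Or.inr (Or.inr ⟨h5, hY1.trans h5⟩))
    · obtain ⟨h4, _, h4'⟩ := hB.right c hc h3 h2
      rcases lt_trichotomy (Y q) (Y c) with h5 | h5 | h5
      · rcases lt_trichotomy (Y q) (Y um) with h6 | h6 | h6
        · exact Or.inr (Or.inr (Or.inl ⟨h5, hY2 q hq h6⟩))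
        · have : q = um := h.injY q hq um hum h6
          subst this
          exact Or.inl ⟨h4, hXv q hq⟩
        · exact Or.inl ⟨h4' q hq h6 h5, hXv q hq⟩
      · exact absurd (h.injY q hq c hcord h5) hqc
      · exact Or.inr (Or.inr (Or.inr ⟨h5, (hY1.trans h3).trans h5⟩))
  -- the main point: new edges against old edges
  have hcore : ∀ c ∈ fr, Y u ≤ Y c → Y c ≤ Y w → ∀ a ∈ ord, ∀ b ∈ ord, T.Adj a b → X a < X b →
      a ≠ c → b ≠ c → Sep X a b c v ∨ Sep Y a b c v := by
    intro c hc h1 h2 a ha b hb hab hX hac hbc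
    have hcord := h.sub c hc
    rcases lt_or_ge (X b) (X c) with h3 | h3
    · exact Or.inl (Or.inl ⟨hX.trans h3, hXv a ha, h3, hXv b hb⟩)
    have h3' : X c < X b := lt_of_le_of_ne h3 fun e => hbc (hXinj c hcord b hb e).symm
    right
    have hs := h.side c hc a ha b hb hab hX h3' hac.symm
    have hout := hempty c hc h1 h2 b hb hbc
    have hout' : (Y b < Y c ∧ Y b < Y v) ∨ (Y c < Y b ∧ Y v < Y b) := by
      rcases hout with h4 | h4 | h4 | h4
      · exact absurd h4.1 h3'.not_gt
      · exact absurd h4.2 (hXv b hb).not_gt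
      · exact Or.inl h4
      · exact Or.inr h4
    rcases lt_trichotomy (Y c) (Y um) with h5 | h5 | h5
    · -- c to the left of um
      have hcv := hY2 c hcord h5
      rcases hs with hs | hs
      · exact Or.inl ⟨hs.1, hs.1.trans hcv, hs.2, hs.2.trans hcv⟩
      · right
        have hb2 : Y v < Y b := by
          rcases hout' with h6 | h6
          · exact absurd h6.1 hs.2.not_gt
          · exact h6.2
        obtain ⟨h7, _⟩ := hB.left c hc h1 h5
        have hbum : b ≠ um := fun e => by
          rw [e] at h3'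
          exact h3'.not_gt h7
        have hb3 : Y um < Y b := hYlt um hum b hb hbum.symm (hvq b hb hb2)
        have ha2 : Y v < Y a := by
          by_cases haum : a = um
          · rw [haum]; exact hY1
          · rcases h.side um hB.hum a ha b hb hab hX (h7.trans h3') (Ne.symm haum) with h8 | h8
            · exact absurd h8.2 hb3.not_gt
            · exact hY1.trans h8.1
        exact ⟨hs.1, hs.2, ha2, hb2⟩
    · have hcm : c = um := h.injY c hcord um hum h5
      subst hcm
      rcases hs with hs | hs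
      · exact Or.inl ⟨hs.1, hY2 a ha hs.1, hs.2, hY2 b hb hs.2⟩
      · exact Or.inr ⟨hs.1, hs.2, hY1.trans hs.1, hY1.trans hs.2⟩
    · -- c to the right of um
      have hvc : Y v < Y c := hY1.trans h5
      obtain ⟨h7, h7', _⟩ := hB.right c hc h5 h2
      rcases hs with hs | hs
      · left
        have hb2 : Y b < Y v := by
          rcases hout' with h6 | h6
          · exact h6.2
          · exact absurd h6.1 hs.2.not_gt
        have hb3 : Y b < Y um := hb2.trans hY1
        have ha2 : Y a < Y v := by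
          by_cases haum : a = um
          · exfalso
            subst haum
            obtain ⟨l, hl, h8, h9, h10⟩ := h.pred a hB.hum b hb hab hX hb3
            have h11 := h9 p hB.hp hB.pm
            have h12 := hB.near l hl h8
            have h13 : l = p := h.injY l (h.sub l hl) p hp (le_antisymm h12 h11)
            subst h13
            exact absurd (h10.trans_lt h7') h3'.not_gt
          · rcases h.side um hB.hum a ha b hb hab hX (h7.trans h3') (Ne.symm haum) with h8 | h8
            · exact hY2 a ha h8.1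
            · exact absurd h8.2 hb3.not_gt
        exact ⟨hs.1, ha2, hs.2, hb2⟩
      · exact Or.inr ⟨hs.1, hs.2, hvc.trans hs.1, hvc.trans hs.2⟩
  -- symmetric version
  have hcore' : ∀ c ∈ ord, T.Adj v c → ∀ a ∈ ord, ∀ b ∈ ord, T.Adj a b →
      a ≠ c → b ≠ c → Sep X a b c v ∨ Sep Y a b c v := by
    intro c hc hvc a ha b hb hab h1 h2
    obtain ⟨h3, h4, h5⟩ := (hadj c hc).1 hvc
    have hne' : X a ≠ X b := fun e => hab.ne (hXinj a ha b hb e)
    rcases lt_or_gt_of_ne hne' with h6 | h6
    · exact hcore c h3 h4 h5 a ha b hb hab h6 h1 h2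
    · exact (hcore c h3 h4 h5 b hb a ha hab.symm h6 h2 h1).imp Sep.swap1 Sep.swap1
  have hmemfr : ∀ f ∈ fr', f ≠ v → f ∈ fr ∧ (Y f ≤ Y u ∨ Y w ≤ Y f) := by
    intro f hf hfv
    rcases (hfr' f).1 hf with h1 | h1
    · exact absurd h1 hfv
    · exact h1
  have hu' : u ∈ fr' := (hfr' u).2 (Or.inr ⟨hB.hu, Or.inl le_rfl⟩)
  have hw' : w ∈ fr' := (hfr' w).2 (Or.inr ⟨hB.hw, Or.inr le_rfl⟩)
  have hv' : v ∈ fr' := (hfr' v).2 (Or.inl rfl)
  refine ⟨?_, ?_, ?_, hinc', ?_, ?_, ?_, ?_, ?_, ?_⟩
  · rw [List.pairwise_cons]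
    exact ⟨hXv, h.ordX⟩
  · have key : ∀ q ∈ ord, Y q ≠ Y v := by
      intro q hq e
      rcases lt_or_ge (Y q) (Y um) with h1 | h1
      · exact absurd e (hY2 q hq h1).ne
      · exact absurd e (hY1.trans_le h1).ne'
    intro a ha b hb hab
    rw [List.mem_cons] at ha hb
    rcases ha with rfl | ha <;> rcases hb with rfl | hb
    · rfl
    · exact absurd hab.symm (key b hb)
    · exact absurd hab (key a ha)
    · exact h.injY a ha b hb hab
  · intro f hf
    rw [List.mem_cons]
    rcases (hfr' f).1 hf with h1 | h1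
    · exact Or.inl h1
    · exact Or.inr (h.sub f h1.1)
  · -- pred
    intro f hf b hb hab h1 h2
    rw [List.mem_cons] at hb
    by_cases hfv : f = v
    · subst hfv
      rcases hb with rfl | hb
      · exact absurd h1 (lt_irrefl _)
      · exact absurd h1 (hXv b hb).not_gt
    obtain ⟨hff, hf3⟩ := hmemfr f hf hfv
    have hford := h.sub f hff
    have hvcase : Y w ≤ Y f → f = w → X b ≤ X v →
        ∃ l ∈ fr', Y l < Y f ∧ (∀ g ∈ fr', Y g < Y f → Y g ≤ Y l) ∧ X b ≤ X l := by
      intro _ hfw hXb
      subst hfw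
      refine ⟨v, hv', hvw, ?_, hXb⟩
      intro g hg hgf
      by_cases hgv : g = v
      · rw [hgv]
      · rcases (hmemfr g hg hgv).2 with h5 | h5
        · exact (h5.trans_lt huv).le
        · exact absurd hgf h5.not_gt
    rcases hb with rfl | hb
    · -- b = v
      obtain ⟨_, h4, h5⟩ := (hadj f hford).1 hab.symm
      rcases hf3 with h6 | h6
      · exact absurd h2 (h6.trans_lt huv).not_gt
      · exact hvcase h6 (h.injY f hford w hw (le_antisymm h5 h6)) le_rfl
    · by_cases hfw : f = w
      · exact hvcase (by rw [hfw]) hfw (hXv b hb).le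
      obtain ⟨l, hl, h3, h4, h5⟩ := h.pred f hff b hb hab h1 h2
      have hlfr : l ∈ fr' := by
        rw [hfr']
        right
        refine ⟨hl, ?_⟩
        rcases hf3 with h6 | h6
        · exact Or.inl (h3.le.trans h6)
        · right
          have : Y w < Y f := hYlt w hw f hford (Ne.symm hfw) h6
          exact h4 w hB.hw this
      refine ⟨l, hlfr, h3, ?_, h5⟩
      intro g hg hgf
      by_cases hgv : g = v
      · subst hgv
        rcases hf3 with h6 | h6
        · exact absurd hgf (h6.trans_lt huv).not_gt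
        · have : Y w < Y f := hYlt w hw f hford (Ne.symm hfw) h6
          exact hvw.le.trans (h4 w hB.hw this)
      · exact h4 g (hmemfr g hg hgv).1 hgf
  · -- succ
    intro f hf b hb hab h1 h2
    rw [List.mem_cons] at hb
    by_cases hfv : f = v
    · subst hfv
      rcases hb with rfl | hb
      · exact absurd h1 (lt_irrefl _)
      · exact absurd h1 (hXv b hb).not_gt
    obtain ⟨hff, hf3⟩ := hmemfr f hf hfv
    have hford := h.sub f hff
    have hvcase : f = u → X b ≤ X v →
        ∃ l ∈ fr', Y f < Y l ∧ (∀ g ∈ fr', Y f < Y g → Y l ≤ Y g) ∧ X b ≤ X l := by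
      intro hfu hXb
      subst hfu
      refine ⟨v, hv', huv, ?_, hXb⟩
      intro g hg hgf
      by_cases hgv : g = v
      · rw [hgv]
      · rcases (hmemfr g hg hgv).2 with h5 | h5
        · exact absurd hgf h5.not_gt
        · exact (hvw.trans_le h5).le
    rcases hb with rfl | hb
    · -- b = v
      obtain ⟨_, h4, h5⟩ := (hadj f hford).1 hab.symm
      rcases hf3 with h6 | h6
      · exact hvcase (h.injY f hford u hu (le_antisymm h6 h4)) le_rfl
      · exact absurd h2 (hvw.trans_le h6).not_gt
    · by_cases hfu : f = u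
      · exact hvcase hfu (hXv b hb).le
      obtain ⟨l, hl, h3, h4, h5⟩ := h.succ f hff b hb hab h1 h2
      have hlfr : l ∈ fr' := by
        rw [hfr']
        right
        refine ⟨hl, ?_⟩
        rcases hf3 with h6 | h6
        · left
          have : Y f < Y u := hYlt f hford u hu hfu h6
          exact h4 u hB.hu this
        · exact Or.inr (h6.trans h3.le)
      refine ⟨l, hlfr, h3, ?_, h5⟩
      intro g hg hgf
      by_cases hgv : g = v
      · subst hgv
        rcases hf3 with h6 | h6
        · have : Y f < Y u := hYlt f hford u hu hfu h6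
          exact (h4 u hB.hu this).trans huv.le
        · exact absurd hgf (hvw.trans_le h6).not_gt
      · exact h4 g (hmemfr g hg hgv).1 hgf
  · -- gap
    intro x hx x' hx' h1 h2 q hq h3 h4
    rw [List.mem_cons] at hq
    rcases hq with rfl | hq
    · exact absurd h4 (h2 q hv' h3)
    by_cases hxv : x = v
    · rw [hxv]
      exact Or.inl (hXv q hq)
    by_cases hxv' : x' = v
    · rw [hxv']
      exact Or.inr (hXv q hq)
    obtain ⟨hxf, hx3⟩ := hmemfr x hx hxv
    obtain ⟨hxf', hx3'⟩ := hmemfr x' hx' hxv'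
    refine h.gap x hxf x' hxf' h1 ?_ q hq h3 h4
    intro g hg h5 h6
    rcases hx3' with h7 | h7
    · exact h2 g ((hfr' g).2 (Or.inr ⟨hg, Or.inl (h6.le.trans h7)⟩)) h5 h6
    · rcases hx3 with h8 | h8
      · exact h2 v hv' (h8.trans_lt huv) (hvw.trans_le h7)
      · exact h2 g ((hfr' g).2 (Or.inr ⟨hg, Or.inr (h8.trans h5.le)⟩)) h5 h6
  · -- side
    intro f hf a ha b hb hab h1 h2 h3
    rw [List.mem_cons] at ha hb
    rcases hb with rfl | hb
    · rcases ha with rfl | ha
      · exact absurd h1 (lt_irrefl _)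
      · have hfv : f ≠ b := fun e => by
          rw [e] at h2
          exact lt_irrefl _ h2
        obtain ⟨hff, hf3⟩ := hmemfr f hf hfv
        obtain ⟨h4, h5, h6⟩ := (hadj a ha).1 hab.symm
        rcases hf3 with h7 | h7
        · exact Or.inr ⟨hYlt f (h.sub f hff) a ha h3 (h7.trans h5), h7.trans_lt huv⟩
        · exact Or.inl ⟨hYlt a ha f (h.sub f hff) (Ne.symm h3) (h6.trans h7), hvw.trans_le h7⟩
    · rcases ha with rfl | ha
      · exact absurd h1 (hXv b hb).not_gt
      · have hfv : f ≠ v := fun e => by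
          rw [e] at h2
          exact h2.not_gt (hXv b hb)
        exact h.side f (hmemfr f hf hfv).1 a ha b hb hab h1 h2 h3
  · -- place
    intro a ha b hb c hc d hd hab hcd h1 h2 h3 h4
    rw [List.mem_cons] at ha hb hc hd
    rcases ha with rfl | ha
    · have hb' : b ∈ ord := by
        rcases hb with rfl | hb
        · exact absurd hab (T.loopless.irrefl _)
        · exact hb
      have hc' : c ∈ ord := by
        rcases hc with rfl | hc
        · exact absurd rfl h1
        · exact hc
      have hd' : d ∈ ord := by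
        rcases hd with rfl | hd
        · exact absurd rfl h2
        · exact hd
      exact (hcore' b hb' hab c hc' d hd' hcd (Ne.symm h3) (Ne.symm h4)).imp
        (fun h => Sep.swap1 (Sep.comm h)) (fun h => Sep.swap1 (Sep.comm h))
    rcases hb with rfl | hb
    · have hc' : c ∈ ord := by
        rcases hc with rfl | hc
        · exact absurd rfl h3
        · exact hc
      have hd' : d ∈ ord := by
        rcases hd with rfl | hd
        · exact absurd rfl h4
        · exact hd
      exact (hcore' a ha hab.symm c hc' d hd' hcd (Ne.symm h1) (Ne.symm h2)).imp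
        Sep.comm Sep.comm
    rcases hc with rfl | hc
    · have hd' : d ∈ ord := by
        rcases hd with rfl | hd
        · exact absurd hcd (T.loopless.irrefl _)
        · exact hd
      exact (hcore' d hd' hcd a ha b hb hab h2 h4).imp Sep.swap2 Sep.swap2
    rcases hd with rfl | hd
    · exact hcore' c hc hcd.symm a ha b hb hab h1 h3
    exact h.place a ha b hb c hc d hd hab hcd h1 h2 h3 h4
  · -- strong
    intro a ha b hb q hq hab h1 h2
    rw [List.mem_cons] at ha hb hq
    rcases ha with rfl | ha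
    · have hb' : b ∈ ord := by
        rcases hb with rfl | hb
        · exact absurd hab (T.loopless.irrefl _)
        · exact hb
      have hq' : q ∈ ord := by
        rcases hq with rfl | hq
        · exact absurd rfl h1
        · exact hq
      obtain ⟨h4, h5, h6⟩ := (hadj b hb').1 hab
      exact Outside.symm (hempty b h4 h5 h6 q hq' h2)
    rcases hb with rfl | hb
    · have hq' : q ∈ ord := by
        rcases hq with rfl | hq
        · exact absurd rfl h2
        · exact hq
      obtain ⟨h4, h5, h6⟩ := (hadj a ha).1 hab.symm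
      exact hempty a h4 h5 h6 q hq' h1
    rcases hq with rfl | hq
    · exact Or.inr (Or.inl ⟨hXv a ha, hXv b hb⟩)
    exact h.strong a ha b hb q hq hab h1 h2

/-! ## The facts about the block -/

/-- elements between `c` and `um` are older than `c` if the frontier is decreasing in age -/
theorem gap_dec {T : SimpleGraph W} {ord fr : List W} {X Y : W → ℚ} (h : Inv T ord fr X Y) :
    ∀ (K : List W) (c um : W) (P S : List W), fr = P ++ c :: (K ++ um :: S) →
      (c :: (K ++ [um])).Pairwise (fun a b => X b < X a) →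
      ∀ q ∈ ord, Y c < Y q → Y q < Y um → X q < X c := by
  intro K
  induction K with
  | nil =>
    intro c um P S hfr hp q hq h1 h2
    obtain ⟨h3, h4, h5⟩ := consec_le h.inc (x := c) (x' := um) (P := P) (S := S) (by simpa using hfr)
    have hc : c ∈ fr := by rw [hfr]; simp
    have hm : um ∈ fr := by rw [hfr]; simp
    rcases h.gap c hc um hm h3 (fun g hg h6 h7 => (h5 g hg h6).not_gt h7) q hq h1 h2 with h6 | h6
    · exact h6
    · exact h6.trans (by simpa using hp)
  | cons c' K ih =>
    intro c um P S hfr hp q hq h1 h2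
    rw [List.pairwise_cons] at hp
    have hcc : X c' < X c := hp.1 c' (by simp)
    obtain ⟨h3, h4, h5⟩ := consec_le h.inc (x := c) (x' := c') (P := P) (S := K ++ um :: S)
      (by simpa using hfr)
    have hc : c ∈ fr := by rw [hfr]; simp
    have hc' : c' ∈ fr := by rw [hfr]; simp
    rcases lt_trichotomy (Y q) (Y c') with h6 | h6 | h6
    · rcases h.gap c hc c' hc' h3 (fun g hg h6 h7 => (h5 g hg h6).not_gt h7) q hq h1 h6 with h7 | h7
      · exact h7
      · exact h7.trans hcc
    · have : q = c' := h.injY q hq c' (h.sub c' hc') h6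
      rw [this]
      exact hcc
    · refine (ih c' um (P ++ [c]) S (by rw [hfr]; simp) ?_ q hq h6 h2).trans hcc
      simpa using hp.2

/-- the left half of the block -/
theorem left_facts {T : SimpleGraph W} {ord fr A L1 S : List W} {X Y : W → ℚ} {um u : W}
    (h : Inv T ord fr X Y) (hfr : fr = A ++ (L1 ++ um :: S))
    (hu : ∃ L1', L1 = u :: L1' ∨ (L1 = [] ∧ u = um))
    (hdec : (L1 ++ [um]).Pairwise (fun a b => X b < X a)) :
    ∀ c ∈ fr, Y u ≤ Y c → Y c < Y um → c ∈ L1 ∧ X um < X c ∧
      ∀ q ∈ ord, Y c < Y q → Y q < Y um → X q < X c := by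
  intro c hc h1 h2
  have hcL : c ∈ L1 := by
    have h3 : c ∈ A ++ L1 := mem_left h.inc (P := A ++ L1) (S := S) (by rw [hfr]; simp) hc h2
    rw [List.mem_append] at h3
    rcases h3 with h3 | h3
    · obtain ⟨L1', h4 | h4⟩ := hu
      · have h5 := (split_lt h.inc (P := A) (x := u) (S := L1' ++ um :: S)
          (by rw [hfr, h4]; simp)).1 c h3
        exact absurd h1 h5.not_ge
      · rw [h4.2] at h1
        exact absurd h1 h2.not_ge
    · exact h3
  refine ⟨hcL, ?_, ?_⟩
  · rw [List.pairwise_append] at hdec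
    exact hdec.2.2 c hcL um (by simp)
  · obtain ⟨K1, K2, hK⟩ := List.append_of_mem hcL
    have hdec' : (c :: (K2 ++ [um])).Pairwise (fun a b => X b < X a) := by
      rw [hK, List.append_assoc, List.pairwise_append] at hdec
      simpa using hdec.2.1
    exact gap_dec h K2 c um (A ++ K1) S (by rw [hfr, hK]; simp) hdec'

theorem block_of {T : SimpleGraph W} {ord A B M L1 L2 : List W} {X Y : W → ℚ} {u w um p : W}
    (h : Inv T ord (A ++ u :: (M ++ w :: B)) X Y)
    (hL : u :: (M ++ [w]) = (L1 ++ [p]) ++ um :: L2)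
    (hdec : ((L1 ++ [p]) ++ [um]).Pairwise (fun a b => X b < X a))
    (hinc : (um :: L2).Pairwise (fun a b => X a < X b)) (hpr : ∀ c ∈ L2, X p < X c) :
    Block ord (A ++ u :: (M ++ w :: B)) X Y u w um p := by
  obtain ⟨fr, hfrdef⟩ : ∃ fr, fr = A ++ u :: (M ++ w :: B) := ⟨_, rfl⟩
  rw [← hfrdef] at h ⊢
  have hfr : fr = A ++ ((L1 ++ [p]) ++ um :: (L2 ++ B)) := by
    have : u :: (M ++ w :: B) = (u :: (M ++ [w])) ++ B := by simp
    rw [hfrdef, this, hL]
    simp
  have hfr2 : fr = (A ++ L1) ++ p :: um :: (L2 ++ B) := by rw [hfr]; simp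
  have hhead : ∃ L1', L1 ++ [p] = u :: L1' := by
    cases L1 with
    | nil =>
      simp only [List.nil_append, List.singleton_append, List.cons.injEq] at hL
      exact ⟨[], by rw [← hL.1]; rfl⟩
    | cons x L1 =>
      simp only [List.cons_append, List.cons.injEq] at hL
      exact ⟨L1 ++ [p], by rw [← hL.1]; rfl⟩
  have hlast : (L2 = [] ∧ w = um) ∨ ∃ L2', L2 = L2' ++ [w] := by
    have hL2 : (u :: M) ++ [w] = (L1 ++ [p]) ++ um :: L2 := by simpa using hL
    rcases nil_or_snoc L2 with h1 | ⟨L2', z, h1⟩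
    · left
      rw [h1] at hL2
      exact ⟨h1, (snoc_inj hL2).2⟩
    · right
      have : (L1 ++ [p]) ++ um :: L2 = ((L1 ++ [p]) ++ um :: L2') ++ [z] := by rw [h1]; simp
      rw [this] at hL2
      exact ⟨L2', by rw [h1, (snoc_inj hL2).2]⟩
  have hconsec := consec_le h.inc hfr2
  have hum_split := split_lt h.inc (P := A ++ (L1 ++ [p])) (x := um) (S := L2 ++ B)
    (by rw [hfr]; simp)
  have humfr : um ∈ fr := by rw [hfr]; simp
  have hrev : fr.reverse = B.reverse ++ (L2.reverse ++ um :: ((L1 ++ [p]).reverse ++ A.reverse)) := by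
    rw [hfr]; simp
  have hR := left_facts (u := w) (um := um) (A := B.reverse) (L1 := L2.reverse) h.mirror hrev ?_ ?_
  · refine ⟨by rw [hfrdef]; simp, by rw [hfrdef]; simp, humfr, by rw [hfr]; simp, ?_, hconsec.1,
      ?_, ?_, ?_, hconsec.2.1⟩
    · -- u ≤ p
      have hup : u ∈ L1 ++ [p] := by
        obtain ⟨L1', h1⟩ := hhead
        rw [h1]; simp
      rw [List.mem_append, List.mem_singleton] at hup
      rcases hup with h1 | h1
      · exact ((split_lt h.inc hfr2).1 u (by simp [h1])).le
      · rw [h1]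
    · -- um ≤ w
      rcases hlast with ⟨_, h1⟩ | ⟨L2', h1⟩
      · rw [h1]
      · exact (hum_split.2 w (by rw [h1]; simp)).le
    · intro c hc h1 h2
      have hu : ∃ L1', (L1 ++ [p]) = u :: L1' ∨ ((L1 ++ [p]) = [] ∧ u = um) := by
        obtain ⟨L1', h1⟩ := hhead
        exact ⟨L1', Or.inl h1⟩
      exact (left_facts h hfr hu hdec c hc h1 h2).2
    · intro c hc h1 h2
      obtain ⟨h3, h4, h5⟩ := hR c (List.mem_reverse.2 hc) (by simpa using h2) (by simpa using h1)
      refine ⟨h4, hpr c (List.mem_reverse.1 h3), ?_⟩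
      intro q hq h6 h7
      exact h5 q hq (by simpa using h7) (by simpa using h6)
  · rcases hlast with ⟨h1, h2⟩ | ⟨L2', h1⟩
    · exact ⟨[], Or.inr ⟨by rw [h1]; rfl, h2⟩⟩
    · exact ⟨L2'.reverse, Or.inl (by rw [h1]; simp)⟩
  · have : L2.reverse ++ [um] = (um :: L2).reverse := by simp
    rw [this, List.pairwise_reverse]
    exact hinc

theorem Block.congr {ord fr : List W} {X Y X' Y' : W → ℚ} {u w um p : W}
    (h : Block ord fr X Y u w um p) (hsub : ∀ f ∈ fr, f ∈ ord)
    (hX : ∀ a ∈ ord, X' a = X a) (hY : ∀ a ∈ ord, Y' a = Y a) :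
    Block ord fr X' Y' u w um p := by
  have hYf : ∀ f ∈ fr, Y' f = Y f := fun f hf => hY f (hsub f hf)
  have hXf : ∀ f ∈ fr, X' f = X f := fun f hf => hX f (hsub f hf)
  refine ⟨h.hu, h.hw, h.hum, h.hp, ?_, ?_, ?_, ?_, ?_, ?_⟩
  · rw [hYf u h.hu, hYf p h.hp]; exact h.up
  · rw [hYf um h.hum, hYf p h.hp]; exact h.pm
  · rw [hYf um h.hum, hYf w h.hw]; exact h.mw
  · intro c hc h1 h2
    rw [hYf u h.hu, hYf c hc] at h1
    rw [hYf um h.hum, hYf c hc] at h2
    rw [hXf um h.hum, hXf c hc]
    refine ⟨(h.left c hc h1 h2).1, ?_⟩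
    intro q hq h3 h4
    rw [hYf c hc, hY q hq] at h3
    rw [hYf um h.hum, hY q hq] at h4
    rw [hX q hq]
    exact (h.left c hc h1 h2).2 q hq h3 h4
  · intro c hc h1 h2
    rw [hYf w h.hw, hYf c hc] at h2
    rw [hYf um h.hum, hYf c hc] at h1
    rw [hXf um h.hum, hXf c hc, hXf p h.hp]
    refine ⟨(h.right c hc h1 h2).1, (h.right c hc h1 h2).2.1, ?_⟩
    intro q hq h3 h4
    rw [hYf c hc, hY q hq] at h4
    rw [hYf um h.hum, hY q hq] at h3
    rw [hX q hq]
    exact (h.right c hc h1 h2).2.2 q hq h3 h4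
  · intro g hg h1
    rw [hYf g hg, hYf um h.hum] at h1
    rw [hYf g hg, hYf p h.hp]
    exact h.near g hg h1

open Classical in
theorem do_below {T : SimpleGraph W} {ord A B M : List W} {X Y : W → ℚ} {u w um p v : W}
    (h : Inv T ord (A ++ u :: (M ++ w :: B)) X Y)
    (hB : Block ord (A ++ u :: (M ++ w :: B)) X Y u w um p) (hv : v ∉ ord)
    (hadj : ∀ x ∈ ord, T.Adj v x ↔ (x = u ∨ x ∈ M ∨ x = w)) :
    ∃ X' Y' : W → ℚ, Inv T (v :: ord) (A ++ u :: v :: w :: B) X' Y' := by
  obtain ⟨t, ht⟩ := exists_upper X ord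
  obtain ⟨y, hy1, hy2⟩ := exists_below Y (Y um) ord
  set X' : W → ℚ := Function.update X v t with hX'
  set Y' : W → ℚ := Function.update Y v y with hY'
  have hne : ∀ a ∈ ord, a ≠ v := fun a ha e => hv (e ▸ ha)
  have hXX : ∀ a ∈ ord, X' a = X a := fun a ha => Function.update_of_ne (hne a ha) _ _
  have hYY : ∀ a ∈ ord, Y' a = Y a := fun a ha => Function.update_of_ne (hne a ha) _ _
  have hXv : X' v = t := Function.update_self _ _ _
  have hYv : Y' v = y := Function.update_self _ _ _
  have hI := h.congr hXX hYY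
  have hB' := hB.congr h.sub hXX hYY
  refine ⟨X', Y', ?_⟩
  obtain ⟨fr, hfr⟩ : ∃ fr, fr = A ++ u :: (M ++ w :: B) := ⟨_, rfl⟩
  rw [← hfr] at hI hB'
  have hsu := split_lt hI.inc hfr
  have hsw := split_lt hI.inc (P := A ++ u :: M) (x := w) (S := B) (by rw [hfr]; simp)
  have hum := hI.sub um hB'.hum
  have hu := hI.sub u hB'.hu
  have hY1 : Y' v < Y' um := by
    rw [hYv, hYY um hum]
    exact hy1
  have hY2 : ∀ q ∈ ord, Y' q < Y' um → Y' q < Y' v := by
    intro q hq h1
    rw [hYY q hq, hYY um hum] at h1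
    rw [hYv, hYY q hq]
    exact hy2 q hq h1
  have huv : Y' u < Y' v := hY2 u hu (hB'.up.trans_lt hB'.pm)
  have hvw : Y' v < Y' w := hY1.trans_le hB'.mw
  refine step_below hI hB' ?_ ?_ hY1 hY2 ?_ ?_
  · intro x hx
    rw [hadj x hx]
    constructor
    · rintro (h1 | h1 | h1)
      · rw [h1]
        exact ⟨hB'.hu, le_rfl, (huv.trans hvw).le⟩
      · exact ⟨by rw [hfr]; simp [h1], (hsu.2 x (by simp [h1])).le, (hsw.1 x (by simp [h1])).le⟩
      · rw [h1]
        exact ⟨hB'.hw, (huv.trans hvw).le, le_rfl⟩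
    · rintro ⟨h1, h2, h3⟩
      rw [hfr] at h1
      simp only [List.mem_append, List.mem_cons] at h1
      rcases h1 with h1 | h1 | h1 | h1 | h1
      · exact absurd h2 (hsu.1 x h1).not_ge
      · exact Or.inl h1
      · exact Or.inr (Or.inl h1)
      · exact Or.inr (Or.inr h1)
      · exact absurd h3 (hsw.2 x h1).not_ge
  · intro q hq
    rw [hXv, hXX q hq]
    exact ht q hq
  · intro f
    simp only [List.mem_append, List.mem_cons]
    constructor
    · rintro (h1 | h1 | h1 | h1 | h1)
      · exact Or.inr ⟨by rw [hfr]; simp [h1], Or.inl (hsu.1 f h1).le⟩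
      · exact Or.inr ⟨by rw [h1]; exact hB'.hu, Or.inl (by rw [h1])⟩
      · exact Or.inl h1
      · exact Or.inr ⟨by rw [h1]; exact hB'.hw, Or.inr (by rw [h1])⟩
      · exact Or.inr ⟨by rw [hfr]; simp [h1], Or.inr (hsw.2 f h1).le⟩
    · rintro (h1 | ⟨h1, h2⟩)
      · exact Or.inr (Or.inr (Or.inl h1))
      · rw [hfr] at h1
        simp only [List.mem_append, List.mem_cons] at h1
        rcases h1 with h1 | h1 | h1 | h1 | h1
        · exact Or.inl h1
        · exact Or.inr (Or.inl h1)
        · exfalso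
          have h3 := hsu.2 f (by simp [h1])
          have h4 := hsw.1 f (by simp [h1])
          rcases h2 with h2 | h2
          · exact absurd h2 h3.not_ge
          · exact absurd h2 h4.not_ge
        · exact Or.inr (Or.inr (Or.inr (Or.inl h1)))
        · exact Or.inr (Or.inr (Or.inr (Or.inr h1)))
  · have h1 := hI.inc
    rw [hfr, List.pairwise_append] at h1
    have h2 := h1.2.1
    rw [List.pairwise_cons, List.pairwise_append] at h2
    have h3 := h2.2.2.1
    rw [List.pairwise_cons] at h3
    rw [List.pairwise_append, List.pairwise_cons, List.pairwise_cons, List.pairwise_cons]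
    refine ⟨h1.1, ⟨?_, ?_, h3⟩, ?_⟩
    · intro a ha
      simp only [List.mem_cons] at ha
      rcases ha with rfl | rfl | ha
      · exact huv
      · exact huv.trans hvw
      · exact (huv.trans hvw).trans (h3.1 a ha)
    · intro a ha
      simp only [List.mem_cons] at ha
      rcases ha with rfl | ha
      · exact hvw
      · exact hvw.trans (h3.1 a ha)
    · intro a ha b hb
      simp only [List.mem_cons] at hb
      have h4 := hsu.1 a ha
      rcases hb with rfl | rfl | rfl | hb
      · exact h4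
      · exact h4.trans huv
      · exact h4.trans (huv.trans hvw)
      · exact h4.trans ((huv.trans hvw).trans (h3.1 b hb))

/-- one step of the construction -/
theorem do_step {T : SimpleGraph W} {ord A B M : List W} {X Y : W → ℚ} {u w v : W}
    (h : Inv T ord (A ++ u :: (M ++ w :: B)) X Y) (hv : v ∉ ord)
    (hadj : ∀ x ∈ ord, T.Adj v x ↔ (x = u ∨ x ∈ M ∨ x = w))
    (hM : ∀ m ∈ M, ∃ l₁ m' l₂, ord = l₁ ++ m' :: l₂ ∧ m ∈ l₂ ∧ T.Adj m m') :
    ∃ X' Y' : W → ℚ, Inv T (v :: ord) (A ++ u :: v :: w :: B) X' Y' := by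
  have hXinj := inj_of_pairwise h.ordX
  have hM' : ∀ m ∈ M, ∃ b ∈ ord, T.Adj m b ∧ X m < X b := by
    intro m hm
    obtain ⟨l₁, m', l₂, h1, h2, h3⟩ := hM m hm
    refine ⟨m', by rw [h1]; simp, h3, ?_⟩
    have h4 := h.ordX
    rw [h1, List.pairwise_append, List.pairwise_cons] at h4
    exact h4.2.1.1 m h2
  obtain ⟨fr, hfr⟩ : ∃ fr, fr = A ++ u :: (M ++ w :: B) := ⟨_, rfl⟩
  have hfrL : fr = A ++ ((u :: (M ++ [w])) ++ B) := by rw [hfr]; simp
  have hinc : fr.Pairwise (fun a b => Y a < Y b) := by rw [hfr]; exact h.inc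
  have hsub : ∀ f ∈ fr, f ∈ ord := by rw [hfr]; exact h.sub
  -- no interior local maximum
  have hN : NoMax X (u :: (M ++ [w])) := by
    intro P p y n S hL
    have hy : y ∈ M := by
      cases P with
      | nil =>
        simp only [List.nil_append, List.cons.injEq] at hL
        cases M with
        | nil => simp at hL
        | cons a M =>
          simp only [List.cons_append, List.cons.injEq] at hL
          simp [hL.2.1]
      | cons x P =>
        simp only [List.cons_append, List.cons.injEq] at hL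
        have h1 : M ++ [w] = (P ++ [p, y]) ++ n :: S := by rw [hL.2]; simp
        rcases nil_or_snoc (n :: S) with h2 | ⟨S', z, h2⟩
        · simp at h2
        · rw [h2, ← List.append_assoc] at h1
          rw [(snoc_inj h1).1]; simp
    have hfr2 : fr = (A ++ P) ++ p :: y :: (n :: (S ++ B)) := by
      rw [hfrL, hL]; simp
    have hfr3 : fr = (A ++ P ++ [p]) ++ y :: n :: (S ++ B) := by
      rw [hfrL, hL]; simp
    have c1 := consec_le hinc hfr2
    have c2 := consec_le hinc hfr3
    have hpf : p ∈ fr := by rw [hfr2]; simp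
    have hyf : y ∈ fr := by rw [hfr2]; simp
    have hnf : n ∈ fr := by rw [hfr3]; simp
    obtain ⟨b, hb, hyb, hX⟩ := hM' y hy
    have hYne : Y b ≠ Y y := fun e => hyb.ne (h.injY b hb y (hsub y hyf) e).symm
    rcases lt_or_gt_of_ne hYne with h1 | h1
    · left
      obtain ⟨l, hl, h2, h3, h4⟩ := h.pred y (by rw [← hfr]; exact hyf) b hb hyb hX h1
      rw [← hfr] at hl h3
      have h5 : l = p := h.injY l (hsub l hl) p (hsub p hpf)
        (le_antisymm (c1.2.1 l hl h2) (h3 p hpf c1.1))
      rw [← h5]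
      exact hX.trans_le h4
    · right
      obtain ⟨l, hl, h2, h3, h4⟩ := h.succ y (by rw [← hfr]; exact hyf) b hb hyb hX h1
      rw [← hfr] at hl h3
      have h5 : l = n := h.injY l (hsub l hl) n (hsub n hnf)
        (le_antisymm (h3 n hnf c2.1) (c2.2.2 l hl h2))
      rw [← h5]
      exact hX.trans_le h4
  have hne : (u :: (M ++ [w])).Pairwise (fun a b => X a ≠ X b) := by
    have h1 := hinc
    rw [hfrL, List.pairwise_append, List.pairwise_append] at h1
    refine h1.2.1.1.imp_of_mem ?_
    intro a b ha hb hab e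
    have ha' : a ∈ fr := by
      rw [hfrL, List.mem_append, List.mem_append]; exact Or.inr (Or.inl ha)
    have hb' : b ∈ fr := by
      rw [hfrL, List.mem_append, List.mem_append]; exact Or.inr (Or.inl hb)
    rw [hXinj a (hsub a ha') b (hsub b hb') e] at hab
    exact lt_irrefl _ hab
  obtain ⟨L1, um, L2, hL, hdec, hincr⟩ := valley_list (X := X) _ (by simp) hne hN
  -- the two cases
  have hcase : (∃ L1' p, L1 = L1' ++ [p] ∧ ∀ c ∈ L2, X p < X c) ∨
      (∃ r L2', L2 = r :: L2' ∧ ∀ c ∈ L1, X r < X c) := by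
    rcases nil_or_snoc L1 with h1 | ⟨L1', p, h1⟩
    · right
      cases L2 with
      | nil =>
        rw [h1] at hL
        simp at hL
      | cons r L2' => exact ⟨r, L2', rfl, by rw [h1]; simp⟩
    · cases L2 with
      | nil => exact Or.inl ⟨L1', p, h1, by simp⟩
      | cons r L2' =>
        have hpr : X p ≠ X r := by
          rw [hL, h1] at hne
          rw [List.pairwise_append] at hne
          exact hne.2.2 p (by simp) r (by simp)
        have hr : ∀ c ∈ r :: L2', X r ≤ X c := by
          intro c hc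
          rw [List.mem_cons] at hc
          rcases hc with rfl | hc
          · exact le_rfl
          · have := hincr
            rw [List.pairwise_cons, List.pairwise_cons] at this
            exact (this.2.1 c hc).le
        have hp : ∀ c ∈ L1, X p ≤ X c := by
          intro c hc
          rw [h1, List.mem_append, List.mem_singleton] at hc
          rcases hc with hc | rfl
          · have := hdec
            rw [h1, List.append_assoc, List.pairwise_append] at this
            exact (this.2.2 c hc p (by simp)).le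
          · exact le_rfl
        rcases lt_or_gt_of_ne hpr with h2 | h2
        · exact Or.inl ⟨L1', p, h1, fun c hc => h2.trans_le (hr c hc)⟩
        · exact Or.inr ⟨r, L2', rfl, fun c hc => h2.trans_le (hp c hc)⟩
  rcases hcase with ⟨L1', p, h1, h2⟩ | ⟨r, L2', h1, h2⟩
  · rw [h1] at hL hdec
    exact do_below h (block_of h hL hdec hincr h2) hv hadj
  · have hm := h.mirror
    have hrev : (A ++ u :: (M ++ w :: B)).reverse =
        B.reverse ++ w :: (M.reverse ++ u :: A.reverse) := by simp
    rw [hrev] at hm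
    have hL' : w :: (M.reverse ++ [u]) = (L2'.reverse ++ [r]) ++ um :: L1.reverse := by
      have : (u :: (M ++ [w])).reverse = (L1 ++ um :: L2).reverse := by rw [hL]
      rw [h1] at this
      simpa using this
    have hdec' : ((L2'.reverse ++ [r]) ++ [um]).Pairwise (fun a b => X b < X a) := by
      have : (L2'.reverse ++ [r]) ++ [um] = (um :: r :: L2').reverse := by simp
      rw [this, List.pairwise_reverse, ← h1]
      exact hincr
    have hincr' : (um :: L1.reverse).Pairwise (fun a b => X a < X b) := by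
      have : um :: L1.reverse = (L1 ++ [um]).reverse := by simp
      rw [this, List.pairwise_reverse]
      exact hdec
    have hblock := block_of hm hL' hdec' hincr' (fun c hc => h2 c (List.mem_reverse.1 hc))
    obtain ⟨X', Y', hI⟩ := do_below hm hblock hv (fun x hx => by
      rw [hadj x hx, List.mem_reverse]
      tauto)
    refine ⟨X', fun a => -Y' a, ?_⟩
    have := hI.mirror
    have hrev' : (B.reverse ++ w :: v :: u :: A.reverse).reverse = A ++ u :: v :: w :: B := by
      simp
    rwa [hrev'] at this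

open Classical in
theorem main {T : SimpleGraph W} {ord fr : List W} (h : Canon T ord fr) :
    ∃ X Y : W → ℚ, Inv T ord fr X Y := by
  induction h with
  | base u v huv =>
    have hne : u ≠ v := huv.ne
    have hu : (fun a => if a = v then (1 : ℚ) else 0) u = 0 := by simp [hne]
    have hv : (fun a => if a = v then (1 : ℚ) else 0) v = 1 := by simp
    refine ⟨fun a => if a = v then 1 else 0, fun a => if a = v then 1 else 0, ?_⟩
    generalize (fun a => if a = v then (1 : ℚ) else 0) = Z at hu hv
    have key : ∀ a ∈ [v, u], ∀ b ∈ [v, u], Z a < Z b → a = u ∧ b = v := by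
      intro a ha b hb hab
      simp only [List.mem_cons, List.not_mem_nil, or_false] at ha hb
      rcases ha with rfl | rfl <;> rcases hb with rfl | rfl
      · exact absurd hab (lt_irrefl _)
      · rw [hu, hv] at hab; norm_num at hab
      · exact ⟨rfl, rfl⟩
      · exact absurd hab (lt_irrefl _)
    have hsub : ∀ f ∈ [u, v], f ∈ [v, u] := by
      intro f hf
      simp only [List.mem_cons, List.not_mem_nil, or_false] at hf ⊢
      tauto
    have hlt : Z u < Z v := by rw [hu, hv]; norm_num
    refine ⟨by simpa using hlt, ?_, hsub, by simpa using hlt, ?_, ?_, ?_, ?_, ?_, ?_⟩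
    · intro a ha b hb hab
      simp only [List.mem_cons, List.not_mem_nil, or_false] at ha hb
      rcases ha with rfl | rfl <;> rcases hb with rfl | rfl
      · rfl
      · exact absurd hab hlt.ne'
      · exact absurd hab hlt.ne
      · rfl
    · intro f hf b hb _ h1 h2
      exact absurd h2 h1.not_gt
    · intro f hf b hb _ h1 _
      obtain ⟨rfl, rfl⟩ := key f (hsub f hf) b hb h1
      refine ⟨b, by simp, h1, ?_, le_rfl⟩
      intro g hg h2
      rw [(key f (hsub f hf) g (hsub g hg) h2).2]
    · intro x hx x' hx' _ _ q hq h1 h2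
      obtain ⟨_, rfl⟩ := key x (hsub x hx) q hq h1
      exact absurd (key q hq x' (hsub x' hx') h2).1 hne.symm
    · intro f hf a ha b hb _ h1 h2 h3
      obtain ⟨rfl, rfl⟩ := key a ha b hb h1
      exact absurd (key f (hsub f hf) b hb h2).1 h3
    · intro a ha b hb c hc d hd _ hcd h1 h2 _ _
      simp only [List.mem_cons, List.not_mem_nil, or_false] at ha hb hc hd
      exfalso
      rcases ha with rfl | rfl <;> rcases hc with rfl | rfl <;> rcases hd with rfl | rfl <;>
        first
          | exact h1 rfl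
          | exact h2 rfl
          | exact hcd.ne rfl
    · intro a ha b hb q hq hab h1 h2
      simp only [List.mem_cons, List.not_mem_nil, or_false] at ha hb hq
      exfalso
      rcases ha with rfl | rfl <;> rcases hb with rfl | rfl <;> rcases hq with rfl | rfl <;>
        first
          | exact h1 rfl
          | exact h2 rfl
          | exact hab.ne rfl
  | step ord A M B u v w _ hv hadj hM ih =>
    obtain ⟨X, Y, hI⟩ := ih
    exact do_step hI hv hadj hM

end Pool.Agent.MP_cdcb37.Pla

namespace Pool.Agent.MP_cdcb37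

theorem specPla : SpecPla := by
  intro W T ord fr hC
  obtain ⟨X, Y, h⟩ := Pla.main hC
  exact ⟨X, Y, Pla.inj_of_pairwise h.ordX, h.injY, h.place, h.strong⟩

end Pool.Agent.MP_cdcb37
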