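import Pool.Agent.Lib.MP_cdcb37_lc.Spec

/-!
# Module RED1: a placement of `G` gives a strong placement of the core
-/

namespace Pool.Agent.MP_cdcb37

open Finset

/-- Positions can be replaced by injective natural numbers, breaking ties arbitrarily. -/
theorem red1_rank {V : Type} [Fintype V] [LinearOrder V] (X : V → ℚ) :
    ∃ X' : V → ℕ, Function.Injective X' ∧ (∀ a b, X a < X b → X' a < X' b) ∧
      ∀ a, X' a < Fintype.card V := by
  classical
  let L : V → ℚ ×ₗ V := fun v => toLex (X v, v)
  have hL : Function.Injective L := by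
    intro a b h
    have := congrArg (fun p => (ofLex p).2) h
    simpa [L] using this
  have key : ∀ a b, L a < L b →
      (univ.filter fun v => L v < L a).card < (univ.filter fun v => L v < L b).card := by
    intro a b hab
    apply Finset.card_lt_card
    refine ⟨fun v hv => ?_, fun h => ?_⟩
    · simp only [mem_filter, mem_univ, true_and] at hv ⊢
      exact hv.trans hab
    · have := h (show a ∈ univ.filter fun v => L v < L b by simpa using hab)
      simp at this
  refine ⟨fun a => (univ.filter fun v => L v < L a).card, ?_, ?_, ?_⟩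
  · intro a b hab
    rcases lt_trichotomy (L a) (L b) with h | h | h
    · exact absurd hab (key _ _ h).ne
    · exact hL h
    · exact absurd hab (key _ _ h).ne'
  · intro a b hab
    apply key
    simp only [L, Prod.Lex.toLex_lt_toLex]
    exact Or.inl hab
  · intro a
    refine Finset.card_lt_univ_of_notMem (x := a) ?_
    simp

theorem red1_sep {V α β : Type} [LT α] [LT β] {X : V → α} {X' : V → β}
    (h : ∀ a b, X a < X b → X' a < X' b) {a b c d : V} (hs : Sep X a b c d) :
    Sep X' a b c d := by
  rcases hs with ⟨h1, h2, h3, h4⟩ | ⟨h1, h2, h3, h4⟩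
  · exact Or.inl ⟨h _ _ h1, h _ _ h2, h _ _ h3, h _ _ h4⟩
  · exact Or.inr ⟨h _ _ h1, h _ _ h2, h _ _ h3, h _ _ h4⟩

/-- In a triangle `a b q` with `a < q` and `N(a) = {b, q}` one of `a`, `b` is removed. -/
theorem red1_aux {V : Type} [LinearOrder V] (G : SimpleGraph V) {a b q : V}
    (hab : G.Adj a b) (hqa : G.Adj q a) (hqb : G.Adj q b) (ha : ¬ Rem G a) (hb : ¬ Rem G b)
    (h1 : ¬ q < a) (h2 : ∀ x, x ≠ b → x ≠ q → ¬ G.Adj a x) : False := by
  have hNa : ∀ x, G.Adj a x → x = b ∨ x = q := by
    intro x hx
    by_contra h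
    push Not at h
    exact h2 x h.1 h.2 hx
  have haq : a < q := lt_of_le_of_ne (not_lt.1 h1) hqa.ne'
  have h3 : ¬ (a < b ∨ ∃ x, x ≠ q ∧ x ≠ a ∧ G.Adj b x) := by
    intro h
    exact ha (Or.inr ⟨b, q, hab, hqa.symm, hqb.symm, hNa, h, Or.inl haq⟩)
  push Not at h3
  have hba : b < a := lt_of_le_of_ne h3.1 hab.ne'
  apply hb
  refine Or.inr ⟨a, q, hab.symm, hqb.symm, hqa.symm, ?_, Or.inl hba, Or.inl (hba.trans haq)⟩
  intro x hx
  by_contra h
  push Not at h
  exact h3.2 x h.2 h.1 hx

theorem specRed1 : SpecRed1 := by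
  intro V _ _ G X Y hXY
  classical
  obtain ⟨X', iX, mX, bX⟩ := red1_rank X
  obtain ⟨Y', iY, mY, bY⟩ := red1_rank Y
  have hp : Place G X' Y' := by
    intro a b c d hab hcd h1 h2 h3 h4
    rcases hXY a b c d hab hcd h1 h2 h3 h4 with h | h
    · exact Or.inl (red1_sep mX h)
    · exact Or.inr (red1_sep mY h)
  let Iso : V → Prop := fun v => ∀ x, ¬ (core G).Adj v x
  let M := Fintype.card V
  have inj : ∀ Z : V → ℕ, Function.Injective Z → (∀ a, Z a < M) →
      Function.Injective (fun v => if Iso v then Z v + M else Z v) := by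
    intro Z iZ bZ a b h
    have ha := bZ a
    have hb := bZ b
    simp only at h
    split_ifs at h with h1 h2 h2
    · exact iZ (by omega)
    · omega
    · omega
    · exact iZ h
  refine ⟨fun v => if Iso v then X' v + M else X' v, fun v => if Iso v then Y' v + M else Y' v,
    inj X' iX bX, inj Y' iY bY, ?_, ?_⟩
  · intro a b c d hab hcd h1 h2 h3 h4
    have na : ¬ Iso a := fun h => h _ hab
    have nb : ¬ Iso b := fun h => h _ hab.symm
    have nc : ¬ Iso c := fun h => h _ hcd
    have nd : ¬ Iso d := fun h => h _ hcd.symm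
    have := hp a b c d hab.1 hcd.1 h1 h2 h3 h4
    unfold Sep at this ⊢
    simpa only [if_neg na, if_neg nb, if_neg nc, if_neg nd] using this
  · intro a b q hab hqa hqb
    have na : ¬ Iso a := fun h => h _ hab
    have nb : ¬ Iso b := fun h => h _ hab.symm
    have Xa := bX a
    have Xb := bX b
    by_cases hq : Iso q
    · unfold Outside
      simp only [if_neg na, if_neg nb, if_pos hq]
      omega
    suffices h : Outside X' Y' a b q by
      unfold Outside at h ⊢
      simpa only [if_neg na, if_neg nb, if_neg hq] using h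
    by_contra hout
    have hN : ∀ x, G.Adj q x → x = a ∨ x = b := by
      intro x hx
      by_contra h
      push Not at h
      have := hp a b q x hab.1 hx hqa.symm h.1.symm hqb.symm h.2.symm
      unfold Sep at this
      unfold Outside at hout
      omega
    have hra := hab.2.1
    have hrb := hab.2.2
    have hnq : ¬ ∀ x, ¬ (core G).Adj q x := hq
    push Not at hnq
    obtain ⟨x, hx⟩ := hnq
    have hrq : ¬ Rem G q := hx.2.1
    by_cases h1 : G.Adj q a
    · by_cases h2 : G.Adj q b
      · have hE : ¬ Ear G q := fun h => hrq (Or.inr h)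
        have h3 : ¬ ((q < a ∨ ∃ x, x ≠ b ∧ x ≠ q ∧ G.Adj a x) ∧
            (q < b ∨ ∃ x, x ≠ a ∧ x ≠ q ∧ G.Adj b x)) := by
          intro h
          exact hE ⟨a, b, h1, h2, hab.1, hN, h.1, h.2⟩
        rw [not_and_or] at h3
        rcases h3 with h3 | h3
        · push Not at h3
          exact red1_aux G hab.1 h1 h2 hra hrb (not_lt.2 h3.1) h3.2
        · push Not at h3
          exact red1_aux G hab.1.symm h2 h1 hrb hra (not_lt.2 h3.1) h3.2
      · exact hrq (Or.inl ⟨a, h1, fun y hy => (hN y hy).resolve_right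
          (fun h => h2 (h ▸ hy)), b, hqb.symm, hab.1⟩)
    · by_cases h2 : G.Adj q b
      · exact hrq (Or.inl ⟨b, h2, fun y hy => (hN y hy).resolve_left
          (fun h => h1 (h ▸ hy)), a, hqa.symm, hab.1.symm⟩)
      · rcases hN x hx.1 with rfl | rfl
        · exact h1 hx.1
        · exact h2 hx.1

end Pool.Agent.MP_cdcb37
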