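import Pool.Agent.Lib.MP_cdcb37_lc.Spec

/-!
# Module RED2: putting the removed vertices back
-/

namespace Pool.Agent.MP_cdcb37

namespace Red2

open Finset

/-- The boxes spanned by `p, q` and by `r, s` are separated. -/
def S4 (p q r s : ℚ × ℚ) : Prop :=
  (p.1 < r.1 ∧ p.1 < s.1 ∧ q.1 < r.1 ∧ q.1 < s.1) ∨
    (r.1 < p.1 ∧ r.1 < q.1 ∧ s.1 < p.1 ∧ s.1 < q.1) ∨
    (p.2 < r.2 ∧ p.2 < s.2 ∧ q.2 < r.2 ∧ q.2 < s.2) ∨
    (r.2 < p.2 ∧ r.2 < q.2 ∧ s.2 < p.2 ∧ s.2 < q.2)

theorem S4.swap {p q r s : ℚ × ℚ} (h : S4 p q r s) : S4 r s p q := by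
  rcases h with ⟨a, b, c, d⟩ | ⟨a, b, c, d⟩ | ⟨a, b, c, d⟩ | ⟨a, b, c, d⟩
  · exact Or.inr (Or.inl ⟨a, b, c, d⟩)
  · exact Or.inl ⟨a, b, c, d⟩
  · exact Or.inr (Or.inr (Or.inr ⟨a, b, c, d⟩))
  · exact Or.inr (Or.inr (Or.inl ⟨a, b, c, d⟩))

theorem S4.fst {p q r s : ℚ × ℚ} (h : S4 p q r s) : S4 q p r s := by
  rcases h with ⟨a, b, c, d⟩ | ⟨a, b, c, d⟩ | ⟨a, b, c, d⟩ | ⟨a, b, c, d⟩
  · exact Or.inl ⟨c, d, a, b⟩
  · exact Or.inr (Or.inl ⟨b, a, d, c⟩)
  · exact Or.inr (Or.inr (Or.inl ⟨c, d, a, b⟩))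
  · exact Or.inr (Or.inr (Or.inr ⟨b, a, d, c⟩))

theorem S4.snd {p q r s : ℚ × ℚ} (h : S4 p q r s) : S4 p q s r := by
  rcases h with ⟨a, b, c, d⟩ | ⟨a, b, c, d⟩ | ⟨a, b, c, d⟩ | ⟨a, b, c, d⟩
  · exact Or.inl ⟨b, a, d, c⟩
  · exact Or.inr (Or.inl ⟨c, d, a, b⟩)
  · exact Or.inr (Or.inr (Or.inl ⟨b, a, d, c⟩))
  · exact Or.inr (Or.inr (Or.inr ⟨c, d, a, b⟩))

/-- Reflection of the plane. -/
def mir (p : ℚ × ℚ) : ℚ × ℚ := (p.1, -p.2)

theorem S4.mir {p q r s : ℚ × ℚ} (h : S4 p q r s) : S4 (mir p) (mir q) (mir r) (mir s) := by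
  unfold S4 Red2.mir
  simp only [neg_lt_neg_iff]
  rcases h with ⟨a, b, c, d⟩ | ⟨a, b, c, d⟩ | ⟨a, b, c, d⟩ | ⟨a, b, c, d⟩
  · exact Or.inl ⟨a, b, c, d⟩
  · exact Or.inr (Or.inl ⟨a, b, c, d⟩)
  · exact Or.inr (Or.inr (Or.inr ⟨a, c, b, d⟩))
  · exact Or.inr (Or.inr (Or.inl ⟨a, c, b, d⟩))

theorem mir_mir (p : ℚ × ℚ) : mir (mir p) = p := by simp [mir]

/-- `p` is in the closed box spanned by `a` and `b`. -/
def Ins (p a b : ℚ × ℚ) : Prop :=
  ((a.1 ≤ p.1 ∧ p.1 ≤ b.1) ∨ (b.1 ≤ p.1 ∧ p.1 ≤ a.1)) ∧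
    ((a.2 ≤ p.2 ∧ p.2 ≤ b.2) ∨ (b.2 ≤ p.2 ∧ p.2 ≤ a.2))

theorem Ins.symm {p a b : ℚ × ℚ} (h : Ins p a b) : Ins p b a := ⟨h.1.symm, h.2.symm⟩

theorem S4.mono {p a b c d : ℚ × ℚ} (h : S4 a b c d) (hp : Ins p a b) : S4 p b c d := by
  obtain ⟨h1, h2⟩ := hp
  rcases h with h | h | h | h
  · left
    obtain ⟨e1, e2, e3, e4⟩ := h
    rcases h1 with h1 | h1 <;> exact ⟨by linarith, by linarith, e3, e4⟩
  · right; left
    obtain ⟨e1, e2, e3, e4⟩ := h
    rcases h1 with h1 | h1 <;> exact ⟨by linarith, e2, by linarith, e4⟩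
  · right; right; left
    obtain ⟨e1, e2, e3, e4⟩ := h
    rcases h2 with h2 | h2 <;> exact ⟨by linarith, by linarith, e3, e4⟩
  · right; right; right
    obtain ⟨e1, e2, e3, e4⟩ := h
    rcases h2 with h2 | h2 <;> exact ⟨by linarith, e2, by linarith, e4⟩

theorem exists_interval (A B : Finset ℚ) (hA : A.Nonempty) (hB : B.Nonempty)
    (h : ∀ a ∈ A, ∀ b ∈ B, a < b) :
    ∃ l u, l < u ∧ (∀ a ∈ A, a ≤ l) ∧ ∀ b ∈ B, u ≤ b :=
  ⟨A.max' hA, B.min' hB, h _ (A.max'_mem hA) _ (B.min'_mem hB), fun a ha => A.le_max' a ha,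
    fun b hb => B.min'_le b hb⟩

/-- The abstract form of a strong placement. -/
structure Str {V : Type} (H : SimpleGraph V) (P : V → ℚ × ℚ) : Prop where
  i1 : ∀ a b, (P a).1 = (P b).1 → a = b
  i2 : ∀ a b, (P a).2 = (P b).2 → a = b
  dis : ∀ a b c d, H.Adj a b → H.Adj c d → a ≠ c → a ≠ d → b ≠ c → b ≠ d →
    S4 (P a) (P b) (P c) (P d)
  out : ∀ a b q, H.Adj a b → q ≠ a → q ≠ b → S4 (P q) (P q) (P a) (P b)

theorem Str.mir {V : Type} {H : SimpleGraph V} {P : V → ℚ × ℚ} (h : Str H P) :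
    Str H (fun v => mir (P v)) := by
  refine ⟨fun a b hab => h.i1 a b hab, fun a b hab => h.i2 a b (neg_injective hab), ?_, ?_⟩
  · intro a b c d h1 h2 h3 h4 h5 h6
    exact (h.dis a b c d h1 h2 h3 h4 h5 h6).mir
  · intro a b q h1 h2 h3
    exact (h.out a b q h1 h2 h3).mir

/-- The positions `f t` are good for ears at `a, b`. -/
structure Fr {V : Type} (H : SimpleGraph V) (P : V → ℚ × ℚ) (a b : V) (f : ℚ → ℚ × ℚ) :
    Prop where
  x : ∀ t, 0 < t → t < 1 → (P a).1 < (f t).1 ∧ (f t).1 < (P b).1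
  y : ∀ t, 0 < t → t < 1 → ((P a).2 < (f t).2 ∧ (f t).2 < (P b).2) ∨
    ((P b).2 < (f t).2 ∧ (f t).2 < (P a).2)
  fa : ∀ t, 0 < t → t < 1 → ∀ d, H.Adj b d → d ≠ a → S4 (f t) (P a) (P b) (P d)
  fb : ∀ t, 0 < t → t < 1 → ∀ d, H.Adj a d → d ≠ b → S4 (f t) (P b) (P a) (P d)
  ff : ∀ t, 0 < t → t < 1 → ∀ t', 0 < t' → t' < 1 → t ≠ t' → S4 (f t) (P a) (f t') (P b)

theorem Fr.mir {V : Type} {H : SimpleGraph V} {P : V → ℚ × ℚ} {a b : V} {f : ℚ → ℚ × ℚ}
    (h : Fr H (fun v => mir (P v)) a b f) : Fr H P a b (fun t => mir (f t)) := by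
  refine ⟨h.x, ?_, ?_, ?_, ?_⟩
  · intro t h1 h2
    have := h.y t h1 h2
    simp only [Red2.mir] at this ⊢
    rcases this with ⟨e1, e2⟩ | ⟨e1, e2⟩
    · right; constructor <;> linarith
    · left; constructor <;> linarith
  · intro t h1 h2 d h3 h4
    have := (h.fa t h1 h2 d h3 h4).mir
    simpa only [mir_mir] using this
  · intro t h1 h2 d h3 h4
    have := (h.fb t h1 h2 d h3 h4).mir
    simpa only [mir_mir] using this
  · intro t h1 h2 t' h3 h4 h5
    have := (h.ff t h1 h2 t' h3 h4 h5).mir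
    simpa only [mir_mir] using this

open Classical in
theorem exists_fr_pos {V : Type} [Fintype V] {H : SimpleGraph V} {P : V → ℚ × ℚ}
    (hS : Str H P) {a b : V} (hab : H.Adj a b) (hx : (P a).1 < (P b).1)
    (hy : (P a).2 < (P b).2) : ∃ f, Fr H P a b f := by
  -- the cross condition
  have key : ∀ d d', H.Adj a d → d ≠ b → H.Adj b d' → d' ≠ a → d ≠ d' →
      S4 (P a) (P d) (P b) (P d') := by
    intro d d' h1 h2 h3 h4 h5
    exact hS.dis a d b d' h1 h3 hab.ne h4.symm h2 h5
  obtain ⟨lx, ux, hx1, hx2, hx3⟩ := exists_interval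
    (insert (P a).1 (image (fun d => (P d).1) (univ.filter fun d => H.Adj a d ∧ d ≠ b ∧
      (P a).1 < (P d).1 ∧ (P d).1 < (P b).1 ∧ (P b).2 < (P d).2)))
    (insert (P b).1 (image (fun d => (P d).1) (univ.filter fun d => H.Adj b d ∧ d ≠ a ∧
      (P a).1 < (P d).1 ∧ (P d).1 < (P b).1 ∧ (P d).2 < (P a).2)))
    (insert_nonempty _ _) (insert_nonempty _ _) (by
      intro p hp q hq
      simp only [mem_insert, mem_image, mem_filter, mem_univ, true_and] at hp hq
      rcases hp with rfl | ⟨d, ⟨h1, h2, h3, h4, h5⟩, rfl⟩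
      · rcases hq with rfl | ⟨d', ⟨g1, g2, g3, g4, g5⟩, rfl⟩
        · exact hx
        · exact g3
      · rcases hq with rfl | ⟨d', ⟨g1, g2, g3, g4, g5⟩, rfl⟩
        · exact h4
        · have hne : d ≠ d' := by rintro rfl; linarith
          rcases key d d' h1 h2 g1 g2 hne with h | h | h | h
          · exact h.2.2.2
          · linarith [h.1]
          · linarith [h.2.2.1]
          · linarith [h.1])
  obtain ⟨ly, uy, hy1, hy2, hy3⟩ := exists_interval
    (insert (P a).2 (image (fun d => (P d).2) (univ.filter fun d => H.Adj a d ∧ d ≠ b ∧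
      (P a).2 < (P d).2 ∧ (P d).2 < (P b).2 ∧ (P b).1 < (P d).1)))
    (insert (P b).2 (image (fun d => (P d).2) (univ.filter fun d => H.Adj b d ∧ d ≠ a ∧
      (P a).2 < (P d).2 ∧ (P d).2 < (P b).2 ∧ (P d).1 < (P a).1)))
    (insert_nonempty _ _) (insert_nonempty _ _) (by
      intro p hp q hq
      simp only [mem_insert, mem_image, mem_filter, mem_univ, true_and] at hp hq
      rcases hp with rfl | ⟨d, ⟨h1, h2, h3, h4, h5⟩, rfl⟩
      · rcases hq with rfl | ⟨d', ⟨g1, g2, g3, g4, g5⟩, rfl⟩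
        · exact hy
        · exact g3
      · rcases hq with rfl | ⟨d', ⟨g1, g2, g3, g4, g5⟩, rfl⟩
        · exact h4
        · have hne : d ≠ d' := by rintro rfl; linarith
          rcases key d d' h1 h2 g1 g2 hne with h | h | h | h
          · linarith [h.2.2.1]
          · linarith [h.1]
          · exact h.2.2.2
          · linarith [h.1])
  have ax := hx2 _ (mem_insert_self _ _)
  have bx := hx3 _ (mem_insert_self _ _)
  have ay := hy2 _ (mem_insert_self _ _)
  have by' := hy3 _ (mem_insert_self _ _)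
  have px : ∀ t : ℚ, 0 < t → t < 1 → lx < lx + t * (ux - lx) ∧ lx + t * (ux - lx) < ux := by
    intro t h1 h2
    constructor <;> nlinarith
  have py : ∀ t : ℚ, 0 < t → t < 1 → ly < uy - t * (uy - ly) ∧ uy - t * (uy - ly) < uy := by
    intro t h1 h2
    constructor <;> nlinarith
  refine ⟨fun t => (lx + t * (ux - lx), uy - t * (uy - ly)), ?_, ?_, ?_, ?_, ?_⟩
  · intro t h1 h2
    exact ⟨ax.trans_lt (px t h1 h2).1, (px t h1 h2).2.trans_le bx⟩
  · intro t h1 h2
    exact Or.inl ⟨ay.trans_lt (py t h1 h2).1, (py t h1 h2).2.trans_le by'⟩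
  · intro t h1 h2 d hd hda
    obtain ⟨x1, x2⟩ := px t h1 h2
    obtain ⟨y1, y2⟩ := py t h1 h2
    have hdb : d ≠ b := hd.ne'
    have n1 : (P d).1 ≠ (P a).1 := fun h => hda (hS.i1 _ _ h)
    have n2 : (P d).2 ≠ (P a).2 := fun h => hda (hS.i2 _ _ h)
    have n3 : (P d).1 ≠ (P b).1 := fun h => hdb (hS.i1 _ _ h)
    have n4 : (P d).2 ≠ (P b).2 := fun h => hdb (hS.i2 _ _ h)
    rcases lt_or_gt_of_ne n3 with h3 | h3
    · rcases lt_or_gt_of_ne n4 with h4 | h4
      · have o1 := hS.out a b d hab hda hdb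
        have o2 := hS.out b d a hd hab.ne hda.symm
        rcases lt_or_gt_of_ne n1 with h5 | h5
        · rcases lt_or_gt_of_ne n2 with h6 | h6
          · exfalso
            rcases o2 with o | o | o | o
            · linarith [o.1, o.2.1]
            · linarith [o.1, o.2.1]
            · linarith [o.1, o.2.1]
            · linarith [o.1, o.2.1]
          · -- left of `a`, between in `y`
            have hle := hy3 _ (mem_insert_of_mem (mem_image_of_mem (fun d => (P d).2)
              (mem_filter.2 ⟨mem_univ d, hd, hda, h6, h4, h5⟩)))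
            right; right; left
            refine ⟨?_, ?_, ?_, ?_⟩
            · exact y2.trans_le by'
            · exact y2.trans_le hle
            · exact hy
            · exact h6
        · rcases lt_or_gt_of_ne n2 with h6 | h6
          · have hle := hx3 _ (mem_insert_of_mem (mem_image_of_mem (fun d => (P d).1)
              (mem_filter.2 ⟨mem_univ d, hd, hda, h5, h3, h6⟩)))
            left
            exact ⟨x2.trans_le bx, x2.trans_le hle, hx, h5⟩
          · exfalso
            rcases o1 with o | o | o | o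
            · linarith [o.1, o.2.1]
            · linarith [o.1, o.2.2.1]
            · linarith [o.1, o.2.1]
            · linarith [o.1, o.2.2.1]
      · right; right; left
        refine ⟨y2.trans_le by', (y2.trans_le by').trans h4, hy, hy.trans h4⟩
    · left
      exact ⟨x2.trans_le bx, (x2.trans_le bx).trans h3, hx, hx.trans h3⟩
  · intro t h1 h2 d hd hdb
    obtain ⟨x1, x2⟩ := px t h1 h2
    obtain ⟨y1, y2⟩ := py t h1 h2
    have hda : d ≠ a := hd.ne'
    have n1 : (P d).1 ≠ (P a).1 := fun h => hda (hS.i1 _ _ h)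
    have n2 : (P d).2 ≠ (P a).2 := fun h => hda (hS.i2 _ _ h)
    have n3 : (P d).1 ≠ (P b).1 := fun h => hdb (hS.i1 _ _ h)
    have n4 : (P d).2 ≠ (P b).2 := fun h => hdb (hS.i2 _ _ h)
    rcases lt_or_gt_of_ne n1 with h3 | h3
    · right; left
      exact ⟨ax.trans_lt x1, hx, h3.trans (ax.trans_lt x1), h3.trans hx⟩
    · rcases lt_or_gt_of_ne n2 with h4 | h4
      · right; right; right
        exact ⟨ay.trans_lt y1, hy, h4.trans (ay.trans_lt y1), h4.trans hy⟩
      · have o1 := hS.out a b d hab hda hdb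
        have o2 := hS.out a d b hd hab.ne' hdb.symm
        rcases lt_or_gt_of_ne n3 with h5 | h5
        · rcases lt_or_gt_of_ne n4 with h6 | h6
          · exfalso
            rcases o1 with o | o | o | o
            · linarith [o.1, o.2.1]
            · linarith [o.1, o.2.2.1]
            · linarith [o.1, o.2.1]
            · linarith [o.1, o.2.2.1]
          · have hle := hx2 _ (mem_insert_of_mem (mem_image_of_mem (fun d => (P d).1)
              (mem_filter.2 ⟨mem_univ d, hd, hdb, h3, h5, h6⟩)))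
            right; left
            exact ⟨ax.trans_lt x1, hx, hle.trans_lt x1, h5⟩
        · rcases lt_or_gt_of_ne n4 with h6 | h6
          · have hle := hy2 _ (mem_insert_of_mem (mem_image_of_mem (fun d => (P d).2)
              (mem_filter.2 ⟨mem_univ d, hd, hdb, h4, h6, h5⟩)))
            right; right; right
            exact ⟨ay.trans_lt y1, hy, hle.trans_lt y1, h6⟩
          · exfalso
            rcases o2 with o | o | o | o
            · linarith [o.1, o.2.1]
            · linarith [o.1, o.2.2.1]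
            · linarith [o.1, o.2.1]
            · linarith [o.1, o.2.2.1]
  · intro t h1 h2 t' h3 h4 h5
    obtain ⟨x1, x2⟩ := px t h1 h2
    obtain ⟨y1, y2⟩ := py t h1 h2
    obtain ⟨x1', x2'⟩ := px t' h3 h4
    obtain ⟨y1', y2'⟩ := py t' h3 h4
    rcases lt_or_gt_of_ne h5 with h | h
    · left
      have : lx + t * (ux - lx) < lx + t' * (ux - lx) := by nlinarith
      exact ⟨this, x2.trans_le bx, ax.trans_lt x1', hx⟩
    · right; right; left
      have : uy - t * (uy - ly) < uy - t' * (uy - ly) := by nlinarith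
      exact ⟨this, y2.trans_le by', ay.trans_lt y1', hy⟩

theorem exists_fr {V : Type} [Fintype V] {H : SimpleGraph V} {P : V → ℚ × ℚ}
    (hS : Str H P) {a b : V} (hab : H.Adj a b) (hx : (P a).1 < (P b).1) :
    ∃ f, Fr H P a b f := by
  rcases lt_trichotomy (P a).2 (P b).2 with h | h | h
  · exact exists_fr_pos hS hab hx h
  · exact absurd (hS.i2 _ _ h) hab.ne
  · obtain ⟨f, hf⟩ := exists_fr_pos hS.mir hab hx (by simpa [mir] using h)
    exact ⟨_, hf.mir⟩

/-- A point `p` (position of an ear attached to the edge `v o`) and its edge to `v`. -/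
structure EarP {V : Type} (H : SimpleGraph V) (P : V → ℚ × ℚ) (p : ℚ × ℚ) (v o : V) :
    Prop where
  adj : H.Adj v o
  ins : Ins p (P v) (P o)
  nb : ∀ d, H.Adj o d → d ≠ v → S4 p (P v) (P o) (P d)
  op : S4 p (P v) (P o) (P o)

theorem Fr.ins {V : Type} {H : SimpleGraph V} {P : V → ℚ × ℚ} {a b : V} {f : ℚ → ℚ × ℚ}
    (h : Fr H P a b f) {t : ℚ} (h1 : 0 < t) (h2 : t < 1) : Ins (f t) (P a) (P b) := by
  have := h.x t h1 h2
  refine ⟨Or.inl ⟨this.1.le, this.2.le⟩, ?_⟩
  rcases h.y t h1 h2 with h | h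
  · exact Or.inl ⟨h.1.le, h.2.le⟩
  · exact Or.inr ⟨h.1.le, h.2.le⟩

theorem Fr.left {V : Type} {H : SimpleGraph V} {P : V → ℚ × ℚ} {a b : V} {f : ℚ → ℚ × ℚ}
    (h : Fr H P a b f) (hab : H.Adj a b) {t : ℚ} (h1 : 0 < t) (h2 : t < 1) :
    EarP H P (f t) a b := by
  refine ⟨hab, h.ins h1 h2, h.fa t h1 h2, ?_⟩
  have hx := h.x t h1 h2
  exact Or.inl ⟨hx.2, hx.2, hx.1.trans hx.2, hx.1.trans hx.2⟩

theorem Fr.right {V : Type} {H : SimpleGraph V} {P : V → ℚ × ℚ} {a b : V} {f : ℚ → ℚ × ℚ}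
    (h : Fr H P a b f) (hab : H.Adj a b) {t : ℚ} (h1 : 0 < t) (h2 : t < 1) :
    EarP H P (f t) b a := by
  refine ⟨hab.symm, (h.ins h1 h2).symm, h.fb t h1 h2, ?_⟩
  have hx := h.x t h1 h2
  exact Or.inr (Or.inl ⟨hx.1, hx.1.trans hx.2, hx.1, hx.1.trans hx.2⟩)

/-- All the data needed to compare edges. -/
structure Sit {V : Type} (H : SimpleGraph V) (P N : V → ℚ × ℚ) (IsE : V → V → V → Prop) :
    Prop where
  str : Str H P
  ear : ∀ c v o, IsE c v o → EarP H P (N c) v o
  esym : ∀ c v o, IsE c v o → IsE c o v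
  ee : ∀ c c' v o, IsE c v o → IsE c' v o → c ≠ c' → S4 (N c) (P v) (N c') (P o)

/-- The kinds of edges. -/
inductive EK {V : Type} (H : SimpleGraph V) (P N : V → ℚ × ℚ) (IsE : V → V → V → Prop) :
    V → V → Prop
  | core (a b : V) : H.Adj a b → N a = P a → N b = P b → EK H P N IsE a b
  | leaf (a b : V) : N a = P b → N b = P b → EK H P N IsE a b
  | ear (a b o : V) : IsE a b o → N b = P b → EK H P N IsE a b

section
variable {V : Type} {H : SimpleGraph V} {P N : V → ℚ × ℚ} {IsE : V → V → V → Prop}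
  (S : Sit H P N IsE)
include S

/-- Replace the edge `v o` by the edge of the ear. -/
theorem Sit.rep {c v o : V} (h : IsE c v o) {r s : ℚ × ℚ} (hs : S4 (P v) (P o) r s) :
    S4 (N c) (P v) r s :=
  hs.fst.mono (S.ear c v o h).ins.symm

theorem Sit.core_leaf {a b d : V} (hab : H.Adj a b) (h1 : a ≠ d) (h2 : b ≠ d) :
    S4 (P a) (P b) (P d) (P d) := (S.str.out a b d hab h1.symm h2.symm).swap

theorem Sit.core_ear {a b c d o : V} (hab : H.Adj a b) (h : IsE c d o) (h1 : a ≠ d)
    (h2 : b ≠ d) : S4 (P a) (P b) (N c) (P d) := by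
  have he := S.ear c d o h
  by_cases ha : o = a
  · subst ha
    exact (he.nb b hab h2).swap
  by_cases hb : o = b
  · subst hb
    exact (he.nb a hab.symm h1).snd.swap
  exact (S.rep h (S.str.dis d o a b he.adj hab h1.symm h2.symm ha hb)).swap

theorem Sit.leaf_leaf {b d : V} (h : b ≠ d) : S4 (P b) (P b) (P d) (P d) := by
  have : (P b).1 ≠ (P d).1 := fun h' => h (S.str.i1 _ _ h')
  rcases lt_or_gt_of_ne this with h | h
  · exact Or.inl ⟨h, h, h, h⟩
  · exact Or.inr (Or.inl ⟨h, h, h, h⟩)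

theorem Sit.leaf_ear {b c d o : V} (h : IsE c d o) (hbd : b ≠ d) :
    S4 (P b) (P b) (N c) (P d) := by
  have he := S.ear c d o h
  by_cases ho : o = b
  · subst ho
    exact he.op.swap
  · exact (S.rep h (S.str.out d o b he.adj hbd (Ne.symm ho)).swap).swap

theorem Sit.ear_ear {a b o c d o' : V} (h : IsE a b o) (h' : IsE c d o') (hac : a ≠ c)
    (hbd : b ≠ d) : S4 (N a) (P b) (N c) (P d) := by
  have he := S.ear _ _ _ h
  have he' := S.ear _ _ _ h'
  by_cases h1 : o = d
  · subst h1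
    by_cases h2 : o' = b
    · subst h2
      exact S.ee a c _ _ h (S.esym _ _ _ h') hac
    · exact (S.rep h' (he.nb o' he'.adj h2).swap).swap
  by_cases h2 : o = o'
  · subst h2
    exact (S.rep h' (he.nb d he'.adj.symm hbd.symm).swap.fst).swap
  by_cases h3 : o' = b
  · subst h3
    exact S.rep h (he'.nb o he.adj h1).swap
  have h4 := S.str.dis b o d o' he.adj he'.adj hbd (Ne.symm h3) h1 h2
  exact (S.rep h' (S.rep h h4).swap).swap

theorem Sit.combine {a b c d : V} (h : EK H P N IsE a b) (h' : EK H P N IsE c d)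
    (h1 : a ≠ c) (h2 : a ≠ d) (h3 : b ≠ c) (h4 : b ≠ d) : S4 (N a) (N b) (N c) (N d) := by
  cases h with
  | core hab ha hb =>
    rw [ha, hb]
    cases h' with
    | core hcd hc hd => rw [hc, hd]; exact S.str.dis _ _ _ _ hab hcd h1 h2 h3 h4
    | leaf hc hd => rw [hc, hd]; exact S.core_leaf hab h2 h4
    | ear o ho hd => rw [hd]; exact S.core_ear hab ho h2 h4
  | leaf ha hb =>
    rw [ha, hb]
    cases h' with
    | core hcd hc hd => rw [hc, hd]; exact (S.core_leaf hcd h3.symm h4.symm).swap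
    | leaf hc hd => rw [hc, hd]; exact S.leaf_leaf h4
    | ear o ho hd => rw [hd]; exact S.leaf_ear ho h4
  | ear o ho hb =>
    rw [hb]
    cases h' with
    | core hcd hc hd => rw [hc, hd]; exact (S.core_ear hcd ho h3.symm h4.symm).swap
    | leaf hc hd => rw [hc, hd]; exact (S.leaf_ear ho h4.symm).swap
    | ear o' ho' hd => rw [hd]; exact S.ear_ear ho ho' h1 h4

end

/-! ### The removed vertices -/

section
variable {V : Type} [LinearOrder V] {G : SimpleGraph V}

theorem rem_nbr {c a : V} (hc : Rem G c) (hca : G.Adj c a) : ¬ Rem G a := by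
  rintro (ha | ha)
  · obtain ⟨a', h1, h2, h3⟩ := ha
    have e1 : c = a' := h2 c hca.symm
    subst e1
    obtain ⟨b', h4, h5⟩ := h3
    rcases hc with hc | hc
    · obtain ⟨u, g1, g2, g3⟩ := hc
      have e2 : a = u := g2 a hca
      exact h4 (by rw [e2]; exact g2 b' h5)
    · obtain ⟨u, w, g1, g2, g3, g4, g5, g6⟩ := hc
      rcases g4 a hca with rfl | rfl
      · exact g2.ne' (h2 w g3)
      · exact g1.ne' (h2 u g3.symm)
  · obtain ⟨u, w, g1, g2, g3, g4, g5, g6⟩ := ha
    rcases hc with hc | hc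
    · obtain ⟨v, k1, k2, k3⟩ := hc
      have e2 : a = v := k2 a hca
      subst e2
      rcases g4 c hca.symm with rfl | rfl
      · exact g2.ne' (k2 w g3)
      · exact g1.ne' (k2 u g3.symm)
    · obtain ⟨u', w', k1, k2, k3, k4, k5, k6⟩ := hc
      -- neighbours of `c` are `u', w'`, neighbours of `a` are `u, w`
      rcases k4 a hca with rfl | rfl
      · -- `a = u'`, third vertex `w'`
        rcases g4 c hca.symm with rfl | rfl
        · have e : w = w' := by
            rcases g4 w' k3 with h | h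
            · exact absurd h k2.ne'
            · exact h.symm
          subst e
          have f1 : a < c := by
            rcases g5 with h | ⟨x, x1, x2, x3⟩
            · exact h
            · rcases k4 x x3 with rfl | rfl
              · exact absurd rfl x2
              · exact absurd rfl x1
          have f2 : c < a := by
            rcases k5 with h | ⟨x, x1, x2, x3⟩
            · exact h
            · rcases g4 x x3 with rfl | rfl
              · exact absurd rfl x2
              · exact absurd rfl x1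
          exact absurd f1 f2.not_gt
        · have e : u = w' := by
            rcases g4 w' k3 with h | h
            · exact h.symm
            · exact absurd h k2.ne'
          subst e
          have f1 : a < c := by
            rcases g6 with h | ⟨x, x1, x2, x3⟩
            · exact h
            · rcases k4 x x3 with rfl | rfl
              · exact absurd rfl x2
              · exact absurd rfl x1
          have f2 : c < a := by
            rcases k5 with h | ⟨x, x1, x2, x3⟩
            · exact h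
            · rcases g4 x x3 with rfl | rfl
              · exact absurd rfl x1
              · exact absurd rfl x2
          exact absurd f1 f2.not_gt
      · rcases g4 c hca.symm with rfl | rfl
        · have e : w = u' := by
            rcases g4 u' k3.symm with h | h
            · exact absurd h k1.ne'
            · exact h.symm
          subst e
          have f1 : a < c := by
            rcases g5 with h | ⟨x, x1, x2, x3⟩
            · exact h
            · rcases k4 x x3 with rfl | rfl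
              · exact absurd rfl x1
              · exact absurd rfl x2
          have f2 : c < a := by
            rcases k6 with h | ⟨x, x1, x2, x3⟩
            · exact h
            · rcases g4 x x3 with rfl | rfl
              · exact absurd rfl x2
              · exact absurd rfl x1
          exact absurd f1 f2.not_gt
        · have e : u = u' := by
            rcases g4 u' k3.symm with h | h
            · exact h.symm
            · exact absurd h k1.ne'
          subst e
          have f1 : a < c := by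
            rcases g6 with h | ⟨x, x1, x2, x3⟩
            · exact h
            · rcases k4 x x3 with rfl | rfl
              · exact absurd rfl x1
              · exact absurd rfl x2
          have f2 : c < a := by
            rcases k6 with h | ⟨x, x1, x2, x3⟩
            · exact h
            · rcases g4 x x3 with rfl | rfl
              · exact absurd rfl x1
              · exact absurd rfl x2
          exact absurd f1 f2.not_gt

/-- `c` is a removed vertex with the two neighbours `v` and `o`. -/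
def IsE (G : SimpleGraph V) (c v o : V) : Prop := Ear G c ∧ G.Adj c v ∧ G.Adj c o ∧ v ≠ o

theorem IsE.symm {c v o : V} (h : IsE G c v o) : IsE G c o v :=
  ⟨h.1, h.2.2.1, h.2.1, h.2.2.2.symm⟩

theorem IsE.adj {c v o : V} (h : IsE G c v o) : G.Adj v o := by
  obtain ⟨⟨a, b, h1, h2, h3, h4, -⟩, g1, g2, g3⟩ := h
  rcases h4 v g1 with rfl | rfl
  · rcases h4 o g2 with rfl | rfl
    · exact absurd rfl g3
    · exact h3
  · rcases h4 o g2 with rfl | rfl
    · exact h3.symm
    · exact absurd rfl g3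

theorem IsE.core {c v o : V} (h : IsE G c v o) : (core G).Adj v o :=
  ⟨h.adj, rem_nbr (Or.inr h.1) h.2.1, rem_nbr (Or.inr h.1) h.2.2.1⟩

theorem IsE.eq {c v o a b : V} (h : IsE G c v o) (h' : IsE G c a b) :
    (a = v ∧ b = o) ∨ (a = o ∧ b = v) := by
  obtain ⟨⟨p, q, -, -, -, h4, -⟩, g1, g2, g3⟩ := h
  obtain ⟨-, k1, k2, k3⟩ := h'
  rcases h4 v g1 with rfl | rfl <;> rcases h4 o g2 with rfl | rfl <;>
    rcases h4 a k1 with rfl | rfl <;> rcases h4 b k2 with rfl | rfl <;> simp_all

theorem leaf_not_isE {c v o : V} (h : Leaf G c) : ¬ IsE G c v o := by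
  rintro ⟨-, h1, h2, h3⟩
  obtain ⟨a, -, h4, -⟩ := h
  exact h3 ((h4 v h1).trans (h4 o h2).symm)

theorem str_of_strong {H : SimpleGraph V} {X Y : V → ℕ} (hX : Function.Injective X)
    (hY : Function.Injective Y) (h : Strong H X Y) :
    Str H (fun v => ((X v : ℚ), (Y v : ℚ))) := by
  refine ⟨fun a b hab => hX (Nat.cast_injective (R := ℚ) hab),
    fun a b hab => hY (Nat.cast_injective (R := ℚ) hab), ?_, ?_⟩
  · intro a b c d h1 h2 h3 h4 h5 h6
    rcases h.1 a b c d h1 h2 h3 h4 h5 h6 with (h | h) | (h | h)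
    · left
      exact ⟨Nat.cast_lt.2 h.1, Nat.cast_lt.2 h.2.1, Nat.cast_lt.2 h.2.2.1,
        Nat.cast_lt.2 h.2.2.2⟩
    · right; left
      exact ⟨Nat.cast_lt.2 h.1, Nat.cast_lt.2 h.2.1, Nat.cast_lt.2 h.2.2.1,
        Nat.cast_lt.2 h.2.2.2⟩
    · right; right; left
      exact ⟨Nat.cast_lt.2 h.1, Nat.cast_lt.2 h.2.1, Nat.cast_lt.2 h.2.2.1,
        Nat.cast_lt.2 h.2.2.2⟩
    · right; right; right
      exact ⟨Nat.cast_lt.2 h.1, Nat.cast_lt.2 h.2.1, Nat.cast_lt.2 h.2.2.1,
        Nat.cast_lt.2 h.2.2.2⟩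
  · intro a b q h1 h2 h3
    rcases h.2 a b q h1 h2 h3 with h | h | h | h
    · left
      exact ⟨Nat.cast_lt.2 h.1, Nat.cast_lt.2 h.2, Nat.cast_lt.2 h.1, Nat.cast_lt.2 h.2⟩
    · right; left
      exact ⟨Nat.cast_lt.2 h.1, Nat.cast_lt.2 h.1, Nat.cast_lt.2 h.2, Nat.cast_lt.2 h.2⟩
    · right; right; left
      exact ⟨Nat.cast_lt.2 h.1, Nat.cast_lt.2 h.2, Nat.cast_lt.2 h.1, Nat.cast_lt.2 h.2⟩
    · right; right; right
      exact ⟨Nat.cast_lt.2 h.1, Nat.cast_lt.2 h.1, Nat.cast_lt.2 h.2, Nat.cast_lt.2 h.2⟩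

/-- Positions of all vertices. -/
theorem exists_pos (G : SimpleGraph V) {P : V → ℚ × ℚ}
    (hi : ∀ a b, (P a).1 = (P b).1 → a = b) (F : V → V → ℚ → ℚ × ℚ) (th : V → ℚ) :
    ∃ N : V → ℚ × ℚ, (∀ v, Leaf G v → ∀ a, G.Adj v a → N v = P a) ∧
      (∀ v a b, IsE G v a b → (P a).1 < (P b).1 → N v = F a b (th v)) ∧
      ∀ v, ¬ Rem G v → N v = P v := by
  have key : ∀ v, ∃ p, (Leaf G v → ∀ a, G.Adj v a → p = P a) ∧
      (∀ a b, IsE G v a b → (P a).1 < (P b).1 → p = F a b (th v)) ∧
      (¬ Rem G v → p = P v) := by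
    intro v
    by_cases h1 : Leaf G v
    · obtain ⟨a, h2, h3, h4⟩ := h1
      refine ⟨P a, fun _ b hb => by rw [h3 b hb], fun b c hbc => ?_, fun h => ?_⟩
      · exact absurd hbc (leaf_not_isE ⟨a, h2, h3, h4⟩)
      · exact absurd (Or.inl ⟨a, h2, h3, h4⟩) h
    by_cases h2 : Ear G v
    · have h2' := h2
      obtain ⟨a, b, g1, g2, g3, g4, g5⟩ := h2
      have hE : IsE G v a b := ⟨h2', g1, g2, g3.ne⟩
      have : ∃ a b, IsE G v a b ∧ (P a).1 < (P b).1 := by
        rcases lt_trichotomy (P a).1 (P b).1 with h | h | h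
        · exact ⟨a, b, hE, h⟩
        · exact absurd (hi _ _ h) g3.ne
        · exact ⟨b, a, hE.symm, h⟩
      obtain ⟨a, b, hE, hlt⟩ := this
      refine ⟨F a b (th v), fun h => absurd h h1, ?_, fun h => absurd (Or.inr h2') h⟩
      intro a' b' hE' hlt'
      rcases hE.eq hE' with ⟨rfl, rfl⟩ | ⟨rfl, rfl⟩
      · rfl
      · exact absurd hlt hlt'.not_gt
    · refine ⟨P v, fun h => absurd h h1, fun a b h => absurd h.1 h2, fun _ => rfl⟩
  choose N hN using key
  exact ⟨N, fun v => (hN v).1, fun v => (hN v).2.1, fun v => (hN v).2.2⟩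

end

end Red2

open Red2 in
/-- Module RED2. -/
theorem specRed2 : SpecRed2 := by
  intro V _ _ G hG
  classical
  obtain ⟨X, Y, hX, hY, hS⟩ := hG
  have hstr := str_of_strong hX hY hS
  set P : V → ℚ × ℚ := fun v => ((X v : ℚ), (Y v : ℚ)) with hP
  have hF : ∀ a b, ∃ f : ℚ → ℚ × ℚ, (core G).Adj a b → (P a).1 < (P b).1 →
      Fr (core G) P a b f := by
    intro a b
    by_cases h : (core G).Adj a b ∧ (P a).1 < (P b).1
    · obtain ⟨f, hf⟩ := exists_fr hstr h.1 h.2
      exact ⟨f, fun _ _ => hf⟩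
    · exact ⟨fun _ => 0, fun h1 h2 => absurd ⟨h1, h2⟩ h⟩
  choose F hF using hF
  set th : V → ℚ := fun v => 1 / ((X v : ℚ) + 2) with hth
  have th0 : ∀ v, 0 < th v := fun v => by positivity
  have th1 : ∀ v, th v < 1 := by
    intro v
    rw [hth, div_lt_one (by positivity)]
    have : (0 : ℚ) ≤ X v := by positivity
    linarith
  have thi : ∀ v w, v ≠ w → th v ≠ th w := by
    intro v w hvw h
    apply hvw
    apply hX
    rw [hth] at h
    simp only [one_div, inv_inj, add_left_inj] at h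
    exact_mod_cast h
  obtain ⟨N, hN1, hN2, hN3⟩ := exists_pos G hstr.i1 F th
  have S : Sit (core G) P N (IsE G) := by
    refine ⟨hstr, ?_, fun c v o h => h.symm, ?_⟩
    · intro c v o h
      rcases lt_trichotomy (P v).1 (P o).1 with hlt | heq | hlt
      · rw [hN2 c v o h hlt]
        exact (hF v o h.core hlt).left h.core (th0 c) (th1 c)
      · exact absurd (hstr.i1 _ _ heq) h.2.2.2
      · rw [hN2 c o v h.symm hlt]
        exact (hF o v h.core.symm hlt).right h.core.symm (th0 c) (th1 c)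
    · intro c c' v o h h' hne
      rcases lt_trichotomy (P v).1 (P o).1 with hlt | heq | hlt
      · rw [hN2 c v o h hlt, hN2 c' v o h' hlt]
        exact (hF v o h.core hlt).ff _ (th0 c) (th1 c) _ (th0 c') (th1 c') (thi _ _ hne)
      · exact absurd (hstr.i1 _ _ heq) h.2.2.2
      · rw [hN2 c o v h.symm hlt, hN2 c' o v h'.symm hlt]
        exact ((hF o v h.core.symm hlt).ff _ (th0 c') (th1 c') _ (th0 c) (th1 c)
          (thi _ _ hne.symm)).swap
  have hrem : ∀ a b, G.Adj a b → Rem G a → EK (core G) P N (IsE G) a b := by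
    intro a b hab ha
    have hb : N b = P b := hN3 b (rem_nbr ha hab)
    rcases ha with ha | ha
    · exact EK.leaf a b (hN1 a ha b hab) hb
    · have ha' := ha
      obtain ⟨u, w, g1, g2, g3, g4, -⟩ := ha
      rcases g4 b hab with rfl | rfl
      · exact EK.ear a b w ⟨ha', hab, g2, g3.ne⟩ hb
      · exact EK.ear a b u ⟨ha', hab, g1, g3.ne'⟩ hb
  have hEK : ∀ a b, G.Adj a b → EK (core G) P N (IsE G) a b ∨ EK (core G) P N (IsE G) b a := by
    intro a b hab
    by_cases ha : Rem G a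
    · exact Or.inl (hrem a b hab ha)
    by_cases hb : Rem G b
    · exact Or.inr (hrem b a hab.symm hb)
    · exact Or.inl (EK.core a b ⟨hab, ha, hb⟩ (hN3 a ha) (hN3 b hb))
  refine ⟨fun v => (N v).1, fun v => (N v).2, ?_⟩
  intro a b c d hab hcd h1 h2 h3 h4
  have key : S4 (N a) (N b) (N c) (N d) := by
    rcases hEK a b hab with h | h
    · rcases hEK c d hcd with h' | h'
      · exact S.combine h h' h1 h2 h3 h4
      · exact (S.combine h h' h2 h1 h4 h3).snd
    · rcases hEK c d hcd with h' | h'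
      · exact (S.combine h h' h3 h4 h1 h2).fst
      · exact (S.combine h h' h4 h3 h2 h1).fst.snd
  rcases key with h | h | h | h
  · exact Or.inl (Or.inl h)
  · exact Or.inl (Or.inr h)
  · exact Or.inr (Or.inl h)
  · exact Or.inr (Or.inr h)

end Pool.Agent.MP_cdcb37
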