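import Pool.Agent.Lib.MP_cdcb37_lc.Spec

/-!
# Module STN: st-numberings of 2-connected graphs
-/

namespace Pool.Agent.MP_cdcb37

open Finset

section
variable {V : Type} [DecidableEq V]

/-- Positions `g` on the subset `S` forming an `st`-order. -/
structure StnGood (G : SimpleGraph V) (s t : V) (S : Finset V) (g : V → ℚ) : Prop where
  sS : s ∈ S
  tS : t ∈ S
  inj : ∀ u ∈ S, ∀ v ∈ S, g u = g v → u = v
  min : ∀ v ∈ S, g s ≤ g v
  max : ∀ v ∈ S, g v ≤ g t
  down : ∀ v ∈ S, v ≠ s → ∃ u ∈ S, g u < g v ∧ G.Adj u v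
  up : ∀ v ∈ S, v ≠ t → ∃ u ∈ S, g v < g u ∧ G.Adj v u

/-- Inserting a path. -/
theorem StnGood.insert {G : SimpleGraph V} {s t : V} {S : Finset V} {g : V → ℚ}
    (h : StnGood G s t S g) {a b : V} (ha : a ∈ S) (hb : b ∈ S) (hab : g a < g b) (k : ℕ)
    (hk : 0 < k) (y : ℕ → V) (hy : ∀ i < k, ∀ j < k, y i = y j → i = j)
    (hyS : ∀ i < k, y i ∉ S) (h0 : G.Adj a (y 0)) (h1 : ∀ i, i + 1 < k → G.Adj (y i) (y (i + 1)))
    (h2 : G.Adj (y (k - 1)) b) :
    ∃ g', StnGood G s t (S ∪ (range k).image y) g' := by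
  classical
  -- the gap above `g a`
  obtain ⟨m, ham, hmb, hm⟩ : ∃ m, g a < m ∧ m ≤ g b ∧ ∀ v ∈ S, g v ≤ g a ∨ m ≤ g v := by
    let T := S.filter fun v => g a < g v
    have hT : T.Nonempty := ⟨b, by simp [T, hb, hab]⟩
    obtain ⟨c, hc, hmin⟩ := T.exists_min_image g hT
    refine ⟨g c, (mem_filter.1 hc).2, hmin b (by simp [T, hb, hab]), fun v hv => ?_⟩
    by_cases h : g v ≤ g a
    · exact Or.inl h
    · exact Or.inr (hmin v (by simp only [T, mem_filter]; exact ⟨hv, not_le.1 h⟩))
  let pos : ℕ → ℚ := fun i => g a + (m - g a) * ((i + 1 : ℕ) : ℚ) / ((k + 1 : ℕ) : ℚ)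
  have hk1 : (0 : ℚ) < ((k + 1 : ℕ) : ℚ) := by positivity
  have pos_lt : ∀ i j, i < j → pos i < pos j := by
    intro i j hij
    have : ((i + 1 : ℕ) : ℚ) < ((j + 1 : ℕ) : ℚ) := by exact_mod_cast Nat.succ_lt_succ hij
    have h3 : 0 < m - g a := by linarith
    simp only [pos]
    gcongr
  have lt_pos : ∀ i, g a < pos i := by
    intro i
    have h3 : 0 < m - g a := by linarith
    have : 0 < (m - g a) * ((i + 1 : ℕ) : ℚ) / ((k + 1 : ℕ) : ℚ) := by positivity
    simp only [pos]
    linarith
  have pos_lt_m : ∀ i < k, pos i < m := by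
    intro i hi
    have h3 : 0 < m - g a := by linarith
    have : ((i + 1 : ℕ) : ℚ) < ((k + 1 : ℕ) : ℚ) := by exact_mod_cast Nat.succ_lt_succ hi
    have h4 : (m - g a) * ((i + 1 : ℕ) : ℚ) / ((k + 1 : ℕ) : ℚ) < m - g a := by
      rw [div_lt_iff₀ hk1]
      exact mul_lt_mul_of_pos_left this h3
    simp only [pos]
    linarith
  let g' : V → ℚ := fun v => if h : ∃ i, i < k ∧ y i = v then pos h.choose else g v
  have gy : ∀ i, i < k → g' (y i) = pos i := by
    intro i hi
    have hex : ∃ j, j < k ∧ y j = y i := ⟨i, hi, rfl⟩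
    have : hex.choose = i := hy _ hex.choose_spec.1 _ hi hex.choose_spec.2
    simp only [g', dif_pos hex, this]
  have gS : ∀ v ∈ S, g' v = g v := by
    intro v hv
    have : ¬ ∃ i, i < k ∧ y i = v := by
      rintro ⟨i, hi, rfl⟩
      exact hyS i hi hv
    simp only [g', dif_neg this]
  have hmem : ∀ v, v ∈ S ∪ (range k).image y ↔ v ∈ S ∨ ∃ i, i < k ∧ y i = v := by
    intro v
    simp
  refine ⟨g', ?_, ?_, ?_, ?_, ?_, ?_, ?_⟩
  · exact (hmem _).2 (Or.inl h.sS)
  · exact (hmem _).2 (Or.inl h.tS)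
  · intro u hu v hv huv
    rcases (hmem _).1 hu with hu | ⟨i, hi, rfl⟩ <;> rcases (hmem _).1 hv with hv | ⟨j, hj, rfl⟩
    · rw [gS u hu, gS v hv] at huv
      exact h.inj u hu v hv huv
    · rw [gS u hu, gy j hj] at huv
      have := lt_pos j
      have := pos_lt_m j hj
      rcases hm u hu with h' | h' <;> linarith
    · rw [gy i hi, gS v hv] at huv
      have := lt_pos i
      have := pos_lt_m i hi
      rcases hm v hv with h' | h' <;> linarith
    · rw [gy i hi, gy j hj] at huv
      rcases lt_trichotomy i j with hij | hij | hij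
      · exact absurd huv (pos_lt i j hij).ne
      · rw [hij]
      · exact absurd huv (pos_lt j i hij).ne'
  · intro v hv
    rw [gS s h.sS]
    rcases (hmem _).1 hv with hv | ⟨i, hi, rfl⟩
    · rw [gS v hv]
      exact h.min v hv
    · rw [gy i hi]
      exact (h.min a ha).trans (lt_pos i).le
  · intro v hv
    rw [gS t h.tS]
    rcases (hmem _).1 hv with hv | ⟨i, hi, rfl⟩
    · rw [gS v hv]
      exact h.max v hv
    · rw [gy i hi]
      exact ((pos_lt_m i hi).le.trans hmb).trans (h.max b hb)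
  · intro v hv hvs
    rcases (hmem _).1 hv with hv | ⟨i, hi, rfl⟩
    · obtain ⟨u, hu, huv, hadj⟩ := h.down v hv hvs
      exact ⟨u, (hmem _).2 (Or.inl hu), by rw [gS u hu, gS v hv]; exact huv, hadj⟩
    · rcases i with _ | i
      · exact ⟨a, (hmem _).2 (Or.inl ha), by rw [gS a ha, gy 0 hi]; exact lt_pos 0, h0⟩
      · exact ⟨y i, (hmem _).2 (Or.inr ⟨i, by omega, rfl⟩), by
          rw [gy i (by omega), gy (i + 1) hi]; exact pos_lt _ _ (by omega), h1 i hi⟩
  · intro v hv hvt
    rcases (hmem _).1 hv with hv | ⟨i, hi, rfl⟩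
    · obtain ⟨u, hu, huv, hadj⟩ := h.up v hv hvt
      exact ⟨u, (hmem _).2 (Or.inl hu), by rw [gS u hu, gS v hv]; exact huv, hadj⟩
    · by_cases hik : i + 1 < k
      · exact ⟨y (i + 1), (hmem _).2 (Or.inr ⟨i + 1, hik, rfl⟩), by
          rw [gy i (by omega), gy (i + 1) hik]; exact pos_lt _ _ (by omega), h1 i hik⟩
      · have hi' : i = k - 1 := by omega
        refine ⟨b, (hmem _).2 (Or.inl hb), ?_, hi' ▸ h2⟩
        rw [gS b hb, gy i hi]
        exact (pos_lt_m i hi).trans_le hmb

/-- One step of the construction. -/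
theorem StnGood.step {G : SimpleGraph V} {s t : V} (hst : s ≠ t)
    (h2 : TwoConn G) {S : Finset V} {g : V → ℚ}
    (h : StnGood G s t S g) (x₀ : V) (hx₀ : x₀ ∉ S) :
    ∃ S' g', S ⊂ S' ∧ StnGood G s t S' g' := by
  classical
  -- an edge from outside of `S` to `S`, not to `s`
  obtain ⟨x, a, hx, ha, hsa, hxa⟩ : ∃ x a, x ∉ S ∧ a ∈ S ∧ s ≠ a ∧ G.Adj x a := by
    have hx₀s : x₀ ∈ ({s}ᶜ : Set V) := fun h' => hx₀ (by
      rw [Set.mem_singleton_iff] at h'; rw [h']; exact h.sS)
    have hts : t ∈ ({s}ᶜ : Set V) := fun h' => hst (by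
      rw [Set.mem_singleton_iff] at h'; exact h'.symm)
    obtain ⟨p⟩ := (h2 s).preconnected ⟨x₀, hx₀s⟩ ⟨t, hts⟩
    obtain ⟨d, _, hd1, hd2⟩ := p.exists_boundary_dart {v | v.1 ∉ S} hx₀
      (by simpa using h.tS)
    refine ⟨d.fst.1, d.snd.1, hd1, by simpa using hd2, fun h' => ?_, d.adj⟩
    exact d.snd.2 h'.symm
  -- a path from `x` to `s` avoiding `a`
  have hxa' : x ∈ ({a}ᶜ : Set V) := fun h' => hx (by
    rw [Set.mem_singleton_iff] at h'; rw [h']; exact ha)
  have hsa' : s ∈ ({a}ᶜ : Set V) := fun h' => hsa (by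
    rw [Set.mem_singleton_iff] at h'; exact h')
  obtain ⟨p, hp⟩ := ((h2 a).preconnected ⟨x, hxa'⟩ ⟨s, hsa'⟩).exists_isPath
  have hex : ∃ k, k ≤ p.length ∧ (p.getVert k).1 ∈ S :=
    ⟨p.length, le_rfl, by rw [p.getVert_length]; exact h.sS⟩
  let k := Nat.find hex
  have hk : k ≤ p.length ∧ (p.getVert k).1 ∈ S := Nat.find_spec hex
  have hkmin : ∀ i < k, (p.getVert i).1 ∉ S := by
    intro i hi hi'
    exact Nat.find_min hex hi ⟨hi.le.trans hk.1, hi'⟩
  have hk0 : 0 < k := by
    rcases Nat.eq_zero_or_pos k with h' | h'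
    · exfalso
      have := hk.2
      rw [h', p.getVert_zero] at this
      exact hx this
    · exact h'
  let y : ℕ → V := fun i => (p.getVert i).1
  have hyinj : ∀ i < k, ∀ j < k, y i = y j → i = j := by
    intro i hi j hj hij
    exact hp.getVert_injOn (show i ≤ p.length by omega) (show j ≤ p.length by omega)
      (Subtype.ext hij)
  have hadj : ∀ i, i < k → G.Adj (y i) (y (i + 1)) := by
    intro i hi
    exact p.adj_getVert_succ (show i < p.length by omega)
  have hy0 : y 0 = x := by simp [y]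
  have hb : y k ∈ S := hk.2
  have hab : a ≠ y k := fun h' => (p.getVert k).2 h'.symm
  have hss : S ⊂ S ∪ (range k).image y := by
    refine ⟨subset_union_left, fun h' => ?_⟩
    have := h' (mem_union_right _ (mem_image_of_mem y (mem_range.2 hk0)))
    rw [hy0] at this
    exact hx this
  have hlast : G.Adj (y (k - 1)) (y k) := by
    have := hadj (k - 1) (by omega)
    rwa [Nat.sub_add_cancel hk0] at this
  rcases lt_trichotomy (g a) (g (y k)) with hlt | heq | hgt
  · obtain ⟨g', hg'⟩ := h.insert ha hb hlt k hk0 y hyinj hkmin (by rw [hy0]; exact hxa.symm)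
      (fun i hi => hadj i (by omega)) hlast
    exact ⟨_, g', hss, hg'⟩
  · exact absurd (h.inj a ha _ hb heq) hab
  · obtain ⟨g', hg'⟩ := h.insert hb ha hgt k hk0 (fun i => y (k - 1 - i))
      (fun i hi j hj hij => by
        have := hyinj _ (show k - 1 - i < k by omega) _ (show k - 1 - j < k by omega) hij
        omega)
      (fun i hi => hkmin _ (by omega)) hlast.symm
      (fun i hi => by
        have := hadj (k - 1 - (i + 1)) (by omega)
        rw [show k - 1 - (i + 1) + 1 = k - 1 - i by omega] at this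
        exact this.symm)
      (by simp only [Nat.sub_self]; rw [hy0]; exact hxa)
    have himg : (range k).image (fun i => y (k - 1 - i)) = (range k).image y := by
      ext v
      simp only [mem_image, mem_range]
      constructor
      · rintro ⟨i, hi, rfl⟩
        exact ⟨k - 1 - i, by omega, rfl⟩
      · rintro ⟨i, hi, rfl⟩
        exact ⟨k - 1 - i, by omega, by congr 1; omega⟩
    rw [himg] at hg'
    exact ⟨_, g', hss, hg'⟩

end

theorem specStn : SpecStn := by
  intro V _ G s t _ h2 hst
  classical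
  -- the start
  have hstart : StnGood G s t {s, t} (fun v => if v = s then 0 else 1) := by
    have hne := hst.ne
    have hne' := hst.ne'
    refine ⟨by simp, by simp, ?_, ?_, ?_, ?_, ?_⟩
    · intro u hu v hv huv
      simp only [mem_insert, mem_singleton] at hu hv
      rcases hu with rfl | rfl <;> rcases hv with rfl | rfl <;> simp_all
    · intro v hv
      simp only [if_true]
      split_ifs <;> norm_num
    · intro v hv
      simp only [if_neg hne']
      split_ifs <;> norm_num
    · intro v hv hvs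
      simp only [mem_insert, mem_singleton] at hv
      have : v = t := hv.resolve_left hvs
      subst this
      exact ⟨s, by simp, by simp [hne'], hst⟩
    · intro v hv hvt
      simp only [mem_insert, mem_singleton] at hv
      have : v = s := hv.resolve_right hvt
      subst this
      exact ⟨t, by simp, by simp [hne'], hst⟩
  -- a maximal subset
  obtain ⟨g, hg⟩ : ∃ g, StnGood G s t univ g := by
    let P : Finset (Finset V) := univ.filter fun S => ∃ g, StnGood G s t S g
    have hP : P.Nonempty := ⟨{s, t}, by simp only [P, mem_filter, mem_univ, true_and]; exact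
      ⟨_, hstart⟩⟩
    obtain ⟨S, hS, hmax⟩ := P.exists_max_image Finset.card hP
    obtain ⟨g, hg⟩ := (mem_filter.1 hS).2
    by_cases hu : S = univ
    · exact ⟨g, hu ▸ hg⟩
    · exfalso
      obtain ⟨x₀, hx₀⟩ : ∃ x, x ∉ S := by
        by_contra h
        push Not at h
        exact hu (Finset.eq_univ_iff_forall.2 h)
      obtain ⟨S', g', hss, hg'⟩ := hg.step hst.ne h2 x₀ hx₀
      have := hmax S' (by simp only [P, mem_filter, mem_univ, true_and]; exact ⟨g', hg'⟩)
      exact absurd (Finset.card_lt_card hss) (not_lt.2 this)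
  -- ranks
  have key : ∀ a b, g a < g b →
      (univ.filter fun v => g v < g a).card < (univ.filter fun v => g v < g b).card := by
    intro a b hab
    apply Finset.card_lt_card
    refine ⟨fun v hv => ?_, fun h => ?_⟩
    · simp only [mem_filter, mem_univ, true_and] at hv ⊢
      exact hv.trans hab
    · have := h (show a ∈ univ.filter fun v => g v < g b by simpa using hab)
      simp at this
  have hlt : ∀ a, (univ.filter fun v => g v < g a).card < Fintype.card V := by
    intro a
    refine Finset.card_lt_univ_of_notMem (x := a) ?_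
    simp
  let r : V → Fin (Fintype.card V) := fun a => ⟨_, hlt a⟩
  have hr : ∀ a b, g a < g b → r a < r b := fun a b hab => key a b hab
  have hri : Function.Injective r := by
    intro a b hab
    rcases lt_trichotomy (g a) (g b) with h | h | h
    · exact absurd hab (hr _ _ h).ne
    · exact hg.inj a (mem_univ _) b (mem_univ _) h
    · exact absurd hab (hr _ _ h).ne'
  have hrb : Function.Bijective r :=
    (Fintype.bijective_iff_injective_and_card r).2 ⟨hri, by simp⟩
  have hr' : ∀ a b, g a ≤ g b → r a ≤ r b := by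
    intro a b hab
    rcases hab.lt_or_eq with h | h
    · exact (hr _ _ h).le
    · rw [hg.inj a (mem_univ _) b (mem_univ _) h]
  refine ⟨Equiv.ofBijective r hrb, ?_, ?_, ?_, ?_⟩
  · intro v
    exact hr' _ _ (hg.min v (mem_univ _))
  · intro v
    exact hr' _ _ (hg.max v (mem_univ _))
  · intro v hv
    obtain ⟨u, _, hu, hadj⟩ := hg.down v (mem_univ _) hv
    exact ⟨u, hr _ _ hu, hadj⟩
  · intro v hv
    obtain ⟨u, _, hu, hadj⟩ := hg.up v (mem_univ _) hv
    exact ⟨u, hr _ _ hu, hadj⟩

end Pool.Agent.MP_cdcb37
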