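import Pool.Agent.Lib.MP_cdcb37_lc.Spec

set_option autoImplicit false

/-!
# TRI: filling the nontriangular faces of a plane embedding
-/

namespace Pool.Agent.MP_cdcb37

open Finset

namespace TriFill

/-! ## Cycles of permutations -/

set_option linter.unusedSectionVars false

section perm
variable {α : Type} [Finite α] (f : Equiv.Perm α)

theorem per_pos (x : α) : 0 < Function.minimalPeriod f x := by
  apply Function.IsPeriodicPt.minimalPeriod_pos (n := orderOf f) (orderOf_pos f)
  rw [Function.IsPeriodicPt, Function.IsFixedPt, ← Equiv.Perm.coe_pow, pow_orderOf_eq_one]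
  rfl

theorem per_iter (x : α) : f^[Function.minimalPeriod f x] x = x := Function.iterate_minimalPeriod

theorem same_iter {x y : α} (h : f.SameCycle x y) :
    ∃ i < Function.minimalPeriod f x, f^[i] x = y := by
  obtain ⟨n, hn⟩ := h.exists_nat_pow_eq
  rw [Equiv.Perm.coe_pow] at hn
  refine ⟨n % Function.minimalPeriod f x, Nat.mod_lt _ (per_pos f x), ?_⟩
  rw [Function.iterate_mod_minimalPeriod_eq]
  exact hn

theorem iter_same (x : α) (n : ℕ) : f.SameCycle x (f^[n] x) := by
  rw [← Equiv.Perm.coe_pow]
  exact ⟨n, by simp⟩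

theorem iter_inj {x : α} {i j : ℕ} (hi : i < Function.minimalPeriod f x)
    (hj : j < Function.minimalPeriod f x) (h : f^[i] x = f^[j] x) : i = j :=
  Function.iterate_injOn_Iio_minimalPeriod hi hj h

theorem cobound (g : α → ZMod 2)
    (h0 : ∀ x, ∀ S : Finset α, (∀ y, y ∈ S ↔ f.SameCycle x y) → ∑ y ∈ S, g y = 0) :
    ∃ k : α → ZMod 2, ∀ x, k (f x) + k x = g x := by
  classical
  have h : ∀ x, ∑ i ∈ range (Function.minimalPeriod f x), g (f^[i] x) = 0 := by
    intro x
    have h1 := h0 x ((range (Function.minimalPeriod f x)).image (fun i => f^[i] x)) (by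
      intro y
      simp only [Finset.mem_image, Finset.mem_range]
      constructor
      · rintro ⟨i, -, rfl⟩
        exact iter_same f x i
      · exact fun h => same_iter f h)
    rw [Finset.sum_image] at h1
    · exact h1
    · intro i hi j hj hij
      exact iter_inj f (by simpa using hi) (by simpa using hj) hij
  let rep : α → α := fun x => (Quotient.mk (Equiv.Perm.SameCycle.setoid f) x).out
  have hrep : ∀ x, f.SameCycle (rep x) x := fun x =>
    Quotient.exact (s := Equiv.Perm.SameCycle.setoid f) (Quotient.out_eq _)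
  have hrepf : ∀ x, rep (f x) = rep x := by
    intro x
    have : (Quotient.mk (Equiv.Perm.SameCycle.setoid f) (f x)) =
        Quotient.mk (Equiv.Perm.SameCycle.setoid f) x :=
      Quotient.sound (s := Equiv.Perm.SameCycle.setoid f)
        (Equiv.Perm.SameCycle.symm ⟨1, by simp⟩)
    simp only [rep, this]
  have hex : ∀ x, ∃ i, f^[i] (rep x) = x := fun x => by
    obtain ⟨i, -, hi⟩ := same_iter f (hrep x)
    exact ⟨i, hi⟩
  choose idx hidx using hex
  let S : α → ℕ → ZMod 2 := fun r m => ∑ i ∈ range m, g (f^[i] r)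
  have hper : ∀ r m, S r (m + Function.minimalPeriod f r) = S r m := by
    intro r m
    simp only [S]
    rw [add_comm, Finset.sum_range_add, h r, zero_add]
    apply Finset.sum_congr rfl
    intro i _
    rw [add_comm, Function.iterate_add_minimalPeriod_eq]
  have hper2 : ∀ r m k, S r (m + k * Function.minimalPeriod f r) = S r m := by
    intro r m k
    induction k with
    | zero => simp
    | succ k ih => rw [Nat.succ_mul, ← add_assoc, hper, ih]
  have hmod : ∀ r m, S r m = S r (m % Function.minimalPeriod f r) := by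
    intro r m
    conv_lhs => rw [← Nat.mod_add_div m (Function.minimalPeriod f r), mul_comm]
    rw [hper2]
  have hS : ∀ r m m', f^[m] r = f^[m'] r → S r m = S r m' := by
    intro r m m' he
    rw [hmod r m, hmod r m']
    congr 1
    apply iter_inj f (Nat.mod_lt _ (per_pos f r)) (Nat.mod_lt _ (per_pos f r))
    rw [Function.iterate_mod_minimalPeriod_eq, Function.iterate_mod_minimalPeriod_eq, he]
  refine ⟨fun x => S (rep x) (idx x), fun x => ?_⟩
  have e1 : S (rep (f x)) (idx (f x)) = S (rep x) (idx x + 1) := by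
    have h2 := hidx (f x)
    rw [hrepf] at h2 ⊢
    apply hS
    rw [h2, Function.iterate_succ_apply', hidx]
  show S (rep (f x)) (idx (f x)) + S (rep x) (idx x) = g x
  rw [e1]
  simp only [S]
  rw [Finset.sum_range_succ, hidx]
  linear_combination CharTwo.add_self_eq_zero (∑ i ∈ range (idx x), g (f^[i] (rep x)))

/-- The cycle of `x` as a list. -/
noncomputable def cyc (x : α) : List α := (List.range (Function.minimalPeriod f x)).map (fun i => f^[i] x)

theorem mem_cyc {x y : α} : y ∈ cyc f x ↔ f.SameCycle x y := by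
  simp only [cyc, List.mem_map, List.mem_range]
  constructor
  · rintro ⟨i, -, rfl⟩
    exact iter_same f x i
  · intro h
    obtain ⟨i, hi, he⟩ := same_iter f h
    exact ⟨i, hi, he⟩

theorem cyc_nodup (x : α) : (cyc f x).Nodup := by
  rw [cyc, List.nodup_map_iff_inj_on List.nodup_range]
  intro i hi j hj h
  exact iter_inj f (List.mem_range.1 hi) (List.mem_range.1 hj) h

theorem cyc_length (x : α) : (cyc f x).length = Function.minimalPeriod f x := by
  simp [cyc]

theorem cyc_chain (x : α) : (cyc f x ++ [x]).IsChain (fun a b => b = f a) := by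
  have h : cyc f x ++ [x] =
      (List.range (Function.minimalPeriod f x + 1)).map (fun i => f^[i] x) := by
    rw [List.range_succ, List.map_append, cyc]
    simp
  rw [h, List.isChain_map, List.isChain_range_succ]
  intro m _
  rw [Function.iterate_succ_apply']

theorem cyc_cons (x : α) : ∃ t, cyc f x = x :: t := by
  have h := per_pos f x
  obtain ⟨n, hn⟩ := Nat.exists_eq_succ_of_ne_zero h.ne'
  rw [cyc, hn, List.range_succ_eq_map]
  simp

end perm

theorem chain_fm {α β : Type} (R : β → β → Prop) (nx : α → α) (B : α → List β) (hd : α → β)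
    (hB : ∀ x, ∃ t, B x = hd x :: t) (hc : ∀ x, (B x).IsChain R)
    (hl : ∀ x, ∀ y ∈ (B x).getLast?, R y (hd (nx x))) :
    ∀ xs : List α, xs.IsChain (fun x y => y = nx x) → (xs.flatMap B).IsChain R := by
  intro xs
  induction xs with
  | nil => intro _; simp
  | cons x xs ih =>
    intro h
    rw [List.flatMap_cons, List.isChain_append]
    cases xs with
    | nil => simpa using hc x
    | cons y t =>
      rw [List.isChain_cons_cons] at h
      refine ⟨hc x, ih h.2, ?_⟩
      intro u hu v hv
      obtain ⟨t', ht'⟩ := hB y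
      rw [List.flatMap_cons, ht'] at hv
      simp only [List.cons_append, List.head?_cons, Option.mem_def, Option.some.injEq] at hv
      subst hv
      rw [h.1]
      exact hl x u hu

/-! ## Darts -/

section fill
variable {V : Type} {G : SimpleGraph V} {φ : Equiv.Perm G.Dart}

theorem dext {d e : G.Dart} (h1 : d.fst = e.fst) (h2 : d.snd = e.snd) : d = e :=
  SimpleGraph.Dart.ext _ _ (Prod.ext h1 h2)

theorem rot_apply (d : G.Dart) : rot φ d = φ d.symm := rfl

theorem rot_fst (hE : Emb G φ) (d : G.Dart) : (rot φ d).fst = d.fst := by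
  rw [rot_apply, hE.step]
  rfl

theorem phi_ne (hE : Emb G φ) (d : G.Dart) : φ d ≠ d := by
  intro h
  have h1 := hE.step d
  rw [h] at h1
  exact d.fst_ne_snd h1

theorem phi2_ne (hE : Emb G φ) (d : G.Dart) : φ (φ d) ≠ d := by
  intro h
  have h1 := hE.step (φ d)
  rw [h] at h1
  exact hE.nosym d (dext (hE.step d) h1.symm)

theorem rot_ne (hE : Emb G φ) (d : G.Dart) : rot φ d ≠ d := by
  intro h
  apply hE.nosym d.symm
  rw [rot_apply] at h
  rw [h, SimpleGraph.Dart.symm_symm]

theorem local2 (hE : Emb G φ) {d : G.Dart} (h : rot φ (rot φ d) = d) {e : G.Dart}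
    (he : e.fst = d.fst) : e = d ∨ e = rot φ d := by
  obtain ⟨n, hn⟩ := hE.rot d e he.symm
  have h2 : ((rot φ) ^ (2 : ℤ)) d = d := by
    show rot φ (rot φ d) = d
    exact h
  have h3 : ∀ m : ℤ, ((rot φ) ^ (2 * m)) d = d := by
    intro m
    rw [zpow_mul]
    exact Equiv.Perm.zpow_apply_eq_self_of_apply_eq_self h2 m
  rcases Int.even_or_odd' n with ⟨m, rfl | rfl⟩
  · left
    rw [← hn, h3]
  · right
    rw [← hn, add_comm, zpow_add, Equiv.Perm.mul_apply, h3, zpow_one]

/-- The face of `d` is not a triangle. -/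
def Big (φ : Equiv.Perm G.Dart) (d : G.Dart) : Prop := φ (φ (φ d)) ≠ d

theorem big_phi (d : G.Dart) : Big φ (φ d) ↔ Big φ d := by
  simp only [Big, ne_eq, EmbeddingLike.apply_eq_iff_eq]

theorem twoface (hE : Emb G φ) (hG : G.Connected) {d : G.Dart} (h1 : ¬ Big φ d)
    (h2 : ¬ Big φ d.symm) (h3 : (φ d).snd = (φ d.symm).snd) (e : G.Dart) : ¬ Big φ e := by
  simp only [Big, not_not] at h1 h2
  have s1 : (φ d).fst = d.snd := hE.step d
  have s2 : (φ (φ d)).fst = (φ d).snd := hE.step _
  have s3 : (φ (φ d)).snd = d.fst := by rw [← hE.step, h1]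
  have t1 : (φ d.symm).fst = d.fst := hE.step _
  have t2 : (φ (φ d.symm)).fst = (φ d.symm).snd := hE.step _
  have t3 : (φ (φ d.symm)).snd = d.snd := by rw [← hE.step, h2]; rfl
  have e1 : (φ d).symm = φ (φ d.symm) :=
    dext (by rw [t2, ← h3]; rfl) (by rw [t3, ← s1]; rfl)
  have e2 : (φ (φ d)).symm = φ d.symm :=
    dext (by rw [t1, ← s3]; rfl) (by rw [← h3, ← s2]; rfl)
  have e3 : (φ d.symm).symm = φ (φ d) := by rw [← e2, SimpleGraph.Dart.symm_symm]
  have e4 : (φ (φ d.symm)).symm = φ d := by rw [← e1, SimpleGraph.Dart.symm_symm]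
  have ra : rot φ (rot φ d) = d := by
    rw [rot_apply, rot_apply, e3, h1]
  have rb : rot φ (rot φ (φ d)) = φ d := by
    rw [rot_apply (φ d), rot_apply, e1, h2, SimpleGraph.Dart.symm_symm]
  have rx : rot φ (rot φ (φ (φ d))) = φ (φ d) := by
    rw [rot_apply, rot_apply, e2, e4]
  have six : ∀ f : G.Dart, f.fst = d.fst ∨ f.fst = d.snd ∨ f.fst = (φ d).snd →
      φ (φ (φ f)) = f ∧ (f.snd = d.fst ∨ f.snd = d.snd ∨ f.snd = (φ d).snd) := by
    rintro f (hf | hf | hf)
    · rcases local2 hE ra hf with rfl | rfl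
      · exact ⟨h1, Or.inr (Or.inl rfl)⟩
      · rw [rot_apply]
        exact ⟨by rw [h2], Or.inr (Or.inr h3.symm)⟩
    · rcases local2 hE rb (hf.trans s1.symm) with rfl | rfl
      · exact ⟨by rw [h1], Or.inr (Or.inr rfl)⟩
      · rw [rot_apply, e1]
        exact ⟨by rw [h2, h2], Or.inl (by rw [h2]; rfl)⟩
    · rcases local2 hE rx (hf.trans s2.symm) with rfl | rfl
      · exact ⟨by rw [h1], Or.inl s3⟩
      · rw [rot_apply, e2]
        exact ⟨by rw [h2], Or.inr (Or.inl t3)⟩
  have all : ∀ u : V, u = d.fst ∨ u = d.snd ∨ u = (φ d).snd := by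
    intro u
    obtain ⟨p⟩ := hG.preconnected d.fst u
    have key : ∀ {a b : V} (p : G.Walk a b), (a = d.fst ∨ a = d.snd ∨ a = (φ d).snd) →
        (b = d.fst ∨ b = d.snd ∨ b = (φ d).snd) := by
      intro a b p
      induction p with
      | nil => exact id
      | cons h p ih =>
        intro ha
        exact ih (six ⟨(_, _), h⟩ ha).2
    exact key p (Or.inl rfl)
  have := (six e (all e.fst)).1
  simp only [Big, not_not]
  exact this

theorem deg2 (hE : Emb G φ) (hG : G.Connected) (hb : ∃ e, Big φ e) {d : G.Dart}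
    (h : rot φ (rot φ d) = d) : Big φ d.symm ∨ Big φ (rot φ d).symm := by
  by_contra hcon
  rw [not_or] at hcon
  obtain ⟨h1, h2⟩ := hcon
  obtain ⟨e, he⟩ := hb
  have h4 : φ (rot φ d).symm = d := h
  have h5 : ¬ Big φ d := by
    rw [← h4, big_phi]
    exact h2
  refine twoface hE hG h5 h1 ?_ e he
  simp only [Big, not_not] at h2
  rw [h4] at h2
  rw [← hE.step, h2]
  rfl

/-! ## The filled graph -/

/-- Darts of nontriangular faces. -/
abbrev BD (φ : Equiv.Perm G.Dart) : Type := {d : G.Dart // Big φ d}

/-- The face permutation of the darts of nontriangular faces. -/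
def psi (φ : Equiv.Perm G.Dart) : Equiv.Perm (BD φ) := φ.subtypePerm (fun d => big_phi d)

theorem psi_val (d : BD φ) : (psi φ d).1 = φ d.1 := rfl

/-- Vertices of the filled graph. -/
inductive Fill (φ : Equiv.Perm G.Dart) : Type
  | v (a : V)
  | w (d : BD φ)
  | z (o : Quotient (Equiv.Perm.SameCycle.setoid (psi φ)))

/-- The centre of the face of `d`. -/
abbrev zz (d : BD φ) : Fill φ := Fill.z (Quotient.mk _ d)

/-- Adjacency of the filled graph. -/
def FAdj : Fill φ → Fill φ → Prop
  | .v a, .v b => G.Adj a b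
  | .v a, .w d => a = d.1.fst ∨ a = d.1.snd
  | .w d, .v a => a = d.1.fst ∨ a = d.1.snd
  | .w d, .w e => e = psi φ d ∨ d = psi φ e
  | .w d, .z o => o = Quotient.mk _ d
  | .z o, .w d => o = Quotient.mk _ d
  | .v _, .z _ => False
  | .z _, .v _ => False
  | .z _, .z _ => False

theorem psi_ne (hE : Emb G φ) (d : BD φ) : psi φ d ≠ d := fun h =>
  phi_ne hE d.1 (congrArg Subtype.val h)

theorem psi2_ne (hE : Emb G φ) (d : BD φ) : psi φ (psi φ d) ≠ d := fun h =>
  phi2_ne hE d.1 (congrArg Subtype.val h)

theorem psi3_ne (d : BD φ) : psi φ (psi φ (psi φ d)) ≠ d := fun h =>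
  d.2 (congrArg Subtype.val h)

theorem psi_fst (hE : Emb G φ) (d : BD φ) : (psi φ d).1.fst = d.1.snd := hE.step d.1

theorem psi_snd_ne (hE : Emb G φ) (d : BD φ) : (psi φ d).1.snd ≠ d.1.fst := fun h =>
  hE.nosym d.1 (dext (hE.step d.1) h)

/-- The filled graph. -/
def fillG (hE : Emb G φ) : SimpleGraph (Fill φ) where
  Adj := FAdj
  symm := ⟨by
    rintro (a | d | o) (b | e | o') h
    · exact G.symm.symm _ _ h
    · exact h
    · exact h
    · exact h
    · exact Or.symm h
    · exact h
    · exact h
    · exact h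
    · exact h⟩
  loopless := ⟨by
    rintro (a | d | o) h
    · exact G.loopless.irrefl _ h
    · rcases h with h | h
      · exact psi_ne hE d h.symm
      · exact psi_ne hE d h.symm
    · exact h⟩

theorem adj_cases (hE : Emb G φ) {P : Fill φ → Fill φ → Prop} (hs : ∀ p q, P p q → P q p)
    (h1 : ∀ d : G.Dart, P (.v d.fst) (.v d.snd)) (h2 : ∀ d : BD φ, P (.v d.1.fst) (.w d))
    (h3 : ∀ d : BD φ, P (.v d.1.snd) (.w d)) (h4 : ∀ d : BD φ, P (.w d) (.w (psi φ d)))
    (h5 : ∀ d : BD φ, P (zz d) (.w d)) : ∀ p q, (fillG hE).Adj p q → P p q := by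
  rintro (a | d | o) (b | e | o') h
  · exact h1 ⟨(a, b), h⟩
  · rcases h with rfl | rfl
    · exact h2 e
    · exact h3 e
  · exact h.elim
  · rcases h with rfl | rfl
    · exact hs _ _ (h2 d)
    · exact hs _ _ (h3 d)
  · rcases h with rfl | rfl
    · exact h4 d
    · exact hs _ _ (h4 e)
  · obtain rfl : o' = Quotient.mk _ d := h
    exact hs _ _ (h5 d)
  · exact h.elim
  · obtain rfl : o = Quotient.mk _ e := h
    exact h5 e
  · exact h.elim

open Classical in
/-- The third corner of the triangle on the side of the dart `d`. -/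
noncomputable def side (φ : Equiv.Perm G.Dart) (d : G.Dart) : Fill φ :=
  if h : Big φ d then .w ⟨d, h⟩ else .v (φ d).snd

theorem side_big {d : G.Dart} (h : Big φ d) : side φ d = .w ⟨d, h⟩ := dif_pos h

theorem side_small {d : G.Dart} (h : ¬ Big φ d) : side φ d = .v (φ d).snd := dif_neg h

theorem small_tri (hE : Emb G φ) {d : G.Dart} (h : ¬ Big φ d) :
    (φ (φ d)).snd = d.fst := by
  simp only [Big, not_not] at h
  rw [← hE.step, h]

theorem nb_vv (hE : Emb G φ) (d : G.Dart) (x : Fill φ) :
    ((fillG hE).Adj (.v d.fst) x ∧ (fillG hE).Adj (.v d.snd) x) ↔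
      (x = side φ d ∨ x = side φ d.symm) := by
  have hside : ∀ e : G.Dart, (fillG hE).Adj (.v e.fst) (side φ e) ∧
      (fillG hE).Adj (.v e.snd) (side φ e) := by
    intro e
    by_cases h : Big φ e
    · rw [side_big h]
      exact ⟨Or.inl rfl, Or.inr rfl⟩
    · rw [side_small h]
      have h1 := (φ e).adj
      have h2 := (φ (φ e)).adj
      rw [hE.step] at h1
      rw [hE.step, small_tri hE h] at h2
      exact ⟨h2.symm, h1⟩
  constructor
  · rintro ⟨h1, h2⟩
    rcases x with c | e | o
    · have k1 : G.Adj d.fst c := h1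
      have k2 : G.Adj d.snd c := h2
      rcases hE.tri d.fst d.snd c d.adj k2 k1 with ⟨f, f1, f2, f3, f4⟩ | ⟨f, f1, f2, f3, f4⟩
      · obtain rfl : f = d := dext f1 f2
        left
        rw [side_small (by simpa [Big] using f4), f3]
      · obtain rfl : f = d.symm := dext f1 f2
        right
        rw [side_small (by simpa [Big] using f4), f3]
    · have k1 : d.fst = e.1.fst ∨ d.fst = e.1.snd := h1
      have k2 : d.snd = e.1.fst ∨ d.snd = e.1.snd := h2
      rcases k1 with k1 | k1
      · rcases k2 with k2 | k2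
        · exact absurd (k1.trans k2.symm) d.fst_ne_snd
        · obtain rfl : d = e.1 := dext k1 k2
          left
          rw [side_big e.2]
      · rcases k2 with k2 | k2
        · have h3 : d.symm = e.1 := dext k2 k1
          right
          rw [h3, side_big e.2]
        · exact absurd (k1.trans k2.symm) d.fst_ne_snd
    · exact h1.elim
  · rintro (rfl | rfl)
    · exact hside d
    · exact (hside d.symm).symm

theorem side_ne (hE : Emb G φ) (hG : G.Connected) (hb : ∃ e, Big φ e) (d : G.Dart) :
    side φ d ≠ side φ d.symm := by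
  intro h
  by_cases h1 : Big φ d
  · by_cases h2 : Big φ d.symm
    · rw [side_big h1, side_big h2] at h
      simp only [Fill.w.injEq, Subtype.mk.injEq] at h
      exact d.fst_ne_snd (congrArg (fun e : G.Dart => e.fst) h)
    · rw [side_big h1, side_small h2] at h
      cases h
  · by_cases h2 : Big φ d.symm
    · rw [side_small h1, side_big h2] at h
      cases h
    · rw [side_small h1, side_small h2] at h
      obtain ⟨e, he⟩ := hb
      exact twoface hE hG h1 h2 (Fill.v.inj h) e he

theorem pfst (hE : Emb G φ) (d : BD φ) : ((psi φ).symm d).1.snd = d.1.fst := by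
  rw [← psi_fst hE, Equiv.apply_symm_apply]

theorem pfst_ne (hE : Emb G φ) (d : BD φ) : ((psi φ).symm d).1.fst ≠ d.1.snd := by
  intro h
  apply psi_snd_ne hE ((psi φ).symm d)
  rw [Equiv.apply_symm_apply, h]

theorem nb_fst (hE : Emb G φ) (d : BD φ) (x : Fill φ) :
    ((fillG hE).Adj (.v d.1.fst) x ∧ (fillG hE).Adj (.w d) x) ↔
      (x = .v d.1.snd ∨ x = .w ((psi φ).symm d)) := by
  constructor
  · rintro ⟨h1, h2⟩
    rcases x with c | e | o
    · rcases h2 with rfl | rfl
      · exact absurd h1 ((fillG hE).loopless.irrefl _)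
      · exact Or.inl rfl
    · rcases h2 with rfl | rfl
      · rcases h1 with h1 | h1
        · rw [psi_fst hE] at h1
          exact absurd h1 d.1.fst_ne_snd
        · exact absurd h1.symm (psi_snd_ne hE d)
      · right
        rw [Equiv.symm_apply_apply]
    · exact h1.elim
  · rintro (rfl | rfl)
    · exact ⟨d.1.adj, Or.inr rfl⟩
    · exact ⟨Or.inr (pfst hE d).symm, Or.inr (Equiv.apply_symm_apply _ _).symm⟩

theorem nb_snd (hE : Emb G φ) (d : BD φ) (x : Fill φ) :
    ((fillG hE).Adj (.v d.1.snd) x ∧ (fillG hE).Adj (.w d) x) ↔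
      (x = .v d.1.fst ∨ x = .w (psi φ d)) := by
  constructor
  · rintro ⟨h1, h2⟩
    rcases x with c | e | o
    · rcases h2 with rfl | rfl
      · exact Or.inl rfl
      · exact absurd h1 ((fillG hE).loopless.irrefl _)
    · rcases h2 with rfl | rfl
      · exact Or.inr rfl
      · rcases h1 with h1 | h1
        · exact absurd h1 (psi_snd_ne hE e)
        · exact absurd (h1.trans (psi_fst hE e).symm).symm (psi φ e).1.fst_ne_snd
    · exact h1.elim
  · rintro (rfl | rfl)
    · exact ⟨d.1.adj.symm, Or.inl rfl⟩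
    · exact ⟨Or.inl (psi_fst hE d).symm, Or.inl rfl⟩

theorem mk_psi (d : BD φ) :
    (Quotient.mk (Equiv.Perm.SameCycle.setoid (psi φ)) (psi φ d)) = Quotient.mk _ d :=
  Quotient.sound (s := Equiv.Perm.SameCycle.setoid (psi φ))
    (Equiv.Perm.SameCycle.symm ⟨1, by simp⟩)

theorem mk_symm (d : BD φ) :
    (Quotient.mk (Equiv.Perm.SameCycle.setoid (psi φ)) ((psi φ).symm d)) = Quotient.mk _ d := by
  rw [← mk_psi, Equiv.apply_symm_apply]

theorem nb_ww (hE : Emb G φ) (d : BD φ) (x : Fill φ) :
    ((fillG hE).Adj (.w d) x ∧ (fillG hE).Adj (.w (psi φ d)) x) ↔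
      (x = .v d.1.snd ∨ x = zz d) := by
  constructor
  · rintro ⟨h1, h2⟩
    rcases x with c | e | o
    · rcases h1 with rfl | rfl
      · rcases h2 with h2 | h2
        · rw [psi_fst hE] at h2
          exact absurd h2 d.1.fst_ne_snd
        · exact absurd h2.symm (psi_snd_ne hE d)
      · exact Or.inl rfl
    · exfalso
      rcases h1 with rfl | rfl
      · exact (fillG hE).loopless.irrefl _ h2
      · rcases h2 with h2 | h2
        · exact psi3_ne e h2.symm
        · exact psi_ne hE e ((psi φ).injective h2)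
    · right
      exact congrArg Fill.z h1
  · rintro (rfl | rfl)
    · exact ⟨Or.inr rfl, Or.inl (psi_fst hE d).symm⟩
    · exact ⟨rfl, (mk_psi d).symm⟩

theorem nb_zw (hE : Emb G φ) (d : BD φ) (x : Fill φ) :
    ((fillG hE).Adj (zz d) x ∧ (fillG hE).Adj (.w d) x) ↔
      (x = .w (psi φ d) ∨ x = .w ((psi φ).symm d)) := by
  constructor
  · rintro ⟨h1, h2⟩
    rcases x with c | e | o
    · exact h1.elim
    · rcases h2 with rfl | rfl
      · exact Or.inl rfl
      · right
        rw [Equiv.symm_apply_apply]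
    · exact h1.elim
  · rintro (rfl | rfl)
    · exact ⟨(mk_psi d).symm, Or.inl rfl⟩
    · exact ⟨(mk_symm d).symm, Or.inr (Equiv.apply_symm_apply _ _).symm⟩

theorem fill_two (hE : Emb G φ) (hG : G.Connected) (hb : ∃ e, Big φ e) (p q : Fill φ)
    (h : (fillG hE).Adj p q) :
    ∃ c d, c ≠ d ∧ ∀ x, ((fillG hE).Adj p x ∧ (fillG hE).Adj q x) ↔ (x = c ∨ x = d) := by
  revert p q
  refine adj_cases hE ?_ ?_ ?_ ?_ ?_ ?_
  · rintro p q ⟨c, d, hcd, hx⟩
    exact ⟨c, d, hcd, fun x => and_comm.trans (hx x)⟩
  · intro d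
    exact ⟨_, _, side_ne hE hG hb d, nb_vv hE d⟩
  · intro d
    exact ⟨_, _, by simp, nb_fst hE d⟩
  · intro d
    exact ⟨_, _, by simp, nb_snd hE d⟩
  · intro d
    exact ⟨_, _, by simp, nb_ww hE d⟩
  · intro d
    refine ⟨_, _, ?_, nb_zw hE d⟩
    intro h
    apply psi2_ne hE ((psi φ).symm d)
    rw [Equiv.apply_symm_apply]
    exact Fill.w.inj h

theorem fill_conn (hE : Emb G φ) (hG : G.Connected) : (fillG hE).Connected := by
  obtain ⟨a0⟩ := hG.nonempty
  have hv : ∀ a, (fillG hE).Reachable (.v a0) (.v a) := by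
    intro a
    obtain ⟨p⟩ := hG.preconnected a0 a
    have key : ∀ {a b : V} (p : G.Walk a b), (fillG hE).Reachable (.v a) (.v b) := by
      intro a b p
      induction p with
      | nil => exact SimpleGraph.Reachable.refl _
      | cons h p ih =>
        exact (SimpleGraph.Adj.reachable (G := fillG hE) (u := .v _) (v := .v _) h).trans ih
    exact key p
  have hw : ∀ d, (fillG hE).Reachable (.v a0) (.w d) := fun d =>
    (hv d.1.fst).trans
      (SimpleGraph.Adj.reachable (G := fillG hE) (u := .v _) (v := .w _) (Or.inl rfl))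
  have hz : ∀ o, (fillG hE).Reachable (.v a0) (.z o) := by
    intro o
    obtain ⟨d, rfl⟩ := Quotient.exists_rep o
    exact (hw d).trans (SimpleGraph.Adj.reachable (G := fillG hE) (u := .w _) (v := .z _) rfl)
  have hall : ∀ x, (fillG hE).Reachable (.v a0) x := by
    rintro (a | d | o)
    · exact hv a
    · exact hw d
    · exact hz o
  have : Nonempty (Fill φ) := ⟨.v a0⟩
  exact SimpleGraph.Connected.mk (fun x y => (hall x).symm.trans (hall y))

/-- The link condition. -/
def HasLink {W : Type} (T : SimpleGraph W) (v : W) : Prop :=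
  ∃ l : List W, l.Nodup ∧ 3 ≤ l.length ∧ (∀ x, x ∈ l ↔ T.Adj v x) ∧
      l.IsChain T.Adj ∧ (∀ x y, l.head? = some x → l.getLast? = some y → T.Adj y x)

theorem link_w (hE : Emb G φ) (d : BD φ) : HasLink (fillG hE) (.w d) := by
  refine ⟨[.v d.1.fst, .v d.1.snd, .w (psi φ d), zz d, .w ((psi φ).symm d)], ?_, by simp, ?_, ?_,
    ?_⟩
  · have h1 : psi φ d ≠ (psi φ).symm d := by
      intro h
      apply psi2_ne hE ((psi φ).symm d)
      rw [Equiv.apply_symm_apply]
      exact h
    simp [h1]
  · rintro (a | e | o)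
    · simp [fillG, FAdj]
    · simp only [List.mem_cons, reduceCtorEq, Fill.w.injEq, false_or, List.not_mem_nil, or_false]
      show (e = psi φ d ∨ e = (psi φ).symm d) ↔ (e = psi φ d ∨ d = psi φ e)
      rw [Equiv.eq_symm_apply, eq_comm (a := psi φ e)]
    · simp [fillG, FAdj]
  · simp only [List.isChain_cons_cons, List.isChain_singleton, and_true]
    exact ⟨d.1.adj, Or.inl (psi_fst hE d).symm, (mk_psi d).symm, (mk_symm d).symm⟩
  · intro x y hx hy
    simp only [List.head?_cons, Option.some.injEq] at hx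
    simp only [List.getLast?_cons_cons, List.getLast?_singleton, Option.some.injEq] at hy
    subst hx hy
    exact Or.inr (pfst hE d).symm

instance [Finite V] : Finite G.Dart :=
  Finite.of_injective (fun d : G.Dart => d.toProd) (fun _ _ h => SimpleGraph.Dart.ext _ _ h)

theorem link_z [Finite V] (hE : Emb G φ) (o : Quotient (Equiv.Perm.SameCycle.setoid (psi φ))) :
    HasLink (fillG hE) (.z o) := by
  obtain ⟨d, rfl⟩ := Quotient.exists_rep o
  have hinj : Function.Injective (Fill.w (φ := φ)) := fun _ _ h => Fill.w.inj h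
  have hch := cyc_chain (psi φ) d
  rw [List.isChain_append] at hch
  refine ⟨(cyc (psi φ) d).map Fill.w, (cyc_nodup _ d).map hinj, ?_, ?_, ?_, ?_⟩
  · rw [List.length_map, cyc_length]
    have h0 := per_pos (psi φ) d
    have hit := per_iter (psi φ) d
    by_contra hlt
    have : Function.minimalPeriod (psi φ) d = 1 ∨ Function.minimalPeriod (psi φ) d = 2 := by
      omega
    rcases this with h | h
    · rw [h] at hit
      exact psi_ne hE d hit
    · rw [h] at hit
      exact psi2_ne hE d hit
  · rintro (a | e | o)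
    · simp [fillG, FAdj]
    · rw [List.mem_map_of_injective hinj, mem_cyc]
      show _ ↔ (Quotient.mk _ d : Quotient (Equiv.Perm.SameCycle.setoid (psi φ))) =
        Quotient.mk _ e
      rw [Quotient.eq]
      rfl
    · simp [fillG, FAdj]
  · rw [List.isChain_map]
    exact hch.1.imp (fun _ _ h => Or.inl h)
  · intro x y hx hy
    obtain ⟨t, ht⟩ := cyc_cons (psi φ) d
    rw [ht] at hx
    simp only [List.map_cons, List.head?_cons, Option.some.injEq] at hx
    subst hx
    rw [List.getLast?_map] at hy
    simp only [Option.map_eq_some_iff] at hy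
    obtain ⟨e, he, rfl⟩ := hy
    exact Or.inl (hch.2.2 e he d (by simp))

theorem same_fst (hE : Emb G φ) {d e : G.Dart} (h : (rot φ).SameCycle d e) : e.fst = d.fst := by
  have h1 : ∀ n : ℕ, ∀ d : G.Dart, (((rot φ) ^ n) d).fst = d.fst := by
    intro n
    induction n with
    | zero => intro d; rfl
    | succ n ih =>
      intro d
      rw [pow_succ', Equiv.Perm.mul_apply, rot_fst hE, ih]
  obtain ⟨n, hn⟩ := h
  rcases Int.eq_nat_or_neg n with ⟨m, rfl | rfl⟩
  · rw [← hn, zpow_natCast, h1]
  · rw [← h1 m e, ← hn]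
    congr 1
    rw [zpow_neg, zpow_natCast, ← Equiv.Perm.mul_apply, mul_inv_cancel, Equiv.Perm.one_apply]

open Classical in
/-- The part of the link of a vertex coming from the dart `d`. -/
noncomputable def blk (φ : Equiv.Perm G.Dart) (d : G.Dart) : List (Fill φ) :=
  .v d.snd :: (if h : Big φ d.symm then [.w ⟨d.symm, h⟩, .w ⟨rot φ d, (big_phi _).2 h⟩] else [])

theorem mem_blk (d : G.Dart) (x : Fill φ) : x ∈ blk φ d ↔
    (x = .v d.snd ∨ ∃ e : BD φ, x = .w e ∧ (e.1 = d.symm ∨ e.1 = rot φ d)) := by
  by_cases h : Big φ d.symm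
  · simp only [blk, h, dif_pos, List.mem_cons, List.not_mem_nil, or_false]
    constructor
    · rintro (rfl | rfl | rfl)
      · exact Or.inl rfl
      · exact Or.inr ⟨_, rfl, Or.inl rfl⟩
      · exact Or.inr ⟨_, rfl, Or.inr rfl⟩
    · rintro (rfl | ⟨⟨e, he⟩, rfl, h1 | h1⟩)
      · exact Or.inl rfl
      · simp only at h1
        subst h1
        exact Or.inr (Or.inl rfl)
      · simp only at h1
        subst h1
        exact Or.inr (Or.inr rfl)
  · simp only [blk, h, not_false_eq_true, dif_neg, List.mem_singleton]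
    constructor
    · intro h
      exact Or.inl h
    · rintro (rfl | ⟨⟨e, he⟩, rfl, h1 | h1⟩)
      · rfl
      · simp only at h1
        subst h1
        exact absurd he h
      · simp only at h1
        subst h1
        exact absurd ((big_phi _).1 he) h

theorem exists_dart (hG : G.Connected) (hb : ∃ e, Big φ e) (a : V) : ∃ d : G.Dart, d.fst = a := by
  obtain ⟨e, -⟩ := hb
  have h : ∃ b, a ≠ b := by
    by_cases h : a = e.fst
    · exact ⟨e.snd, h ▸ e.fst_ne_snd⟩
    · exact ⟨e.fst, h⟩
  obtain ⟨b, hab⟩ := h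
  obtain ⟨p⟩ := hG.preconnected a b
  cases p with
  | nil => exact absurd rfl hab
  | cons h p => exact ⟨⟨(_, _), h⟩, rfl⟩

theorem link_v [Finite V] (hE : Emb G φ) (hG : G.Connected) (hb : ∃ e, Big φ e) (a : V) :
    HasLink (fillG hE) (.v a) := by
  obtain ⟨d, rfl⟩ := exists_dart hG hb a
  have hfm := chain_fm (fillG hE).Adj (rot φ) (blk φ) (fun d => .v d.snd) (fun x => ⟨_, rfl⟩)
    (by
      intro x
      by_cases h : Big φ x.symm
      · simp only [blk, h, dif_pos, List.isChain_cons_cons, List.isChain_singleton, and_true]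
        exact ⟨Or.inl rfl, Or.inl rfl⟩
      · simp [blk, h])
    (by
      intro x y hy
      by_cases h : Big φ x.symm
      · simp only [blk, h, dif_pos, List.getLast?_cons_cons, List.getLast?_singleton,
          Option.mem_def, Option.some.injEq] at hy
        subst hy
        exact Or.inr rfl
      · simp only [blk, h, not_false_eq_true, dif_neg, List.getLast?_singleton,
          Option.mem_def, Option.some.injEq] at hy
        subst hy
        have h2 := (φ (φ x.symm)).adj
        rw [hE.step, small_tri hE h] at h2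
        exact h2.symm)
  have hmem : ∀ x, x ∈ (cyc (rot φ) d).flatMap (blk φ) ↔ (fillG hE).Adj (.v d.fst) x := by
    intro x
    simp only [List.mem_flatMap, mem_cyc, mem_blk]
    constructor
    · rintro ⟨e, he, rfl | ⟨f, rfl, hf | hf⟩⟩
      · rw [← same_fst hE he]
        exact e.adj
      · refine Or.inr ?_
        rw [hf, ← same_fst hE he]
        rfl
      · refine Or.inl ?_
        rw [hf, rot_fst hE, same_fst hE he]
    · intro h
      rcases x with b | f | o
      · exact ⟨⟨(d.fst, b), h⟩, hE.rot _ _ rfl, Or.inl rfl⟩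
      · rcases h with h | h
        · refine ⟨(rot φ).symm f.1, ?_, Or.inr ⟨f, rfl, Or.inr ?_⟩⟩
          · apply hE.rot
            rw [← rot_fst hE ((rot φ).symm f.1), Equiv.apply_symm_apply, h]
          · rw [Equiv.apply_symm_apply]
        · exact ⟨f.1.symm, hE.rot _ _ h, Or.inr ⟨f, rfl, Or.inl (by simp)⟩⟩
      · exact h.elim
  have hnd : ((cyc (rot φ) d).flatMap (blk φ)).Nodup := by
    rw [List.nodup_flatMap]
    constructor
    · intro x _
      by_cases h : Big φ x.symm
      · have h1 : rot φ x ≠ x.symm := phi_ne hE _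
        simp [blk, h, h1.symm]
      · simp [blk, h]
    · have h1 : List.Pairwise (fun x y => x ≠ y) (cyc (rot φ) d) := cyc_nodup _ _
      refine List.Pairwise.imp_of_mem ?_ h1
      intro x y hx hy hxy
      rw [mem_cyc] at hx hy
      have hx1 := same_fst hE hx
      have hy1 := same_fst hE hy
      rw [Function.onFun, List.disjoint_iff_ne]
      rintro u hu w hw rfl
      rw [mem_blk] at hu hw
      have hxy1 : x.fst = y.fst := hx1.trans hy1.symm
      rcases hu with rfl | ⟨e, rfl, he⟩
      · rcases hw with hw | ⟨f, hf, -⟩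
        · exact hxy (dext hxy1 (Fill.v.inj hw))
        · cases hf
      · rcases hw with hw | ⟨f, hf, hf2⟩
        · cases hw
        · obtain rfl := Fill.w.inj hf
          rcases he with he | he
          · rcases hf2 with hf2 | hf2
            · apply hxy
              rw [he] at hf2
              rw [← x.symm_symm, hf2, y.symm_symm]
            · rw [he] at hf2
              have h3 := congrArg (fun e : G.Dart => e.fst) hf2
              simp only [rot_fst hE] at h3
              exact x.snd_ne_fst (h3.trans hxy1.symm)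
          · rcases hf2 with hf2 | hf2
            · rw [he] at hf2
              have h3 := congrArg (fun e : G.Dart => e.fst) hf2
              simp only [rot_fst hE] at h3
              exact y.snd_ne_fst (h3.symm.trans hxy1)
            · apply hxy
              rw [he] at hf2
              exact (rot φ).injective hf2
  have hcc := hfm _ (cyc_chain (rot φ) d)
  rw [List.flatMap_append, List.isChain_append] at hcc
  refine ⟨_, hnd, ?_, hmem, hcc.1, ?_⟩
  · have e1 : (fillG hE).Adj (.v d.fst) (.v d.snd) := d.adj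
    have e2 : (fillG hE).Adj (.v d.fst) (.v (rot φ d).snd) := by
      have := (rot φ d).adj
      rw [rot_fst hE] at this
      exact this
    have n1 : d.snd ≠ (rot φ d).snd := fun h =>
      rot_ne hE d (dext (rot_fst hE d) h.symm)
    by_cases hr : rot φ (rot φ d) = d
    · have h3 : ∃ f : BD φ, (fillG hE).Adj (.v d.fst) (.w f) := by
        rcases deg2 hE hG hb hr with h | h
        · exact ⟨⟨_, h⟩, Or.inr rfl⟩
        · refine ⟨⟨_, h⟩, Or.inr ?_⟩
          rw [← rot_fst hE d]
          rfl
      obtain ⟨f, hf⟩ := h3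
      have hl : [Fill.v d.snd, Fill.v (rot φ d).snd, Fill.w f] ⊆
          (cyc (rot φ) d).flatMap (blk φ) := by
        intro x hx
        rw [hmem]
        simp only [List.mem_cons, List.not_mem_nil, or_false] at hx
        rcases hx with rfl | rfl | rfl
        · exact e1
        · exact e2
        · exact hf
      have hn : [Fill.v d.snd, Fill.v (rot φ d).snd, Fill.w f].Nodup := by simp [n1]
      exact (List.Nodup.subperm hn hl).length_le
    · have e3 : (fillG hE).Adj (.v d.fst) (.v (rot φ (rot φ d)).snd) := by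
        have := (rot φ (rot φ d)).adj
        rw [rot_fst hE, rot_fst hE] at this
        exact this
      have n2 : d.snd ≠ (rot φ (rot φ d)).snd := fun h =>
        hr (dext ((rot_fst hE _).trans (rot_fst hE d)) h.symm)
      have n3 : (rot φ d).snd ≠ (rot φ (rot φ d)).snd := fun h =>
        rot_ne hE (rot φ d) (dext (rot_fst hE _) h.symm)
      have hl : [Fill.v d.snd, Fill.v (rot φ d).snd, Fill.v (rot φ (rot φ d)).snd] ⊆
          (cyc (rot φ) d).flatMap (blk φ) := by
        intro x hx
        rw [hmem]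
        simp only [List.mem_cons, List.not_mem_nil, or_false] at hx
        rcases hx with rfl | rfl | rfl
        · exact e1
        · exact e2
        · exact e3
      have hn : [Fill.v (φ := φ) d.snd, Fill.v (rot φ d).snd,
          Fill.v (rot φ (rot φ d)).snd].Nodup := by simp [n1, n2, n3]
      exact (List.Nodup.subperm hn hl).length_le
  · intro x y hx hy
    obtain ⟨t, ht⟩ := cyc_cons (rot φ) d
    rw [ht, List.flatMap_cons] at hx
    simp only [blk, List.cons_append, List.head?_cons, Option.some.injEq] at hx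
    subst hx
    exact hcc.2.2 y hy _ (by simp [blk])

/-! ## Chains -/

theorem cobound_w [Finite V] (hE : Emb G φ) (c : Fill φ → Fill φ → ZMod 2)
    (hev : ∀ a, ∀ S : Finset (Fill φ), (∀ b, b ∈ S ↔ (fillG hE).Adj a b) → ∑ b ∈ S, c a b = 0) :
    ∃ k3 : BD φ → ZMod 2, ∀ d, k3 (psi φ d) + k3 d = c (zz d) (.w (psi φ d)) := by
  classical
  apply cobound
  intro d S hS
  have h := hev (zz d) (S.image (fun e => Fill.w (psi φ e))) (by
    rintro (a | e | o)
    · simp [fillG, FAdj]
    · simp only [Finset.mem_image, Fill.w.injEq]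
      show _ ↔ (Quotient.mk _ d : Quotient (Equiv.Perm.SameCycle.setoid (psi φ))) =
        Quotient.mk _ e
      rw [← mk_symm e, Quotient.eq]
      constructor
      · rintro ⟨f, hf, rfl⟩
        rw [Equiv.symm_apply_apply]
        exact (hS f).1 hf
      · intro h
        exact ⟨(psi φ).symm e, (hS _).2 h, Equiv.apply_symm_apply _ _⟩
    · simp [fillG, FAdj])
  rw [Finset.sum_image] at h
  · rw [← h]
    apply Finset.sum_congr rfl
    intro e he
    have : zz d = zz e := congrArg Fill.z (Quotient.sound (s := Equiv.Perm.SameCycle.setoid (psi φ)) ((hS e).1 he))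
    rw [this]
  · intro x _ y _ hxy
    exact (psi φ).injective (Fill.w.inj hxy)

theorem z2 (a b : ZMod 2) (h : a + b = 0) : a = b := by
  rw [← sub_eq_zero, CharTwo.sub_eq_add]
  exact h

open Classical in
/-- Values on pairs of consecutive darts. -/
noncomputable def F2 (K : BD φ → ZMod 2) (d e : BD φ) : ZMod 2 :=
  if e = psi φ d then K d else if d = psi φ e then K e else 0

theorem F2_comm (hE : Emb G φ) (K : BD φ → ZMod 2) (d e : BD φ) : F2 K d e = F2 K e d := by
  unfold F2
  by_cases h1 : e = psi φ d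
  · by_cases h2 : d = psi φ e
    · exfalso
      rw [h1] at h2
      exact psi2_ne hE d h2.symm
    · rw [if_pos h1, if_neg h2, if_pos h1]
  · by_cases h2 : d = psi φ e
    · rw [if_neg h1, if_pos h2, if_pos h2]
    · rw [if_neg h1, if_neg h2, if_neg h2, if_neg h1]

theorem F2_psi (K : BD φ → ZMod 2) (d : BD φ) : F2 K d (psi φ d) = K d := if_pos rfl

theorem F2_symm (hE : Emb G φ) (K : BD φ → ZMod 2) (d : BD φ) :
    F2 K d ((psi φ).symm d) = K ((psi φ).symm d) := by
  rw [F2_comm hE]
  conv_lhs => rw [← Equiv.apply_symm_apply (psi φ) d, Equiv.symm_apply_apply]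
  exact F2_psi _ _

/-- The values on the triangles. -/
noncomputable def kk (KS : Set V → ZMod 2) (K1 K2 K3 : BD φ → ZMod 2) :
    Fill φ → Fill φ → Fill φ → ZMod 2
  | .v a, .v b, .v x => KS {a, b, x}
  | .v _, .v _, .w d => K1 d
  | .v _, .w d, .v _ => K1 d
  | .w d, .v _, .v _ => K1 d
  | .v _, .w d, .w e => F2 K2 d e
  | .w d, .v _, .w e => F2 K2 d e
  | .w d, .w e, .v _ => F2 K2 d e
  | .w d, .w e, .z _ => F2 K3 d e
  | .w d, .z _, .w e => F2 K3 d e
  | .z _, .w d, .w e => F2 K3 d e
  | .v _, .v _, .z _ => 0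
  | .v _, .z _, .v _ => 0
  | .z _, .v _, .v _ => 0
  | .v _, .z _, .z _ => 0
  | .z _, .v _, .z _ => 0
  | .z _, .z _, .v _ => 0
  | .w _, .z _, .z _ => 0
  | .z _, .w _, .z _ => 0
  | .z _, .z _, .w _ => 0
  | .v _, .w _, .z _ => 0
  | .v _, .z _, .w _ => 0
  | .w _, .v _, .z _ => 0
  | .w _, .z _, .v _ => 0
  | .z _, .v _, .w _ => 0
  | .z _, .w _, .v _ => 0
  | .w _, .w _, .w _ => 0
  | .z _, .z _, .z _ => 0

theorem kk_comm1 (hE : Emb G φ) (KS : Set V → ZMod 2) (K1 K2 K3 : BD φ → ZMod 2)
    (p q x : Fill φ) : kk KS K1 K2 K3 p q x = kk KS K1 K2 K3 q p x := by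
  rcases p with a | d | o <;> rcases q with b | e | o' <;> rcases x with c | f | o'' <;>
    first
      | rfl
      | exact F2_comm hE _ _ _
      | exact congrArg KS (Set.insert_comm _ _ _)

theorem kk_comm2 (hE : Emb G φ) (KS : Set V → ZMod 2) (K1 K2 K3 : BD φ → ZMod 2)
    (p q x : Fill φ) : kk KS K1 K2 K3 p q x = kk KS K1 K2 K3 p x q := by
  rcases p with a | d | o <;> rcases q with b | e | o' <;> rcases x with c | f | o'' <;>
    first
      | rfl
      | exact F2_comm hE _ _ _
      | exact congrArg (fun S => KS (insert _ S)) (Set.pair_comm _ _)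

theorem face_unique (hE : Emb G φ) (hG : G.Connected) (hb : ∃ e, Big φ e) {d e : G.Dart}
    (hd : ¬ Big φ d) (he : ¬ Big φ e)
    (h : ({e.fst, e.snd, (φ e).snd} : Set V) = {d.fst, d.snd, (φ d).snd}) :
    e = d ∨ e = φ d ∨ e = φ (φ d) := by
  obtain ⟨g, hg⟩ := hb
  have hd' : ¬ Big φ (φ d) := by rwa [big_phi]
  have hd'' : ¬ Big φ (φ (φ d)) := by rwa [big_phi]
  have s1 : (φ d).fst = d.snd := hE.step d
  have s2 : (φ (φ d)).fst = (φ d).snd := hE.step _
  have s3 : (φ (φ d)).snd = d.fst := small_tri hE hd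
  have s4 : φ (φ (φ d)) = d := by simpa [Big] using hd
  have e1 : e.fst = d.fst ∨ e.fst = d.snd ∨ e.fst = (φ d).snd := by
    have : e.fst ∈ ({e.fst, e.snd, (φ e).snd} : Set V) := by simp
    rw [h] at this
    simpa using this
  have e2 : e.snd = d.fst ∨ e.snd = d.snd ∨ e.snd = (φ d).snd := by
    have : e.snd ∈ ({e.fst, e.snd, (φ e).snd} : Set V) := by simp
    rw [h] at this
    simpa using this
  have e3 : (φ e).snd = d.fst ∨ (φ e).snd = d.snd ∨ (φ e).snd = (φ d).snd := by
    have : (φ e).snd ∈ ({e.fst, e.snd, (φ e).snd} : Set V) := by simp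
    rw [h] at this
    simpa using this
  have n1 : e.fst ≠ e.snd := e.fst_ne_snd
  have n2 : (φ e).snd ≠ e.snd := by
    rw [← hE.step e]
    exact (φ e).snd_ne_fst
  have n3 : (φ e).snd ≠ e.fst := fun h => hE.nosym e (dext (hE.step e) h)
  have key : ∀ f : G.Dart, ¬ Big φ f → e.fst = f.snd → e.snd = f.fst →
      (φ e).snd = (φ f).snd → False := by
    intro f hf h1 h2 h3
    obtain rfl : e = f.symm := dext h1 h2
    exact twoface hE hG hf he h3.symm g hg
  rcases e1 with e1 | e1 | e1
  · rcases e2 with e2 | e2 | e2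
    · exact absurd (e1.trans e2.symm) n1
    · exact Or.inl (dext e1 e2)
    · exfalso
      refine key _ hd'' (by rw [e1, s3]) (by rw [e2, s2]) ?_
      rw [s4]
      rcases e3 with e3 | e3 | e3
      · exact absurd (e3.trans e1.symm) n3
      · exact e3
      · exact absurd (e3.trans e2.symm) n2
  · rcases e2 with e2 | e2 | e2
    · exfalso
      refine key _ hd e1 e2 ?_
      rcases e3 with e3 | e3 | e3
      · exact absurd (e3.trans e2.symm) n2
      · exact absurd (e3.trans e1.symm) n3
      · exact e3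
    · exact absurd (e1.trans e2.symm) n1
    · exact Or.inr (Or.inl (dext (by rw [e1, s1]) e2))
  · rcases e2 with e2 | e2 | e2
    · exact Or.inr (Or.inr (dext (by rw [e1, s2]) (by rw [e2, s3])))
    · exfalso
      refine key _ hd' e1 (by rw [e2, s1]) ?_
      rw [s3]
      rcases e3 with e3 | e3 | e3
      · exact e3
      · exact absurd (e3.trans e2.symm) n2
      · exact absurd (e3.trans e1.symm) n3
    · exact absurd (e1.trans e2.symm) n1

open Classical in
/-- Values on small faces. -/
noncomputable def KSm (φ : Equiv.Perm G.Dart) (k' : G.Dart → ZMod 2) (S : Set V) : ZMod 2 :=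
  if h : ∃ d : G.Dart, ¬ Big φ d ∧ ({d.fst, d.snd, (φ d).snd} : Set V) = S then k' h.choose else 0

theorem KSm_eval (hE : Emb G φ) (hG : G.Connected) (hb : ∃ e, Big φ e) {k' : G.Dart → ZMod 2}
    (hk : ∀ d, k' (φ d) = k' d) {d : G.Dart} (hd : ¬ Big φ d) :
    KSm φ k' {d.fst, d.snd, (φ d).snd} = k' d := by
  have h : ∃ e : G.Dart, ¬ Big φ e ∧ ({e.fst, e.snd, (φ e).snd} : Set V) =
      {d.fst, d.snd, (φ d).snd} := ⟨d, hd, rfl⟩
  rw [KSm, dif_pos h]
  rcases face_unique hE hG hb hd h.choose_spec.1 h.choose_spec.2 with h1 | h1 | h1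
  · rw [h1]
  · rw [h1, hk]
  · rw [h1, hk, hk]

theorem fill_gen [Finite V] (hE : Emb G φ) (hG : G.Connected) (hb : ∃ e, Big φ e)
    (c : Fill φ → Fill φ → ZMod 2) (hs : ∀ a b, c a b = c b a)
    (hev : ∀ a, ∀ S : Finset (Fill φ), (∀ b, b ∈ S ↔ (fillG hE).Adj a b) → ∑ b ∈ S, c a b = 0) :
    ∃ k : Fill φ → Fill φ → Fill φ → ZMod 2, (∀ a b x, k a b x = k b a x) ∧
      (∀ a b x, k a b x = k a x b) ∧
      ∀ a b x x', (fillG hE).Adj a b → x ≠ x' → (fillG hE).Adj a x → (fillG hE).Adj b x →
        (fillG hE).Adj a x' → (fillG hE).Adj b x' → c a b = k a b x + k a b x' := by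
  classical
  obtain ⟨k3, hk3⟩ := cobound_w hE c hev
  set k2 : BD φ → ZMod 2 := fun d => k3 d + c (.w d) (.w (psi φ d)) with hk2
  set k1 : BD φ → ZMod 2 := fun d => k2 d + c (.v d.1.snd) (.w d) with hk1
  have E1 : ∀ d : BD φ, c (zz d) (.w d) = k3 d + k3 ((psi φ).symm d) := by
    intro d
    have h := hk3 ((psi φ).symm d)
    rw [Equiv.apply_symm_apply] at h
    rw [h]
    have : zz ((psi φ).symm d) = zz d := congrArg Fill.z (mk_symm d)
    rw [this]
  have E2 : ∀ d : BD φ, c (.w d) (.w (psi φ d)) = k2 d + k3 d := by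
    intro d
    simp only [hk2]
    linear_combination (-1 : ZMod 2) * CharTwo.add_self_eq_zero (k3 d)
  have E3 : ∀ d : BD φ, c (.v d.1.snd) (.w d) = k1 d + k2 d := by
    intro d
    simp only [hk1]
    linear_combination (-1 : ZMod 2) * CharTwo.add_self_eq_zero (k2 d)
  have E4 : ∀ d : BD φ, c (.v d.1.fst) (.w d) = k1 d + k2 ((psi φ).symm d) := by
    intro d
    have hne : psi φ d ≠ (psi φ).symm d := by
      intro h
      apply psi2_ne hE ((psi φ).symm d)
      rw [Equiv.apply_symm_apply]
      exact h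
    have h := hev (.w d) {.v d.1.fst, .v d.1.snd, .w (psi φ d), zz d, .w ((psi φ).symm d)} (by
      rintro (a | e | o)
      · simp [fillG, FAdj]
      · simp only [Finset.mem_insert, Finset.mem_singleton, reduceCtorEq, Fill.w.injEq, false_or]
        show (e = psi φ d ∨ e = (psi φ).symm d) ↔ (e = psi φ d ∨ d = psi φ e)
        rw [Equiv.eq_symm_apply, eq_comm (a := psi φ e)]
      · simp [fillG, FAdj])
    rw [Finset.sum_insert (by simp), Finset.sum_insert (by simp),
      Finset.sum_insert (by simp [hne]), Finset.sum_insert (by simp), Finset.sum_singleton,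
      hs _ (.v d.1.fst), hs _ (.v d.1.snd), E3, E2, hs _ (zz d), E1, hs (.w d) (.w _)] at h
    have h6 := E2 ((psi φ).symm d)
    rw [Equiv.apply_symm_apply] at h6
    rw [h6] at h
    apply z2
    linear_combination h + (-1 : ZMod 2) * CharTwo.add_self_eq_zero (k2 d)
      + (-1 : ZMod 2) * CharTwo.add_self_eq_zero (k3 d)
      + (-1 : ZMod 2) * CharTwo.add_self_eq_zero (k3 ((psi φ).symm d))
  set Kh : G.Dart → ZMod 2 := fun d => if h : Big φ d then k1 ⟨d, h⟩ else 0 with hKh
  have Khb : ∀ e : BD φ, Kh e.1 = k1 e := fun e => dif_pos e.2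
  have hKh0 : ∀ d, ¬ Big φ d → Kh d = 0 := fun d h => dif_neg h
  obtain ⟨k', hk', hc'⟩ := hE.gen
    (fun d => c (.v d.fst) (.v d.snd) + Kh d + Kh d.symm)
    (by
      intro d
      show c (.v d.snd) (.v d.fst) + Kh d.symm + Kh d.symm.symm = _
      rw [SimpleGraph.Dart.symm_symm, hs]
      ring)
    (by
      intro a S hS
      have : Fintype (BD φ) := Fintype.ofFinite _
      set B1 : Finset (BD φ) := univ.filter (fun e => e.1.fst = a) with hB1
      set B2 : Finset (BD φ) := univ.filter (fun e => e.1.snd = a) with hB2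
      have m1 : ∀ e, e ∈ B1 ↔ e.1.fst = a := by simp [hB1]
      have m2 : ∀ e, e ∈ B2 ↔ e.1.snd = a := by simp [hB2]
      have hwinj : Function.Injective (Fill.w (φ := φ)) := fun _ _ h => Fill.w.inj h
      have h := hev (.v a) (S.image (fun d => Fill.v d.snd) ∪ (B1.image Fill.w ∪ B2.image Fill.w))
        (by
          rintro (b | e | o)
          · simp only [Finset.mem_union, Finset.mem_image, Fill.v.injEq, reduceCtorEq, and_false,
              exists_false, or_false]
            constructor
            · rintro ⟨d, hd, rfl⟩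
              have := d.adj
              rw [(hS d).1 hd] at this
              exact this
            · intro h
              exact ⟨⟨(a, b), h⟩, (hS _).2 rfl, rfl⟩
          · simp only [Finset.mem_union, Finset.mem_image, Fill.w.injEq, reduceCtorEq, and_false,
              exists_false, false_or, exists_eq_right, m1, m2]
            show _ ↔ (a = e.1.fst ∨ a = e.1.snd)
            rw [eq_comm (a := a), eq_comm (a := a)]
          · simp [fillG, FAdj])
      rw [Finset.sum_union, Finset.sum_union, Finset.sum_image, Finset.sum_image,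
        Finset.sum_image] at h
      rotate_left
      · exact fun _ _ _ _ h => hwinj h
      · exact fun _ _ _ _ h => hwinj h
      · intro x hx y hy hxy
        exact dext (((hS x).1 hx).trans ((hS y).1 hy).symm) (Fill.v.inj hxy)
      · rw [Finset.disjoint_left]
        intro x hx hy
        simp only [Finset.mem_image] at hx hy
        obtain ⟨e, he, rfl⟩ := hx
        obtain ⟨f, hf, hfe⟩ := hy
        obtain rfl := hwinj hfe
        exact f.1.fst_ne_snd (((m1 _).1 he).trans ((m2 _).1 hf).symm)
      · rw [Finset.disjoint_left]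
        intro x hx hy
        simp only [Finset.mem_image, Finset.mem_union] at hx hy
        obtain ⟨e, he, rfl⟩ := hx
        rcases hy with ⟨f, -, hf⟩ | ⟨f, -, hf⟩
        · cases hf
        · cases hf
      have t1 : ∑ e ∈ B1, c (.v a) (.w e) = ∑ e ∈ B1, k1 e + ∑ e ∈ B1, k2 ((psi φ).symm e) := by
        rw [← Finset.sum_add_distrib]
        apply Finset.sum_congr rfl
        intro e he
        rw [← (m1 e).1 he, E4]
      have t2 : ∑ e ∈ B2, c (.v a) (.w e) = ∑ e ∈ B2, k1 e + ∑ e ∈ B2, k2 e := by
        rw [← Finset.sum_add_distrib]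
        apply Finset.sum_congr rfl
        intro e he
        rw [← (m2 e).1 he, E3]
      have t3 : ∑ e ∈ B1, k2 ((psi φ).symm e) = ∑ e ∈ B2, k2 e := by
        apply Finset.sum_bij (fun e _ => (psi φ).symm e)
        · intro e he
          rw [m2, pfst hE]
          exact (m1 e).1 he
        · intro e _ f _ h
          exact (psi φ).symm.injective h
        · intro e he
          refine ⟨psi φ e, ?_, Equiv.symm_apply_apply _ _⟩
          rw [m1, psi_fst hE]
          exact (m2 e).1 he
        · intro _ _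
          rfl
      have t4 : ∑ d ∈ S, Kh d = ∑ e ∈ B1, k1 e := by
        have : ∑ e ∈ B1, k1 e = ∑ d ∈ B1.image Subtype.val, Kh d := by
          rw [Finset.sum_image (fun _ _ _ _ h => Subtype.val_injective h)]
          exact Finset.sum_congr rfl (fun e _ => (Khb e).symm)
        rw [this]
        symm
        apply Finset.sum_subset
        · intro d hd
          simp only [Finset.mem_image] at hd
          obtain ⟨e, he, rfl⟩ := hd
          exact (hS _).2 ((m1 e).1 he)
        · intro d hd hd2
          apply hKh0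
          intro hbig
          apply hd2
          rw [Finset.mem_image]
          exact ⟨⟨d, hbig⟩, (m1 _).2 ((hS d).1 hd), rfl⟩
      have t5 : ∑ d ∈ S, Kh d.symm = ∑ e ∈ B2, k1 e := by
        have : ∑ e ∈ B2, k1 e = ∑ d ∈ B2.image (fun e => e.1.symm), Kh d.symm := by
          rw [Finset.sum_image]
          · apply Finset.sum_congr rfl
            intro e _
            rw [SimpleGraph.Dart.symm_symm]
            exact (Khb e).symm
          · intro e _ f _ h
            have h' : e.1.symm = f.1.symm := h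
            apply Subtype.ext
            rw [← e.1.symm_symm, h', f.1.symm_symm]
        rw [this]
        symm
        apply Finset.sum_subset
        · intro d hd
          simp only [Finset.mem_image] at hd
          obtain ⟨e, he, rfl⟩ := hd
          exact (hS _).2 ((m2 e).1 he)
        · intro d hd hd2
          apply hKh0
          intro hbig
          apply hd2
          rw [Finset.mem_image]
          exact ⟨⟨d.symm, hbig⟩, (m2 _).2 ((hS d).1 hd), by simp⟩
      have t6 : ∑ d ∈ S, c (.v d.fst) (.v d.snd) = ∑ d ∈ S, c (.v a) (.v d.snd) := by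
        apply Finset.sum_congr rfl
        intro d hd
        rw [(hS d).1 hd]
      rw [Finset.sum_add_distrib, Finset.sum_add_distrib, t4, t5, t6]
      rw [t1, t2, t3] at h
      linear_combination h + (-1 : ZMod 2) * CharTwo.add_self_eq_zero (∑ e ∈ B2, k2 e))
  have hkp : ∀ d : BD φ, k' (psi φ d).1 = k' d.1 := fun d => hk' d.1
  have hks : ∀ d : BD φ, k' ((psi φ).symm d).1 = k' d.1 := by
    intro d
    rw [← hkp ((psi φ).symm d), Equiv.apply_symm_apply]
  refine ⟨kk (KSm φ k') (fun d => k1 d + k' d.1) (fun d => k2 d + k' d.1)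
    (fun d => k3 d + k' d.1), kk_comm1 hE _ _ _ _, kk_comm2 hE _ _ _ _, ?_⟩
  set k := kk (KSm φ k') (fun d => k1 d + k' d.1) (fun d => k2 d + k' d.1)
    (fun d => k3 d + k' d.1) with hk
  have kc : ∀ p q x : Fill φ, k p q x = k q p x := kk_comm1 hE _ _ _ _
  have red : ∀ p q u u' : Fill φ,
      (∀ x, ((fillG hE).Adj p x ∧ (fillG hE).Adj q x) ↔ (x = u ∨ x = u')) →
      c p q = k p q u + k p q u' → ∀ x x', x ≠ x' → (fillG hE).Adj p x → (fillG hE).Adj q x →
        (fillG hE).Adj p x' → (fillG hE).Adj q x' → c p q = k p q x + k p q x' := by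
    intro p q u u' hx hc x x' hne h1 h2 h3 h4
    rcases (hx x).1 ⟨h1, h2⟩ with rfl | rfl
    · rcases (hx x').1 ⟨h3, h4⟩ with rfl | rfl
      · exact absurd rfl hne
      · exact hc
    · rcases (hx x').1 ⟨h3, h4⟩ with rfl | rfl
      · rw [hc, add_comm]
      · exact absurd rfl hne
  have main : ∀ p q, (fillG hE).Adj p q → ∀ x x', x ≠ x' → (fillG hE).Adj p x →
      (fillG hE).Adj q x → (fillG hE).Adj p x' → (fillG hE).Adj q x' →
        c p q = k p q x + k p q x' := by
    refine adj_cases hE ?_ ?_ ?_ ?_ ?_ ?_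
    · intro p q h x x' hne h1 h2 h3 h4
      rw [hs, h x x' hne h2 h1 h4 h3, kc p q, kc p q]
    · intro d
      apply red _ _ _ _ (nb_vv hE d)
      have key : ∀ e : G.Dart, k (.v e.fst) (.v e.snd) (side φ e) = Kh e + k' e := by
        intro e
        by_cases h : Big φ e
        · rw [side_big h]
          show k1 ⟨e, h⟩ + k' e = _
          rw [← Khb]
        · rw [side_small h, hKh0 e h, zero_add]
          exact KSm_eval hE hG hb hk' h
      have k2' := key d.symm
      rw [kc] at k2'
      have k2'' : k (.v d.fst) (.v d.snd) (side φ d.symm) = Kh d.symm + k' d.symm := k2'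
      rw [key, k2'']
      have := hc' d
      linear_combination this + (-1 : ZMod 2) * CharTwo.add_self_eq_zero (Kh d)
        + (-1 : ZMod 2) * CharTwo.add_self_eq_zero (Kh d.symm)
    · intro d
      apply red _ _ _ _ (nb_fst hE d)
      show _ = (k1 d + k' d.1) + F2 (fun d => k2 d + k' d.1) d ((psi φ).symm d)
      rw [F2_symm hE, E4, hks]
      linear_combination (-1 : ZMod 2) * CharTwo.add_self_eq_zero (k' d.1)
    · intro d
      apply red _ _ _ _ (nb_snd hE d)
      show _ = (k1 d + k' d.1) + F2 (fun d => k2 d + k' d.1) d (psi φ d)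
      rw [F2_psi, E3]
      linear_combination (-1 : ZMod 2) * CharTwo.add_self_eq_zero (k' d.1)
    · intro d
      apply red _ _ _ _ (nb_ww hE d)
      show _ = F2 (fun d => k2 d + k' d.1) d (psi φ d) + F2 (fun d => k3 d + k' d.1) d (psi φ d)
      rw [F2_psi, F2_psi, E2]
      linear_combination (-1 : ZMod 2) * CharTwo.add_self_eq_zero (k' d.1)
    · intro d
      apply red _ _ _ _ (nb_zw hE d)
      show _ = F2 (fun d => k3 d + k' d.1) d (psi φ d) +
        F2 (fun d => k3 d + k' d.1) d ((psi φ).symm d)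
      rw [F2_psi, F2_symm hE, E1, hks]
      linear_combination (-1 : ZMod 2) * CharTwo.add_self_eq_zero (k' d.1)
  intro a b x x' hab hne h1 h2 h3 h4
  exact main a b hab x x' hne h1 h2 h3 h4

instance [Finite V] : Finite (Fill φ) := by
  have hf : Function.Injective (fun x : Fill φ => (match x with
    | .v a => Sum.inl a
    | .w d => Sum.inr (Sum.inl d)
    | .z o => Sum.inr (Sum.inr o) :
      V ⊕ (BD φ ⊕ Quotient (Equiv.Perm.SameCycle.setoid (psi φ))))) := by
    rintro (a | d | o) (b | e | o') h <;> simp_all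
  exact Finite.of_injective _ hf

end fill

end TriFill

open TriFill in
/-- TRI: filling the nontriangular faces gives a triangulated sphere. -/
theorem specTri : SpecTri := by
  intro V _ G φ hG hE hb
  obtain ⟨d, hd⟩ := hb
  have hb : ∃ e, Big φ e := ⟨d, hd⟩
  refine ⟨Fill φ, Fintype.ofFinite _, fillG hE, Fill.v, zz ⟨d, hd⟩, ⟨fill_conn hE hG, ?_,
    fill_two hE hG hb, ?_⟩, fun _ _ h => Fill.v.inj h, fun _ _ h => h, ?_⟩
  · rintro (a | e | o)
    · exact link_v hE hG hb a
    · exact link_w hE e
    · exact link_z hE o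
  · intro c hs _ hev
    exact fill_gen hE hG hb c hs hev
  · intro a h
    cases h

end Pool.Agent.MP_cdcb37
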