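import Pool.Agent.Lib.MP_cdcb37_lc.Assembly
import Pool.Agent.Lib.MP_cdcb37_lc.Alg
import Pool.Agent.Lib.MP_cdcb37_lc.Big
import Pool.Agent.Lib.MP_cdcb37_lc.Can
import Pool.Agent.Lib.MP_cdcb37_lc.Conn
import Pool.Agent.Lib.MP_cdcb37_lc.Emb
import Pool.Agent.Lib.MP_cdcb37_lc.GH
import Pool.Agent.Lib.MP_cdcb37_lc.Link
import Pool.Agent.Lib.MP_cdcb37_lc.Mu
import Pool.Agent.Lib.MP_cdcb37_lc.Off
import Pool.Agent.Lib.MP_cdcb37_lc.Pla
import Pool.Agent.Lib.MP_cdcb37_lc.Red1
import Pool.Agent.Lib.MP_cdcb37_lc.Red2
import Pool.Agent.Lib.MP_cdcb37_lc.Sound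
import Pool.Agent.Lib.MP_cdcb37_lc.Stn
import Pool.Agent.Lib.MP_cdcb37_lc.Tri

/-!
# Graphs of separation dimension at most two are recognizable in polynomial time
-/

namespace Pool.Agent.MP_cdcb37

/-- Every finite graph is coded by its adjacency matrix. -/
theorem graphOf_surj (n : ℕ) (G : SimpleGraph (Fin n)) :
    ∃ w : List Bool, w.length = n * n ∧ Nonempty (graphOf w ≃g G) := by
  classical
  let w : List Bool := (List.range (n * n)).map
    (fun k => decide (∃ i j : Fin n, k = n * i.val + j.val ∧ G.Adj i j))
  have hlen : w.length = n * n := by simp [w]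
  have hsq : Nat.sqrt w.length = n := by rw [hlen, Nat.sqrt_eq]
  refine ⟨w, hlen, ⟨⟨finCongr hsq, ?_⟩⟩⟩
  have key : ∀ i j : Fin n, w[n * i.val + j.val]?.getD false = true ↔ G.Adj i j := by
    intro i j
    have hlt : n * i.val + j.val < n * n := by
      have h1 : n * i.val + n ≤ n * n := by
        calc n * i.val + n = n * (i.val + 1) := by ring
          _ ≤ n * n := Nat.mul_le_mul_left n i.isLt
      have h2 := j.isLt
      omega
    have h3 : w[n * i.val + j.val]? = some (decide (∃ i' j' : Fin n,
        n * i.val + j.val = n * i'.val + j'.val ∧ G.Adj i' j')) := by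
      simp only [w, List.getElem?_map, List.getElem?_range hlt, Option.map_some]
    rw [h3, Option.getD_some, decide_eq_true_iff]
    constructor
    · rintro ⟨i', j', h4, h5⟩
      have hn : 0 < n := by have := i.isLt; omega
      have e1 : j.val = j'.val := by
        have := congrArg (· % n) h4
        simpa [Nat.mul_add_mod, Nat.mod_eq_of_lt j.isLt, Nat.mod_eq_of_lt j'.isLt] using this
      have e2 : i.val = i'.val := by
        have h6 : n * i.val = n * i'.val := by omega
        exact Nat.eq_of_mul_eq_mul_left hn h6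
      rw [Fin.ext e1, Fin.ext e2]
      exact h5
    · intro h
      exact ⟨i, j, rfl, h⟩
  intro a b
  have ha := key (finCongr hsq a) (finCongr hsq b)
  have hb := key (finCongr hsq b) (finCongr hsq a)
  simp only [finCongr_apply, Fin.val_cast] at ha hb
  change G.Adj (Fin.cast hsq a) (Fin.cast hsq b) ↔ a ≠ b ∧
    (w[Nat.sqrt w.length * a.val + b.val]?.getD false = true ∨
      w[Nat.sqrt w.length * b.val + a.val]?.getD false = true)
  have e1 : ∀ x y : ℕ, w[Nat.sqrt w.length * x + y]?.getD false =
      w[n * x + y]?.getD false := by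
    intro x y
    rw [hsq]
  rw [e1 a.val b.val, e1 b.val a.val, ha, hb]
  constructor
  · intro h
    refine ⟨?_, Or.inl h⟩
    rintro rfl
    exact h.ne rfl
  · rintro ⟨-, h | h⟩
    · exact h
    · exact h.symm

/-- The characterization behind the algorithm. -/
theorem sepDim_le_two_iff {n : ℕ} (G : SimpleGraph (Fin n)) :
    sepDim G ≤ 2 ↔ HTD (core G) := by
  rw [specOff]
  constructor
  · rintro ⟨X, Y, h⟩
    exact specSound _ _ (specRed1 _ _ X Y h)
  · intro h
    exact specRed2 _ _ (strong_of_htd specConn specAug specOpen specStn specMu specGH specEmb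
      specBig specTri specCan specPla _ _ h)

/-- Recognizing graphs of separation dimension at most two is in `P`. -/
theorem main_theorem : ∃ dec : List Bool → Bool,
      Nonempty (Turing.TM2ComputableInPolyTime (fun w : List Bool => w)
        Computability.encodeBool dec) ∧
      ∀ w, dec w = true ↔ sepDim (graphOf w) ≤ 2 :=
  main_of_specs specOff specAlg specSound specRed1 specRed2
    (strong_of_htd specConn specAug specOpen specStn specMu specGH specEmb
      specBig specTri specCan specPla)

end Pool.Agent.MP_cdcb37
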