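import Pool.Agent.Lib.PolyTime.ListOps

/-!
# Gaussian elimination over `F_2` in polynomial time (MP_cdcb37_lc, module ALG)

A system is a list of lists of indices; the list `L` stands for the equation
`∑_{t ∈ L} x_t = 0`, where `x_N = 1` is the constant.
-/

namespace Pool.Agent.MP_cdcb37.Alg

open Pool.Agent.PolyTime

/-! ## Rows -/

/-- the value of the row `r` at `x` -/
def ev : List Bool → (ℕ → ZMod 2) → ZMod 2
  | [], _ => 0
  | c :: r, x => (if c then x 0 else 0) + ev r fun i => x (i + 1)

/-- sum of two rows -/
def radd (r p : List Bool) : List Bool := List.zipWith xor r p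

theorem ev_radd : ∀ (r p : List Bool) (x : ℕ → ZMod 2), r.length = p.length →
    ev (radd r p) x = ev r x + ev p x := by
  intro r
  induction r with
  | nil =>
    intro p x h
    have : p = [] := by
      rw [← List.length_eq_zero_iff, ← h]
      rfl
    subst this
    simp [ev, radd]
  | cons c r ih =>
    intro p x h
    cases p with
    | nil => simp at h
    | cons d p =>
      have h' : r.length = p.length := by simpa using h
      have := ih p (fun i => x (i + 1)) h'
      simp only [radd, List.zipWith_cons_cons, ev] at this ⊢
      rw [this]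
      have h3 : (if (c ^^ d) then x 0 else 0) = (if c then x 0 else 0) + (if d then x 0 else 0) := by
        have h2 : x 0 + x 0 = 0 := CharTwo.add_self_eq_zero _
        cases c <;> cases d <;> simp [h2]
      rw [h3]
      ring

theorem length_radd {r p : List Bool} (h : r.length = p.length) :
    (radd r p).length = r.length := by
  rw [radd, List.length_zipWith, ← h, min_self]

/-- the pivot row (the empty row if there is none) -/
def pivot (rows : List (List Bool)) : List Bool :=
  (rows.find? fun r => r.head?.getD false).getD []

/-- one elimination step -/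
def elim (rows : List (List Bool)) : List (List Bool) :=
  rows.map fun r => if r.head?.getD false then (radd r (pivot rows)).tail else r.tail

/-- elimination of `m` variables -/
def elims (rows : List (List Bool)) (m : ℕ) : List (List Bool) :=
  Nat.rec (motive := fun _ => List (List Bool)) rows (fun _ R => elim R) m

/-- the decision procedure for systems with `N` variables -/
def solvable (N : ℕ) (rows : List (List Bool)) : Bool :=
  (elims rows N).all fun r => !(r.head?.getD false)

/-- solutions -/
def Sol (N : ℕ) (rows : List (List Bool)) (x : ℕ → ZMod 2) : Prop :=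
  x N = 1 ∧ ∀ r ∈ rows, ev r x = 0

theorem pivot_spec {rows : List (List Bool)} {r : List Bool} (hr : r ∈ rows)
    (h : r.head?.getD false = true) :
    pivot rows ∈ rows ∧ (pivot rows).head?.getD false = true := by
  unfold pivot
  cases hf : rows.find? fun r => r.head?.getD false with
  | none =>
    rw [List.find?_eq_none] at hf
    exact absurd h (hf r hr)
  | some p =>
    have h1 := List.mem_of_find?_eq_some hf
    have h2 := List.find?_some hf
    exact ⟨h1, h2⟩

theorem ev_head {r : List Bool} (h : r.head?.getD false = true) (x : ℕ → ZMod 2) :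
    ev r x = x 0 + ev r.tail fun i => x (i + 1) := by
  cases r with
  | nil => simp at h
  | cons c r =>
    have : c = true := by simpa using h
    subst this
    simp [ev]

theorem ev_head' {r : List Bool} (h : ¬ r.head?.getD false = true) (x : ℕ → ZMod 2) :
    ev r x = ev r.tail fun i => x (i + 1) := by
  cases r with
  | nil => simp [ev]
  | cons c r =>
    have : c = false := by simpa using h
    subst this
    simp [ev]

theorem length_elim {rows : List (List Bool)} {L : ℕ} (h : ∀ r ∈ rows, r.length = L) :
    ∀ r ∈ elim rows, r.length = L - 1 := by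
  intro r hr
  rw [elim, List.mem_map] at hr
  obtain ⟨s, hs, rfl⟩ := hr
  by_cases hh : s.head?.getD false = true
  · rw [if_pos hh, List.length_tail, length_radd, h s hs]
    rw [h s hs, h _ (pivot_spec hs hh).1]
  · rw [if_neg hh, List.length_tail, h s hs]

theorem head_radd {r p : List Bool} (h1 : r.head?.getD false = true)
    (h2 : p.head?.getD false = true) : ¬ (radd r p).head?.getD false = true := by
  cases r with
  | nil => simp at h1
  | cons c r =>
    cases p with
    | nil => simp at h2
    | cons d p =>
      have h1' : c = true := by simpa using h1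
      have h2' : d = true := by simpa using h2
      subst h1' h2'
      simp [radd]

theorem sol_elim {N : ℕ} {rows : List (List Bool)} {L : ℕ} (h : ∀ r ∈ rows, r.length = L) :
    (∃ x, Sol (N + 1) rows x) ↔ ∃ x, Sol N (elim rows) x := by
  constructor
  · rintro ⟨x, hx1, hx⟩
    refine ⟨fun i => x (i + 1), hx1, ?_⟩
    intro r hr
    rw [elim, List.mem_map] at hr
    obtain ⟨s, hs, rfl⟩ := hr
    by_cases hh : s.head?.getD false = true
    · rw [if_pos hh]
      obtain ⟨hp, hp'⟩ := pivot_spec hs hh
      rw [← ev_head' (head_radd hh hp'), ev_radd _ _ _ (by rw [h s hs, h _ hp]), hx s hs, hx _ hp,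
        add_zero]
    · rw [if_neg hh, ← ev_head' hh]
      exact hx s hs
  · rintro ⟨x, hx1, hx⟩
    refine ⟨fun i => Nat.casesOn i (ev (pivot rows).tail x) fun j => x j, hx1, ?_⟩
    intro s hs
    have hmem : (if s.head?.getD false then (radd s (pivot rows)).tail else s.tail) ∈ elim rows :=
      List.mem_map.2 ⟨s, hs, rfl⟩
    have h1 := hx _ hmem
    by_cases hh : s.head?.getD false = true
    · rw [if_pos hh] at h1
      obtain ⟨hp, hp'⟩ := pivot_spec hs hh
      have h2 : ev (radd s (pivot rows)) (fun i => Nat.casesOn i 0 fun j => x j) = 0 := by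
        rw [ev_head' (head_radd hh hp')]
        exact h1
      rw [ev_radd _ _ _ (by rw [h s hs, h _ hp]), ev_head hh, ev_head hp'] at h2
      rw [ev_head hh]
      have h3 : (0 : ZMod 2) + ev s.tail x + (0 + ev (pivot rows).tail x) = 0 := h2
      show ev (pivot rows).tail x + ev s.tail x = 0
      linear_combination h3
    · rw [if_neg hh] at h1
      rw [ev_head' hh]
      exact h1

theorem elims_succ (rows : List (List Bool)) (m : ℕ) :
    elims rows (m + 1) = elim (elims rows m) := rfl

theorem elims_elim (rows : List (List Bool)) (m : ℕ) :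
    elims (elim rows) m = elims rows (m + 1) := by
  induction m with
  | zero => rfl
  | succ m ih => rw [elims_succ, ih, elims_succ rows (m + 1)]

theorem solvable_iff (N : ℕ) : ∀ (rows : List (List Bool)), (∀ r ∈ rows, r.length = N + 1) →
    (solvable N rows = true ↔ ∃ x, Sol N rows x) := by
  induction N with
  | zero =>
    intro rows h
    rw [solvable, List.all_eq_true]
    have e : elims rows 0 = rows := rfl
    rw [e]
    have key : ∀ r ∈ rows, ∀ x : ℕ → ZMod 2, x 0 = 1 →
        (ev r x = 0 ↔ (!(r.head?.getD false)) = true) := by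
      intro r hr x hx
      have hl := h r hr
      rw [zero_add, List.length_eq_one_iff] at hl
      obtain ⟨a, rfl⟩ := hl
      cases a <;> simp [ev, hx]
    constructor
    · intro hall
      exact ⟨fun _ => 1, rfl, fun r hr => (key r hr _ rfl).2 (hall r hr)⟩
    · rintro ⟨x, hx1, hx⟩ r hr
      exact (key r hr x hx1).1 (hx r hr)
  | succ N ih =>
    intro rows h
    have h1 := ih (elim rows) (fun r hr => length_elim h r hr)
    rw [sol_elim h, ← h1, solvable, solvable, elims_elim]

/-! ## Rows from lists of indices -/

/-- the row of length `N + 1` of the equation `L` -/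
def rowOf (N : ℕ) (L : List ℕ) : List Bool :=
  (List.range (N + 1)).map fun i => decide (L.count i % 2 = 1)

theorem ev_map_range (M : ℕ) : ∀ (f : ℕ → Bool) (x : ℕ → ZMod 2),
    ev ((List.range M).map f) x = ∑ i ∈ Finset.range M, if f i then x i else 0 := by
  induction M with
  | zero => intro f x; simp [ev]
  | succ M ih =>
    intro f x
    rw [List.range_succ_eq_map, List.map_cons, List.map_map, ev, Finset.sum_range_succ']
    have := ih (fun i => f (i + 1)) (fun i => x (i + 1))
    have e : (List.range M).map (f ∘ Nat.succ) = (List.range M).map fun i => f (i + 1) := rfl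
    rw [e, this, add_comm]

theorem parity_val (k : ℕ) (y : ZMod 2) :
    (if decide (k % 2 = 1) = true then y else 0) = (k : ZMod 2) * y := by
  by_cases h : k % 2 = 1
  · rw [if_pos (decide_eq_true h)]
    have : ((k : ℕ) : ZMod 2) = 1 := by
      rw [← ZMod.natCast_mod, h]
      rfl
    rw [this, one_mul]
  · rw [if_neg (by rw [decide_eq_true_iff]; exact h)]
    have h0 : k % 2 = 0 := by omega
    have : ((k : ℕ) : ZMod 2) = 0 := by
      rw [← ZMod.natCast_mod, h0]
      rfl
    rw [this, zero_mul]

theorem sum_count (N : ℕ) (x : ℕ → ZMod 2) (L : List ℕ) (hL : ∀ t ∈ L, t ≤ N) :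
    ∑ i ∈ Finset.range (N + 1), (L.count i : ZMod 2) * x i = (L.map x).sum := by
  induction L with
  | nil => simp
  | cons t L ih =>
    have h1 := ih (fun s hs => hL s (List.mem_cons_of_mem _ hs))
    rw [List.map_cons, List.sum_cons, ← h1]
    have h2 : ∀ i, (((t :: L).count i : ℕ) : ZMod 2) * x i
        = (if i = t then x t else 0) + (L.count i : ZMod 2) * x i := by
      intro i
      rw [List.count_cons]
      by_cases h : i = t
      · subst h
        simp
        ring
      · have h' : ¬ (t == i) = true := by
          simp only [beq_iff_eq]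
          exact fun h2 => h h2.symm
        rw [if_neg h', if_neg h]
        simp
    rw [Finset.sum_congr rfl fun i _ => h2 i, Finset.sum_add_distrib, Finset.sum_ite_eq',
      if_pos (Finset.mem_range.2 (Nat.lt_succ_of_le (hL t List.mem_cons_self)))]

theorem ev_rowOf (N : ℕ) (L : List ℕ) (hL : ∀ t ∈ L, t ≤ N) (x : ℕ → ZMod 2) :
    ev (rowOf N L) x = (L.map x).sum := by
  rw [rowOf, ev_map_range, ← sum_count N x L hL]
  exact Finset.sum_congr rfl fun i _ => parity_val _ _

/-- the decision procedure for lists of equations -/
def solveEqs (N : ℕ) (eqs : List (List ℕ)) : Bool := solvable N (eqs.map (rowOf N))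

theorem solveEqs_iff (N : ℕ) (eqs : List (List ℕ)) (h : ∀ L ∈ eqs, ∀ t ∈ L, t ≤ N) :
    solveEqs N eqs = true ↔ ∃ x : ℕ → ZMod 2, x N = 1 ∧ ∀ L ∈ eqs, (L.map x).sum = 0 := by
  rw [solveEqs, solvable_iff]
  · refine exists_congr fun x => and_congr_right fun _ => ?_
    constructor
    · intro h1 L hL
      rw [← ev_rowOf N L (h L hL)]
      exact h1 _ (List.mem_map.2 ⟨L, hL, rfl⟩)
    · intro h1 r hr
      obtain ⟨L, hL, rfl⟩ := List.mem_map.1 hr
      rw [ev_rowOf N L (h L hL)]
      exact h1 L hL
  · intro r hr
    obtain ⟨L, hL, rfl⟩ := List.mem_map.1 hr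
    rw [rowOf, List.length_map, List.length_range]

/-! ## Polynomial time -/

section pt

universe u
variable {α : Type u} [Rep α]

theorem pt_headTrue {r : α → List Bool} (hr : PT r) :
    PT (fun a => (r a).head?.getD false) := PT.getD (PT.head? hr) (PT.const false)

theorem pt_pivot {rows : α → List (List Bool)} (h : PT rows) : PT (fun a => pivot (rows a)) :=
  PT.getD (PT.find? (g := fun _ r => r.head?.getD false) h (pt_headTrue PT.id.snd)) (PT.const [])

theorem pt_radd {r p : α → List Bool} (hr : PT r) (hp : PT p) :
    PT (fun a => radd (r a) (p a)) :=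
  PT.zipWith (g := fun _ b c => (b ^^ c)) hr hp
    ((PT.ite (c := fun q : α × (Bool × Bool) => q.2.1) (f := fun q => !q.2.2) (g := fun q => q.2.2)
      PT.id.snd.fst PT.id.snd.snd.not PT.id.snd.snd).congr fun q => by
        rcases q with ⟨_, b, c⟩
        cases b <;> cases c <;> rfl)

theorem pt_elim {rows : α → List (List Bool)} (h : PT rows) : PT (fun a => elim (rows a)) := by
  refine PT.map (g := fun a r => if r.head?.getD false then (radd r (pivot (rows a))).tail
    else r.tail) h ?_
  exact PT.ite (pt_headTrue PT.id.snd)
    (PT.tail (pt_radd PT.id.snd ((pt_pivot h).comp PT.id.fst))) (PT.tail PT.id.snd)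

theorem length_elims (rows : List (List Bool)) (m : ℕ) :
    (elims rows m).length = rows.length := by
  induction m with
  | zero => rfl
  | succ m ih => rw [elims_succ, elim, List.length_map, ih]

theorem length_radd_le (r p : List Bool) : (radd r p).length ≤ r.length := by
  rw [radd, List.length_zipWith]
  exact min_le_left _ _

theorem length_mem_elims (rows : List (List Bool)) (B : ℕ) (h : ∀ r ∈ rows, r.length ≤ B) (m : ℕ) :
    ∀ r ∈ elims rows m, r.length ≤ B := by
  induction m with
  | zero => exact h
  | succ m ih =>
    intro r hr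
    rw [elims_succ, elim, List.mem_map] at hr
    obtain ⟨s, hs, rfl⟩ := hr
    have h1 := ih s hs
    by_cases hh : s.head?.getD false = true
    · rw [if_pos hh, List.length_tail]
      have := length_radd_le s (pivot (elims rows m))
      omega
    · rw [if_neg hh, List.length_tail]
      omega

theorem sz_elims_le (rows : List (List Bool)) (m : ℕ) :
    sz (elims rows m) ≤ sz rows * (sz rows * 4 + 2) + 1 := by
  have h1 : ∀ r ∈ rows, r.length ≤ sz rows := fun r hr => (length_le_sz r).trans (sz_mem_le hr)
  have h2 := length_mem_elims rows (sz rows) h1 m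
  have h3 : ∀ r ∈ elims rows m, sz r ≤ sz rows * 4 + 1 := by
    intro r hr
    have h4 := sz_le_of_forall r 3 (fun b _ => sz_bool b)
    have h5 := h2 r hr
    have h6 : r.length * (3 + 1) ≤ sz rows * 4 := Nat.mul_le_mul_right 4 h5
    omega
  have h7 := sz_le_of_forall (elims rows m) _ h3
  rw [length_elims] at h7
  have h8 := length_le_sz rows
  exact h7.trans (Nat.succ_le_succ (Nat.mul_le_mul_right (sz rows * 4 + 2) h8))

theorem pt_elims {rows : α → List (List Bool)} {n : α → ℕ} (h : PT rows) (hn : PT n) :
    PT (fun a => elims (rows a) (n a)) := by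
  refine PT.natRec (g := fun _ _ R => elim R) hn h (pt_elim PT.id.snd.snd)
    (B := fun a => sz (rows a) * (sz (rows a) * 4 + 2) + 1) ?_ ?_
  · exact (h.bdd.mul ((h.bdd.mul (Bdd.const 4)).add (Bdd.const 2))).add (Bdd.const 1)
  · intro a m _
    exact sz_elims_le (rows a) m

theorem pt_solvable {rows : α → List (List Bool)} {n : α → ℕ} (hn : PT n) (h : PT rows) :
    PT (fun a => solvable (n a) (rows a)) := by
  have h1 : PT (fun p : α × List Bool => !(p.2.head?.getD false)) := (pt_headTrue PT.id.snd).not
  exact (PT.all (l := fun a => elims (rows a) (n a)) (g := fun _ r => !(r.head?.getD false))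
    (pt_elims h hn) h1).congr fun a => rfl

theorem pt_rowOf {n : α → ℕ} {L : α → List ℕ} (hn : PT n) (hL : PT L) :
    PT (fun a => rowOf (n a) (L a)) := by
  refine PT.map (g := fun a i => decide ((L a).count i % 2 = 1)) (PT.range hn.succ) ?_
  exact PT.natEq (PT.mod (PT.count (hL.comp PT.id.fst) PT.id.snd) (PT.const 2)) (PT.const 1)

theorem pt_solveEqs {n : α → ℕ} {E : α → List (List ℕ)} (hn : PT n) (hE : PT E) :
    PT (fun a => solveEqs (n a) (E a)) :=
  pt_solvable hn (PT.map (g := fun a L => rowOf (n a) L) hE
    (pt_rowOf (hn.comp PT.id.fst) PT.id.snd))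

end pt

end Pool.Agent.MP_cdcb37.Alg
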