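import Mathlib

/-!
# Separation dimension: definitions
-/

namespace Pool.Agent.MP_cdcb37

/-! ## Official definitions -/

/-- The positions `X` separate the pairs `a, b` and `c, d`. -/
def Sep {V α : Type} [LT α] (X : V → α) (a b c d : V) : Prop :=
  (X a < X c ∧ X a < X d ∧ X b < X c ∧ X b < X d) ∨
    (X c < X a ∧ X c < X b ∧ X d < X a ∧ X d < X b)

/-- A set of linear orders of `Fin n` (given by permutations: `σ v` is the position of `v`) is
pairwise suitable for `G` if any two disjoint edges are separated by one of them. -/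
def PairwiseSuitable {n : ℕ} (G : SimpleGraph (Fin n)) (F : Finset (Equiv.Perm (Fin n))) : Prop :=
  ∀ a b c d, G.Adj a b → G.Adj c d → a ≠ c → a ≠ d → b ≠ c → b ≠ d → ∃ σ ∈ F, Sep σ a b c d

/-- The separation dimension. -/
noncomputable def sepDim {n : ℕ} (G : SimpleGraph (Fin n)) : ℕ :=
  sInf {k | ∃ F : Finset (Equiv.Perm (Fin n)), PairwiseSuitable G F ∧ F.card = k}

/-- The graph on `n = ⌊√|w|⌋` vertices whose adjacency matrix (row by row) is the bit string
`w`: `i` and `j` are adjacent iff `i ≠ j` and bit `n * i + j` or bit `n * j + i` is `1`. -/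
def graphOf (w : List Bool) : SimpleGraph (Fin (Nat.sqrt w.length)) where
  Adj i j := i ≠ j ∧ (w[Nat.sqrt w.length * i.val + j.val]?.getD false = true ∨
    w[Nat.sqrt w.length * j.val + i.val]?.getD false = true)
  symm := ⟨fun _ _ h => ⟨h.1.symm, h.2.symm⟩⟩
  loopless := ⟨fun _ h => h.1 rfl⟩

end Pool.Agent.MP_cdcb37
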