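import Pool.Agent.Lib.MP_cdcb37_lc.Spec

/-!
# Module SOUND: strong placements give solutions of the linear system
-/

namespace Pool.Agent.MP_cdcb37

open Finset

/-- The vertex `q` is below the edge `ab`. -/
def snd_below {V : Type} (X Y : V → ℕ) (a b q : V) : Prop :=
  ((X a < X q ∧ X q < X b) ∨ (X b < X q ∧ X q < X a)) ∧ Y q < Y a ∧ Y q < Y b

open Classical in
/-- Parity of `edge above vertex`. -/
noncomputable def snd_z {V : Type} (X Y : V → ℕ) (e : Sym2 V) (q : V) : ZMod 2 :=
  Sym2.lift ⟨fun a b => if snd_below X Y a b q then (1 : ZMod 2) else 0, by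
    intro a b
    have : snd_below X Y a b q ↔ snd_below X Y b a q := by unfold snd_below; omega
    simp [this]⟩ e

theorem snd_z_mk {V : Type} (X Y : V → ℕ) (a b q : V) [Decidable (snd_below X Y a b q)] :
    snd_z X Y s(a, b) q = if snd_below X Y a b q then (1 : ZMod 2) else 0 := by
  unfold snd_z
  simp only [Sym2.lift_mk]
  congr

theorem snd_z_zero {V : Type} (X Y : V → ℕ) (a b q : V) (h : ¬ snd_below X Y a b q) :
    snd_z X Y s(a, b) q = 0 := by
  classical
  rw [snd_z_mk, if_neg h]

theorem snd_z_left {V : Type} (X Y : V → ℕ) (a b q : V) (h1 : X q ≠ X a) (h2 : X q ≠ X b)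
    (h3 : Y q < Y a) (h4 : Y q < Y b) :
    snd_z X Y s(a, b) q = (if X q < X a then 1 else 0) + (if X q < X b then 1 else 0) := by
  classical
  rw [snd_z_mk]
  unfold snd_below
  split_ifs <;> first | rfl | (exfalso; omega)

theorem snd_z_right {V : Type} (X Y : V → ℕ) (a b q : V) (h1 : X q ≠ X a) (h2 : X q ≠ X b)
    (h3 : Y q < Y a) (h4 : Y q < Y b) :
    snd_z X Y s(a, b) q = (if X a < X q then 1 else 0) + (if X b < X q then 1 else 0) := by
  classical
  rw [snd_z_mk]
  unfold snd_below
  split_ifs <;> first | rfl | (exfalso; omega)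

/-- For an edge `ab` and `q` outside of its box, being above `q` is decided at an end. -/
theorem snd_below_iff {V : Type} (X Y : V → ℕ) (a b q : V) (h : Outside X Y a b q) :
    snd_below X Y a b q ↔ ((X a < X q ∧ X q < X b) ∨ (X b < X q ∧ X q < X a)) ∧ Y q < Y a := by
  unfold snd_below
  unfold Outside at h
  omega

theorem specSound : SpecSound := by
  intro V _ G ⟨X, Y, hX, hY, hp, ho⟩
  classical
  have hXi : ∀ a b, a ≠ b → X a ≠ X b := fun a b h h' => h (hX h')
  refine ⟨fun p q => if X p < X q then 1 else 0, snd_z X Y, ?_, ?_, ?_⟩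
  · intro p q hpq
    have := hXi p q hpq
    show (if X p < X q then (1 : ZMod 2) else 0) + (if X q < X p then (1 : ZMod 2) else 0) = 1
    split_ifs
    · exfalso; omega
    · rfl
    · rfl
    · exfalso; omega
  · intro a b c d hab hcd h1 h2 h3 h4
    have e1 := hXi _ _ h1
    have e2 := hXi _ _ h2
    have e3 := hXi _ _ h3
    have e4 := hXi _ _ h4
    rcases hp a b c d hab hcd h1 h2 h3 h4 with (⟨g1, g2, g3, g4⟩ | ⟨g1, g2, g3, g4⟩) |
      (⟨g1, g2, g3, g4⟩ | ⟨g1, g2, g3, g4⟩)
    · rw [snd_z_zero X Y a b c (by unfold snd_below; omega),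
        snd_z_zero X Y a b d (by unfold snd_below; omega),
        snd_z_zero X Y c d a (by unfold snd_below; omega),
        snd_z_zero X Y c d b (by unfold snd_below; omega)]
      simp only [if_pos g1, if_pos g2, if_pos g3, if_pos g4]
      decide
    · rw [snd_z_zero X Y a b c (by unfold snd_below; omega),
        snd_z_zero X Y a b d (by unfold snd_below; omega),
        snd_z_zero X Y c d a (by unfold snd_below; omega),
        snd_z_zero X Y c d b (by unfold snd_below; omega)]
      simp only [if_neg g1.not_gt, if_neg g2.not_gt, if_neg g3.not_gt, if_neg g4.not_gt]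
    · rw [snd_z_zero X Y a b c (by unfold snd_below; omega),
        snd_z_zero X Y a b d (by unfold snd_below; omega),
        snd_z_left X Y c d a e1 e2 g1 g2, snd_z_left X Y c d b e3 e4 g3 g4]
      ring
    · rw [snd_z_zero X Y c d a (by unfold snd_below; omega),
        snd_z_zero X Y c d b (by unfold snd_below; omega),
        snd_z_right X Y a b c e1.symm e3.symm g1 g2,
        snd_z_right X Y a b d e2.symm e4.symm g3 g4]
      ring
  · intro a b c q hab hbc hac h1 h2 h3
    have o1 := ho a b q hab h1 h2
    have o2 := ho b c q hbc h2 h3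
    have o3 := ho a c q hac h1 h3
    have i1 := snd_below_iff X Y a b q o1
    have i2 := snd_below_iff X Y b c q o2
    have i3 := snd_below_iff X Y a c q o3
    have e1 := hXi _ _ h1
    have e2 := hXi _ _ h2
    have e3 := hXi _ _ h3
    simp only [snd_z_mk]
    unfold Outside at o1 o2 o3
    split_ifs with k1 k2 k3 k4 k5 k6 k7 <;> first | rfl | skip
    all_goals
      exfalso
      simp only [i1, i2, i3, not_and_or, not_or] at *
      omega

end Pool.Agent.MP_cdcb37
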